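import Pool.Agent.Run7.h914.Rgen

/-! From centres of sieved intervals to gaps between consecutive primes. -/

set_option autoImplicit false
set_option linter.all false

namespace Run7.h914

open Finset Filter
open Pool.Agent.W147.PS (ff)

/-- `n` lies strictly between two consecutive primes whose difference is at least `g` -/
def InGap (g : ℝ) (n : ℤ) : Prop :=
  ∃ q q' : ℕ, q.Prime ∧ q'.Prime ∧ (q : ℤ) < n ∧ n < q' ∧ (∀ l : ℕ, q < l → l < q' → ¬ l.Prime) ∧ g ≤ (q' : ℝ) - q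

theorem gap_of {F Y : ℝ} {n : ℤ} (hF : 0 ≤ F) (hY : 1 ≤ Y) (hn : Y + F < n)
    (h : ∀ m : ℤ, |(m : ℝ) - n| ≤ F → ∃ l : ℕ, l.Prime ∧ (l : ℝ) ≤ Y ∧ (l : ℤ) ∣ m) : InGap (2 * F) n := by
  have hn1 : (1 : ℝ) < n := by linarith
  have hn2 : 1 < n := by exact_mod_cast hn1
  obtain ⟨N, rfl⟩ : ∃ N : ℕ, n = N := ⟨n.toNat, by omega⟩
  have hN2 : 2 ≤ N := by omega
  have hno : ∀ l' : ℕ, l'.Prime → ¬ |((l' : ℤ) : ℝ) - ((N : ℤ) : ℝ)| ≤ F := by
    intro l' hl' hd
    obtain ⟨l, hl, hl2, hl3⟩ := h l' hd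
    have h1 : l ∣ l' := by exact_mod_cast hl3
    have h2 : l = l' := (Nat.prime_dvd_prime_iff_eq hl hl').1 h1
    have h3 := (abs_le.1 hd).1
    rw [h2] at hl2
    push_cast at h3 hn
    linarith
  set q := Nat.findGreatest Nat.Prime N with hq
  have hqP : q.Prime := Nat.findGreatest_spec (P := Nat.Prime) hN2 Nat.prime_two
  have hqN : q ≤ N := Nat.findGreatest_le N
  have hex : ∃ l : ℕ, N < l ∧ l.Prime := by
    obtain ⟨l, h1, h2⟩ := Nat.exists_infinite_primes (N + 1)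
    exact ⟨l, by omega, h2⟩
  classical
  set q' := Nat.find hex with hq'
  obtain ⟨h1, h2⟩ := Nat.find_spec hex
  have a1 := hno q hqP
  have a2 := hno q' h2
  have hqR : (q : ℝ) ≤ N := by exact_mod_cast hqN
  have hq'R : (N : ℝ) < q' := by exact_mod_cast h1
  have b1 : F < (N : ℝ) - q := by
    by_contra hc
    push Not at hc
    apply a1
    push_cast
    rw [abs_le]
    constructor <;> linarith
  have b2 : F < (q' : ℝ) - N := by
    by_contra hc
    push Not at hc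
    apply a2
    push_cast
    rw [abs_le]
    constructor <;> linarith
  refine ⟨q, q', hqP, h2, ?_, ?_, ?_, by linarith⟩
  · have : (q : ℝ) < N := by linarith
    exact_mod_cast this
  · exact_mod_cast h1
  · intro l hl1 hl2 hl
    rcases le_or_gt l N with h3 | h3
    · exact absurd (Nat.le_findGreatest (P := Nat.Prime) h3 hl) (by omega)
    · exact Nat.find_min hex hl2 ⟨h3, hl⟩

theorem ff_small (κ δ : ℝ) (hκ : 0 < κ) (hδ : 0 < δ) : ∃ p₀ : ℕ, ∀ p : ℕ, p₀ ≤ p →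
    0 ≤ κ * ff p ∧ κ * ff p ≤ (p : ℝ) ^ δ ∧ 1 ≤ (p : ℝ) ^ δ := by
  have t1 : Tendsto Real.log atTop atTop := Real.tendsto_log_atTop
  have t2 : Tendsto (fun M : ℝ => Real.log (Real.log M)) atTop atTop := t1.comp t1
  have t3 : Tendsto (fun M : ℝ => Real.log (Real.log (Real.log M))) atTop atTop := t1.comp t2
  have t4 : Tendsto (fun M : ℝ => Real.log (Real.log (Real.log (Real.log M)))) atTop atTop := t1.comp t3
  have hlo := (isLittleO_log_rpow_rpow_atTop (4 : ℝ) hδ).bound (show 0 < 1 / κ by positivity)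
  have hev : ∀ᶠ x : ℝ in atTop, 0 ≤ κ * ff x ∧ κ * ff x ≤ x ^ δ ∧ 1 ≤ x ^ δ := by
    filter_upwards [hlo, eventually_ge_atTop 1, t1.eventually_ge_atTop 4, t2.eventually_ge_atTop 4,
      t3.eventually_ge_atTop 4, t4.eventually_ge_atTop 4] with x h0 hx m1 m2 m3 m4
    unfold ff
    set L1 := Real.log x with hL1
    set L2 := Real.log L1 with hL2
    set L3 := Real.log L2 with hL3
    set L4 := Real.log L3 with hL4
    have g2 : L2 ≤ L1 := by
      have := Real.log_le_sub_one_of_pos (show 0 < L1 by linarith)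
      linarith
    have g3 : L3 ≤ L2 := by
      have := Real.log_le_sub_one_of_pos (show 0 < L2 by linarith)
      linarith
    have g4 : L4 ≤ L3 := by
      have := Real.log_le_sub_one_of_pos (show 0 < L3 by linarith)
      linarith
    have h5 : L1 * L2 ^ 2 * L4 / L3 ^ 2 ≤ L1 ^ 4 := by
      have h6 : L1 * L2 ^ 2 * L4 / L3 ^ 2 ≤ L1 * L2 ^ 2 * L4 :=
        div_le_self (by positivity) (one_le_pow₀ (by linarith))
      have h7 : L1 * L2 ^ 2 * L4 ≤ L1 * L1 ^ 2 * L1 := by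
        have h8 : L2 ^ 2 ≤ L1 ^ 2 := pow_le_pow_left₀ (by linarith) g2 2
        have h9 : L4 ≤ L1 := by linarith
        exact mul_le_mul (mul_le_mul_of_nonneg_left h8 (by linarith)) h9 (by linarith) (by positivity)
      calc _ ≤ _ := h6
        _ ≤ _ := h7
        _ = _ := by ring
    have h6 : κ * L1 ^ 4 ≤ x ^ δ := by
      rw [Real.norm_of_nonneg (Real.rpow_nonneg (by linarith) _), Real.norm_of_nonneg (Real.rpow_nonneg (by linarith) _)] at h0
      have h7 : L1 ^ (4 : ℝ) = L1 ^ 4 := by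
        rw [show (4 : ℝ) = ((4 : ℕ) : ℝ) by norm_num, Real.rpow_natCast]
      rw [h7, one_div, inv_mul_eq_div, le_div_iff₀ hκ] at h0
      linarith
    refine ⟨?_, ?_, Real.one_le_rpow hx hδ.le⟩
    · have : 0 ≤ L1 * L2 ^ 2 * L4 / L3 ^ 2 := by positivity
      positivity
    · exact (mul_le_mul_of_nonneg_left h5 hκ.le).trans h6
  obtain ⟨x₀, hx₀⟩ := eventually_atTop.mp hev
  obtain ⟨p₀, hp₀⟩ := exists_nat_ge x₀
  exact ⟨p₀, fun p hp => hx₀ p (hp₀.trans (by exact_mod_cast hp))⟩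

theorem mono_gt {ι : Type*} [Fintype ι] {B : ℝ} (hB : 1 ≤ B) {z : ι → ℤ} (hz : ∀ j, B < z j) {e : ι → ℕ}
    (he : Finset.univ.gcd e = 1) : B < ((∏ j, z j ^ e j : ℤ) : ℝ) := by
  classical
  obtain ⟨j, hj⟩ : ∃ j, e j ≠ 0 := by
    by_contra hc
    push Not at hc
    have : Finset.univ.gcd e = 0 := Finset.gcd_eq_zero_iff.2 fun j _ => hc j
    rw [this] at he
    exact zero_ne_one he
  have h1 : ∀ i, (1 : ℤ) ≤ z i := by
    intro i
    have : (1 : ℝ) < z i := lt_of_le_of_lt hB (hz i)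
    have h2 : (1 : ℤ) < z i := by exact_mod_cast this
    exact h2.le
  rw [← Finset.mul_prod_erase _ _ (mem_univ j)]
  have h2 : (1 : ℤ) ≤ ∏ i ∈ univ.erase j, z i ^ e i := by
    have : ∀ i ∈ univ.erase j, (1 : ℤ) ≤ z i ^ e i := fun i _ => one_le_pow₀ (h1 i)
    calc (1 : ℤ) = ∏ i ∈ univ.erase j, 1 := by rw [Finset.prod_const_one]
      _ ≤ _ := Finset.prod_le_prod (fun _ _ => zero_le_one) this
  have h3 : z j ≤ z j ^ e j := le_self_pow₀ (h1 j) hj
  have h4 : z j ≤ z j ^ e j * ∏ i ∈ univ.erase j, z i ^ e i := by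
    have : 0 ≤ z j ^ e j := le_trans (by linarith [h1 j]) h3
    nlinarith
  exact lt_of_lt_of_le (hz j) (by exact_mod_cast h4)

/-- good points with large coordinates: all coprime monomials are in large prime gaps -/
theorem gaps_of {ι : Type*} [Fintype ι] {κ δ : ℝ} {p : ℕ} (h0 : 0 ≤ κ * ff p) (h1 : κ * ff p ≤ (p : ℝ) ^ δ)
    (h2 : 1 ≤ (p : ℝ) ^ δ) {z : ι → ℤ} (hz : ∀ j, 2 * (p : ℝ) ^ δ < z j) {e : ι → ℕ} (he : Finset.univ.gcd e = 1)
    (h : ∀ m : ℤ, |(m : ℝ) - ((∏ j, z j ^ e j : ℤ) : ℝ)| ≤ κ * ff p → ∃ l : ℕ, l.Prime ∧ (l : ℝ) ≤ (p : ℝ) ^ δ ∧ (l : ℤ) ∣ m) :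
    InGap (κ * ff p) (∏ j, z j ^ e j) := by
  have h3 := mono_gt (B := 2 * (p : ℝ) ^ δ) (by linarith) hz he
  obtain ⟨q, q', a1, a2, a3, a4, a5, a6⟩ := gap_of h0 h2 (by linarith) h
  exact ⟨q, q', a1, a2, a3, a4, a5, by linarith⟩

end Run7.h914
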