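import Mathlib

/-! The number of prime factors. -/

set_option autoImplicit false
set_option linter.all false

open Finset

namespace Run7.h914

theorem fin_count {f k : ℕ} (hf : f ≠ 0) (hk : 1 ≤ k) {L v e : ℝ} (hL : 0 < L) (hv0 : 0 < v) (hv1 : v ≤ 1)
    (h1 : ∑ p ∈ f.primeFactors, (1 - Real.log p / L / v) < 31 / 25)
    (h2 : Real.log f / L ≤ 3 * k / 4 + e) (h3 : (3 * k / 4 + e) / v ≤ 3 * k / 4 + 1 / 200)
    (h4 : ∀ p ∈ f.primeFactors, p ^ 2 ∣ f → 3 / 4 * (1 - e) ≤ Real.log p / L) (he : 0 < e) (hek : k * e ≤ 1 / 200) :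
    f.primeFactors.card ≤ 3 * k / 4 + 1 ∧ ArithmeticFunction.cardFactors f ≤ k := by
  classical
  have hkr : (1 : ℝ) ≤ k := by exact_mod_cast hk
  have he1 : e ≤ 1 / 200 := by nlinarith
  set u : ℕ → ℝ := fun p => Real.log p / L with hu
  set a : ℕ → ℕ := fun p => f.factorization p with ha
  have ha1 : ∀ p ∈ f.primeFactors, 1 ≤ a p := by
    intro p hp
    have := (Nat.prime_of_mem_primeFactors hp).factorization_pos_of_dvd hf (Nat.dvd_of_mem_primeFactors hp)
    exact this
  have hu0 : ∀ p, 0 ≤ u p := fun p => div_nonneg (Real.log_natCast_nonneg p) hL.le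
  have hG : ∑ p ∈ f.primeFactors, (a p : ℝ) * u p = Real.log f / L := by
    rw [Real.log_nat_eq_sum_factorization, Finsupp.sum, Nat.support_factorization, sum_div]
    apply sum_congr rfl
    intro p _
    simp only [hu, ha]
    ring
  have hΩ : ArithmeticFunction.cardFactors f = ∑ p ∈ f.primeFactors, a p := by
    rw [ArithmeticFunction.cardFactors_eq_sum_factorization, Finsupp.sum, Nat.support_factorization]
  have hS1 : ∑ p ∈ f.primeFactors, (1 - u p / v) < 31 / 25 := h1
  set G : ℝ := Real.log f / L with hGdef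
  have hGv : G / v ≤ 3 * k / 4 + 1 / 200 := by
    refine le_trans ?_ h3
    exact div_le_div_of_nonneg_right h2 hv0.le
  constructor
  · have e1 : (f.primeFactors.card : ℝ) = ∑ p ∈ f.primeFactors, (1 - u p / v) + ∑ p ∈ f.primeFactors, u p / v := by
      rw [← sum_add_distrib, card_eq_sum_ones]
      push_cast
      apply sum_congr rfl
      intro p _
      ring
    have e2 : ∑ p ∈ f.primeFactors, u p / v ≤ G / v := by
      rw [← hG, sum_div]
      apply sum_le_sum
      intro p hp
      apply div_le_div_of_nonneg_right _ hv0.le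
      have : (1 : ℝ) ≤ a p := by exact_mod_cast ha1 p hp
      nlinarith [hu0 p]
    have e3 : (f.primeFactors.card : ℝ) < 3 * k / 4 + 5 / 4 := by linarith
    by_contra hc
    push Not at hc
    have e4 : 3 * k / 4 + 2 ≤ f.primeFactors.card := by omega
    have e5 : 3 * k + 5 ≤ 4 * f.primeFactors.card := by omega
    have e6 : (3 * k + 5 : ℝ) ≤ 4 * f.primeFactors.card := by exact_mod_cast e5
    linarith
  · by_contra hc
    push Not at hc
    rw [hΩ] at hc
    have hc' : (k : ℝ) + 1 ≤ ∑ p ∈ f.primeFactors, (a p : ℝ) := by exact_mod_cast hc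
    -- the excess
    set E : ℕ := ∑ p ∈ f.primeFactors, (a p - 1) with hE
    have hE' : (E : ℝ) = ∑ p ∈ f.primeFactors, ((a p : ℝ) - 1) := by
      rw [hE]
      push_cast
      apply sum_congr rfl
      intro p hp
      rw [Nat.cast_sub (ha1 p hp)]
      push_cast; rfl
    have hsq : ∀ p ∈ f.primeFactors, 2 ≤ a p → 3 / 4 * (1 - e) ≤ u p := by
      intro p hp h
      apply h4 p hp
      exact ((Nat.prime_of_mem_primeFactors hp).pow_dvd_iff_le_factorization hf).2 h
    have hterm : ∀ p ∈ f.primeFactors, ((a p : ℝ) - 1) * (3 / 4 * (1 - e)) ≤ ((a p : ℝ) - 1) * u p := by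
      intro p hp
      have h5 : (1 : ℝ) ≤ a p := by exact_mod_cast ha1 p hp
      rcases Nat.lt_or_ge (a p) 2 with h | h
      · have : a p = 1 := by have := ha1 p hp; omega
        rw [this]; simp
      · exact mul_le_mul_of_nonneg_left (hsq p hp h) (by linarith)
    have hEk : E + 1 ≤ k := by
      by_contra hcE
      push Not at hcE
      have hE1 : 1 ≤ E := by omega
      -- there is a repeated prime
      obtain ⟨p₀, hp₀, hp₀2⟩ : ∃ p ∈ f.primeFactors, a p - 1 ≠ 0 := by
        by_contra hno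
        push Not at hno
        have : E = 0 := by rw [hE]; exact sum_eq_zero hno
        omega
      have h5 : ∑ p ∈ f.primeFactors, ((a p : ℝ) - 1) * (3 / 4 * (1 - e)) + 3 / 4 * (1 - e) ≤ G := by
        rw [← hG]
        have h6 : ∑ p ∈ f.primeFactors, (a p : ℝ) * u p = ∑ p ∈ f.primeFactors, ((a p : ℝ) - 1) * u p + ∑ p ∈ f.primeFactors, u p := by
          rw [← sum_add_distrib]
          apply sum_congr rfl
          intro p _
          ring
        rw [h6]
        apply add_le_add (sum_le_sum hterm)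
        refine (hsq p₀ hp₀ (by omega)).trans ?_
        exact single_le_sum (fun p _ => hu0 p) hp₀
      rw [← sum_mul, ← hE'] at h5
      have h7 : (k : ℝ) ≤ E := by exact_mod_cast (by omega : k ≤ E)
      have h8 : (k : ℝ) * (3 / 4 * (1 - e)) ≤ E * (3 / 4 * (1 - e)) := mul_le_mul_of_nonneg_right h7 (by linarith)
      have h9 : (k : ℝ) * (3 / 4 * (1 - e)) = 3 * k / 4 - 3 / 4 * (k * e) := by ring
      linarith
    have hEkr : (E : ℝ) ≤ k - 1 := by
      have : (E : ℝ) + 1 ≤ k := by exact_mod_cast hEk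
      linarith
    -- the sum with multiplicities
    have h5 : ∑ p ∈ f.primeFactors, (a p : ℝ) * (1 - u p / v) = ∑ p ∈ f.primeFactors, (a p : ℝ) - G / v := by
      rw [← hG, sum_div, ← sum_sub_distrib]
      apply sum_congr rfl
      intro p _
      ring
    have h6 : ∑ p ∈ f.primeFactors, (a p : ℝ) * (1 - u p / v) =
        ∑ p ∈ f.primeFactors, (1 - u p / v) + ∑ p ∈ f.primeFactors, ((a p : ℝ) - 1) * (1 - u p / v) := by
      rw [← sum_add_distrib]
      apply sum_congr rfl
      intro p _
      ring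
    have h7 : ∑ p ∈ f.primeFactors, ((a p : ℝ) - 1) * (1 - u p / v) ≤ E * (1 - 3 / 4 * (1 - e)) := by
      rw [hE', sum_mul]
      apply sum_le_sum
      intro p hp
      have h8 := hterm p hp
      have h9 : (1 : ℝ) ≤ a p := by exact_mod_cast ha1 p hp
      have h10 : u p ≤ u p / v := by
        rw [le_div_iff₀ hv0]
        nlinarith [hu0 p]
      have h11 : ((a p : ℝ) - 1) * u p ≤ ((a p : ℝ) - 1) * (u p / v) := mul_le_mul_of_nonneg_left h10 (by linarith)
      nlinarith
    have h8 : (E : ℝ) * (1 - 3 / 4 * (1 - e)) ≤ (k - 1) * (1 - 3 / 4 * (1 - e)) :=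
      mul_le_mul_of_nonneg_right hEkr (by linarith)
    have h9 : ((k : ℝ) - 1) * (1 - 3 / 4 * (1 - e)) = (k - 1) / 4 + 3 / 4 * (k * e) - 3 / 4 * e := by ring
    linarith

end Run7.h914
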