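import Pool.Agent.Run7.h914.Loc

/-! Values divisible by the square of a prime. -/

set_option autoImplicit false
set_option linter.all false

open Finset

namespace Run7.h914

theorem card_cls {N d c : ℕ} (hd : 0 < d) (U : Finset ℕ) (hU : U ⊆ Icc 1 N)
    (hc : (U.image (fun x : ℕ => (x : ZMod d))).card ≤ c) : U.card ≤ (N / d + 1) * c := by
  classical
  refine (card_le_mul_card_image (f := fun x : ℕ => (x : ZMod d)) U (N / d + 1) ?_).trans (Nat.mul_le_mul_left _ hc)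
  intro b hb
  rw [mem_image] at hb
  obtain ⟨a, ha, rfl⟩ := hb
  refine le_trans (card_le_card ?_) (card_class N d a hd)
  intro x hx
  rw [mem_filter] at hx ⊢
  exact ⟨hU hx.1, hx.2.symm⟩

/-- uniqueness of lifts of roots -/
theorem hensel_uniq {p k : ℕ} (hp : p.Prime) (hpk : ¬ p ∣ k) {u v a : ℤ} (hu : (p : ℤ) ^ 2 ∣ u ^ k + a)
    (hv : (p : ℤ) ^ 2 ∣ v ^ k + a) (ha : ¬ (p : ℤ) ∣ a) (huv : (p : ℤ) ∣ u - v) : (p : ℤ) ^ 2 ∣ u - v := by
  have hpi : Prime (p : ℤ) := Nat.prime_iff_prime_int.1 hp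
  have h1 : (∑ i ∈ range k, u ^ i * v ^ (k - 1 - i)) * (u - v) = u ^ k - v ^ k := (Commute.all u v).geom_sum₂_mul k
  have h2 : (p : ℤ) ^ 2 ∣ (∑ i ∈ range k, u ^ i * v ^ (k - 1 - i)) * (u - v) := by
    rw [h1]
    have : u ^ k - v ^ k = (u ^ k + a) - (v ^ k + a) := by ring
    rw [this]
    exact dvd_sub hu hv
  have hpv : ¬ (p : ℤ) ∣ v := by
    intro h
    apply ha
    have hk : k ≠ 0 := by rintro rfl; exact hpk (dvd_zero p)
    have h3 : (p : ℤ) ∣ v ^ k := dvd_pow h hk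
    have h4 : (p : ℤ) ∣ v ^ k + a := (dvd_pow_self _ (by norm_num)).trans hv
    exact (dvd_add_right h3).1 h4
  have h3 : ¬ (p : ℤ) ∣ ∑ i ∈ range k, u ^ i * v ^ (k - 1 - i) := by
    rw [dvd_geom_sum₂_iff_of_dvd_sub huv]
    intro h
    rcases hpi.dvd_or_dvd h with h | h
    · exact hpk (by exact_mod_cast h)
    · exact hpv (hpi.dvd_of_dvd_pow h)
  have h4 : IsCoprime ((p : ℤ) ^ 2) (∑ i ∈ range k, u ^ i * v ^ (k - 1 - i)) := by
    apply IsCoprime.pow_left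
    exact (Prime.coprime_iff_not_dvd hpi).2 h3
  exact h4.dvd_of_dvd_mul_left h2

theorem nth_card {p : ℕ} [Fact p.Prime] (k : ℕ) (b : ZMod p) (V : Finset (ZMod p)) (hk : 0 < k)
    (hV : ∀ z ∈ V, z ^ k = b) : V.card ≤ k := by
  classical
  calc V.card ≤ (Polynomial.nthRoots k b).toFinset.card := by
        apply card_le_card
        intro z hz
        rw [Multiset.mem_toFinset, Polynomial.mem_nthRoots hk]
        exact hV z hz
    _ ≤ Multiset.card (Polynomial.nthRoots k b) := Multiset.toFinset_card_le _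
    _ ≤ k := Polynomial.card_nthRoots k b

theorem R2 {N p k W y a : ℕ} (hp : p.Prime) (hpk : ¬ p ∣ k) (hpW : ¬ p ∣ W) (ha : ¬ p ∣ a) :
    ((Icc 1 N).filter (fun x => p ^ 2 ∣ (W * (y + x)) ^ k + a)).card ≤ (N / p ^ 2 + 1) * k := by
  classical
  haveI : Fact p.Prime := ⟨hp⟩
  haveI : NeZero (p ^ 2) := ⟨pow_ne_zero 2 hp.ne_zero⟩
  have hk : 0 < k := Nat.pos_of_ne_zero (by rintro rfl; exact hpk (dvd_zero p))
  set U := (Icc 1 N).filter (fun x => p ^ 2 ∣ (W * (y + x)) ^ k + a) with hU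
  refine card_cls (pow_pos hp.pos 2) U (filter_subset _ _) ?_
  -- the map to the roots modulo `p`
  have hmem : ∀ x ∈ U, p ^ 2 ∣ (W * (y + x)) ^ k + a := fun x hx => (mem_filter.1 hx).2
  set ψ : ℕ → ZMod p := fun x => ((W * (y + x) : ℕ) : ZMod p) with hψ
  have hψ1 : (U.image ψ).card ≤ k := by
    apply nth_card k (-(a : ZMod p)) _ hk
    intro z hz
    rw [mem_image] at hz
    obtain ⟨x, hx, rfl⟩ := hz
    have h1 : p ∣ (W * (y + x)) ^ k + a := (dvd_pow_self p (by norm_num)).trans (hmem x hx)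
    rw [← ZMod.natCast_eq_zero_iff] at h1
    push_cast at h1
    simp only [hψ]
    push_cast
    exact eq_neg_of_add_eq_zero_left h1
  have hinj : ∀ x ∈ U, ∀ x' ∈ U, ψ x = ψ x' → (x : ZMod (p ^ 2)) = (x' : ZMod (p ^ 2)) := by
    intro x hx x' hx' h
    simp only [hψ] at h
    have h1 : (p : ℤ) ∣ ((W * (y + x) : ℕ) : ℤ) - ((W * (y + x') : ℕ) : ℤ) := by
      rw [← ZMod.intCast_zmod_eq_zero_iff_dvd]
      push_cast at h ⊢
      rw [h, sub_self]
    have h2 : (p : ℤ) ^ 2 ∣ ((W * (y + x) : ℕ) : ℤ) ^ k + a := by exact_mod_cast hmem x hx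
    have h3 : (p : ℤ) ^ 2 ∣ ((W * (y + x') : ℕ) : ℤ) ^ k + a := by exact_mod_cast hmem x' hx'
    have h4 := hensel_uniq hp hpk h2 h3 (by exact_mod_cast ha) h1
    have h5 : ((W * (y + x) : ℕ) : ℤ) - ((W * (y + x') : ℕ) : ℤ) = (W : ℤ) * ((x : ℤ) - x') := by
      push_cast; ring
    rw [h5] at h4
    have h6 : IsCoprime ((p : ℤ) ^ 2) (W : ℤ) := by
      apply IsCoprime.pow_left
      rw [Nat.isCoprime_iff_coprime]
      exact (Nat.Prime.coprime_iff_not_dvd hp).2 hpW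
    have h7 := h6.dvd_of_dvd_mul_left h4
    have h8 : ((p ^ 2 : ℕ) : ℤ) ∣ (x : ℤ) - x' := by push_cast; exact h7
    rw [← ZMod.intCast_zmod_eq_zero_iff_dvd] at h8
    push_cast at h8
    exact sub_eq_zero.1 h8
  refine le_trans ?_ hψ1
  -- choose preimages
  have h9 : ∀ z ∈ U.image (fun x : ℕ => (x : ZMod (p ^ 2))), ∃ x ∈ U, (x : ZMod (p ^ 2)) = z := by
    intro z hz
    rw [mem_image] at hz
    exact hz
  choose! φ hφ using h9
  refine card_le_card_of_injOn (fun z => ψ (φ z)) ?_ ?_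
  · intro z hz
    exact mem_image_of_mem ψ (hφ z hz).1
  · intro z hz z' hz' h
    rw [← (hφ z hz).2, ← (hφ z' hz').2]
    exact hinj _ (hφ z hz).1 _ (hφ z' hz').1 h

theorem R3 {N p k W y : ℕ} (hp : p.Prime) (hk : 0 < k) (hpW : ¬ p ∣ W) :
    ((Icc 1 N).filter (fun x => p ∣ (W * (y + x)) ^ k + 1)).card ≤ (N / p + 1) * k := by
  classical
  haveI : Fact p.Prime := ⟨hp⟩
  set U := (Icc 1 N).filter (fun x => p ∣ (W * (y + x)) ^ k + 1) with hU
  refine card_cls hp.pos U (filter_subset _ _) ?_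
  have hmem : ∀ x ∈ U, p ∣ (W * (y + x)) ^ k + 1 := fun x hx => (mem_filter.1 hx).2
  have hW0 : (W : ZMod p) ≠ 0 := by rw [Ne, ZMod.natCast_eq_zero_iff]; exact hpW
  set V := (U.image (fun x : ℕ => (x : ZMod p))).image (fun z => (W : ZMod p) * (y + z)) with hV
  have h1 : V.card = (U.image (fun x : ℕ => (x : ZMod p))).card := by
    apply card_image_of_injective
    intro z z' h
    simp only at h
    have := mul_left_cancel₀ hW0 h
    exact add_left_cancel this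
  rw [← h1]
  apply nth_card k (-1) _ hk
  intro z hz
  rw [hV, mem_image] at hz
  obtain ⟨w, hw, rfl⟩ := hz
  rw [mem_image] at hw
  obtain ⟨x, hx, rfl⟩ := hw
  have h2 := hmem x hx
  rw [← ZMod.natCast_eq_zero_iff] at h2
  push_cast at h2
  exact eq_neg_of_add_eq_zero_left h2

theorem R4 {N p k W y : ℕ} (hp : p.Prime) (hpW : ¬ p ∣ W) :
    ((Icc 1 N).filter (fun x => p ∣ (W * (y + x)) ^ k)).card ≤ N / p + 1 := by
  classical
  haveI : Fact p.Prime := ⟨hp⟩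
  have h := card_cls (c := 1) (N := N) hp.pos ((Icc 1 N).filter (fun x => p ∣ (W * (y + x)) ^ k)) (filter_subset _ _) ?_
  · rwa [mul_one] at h
  rw [card_le_one]
  have key : ∀ x, p ∣ (W * (y + x)) ^ k → (x : ZMod p) = -(y : ZMod p) := by
    intro x hx
    have h1 := hp.dvd_of_dvd_pow hx
    have h2 := (hp.dvd_mul.1 h1).resolve_left hpW
    rw [← ZMod.natCast_eq_zero_iff] at h2
    push_cast at h2
    exact eq_neg_of_add_eq_zero_right h2
  intro a ha b hb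
  rw [mem_image] at ha hb
  obtain ⟨x, hx, rfl⟩ := ha
  obtain ⟨x', hx', rfl⟩ := hb
  rw [key x (mem_filter.1 hx).2, key x' (mem_filter.1 hx').2]

/-- counting in products -/
theorem card_fil_prod {α β : Type} (A : Finset α) (B : Finset β) (P : α × β → Prop) [DecidablePred P] (c : ℕ)
    (h : ∀ a ∈ A, (B.filter (fun b => P (a, b))).card ≤ c) : ((A ×ˢ B).filter P).card ≤ A.card * c := by
  classical
  have h1 : (A ×ˢ B).filter P = A.biUnion fun a => (B.filter (fun b => P (a, b))).image (fun b => (a, b)) := by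
    ext ⟨a, b⟩
    simp only [mem_filter, mem_product, mem_biUnion, mem_image, Prod.mk.injEq]
    constructor
    · rintro ⟨⟨h1, h2⟩, h3⟩
      exact ⟨a, h1, b, ⟨h2, h3⟩, rfl, rfl⟩
    · rintro ⟨a', h1, b', ⟨h2, h3⟩, rfl, rfl⟩
      exact ⟨⟨h1, h2⟩, h3⟩
  rw [h1]
  refine card_biUnion_le.trans ?_
  rw [← smul_eq_mul, ← sum_const]
  exact sum_le_sum fun a ha => card_image_le.trans (h a ha)

/-- the values divisible by `p ^ 2` -/
theorem sq_one {N p k W : ℕ} (hp : p.Prime) (hk : 0 < k) (hpk : ¬ p ∣ k) (hpW : ¬ p ∣ W) :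
    ((Q4 N).filter (fun s => p ^ 2 ∣ FV W k s)).card ≤
      N ^ 3 * ((N / p ^ 2 + 1) * k) + N ^ 2 * ((N / p + 1) * k * (N / p + 1)) := by
  classical
  have hI : (Icc 1 N).card = N := by simp
  have hsub : (Q4 N).filter (fun s => p ^ 2 ∣ FV W k s) ⊆
      ((Icc 1 N ×ˢ Icc 1 N) ×ˢ (Icc 1 N ×ˢ Icc 1 N)).filter (fun s => ¬ p ∣ (W * (s.1.1 + s.1.2)) ^ k + 1 ∧
        p ^ 2 ∣ (W * (s.2.1 + s.2.2)) ^ k + ((W * (s.1.1 + s.1.2)) ^ k + 1)) ∪
      ((Icc 1 N ×ˢ Icc 1 N).filter (fun a => p ∣ (W * (a.1 + a.2)) ^ k + 1)) ×ˢ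
        ((Icc 1 N ×ˢ Icc 1 N).filter (fun a => p ∣ (W * (a.1 + a.2)) ^ k)) := by
    intro s hs
    rw [mem_filter] at hs
    obtain ⟨hs1, hs2⟩ := hs
    unfold Q4 at hs1
    unfold FV at hs2
    have hs3 : p ^ 2 ∣ (W * (s.2.1 + s.2.2)) ^ k + ((W * (s.1.1 + s.1.2)) ^ k + 1) := by
      convert hs2 using 1; ring
    rw [mem_union, mem_filter]
    by_cases h : p ∣ (W * (s.1.1 + s.1.2)) ^ k + 1
    · right
      have hs1' := mem_product.1 hs1
      rw [mem_product, mem_filter, mem_filter]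
      refine ⟨⟨hs1'.1, h⟩, ⟨hs1'.2, ?_⟩⟩
      exact (Nat.dvd_add_left h).1 ((dvd_pow_self p (by norm_num)).trans hs3)
    · left
      exact ⟨hs1, h, hs3⟩
  refine (card_le_card hsub).trans ((card_union_le _ _).trans ?_)
  apply Nat.add_le_add
  · refine (card_fil_prod _ _ _ (N * ((N / p ^ 2 + 1) * k)) ?_).trans ?_
    · intro a _
      by_cases h : p ∣ (W * (a.1 + a.2)) ^ k + 1
      · rw [filter_false_of_mem]
        · simp
        · intro b _ hb
          exact hb.1 h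
      · refine (card_fil_prod _ _ _ ((N / p ^ 2 + 1) * k) ?_).trans (by rw [hI])
        intro y _
        refine le_trans (card_le_card ?_) (R2 (N := N) (y := y) (a := (W * (a.1 + a.2)) ^ k + 1) hp hpk hpW h)
        intro x hx
        rw [mem_filter] at hx ⊢
        exact ⟨hx.1, hx.2.2⟩
    · rw [card_product, hI]
      apply le_of_eq
      ring
  · rw [card_product]
    have h1 : ((Icc 1 N ×ˢ Icc 1 N).filter (fun a => p ∣ (W * (a.1 + a.2)) ^ k + 1)).card ≤ N * ((N / p + 1) * k) := by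
      refine (card_fil_prod _ _ _ ((N / p + 1) * k) ?_).trans (by rw [hI])
      intro y _
      exact R3 hp hk hpW
    have h2 : ((Icc 1 N ×ˢ Icc 1 N).filter (fun a => p ∣ (W * (a.1 + a.2)) ^ k)).card ≤ N * (N / p + 1) := by
      refine (card_fil_prod _ _ _ (N / p + 1) ?_).trans (by rw [hI])
      intro y _
      exact R4 hp hpW
    refine (Nat.mul_le_mul h1 h2).trans (le_of_eq ?_)
    ring

open Classical in
/-- the values divisible by the square of a prime in `[z, z']` -/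
theorem sq_all {N k w z z' : ℕ} (hk : 0 < k) (hkw : k ≤ w) (hwz : w < z) (hzN : z' ≤ N) :
    (((Q4 N).filter (fun s => ∃ p : ℕ, p.Prime ∧ z ≤ p ∧ p ≤ z' ∧ p ^ 2 ∣ FV w.factorial k s)).card : ℝ) ≤
      10 * k * (N : ℝ) ^ 4 / z + k * (N : ℝ) ^ 3 * z' := by
  set PP : Finset ℕ := (Icc z z').filter Nat.Prime with hPP
  have hsub : (Q4 N).filter (fun s => ∃ p : ℕ, p.Prime ∧ z ≤ p ∧ p ≤ z' ∧ p ^ 2 ∣ FV w.factorial k s) ⊆
      PP.biUnion fun p => (Q4 N).filter (fun s => p ^ 2 ∣ FV w.factorial k s) := by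
    intro s hs
    rw [mem_filter] at hs
    obtain ⟨hs1, p, hp, h1, h2, h3⟩ := hs
    rw [mem_biUnion]
    exact ⟨p, by rw [hPP, mem_filter, mem_Icc]; exact ⟨⟨h1, h2⟩, hp⟩, mem_filter.2 ⟨hs1, h3⟩⟩
  have h1 : (((Q4 N).filter (fun s => ∃ p : ℕ, p.Prime ∧ z ≤ p ∧ p ≤ z' ∧ p ^ 2 ∣ FV w.factorial k s)).card : ℝ) ≤
      ∑ p ∈ PP, (((Q4 N).filter (fun s => p ^ 2 ∣ FV w.factorial k s)).card : ℝ) := by
    exact_mod_cast (card_le_card hsub).trans card_biUnion_le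
  refine h1.trans ?_
  have hN0 : (0 : ℝ) ≤ N := Nat.cast_nonneg N
  have h2 : ∀ p ∈ PP, (((Q4 N).filter (fun s => p ^ 2 ∣ FV w.factorial k s)).card : ℝ) ≤
      5 * k * (N : ℝ) ^ 4 * ((p : ℝ) ^ 2)⁻¹ + k * (N : ℝ) ^ 3 := by
    intro p hp
    rw [hPP, mem_filter, mem_Icc] at hp
    obtain ⟨⟨h3, h4⟩, hpp⟩ := hp
    have hpk : ¬ p ∣ k := fun h => by
      have := Nat.le_of_dvd hk h
      omega
    have hpW : ¬ p ∣ w.factorial := by
      rw [hpp.dvd_factorial]; omega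
    have h5 := sq_one (N := N) hpp hk hpk hpW
    have h5' : (((Q4 N).filter (fun s => p ^ 2 ∣ FV w.factorial k s)).card : ℝ) ≤
        (N : ℝ) ^ 3 * ((((N / p ^ 2 : ℕ) : ℝ) + 1) * k) + (N : ℝ) ^ 2 * ((((N / p : ℕ) : ℝ) + 1) * k * (((N / p : ℕ) : ℝ) + 1)) := by
      exact_mod_cast h5
    have hp0 : (0 : ℝ) < p := by exact_mod_cast hpp.pos
    have h6 : ((N / p ^ 2 : ℕ) : ℝ) ≤ N / (p : ℝ) ^ 2 := by
      refine Nat.cast_div_le.trans (le_of_eq ?_)
      push_cast; rfl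
    have h7 : ((N / p : ℕ) : ℝ) + 1 ≤ 2 * (N / (p : ℝ)) := by
      have h8 : ((N / p : ℕ) : ℝ) ≤ N / (p : ℝ) := Nat.cast_div_le
      have h9 : (1 : ℝ) ≤ N / (p : ℝ) := by
        rw [one_le_div hp0]
        exact_mod_cast h4.trans hzN
      linarith
    have h8 : (0 : ℝ) ≤ ((N / p : ℕ) : ℝ) + 1 := by positivity
    have hk0 : (0 : ℝ) ≤ k := Nat.cast_nonneg k
    calc _ ≤ (N : ℝ) ^ 3 * ((((N / p ^ 2 : ℕ) : ℝ) + 1) * k) + (N : ℝ) ^ 2 * ((((N / p : ℕ) : ℝ) + 1) * k * (((N / p : ℕ) : ℝ) + 1)) := h5'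
      _ ≤ (N : ℝ) ^ 3 * ((N / (p : ℝ) ^ 2 + 1) * k) + (N : ℝ) ^ 2 * ((2 * (N / (p : ℝ))) * k * (2 * (N / (p : ℝ)))) := by
          gcongr
      _ = 5 * k * (N : ℝ) ^ 4 * ((p : ℝ) ^ 2)⁻¹ + k * (N : ℝ) ^ 3 := by
          field_simp
          ring
  refine (sum_le_sum h2).trans ?_
  rw [sum_add_distrib, ← mul_sum, sum_const, nsmul_eq_mul]
  have hz1 : 1 ≤ z := by omega
  have h3 : ∑ p ∈ PP, ((p : ℝ) ^ 2)⁻¹ ≤ 2 / z := by
    have h4 : ∑ p ∈ PP, ((p : ℝ) ^ 2)⁻¹ ≤ ∑ p ∈ Ioo (z - 1) (z' + 1), ((p : ℝ) ^ 2)⁻¹ := by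
      apply sum_le_sum_of_subset_of_nonneg
      · intro p hp
        rw [hPP, mem_filter, mem_Icc] at hp
        rw [mem_Ioo]
        omega
      · intro p _ _
        positivity
    refine h4.trans ((sum_Ioo_inv_sq_le (z - 1) (z' + 1)).trans (le_of_eq ?_))
    congr 1
    rw [Nat.cast_sub hz1]
    push_cast
    ring
  have h4 : (PP.card : ℝ) ≤ z' := by
    have : PP.card ≤ z' := by
      calc PP.card ≤ (Icc 1 z').card := by
            apply card_le_card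
            intro p hp
            rw [hPP, mem_filter, mem_Icc] at hp
            rw [mem_Icc]
            exact ⟨hp.2.pos, hp.1.2⟩
        _ = z' := by simp
    exact_mod_cast this
  have h5 : 5 * k * (N : ℝ) ^ 4 * ∑ p ∈ PP, ((p : ℝ) ^ 2)⁻¹ ≤ 5 * k * (N : ℝ) ^ 4 * (2 / z) :=
    mul_le_mul_of_nonneg_left h3 (by positivity)
  have h6 : (PP.card : ℝ) * (k * (N : ℝ) ^ 3) ≤ z' * (k * (N : ℝ) ^ 3) := mul_le_mul_of_nonneg_right h4 (by positivity)
  calc _ ≤ 5 * k * (N : ℝ) ^ 4 * (2 / z) + z' * (k * (N : ℝ) ^ 3) := add_le_add h5 h6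
    _ = _ := by ring

end Run7.h914
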