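import Pool.Agent.Run7.h914.Ra
import Pool.Agent.Run7.h914.Sq
import Pool.Agent.Run7.h914.Fin

/-! Almost primes of the form `n ^ k + m ^ k + 1`. -/

set_option autoImplicit false
set_option linter.all false

open Finset Filter

namespace Run7.h914

open Pool.Agent.W23.DC

/-- the properties of the values -/
def PK (k X : ℕ) (x : ℕ × ℕ) : Prop :=
  (∀ p : ℕ, p.Prime → p ∣ x.1 ^ k + x.2 ^ k + 1 → (X : ℝ) ^ (1 / 4 : ℝ) ≤ p) ∧
    (x.1 ^ k + x.2 ^ k + 1).primeFactors.card ≤ 3 * k / 4 + 1 ∧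
    ArithmeticFunction.cardFactors (x.1 ^ k + x.2 ^ k + 1) ≤ k

/-- a good value -/
theorem good_value {k w N X Y : ℕ} (hk : 2 ≤ k) {e δ v : ℝ} (he : e = 1 / (1000 * k)) (hδ : δ = e / k) (hv : v = 1 - e)
    (hN : 2 ≤ N) (hYdef : Y = ⌊(N : ℝ) ^ (4 / 3 - δ)⌋₊) (hNY : N ≤ Y) (hY3 : 3 ≤ Y)
    (hE3 : Real.log 3 + k * Real.log (2 * w.factorial) + k * Real.log 2 ≤ e / 3 * Real.log N)
    (hE5 : 1 / 4 * Real.log (4 * w.factorial) + 1 / 5 * Real.log 2 ≤ 1 / 100 * Real.log N)
    (hXN : X ≤ 4 * w.factorial * N) (hX1 : 1 ≤ X)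
    {s : (ℕ × ℕ) × (ℕ × ℕ)} (hs : s ∈ Q4 N)
    (h1 : ∀ p : ℕ, p.Prime → p ∣ FV w.factorial k s → (Y : ℝ) ^ (1 / 5 : ℝ) ≤ p)
    (h2 : ∑ p ∈ (pr Y (1 / 5) v).filter (fun p => p ∣ FV w.factorial k s), (1 - tt Y p / v) < 31 / 25)
    (h3 : ∀ p : ℕ, p.Prime → p ^ 2 ∣ FV w.factorial k s → (N : ℝ) ^ (1 - e) ≤ p) :
    PK k X (w.factorial * (s.1.1 + s.1.2), w.factorial * (s.2.1 + s.2.2)) := by
  have hkr : (2 : ℝ) ≤ k := by exact_mod_cast hk
  have hk0 : (0 : ℝ) < k := by linarith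
  have he0 : 0 < e := by rw [he]; positivity
  have hek : k * e = 1 / 1000 := by rw [he]; field_simp
  have he1 : e ≤ 1 / 2000 := by nlinarith
  have hδ0 : 0 < δ := by rw [hδ]; positivity
  have hδk : δ * k = e := by rw [hδ]; field_simp
  have hδ1 : δ ≤ 1 / 4000 := by nlinarith
  have hNr : (2 : ℝ) ≤ N := by exact_mod_cast hN
  have hN0 : (0 : ℝ) < N := by linarith
  have hYr : (3 : ℝ) ≤ Y := by exact_mod_cast hY3
  have hY0 : (0 : ℝ) < Y := by linarith
  have hlN : 0 < Real.log N := Real.log_pos (by linarith)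
  have hlY : 0 < Real.log Y := Real.log_pos (by linarith)
  have hYN : (Y : ℝ) ≤ (N : ℝ) ^ (4 / 3 - δ) := by rw [hYdef]; exact Nat.floor_le (by positivity)
  have hYN2 : (N : ℝ) ^ (4 / 3 - δ) ≤ 2 * Y := by
    have := Nat.lt_floor_add_one ((N : ℝ) ^ (4 / 3 - δ))
    rw [← hYdef] at this
    linarith
  have hlogY1 : Real.log Y ≤ (4 / 3 - δ) * Real.log N := by
    have := Real.log_le_log hY0 hYN
    rwa [Real.log_rpow hN0] at this
  have hlogY2 : (4 / 3 - δ) * Real.log N ≤ Real.log 2 + Real.log Y := by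
    have := Real.log_le_log (by positivity) hYN2
    rwa [Real.log_rpow hN0, Real.log_mul (by norm_num) hY0.ne'] at this
  have hlog2 : 0 < Real.log 2 := Real.log_pos (by norm_num)
  set W : ℕ := w.factorial with hW
  have hW1 : (1 : ℝ) ≤ W := by exact_mod_cast w.factorial_pos
  set f : ℕ := FV W k s with hf
  have hf0 : f ≠ 0 := by rw [hf]; unfold FV; omega
  have hfX : (W * (s.1.1 + s.1.2)) ^ k + (W * (s.2.1 + s.2.2)) ^ k + 1 = f := rfl
  -- the size of f
  have hfle : (f : ℝ) ≤ 3 * (2 * W * N) ^ k := by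
    unfold Q4 at hs
    rw [mem_product, mem_product, mem_product, mem_Icc, mem_Icc, mem_Icc, mem_Icc] at hs
    obtain ⟨⟨a1, a2⟩, ⟨a3, a4⟩⟩ := hs
    have b1 : (W * (s.1.1 + s.1.2)) ^ k ≤ (2 * W * N) ^ k := by
      apply Nat.pow_le_pow_left
      calc W * (s.1.1 + s.1.2) ≤ W * (N + N) := Nat.mul_le_mul_left _ (by omega)
        _ = 2 * W * N := by ring
    have b2 : (W * (s.2.1 + s.2.2)) ^ k ≤ (2 * W * N) ^ k := by
      apply Nat.pow_le_pow_left
      calc W * (s.2.1 + s.2.2) ≤ W * (N + N) := Nat.mul_le_mul_left _ (by omega)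
        _ = 2 * W * N := by ring
    have b3 : 1 ≤ (2 * W * N) ^ k := Nat.one_le_pow _ _ (by
      have := w.factorial_pos
      positivity)
    have b4 : f ≤ 3 * (2 * W * N) ^ k := by rw [← hfX]; omega
    exact_mod_cast b4
  have hlogf : Real.log f ≤ Real.log 3 + k * Real.log (2 * W) + k * Real.log N := by
    have hfpos : (0 : ℝ) < f := by exact_mod_cast Nat.pos_of_ne_zero hf0
    refine (Real.log_le_log hfpos hfle).trans (le_of_eq ?_)
    rw [Real.log_mul (by norm_num) (by positivity), Real.log_pow, Real.log_mul (by positivity) (by positivity)]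
    ring
  have hlogf2 : Real.log f / Real.log Y ≤ 3 * k / 4 + e := by
    rw [div_le_iff₀ hlY]
    refine hlogf.trans ?_
    have c1 : (3 * k / 4 + e) * ((4 / 3 - δ) * Real.log N - Real.log 2) ≤ (3 * k / 4 + e) * Real.log Y :=
      mul_le_mul_of_nonneg_left (by linarith) (by positivity)
    refine le_trans ?_ c1
    have c2 : (3 * k / 4 + e) * ((4 / 3 - δ) * Real.log N - Real.log 2) =
        (k + 4 / 3 * e - δ * (3 * k / 4 + e)) * Real.log N - (3 * k / 4 + e) * Real.log 2 := by ring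
    have c3 : k + 1 / 3 * e ≤ k + 4 / 3 * e - δ * (3 * k / 4 + e) := by
      have : δ * (3 * k / 4 + e) ≤ δ * k := mul_le_mul_of_nonneg_left (by linarith) hδ0.le
      linarith
    have c4 := mul_le_mul_of_nonneg_right c3 hlN.le
    have c5 : (3 * k / 4 + e) * Real.log 2 ≤ k * Real.log 2 := mul_le_mul_of_nonneg_right (by linarith) hlog2.le
    rw [c2]
    have c6 : (k + 1 / 3 * e) * Real.log N = k * Real.log N + e / 3 * Real.log N := by ring
    linarith
  have hv0 : 0 < v := by rw [hv]; linarith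
  have hv1 : v ≤ 1 := by rw [hv]; linarith
  have hfin := fin_count (f := f) (k := k) hf0 (by omega) hlY hv0 hv1 (e := e) (by
      -- the sum over all prime factors
      refine lt_of_le_of_lt ?_ h2
      have d1 : (pr Y (1 / 5) v).filter (fun p => p ∣ f) ⊆ f.primeFactors := by
        intro p hp
        rw [mem_filter, mem_pr] at hp
        rw [Nat.mem_primeFactors]
        exact ⟨hp.1.2.1, hp.2, hf0⟩
      rw [← sum_sdiff d1]
      have d2 : ∑ p ∈ f.primeFactors \ (pr Y (1 / 5) v).filter (fun p => p ∣ f), (1 - Real.log p / Real.log Y / v) ≤ 0 := by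
        apply sum_nonpos
        intro p hp
        rw [Finset.mem_sdiff, Nat.mem_primeFactors] at hp
        obtain ⟨⟨d3, d4, -⟩, d5⟩ := hp
        have d6 : v ≤ tt Y p := by
          by_contra hlt
          push Not at hlt
          apply d5
          rw [mem_filter, mem_pr]
          have hp0 : (0 : ℝ) < p := by exact_mod_cast d3.pos
          have d7 := h1 p d3 d4
          refine ⟨⟨⟨d3.pos, ?_⟩, d3, ?_, hlt⟩, d4⟩
          · unfold tt at hlt
            rw [div_lt_iff₀ hlY] at hlt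
            have : Real.log p ≤ Real.log Y := by nlinarith
            rw [Real.log_le_log_iff hp0 hY0] at this
            exact_mod_cast this
          · unfold tt
            rw [le_div_iff₀ hlY, ← Real.log_rpow hY0]
            exact Real.log_le_log (by positivity) d7
        have d8 : 1 ≤ Real.log p / Real.log Y / v := by
          rw [le_div_iff₀ hv0, one_mul]
          exact d6
        linarith
      have d3 : ∑ p ∈ (pr Y (1 / 5) v).filter (fun p => p ∣ f), (1 - Real.log p / Real.log Y / v) =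
          ∑ p ∈ (pr Y (1 / 5) v).filter (fun p => p ∣ f), (1 - tt Y p / v) := rfl
      linarith) hlogf2 (by
      rw [div_le_iff₀ hv0, hv]
      nlinarith) (by
      intro p hp hp2
      have d1 := h3 p (Nat.prime_of_mem_primeFactors hp) hp2
      have d2 : (1 - e) * Real.log N ≤ Real.log p := by
        rw [← Real.log_rpow hN0]
        exact Real.log_le_log (by positivity) d1
      rw [le_div_iff₀ hlY]
      have d3 : Real.log Y ≤ 4 / 3 * Real.log N := by nlinarith
      have d4 : 3 / 4 * (1 - e) * Real.log Y ≤ 3 / 4 * (1 - e) * (4 / 3 * Real.log N) :=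
        mul_le_mul_of_nonneg_left d3 (by linarith)
      linarith) he0 (by rw [hek]; norm_num)
  unfold PK
  refine ⟨?_, hfin.1, hfin.2⟩
  intro p hp hpf
  refine le_trans ?_ (h1 p hp hpf)
  have hX0 : (0 : ℝ) < X := by exact_mod_cast hX1
  rw [← Real.log_le_log_iff (by positivity) (by positivity), Real.log_rpow hX0, Real.log_rpow hY0]
  have d1 : Real.log X ≤ Real.log (4 * W) + Real.log N := by
    rw [← Real.log_mul (by positivity) hN0.ne']
    apply Real.log_le_log hX0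
    exact_mod_cast hXN
  have d2 : δ * Real.log N ≤ 1 / 4000 * Real.log N := mul_le_mul_of_nonneg_right hδ1 hlN.le
  have d3 : (4 / 3 - δ) * Real.log N = 4 / 3 * Real.log N - δ * Real.log N := by ring
  linarith

/-- the fibres -/
theorem fibre_card (N W : ℕ) (hW : 0 < W) (S : Finset ((ℕ × ℕ) × (ℕ × ℕ))) (hS : S ⊆ Q4 N) (x : ℕ × ℕ) :
    (S.filter (fun s => (W * (s.1.1 + s.1.2), W * (s.2.1 + s.2.2)) = x)).card ≤ N ^ 2 := by
  classical
  calc (S.filter (fun s => (W * (s.1.1 + s.1.2), W * (s.2.1 + s.2.2)) = x)).card ≤ (Icc 1 N ×ˢ Icc 1 N).card := by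
        apply card_le_card_of_injOn (fun s => (s.1.1, s.2.1))
        · intro s hs
          rw [mem_coe, mem_filter] at hs
          have := hS hs.1
          unfold Q4 at this
          rw [mem_product, mem_product, mem_product] at this
          rw [mem_coe, mem_product]
          exact ⟨this.1.1, this.2.1⟩
        · intro s hs s' hs' h
          rw [mem_coe, mem_filter] at hs hs'
          simp only [Prod.mk.injEq] at h
          have h1 := hs.2.trans hs'.2.symm
          simp only [Prod.mk.injEq] at h1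
          have h2 := Nat.eq_of_mul_eq_mul_left hW h1.1
          have h3 := Nat.eq_of_mul_eq_mul_left hW h1.2
          obtain ⟨⟨a, b⟩, ⟨c, d⟩⟩ := s
          obtain ⟨⟨a', b'⟩, ⟨c', d'⟩⟩ := s'
          simp only at h h2 h3
          simp only [Prod.mk.injEq]
          omega
    _ = N ^ 2 := by rw [card_product]; simp; ring

open Classical in
/-- the main theorem for `X` about `2 W N` -/
theorem mainN {k : ℕ} (hk : 2 ≤ k) : ∃ W : ℕ, 0 < W ∧ ∃ c : ℝ, 0 < c ∧ ∃ N0 : ℕ, ∀ N : ℕ, N0 ≤ N → ∀ X : ℕ,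
    2 * W * N ≤ X → X ≤ 4 * W * N →
    c * (N : ℝ) ^ 2 / Real.log N ≤ (((Icc 1 X ×ˢ Icc 1 X).filter (PK k X)).card : ℝ) := by
  obtain ⟨C, HC⟩ := wsieve
  have hkr : (2 : ℝ) ≤ k := by exact_mod_cast hk
  have hk0 : (0 : ℝ) < k := by linarith
  set w : ℕ := max (k * k) (max ⌈4 * MC k⌉₊ (C * (⌈MC k⌉₊ + 2))) with hw
  have hw1 : k * k ≤ w := le_max_left _ _
  have hw2 : 4 * MC k ≤ w := by
    refine (Nat.le_ceil _).trans ?_
    exact_mod_cast (le_max_left _ _).trans (le_max_right _ _)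
  have hw3 : C * (⌈MC k⌉₊ + 2) ≤ w := (le_max_right _ _).trans (le_max_right _ _)
  have hkw : k ≤ w := by nlinarith
  set e : ℝ := 1 / (1000 * k) with he
  set δ : ℝ := e / k with hδ
  set v : ℝ := 1 - e with hv
  have he0 : 0 < e := by rw [he]; positivity
  have hek : k * e = 1 / 1000 := by rw [he]; field_simp
  have he1 : e ≤ 1 / 2000 := by nlinarith
  have hδ0 : 0 < δ := by rw [hδ]; positivity
  have hδk : δ * k = e := by rw [hδ]; field_simp
  have hδ1 : δ ≤ 1 / 4000 := by nlinarith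
  obtain ⟨c, hc, Y0, HS⟩ := HC (gF k) (MC k) w (gF_GD hk hw1 hw2) hw3 (δ / 4) v (by linarith) (by linarith) (by linarith)
  obtain ⟨N1, HR⟩ := RS_bound hk hw1 (ρ := δ / 2) (by linarith) (by linarith)
  have hWpos := w.factorial_pos
  refine ⟨w.factorial, hWpos, c / 4, by positivity, ?_⟩
  have ev1 : ∀ᶠ N : ℕ in atTop, (2 : ℝ) ≤ (N : ℝ) ^ (1 / 3 - δ) :=
    tendsto_natCast_atTop_atTop.eventually ((tendsto_rpow_atTop (by linarith)).eventually_ge_atTop _)
  have ev2 : ∀ᶠ N : ℕ in atTop, (w : ℝ) + 1 ≤ (N : ℝ) ^ (1 / 5 : ℝ) :=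
    tendsto_natCast_atTop_atTop.eventually ((tendsto_rpow_atTop (by norm_num)).eventually_ge_atTop _)
  have ev3 : ∀ᶠ N : ℕ in atTop, (Real.log 3 + k * Real.log (2 * w.factorial) + k * Real.log 2) / (e / 3) ≤ Real.log (N : ℝ) :=
    tendsto_natCast_atTop_atTop.eventually (Real.tendsto_log_atTop.eventually_ge_atTop _)
  have ev4 : ∀ᶠ N : ℕ in atTop, max 1 ((1 / 4 * Real.log (4 * w.factorial) + 1 / 5 * Real.log 2) / (1 / 100)) ≤ Real.log (N : ℝ) :=
    tendsto_natCast_atTop_atTop.eventually (Real.tendsto_log_atTop.eventually_ge_atTop _)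
  obtain ⟨N2, hN2⟩ := eventually_atTop.1 ((ev1.and ev2).and ((ev3.and ev4).and (log_cube (44 * k / c) e he0)))
  refine ⟨max (max N1 N2) (max Y0 3), fun N hN X hX1 hX2 => ?_⟩
  have hNN1 : N1 ≤ N := ((le_max_left _ _).trans (le_max_left _ _)).trans hN
  obtain ⟨⟨a1, a2⟩, ⟨a3, a4⟩, a5⟩ := hN2 N (((le_max_right _ _).trans (le_max_left _ _)).trans hN)
  have hNY0 : Y0 ≤ N := ((le_max_left _ _).trans (le_max_right _ _)).trans hN
  have hN3 : 3 ≤ N := ((le_max_right _ _).trans (le_max_right _ _)).trans hN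
  have hNr : (3 : ℝ) ≤ N := by exact_mod_cast hN3
  have hN0 : (0 : ℝ) < N := by linarith
  have hN1r : (1 : ℝ) ≤ N := by linarith
  have a41 := (le_max_left _ _).trans a4
  have a42 := (le_max_right _ _).trans a4
  have hlN : 0 < Real.log N := by linarith
  set Y : ℕ := ⌊(N : ℝ) ^ (4 / 3 - δ)⌋₊ with hYdef
  have hYN : (Y : ℝ) ≤ (N : ℝ) ^ (4 / 3 - δ) := by rw [hYdef]; exact Nat.floor_le (by positivity)
  have hNY : N ≤ Y := by
    rw [hYdef]
    apply Nat.le_floor
    have h1 : (N : ℝ) ^ (4 / 3 - δ) = (N : ℝ) ^ (1 / 3 - δ) * N := by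
      rw [show (4 / 3 - δ : ℝ) = (1 / 3 - δ) + 1 by ring, Real.rpow_add hN0, Real.rpow_one]
    rw [h1]
    nlinarith
  have hY3 : 3 ≤ Y := hN3.trans hNY
  have hYr : (3 : ℝ) ≤ Y := by exact_mod_cast hY3
  have hY0 : (0 : ℝ) < Y := by linarith
  have hlY : 0 < Real.log Y := Real.log_pos (by linarith)
  have hlogY1 : Real.log Y ≤ 2 * Real.log N := by
    have := Real.log_le_log hY0 hYN
    rw [Real.log_rpow hN0] at this
    nlinarith
  -- the sieve
  have hRS := HR N hNN1 Y (δ / 4) hY3 (by linarith) (by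
    calc (Y : ℝ) ^ (1 + δ / 4) ≤ ((N : ℝ) ^ (4 / 3 - δ)) ^ (1 + δ / 4) := Real.rpow_le_rpow hY0.le hYN (by linarith)
      _ = (N : ℝ) ^ ((4 / 3 - δ) * (1 + δ / 4)) := by rw [← Real.rpow_mul hN0.le]
      _ ≤ (N : ℝ) ^ (4 / 3 - δ / 2) := by
          apply Real.rpow_le_rpow_of_exponent_le hN1r
          nlinarith)
  have hsieve := HS Y (hNY0.trans hNY) ((ℕ × ℕ) × (ℕ × ℕ)) (Q4 N) (FV w.factorial k) ((N : ℝ) ^ 4) (by positivity) (by
    intro s _ p hp hpw hdvd
    have h1 : p ∣ w.factorial := (hp.dvd_factorial).2 hpw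
    unfold FV at hdvd
    have h2 : p ∣ (w.factorial * (s.1.1 + s.1.2)) ^ k + (w.factorial * (s.2.1 + s.2.2)) ^ k :=
      dvd_add (dvd_pow (h1.mul_right _) (by omega)) (dvd_pow (h1.mul_right _) (by omega))
    have h3 : p ∣ 1 := (Nat.dvd_add_right h2).1 hdvd
    exact hp.one_lt.ne' (Nat.dvd_one.1 h3)) hRS
  set S := (Q4 N).filter (fun a => (∀ p : ℕ, p.Prime → p ∣ FV w.factorial k a → (Y : ℝ) ^ (1 / 5 : ℝ) ≤ p) ∧
        ∑ p ∈ (pr Y (1 / 5) v).filter (fun p => p ∣ FV w.factorial k a), (1 - tt Y p / v) < 31 / 25) with hS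
  -- the squares
  set z : ℕ := ⌈(Y : ℝ) ^ (1 / 5 : ℝ)⌉₊ with hz
  set z' : ℕ := ⌊(N : ℝ) ^ (1 - e)⌋₊ with hz'
  have hY5 : (N : ℝ) ^ (1 / 5 : ℝ) ≤ (Y : ℝ) ^ (1 / 5 : ℝ) :=
    Real.rpow_le_rpow hN0.le (by exact_mod_cast hNY) (by norm_num)
  have hzr : (N : ℝ) ^ (1 / 5 : ℝ) ≤ z := hY5.trans (Nat.le_ceil _)
  have hwz : w < z := by
    have : (w : ℝ) < z := by linarith
    exact_mod_cast this
  have hz'r : (z' : ℝ) ≤ (N : ℝ) ^ (1 - e) := Nat.floor_le (by positivity)
  have hz'N : z' ≤ N := by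
    have : (z' : ℝ) ≤ N := by
      refine hz'r.trans ?_
      calc (N : ℝ) ^ (1 - e) ≤ (N : ℝ) ^ (1 : ℝ) := Real.rpow_le_rpow_of_exponent_le hN1r (by linarith)
        _ = N := Real.rpow_one _
    exact_mod_cast this
  have hbad := sq_all (N := N) (k := k) (w := w) (z := z) (z' := z') (by omega) hkw hwz hz'N
  set Bd := (Q4 N).filter (fun s => ∃ p : ℕ, p.Prime ∧ z ≤ p ∧ p ≤ z' ∧ p ^ 2 ∣ FV w.factorial k s) with hBd
  have hbad2 : (Bd.card : ℝ) ≤ c * (N : ℝ) ^ 4 / (4 * Real.log N) := by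
    refine hbad.trans ?_
    have h1 : 10 * k * (N : ℝ) ^ 4 / z ≤ 10 * k * (N : ℝ) ^ 4 * (N : ℝ) ^ (-e) := by
      rw [div_eq_mul_inv]
      apply mul_le_mul_of_nonneg_left _ (by positivity)
      rw [Real.rpow_neg hN0.le]
      apply inv_anti₀ (by positivity)
      refine le_trans ?_ hzr
      apply Real.rpow_le_rpow_of_exponent_le hN1r (by linarith)
    have h2 : k * (N : ℝ) ^ 3 * z' ≤ k * (N : ℝ) ^ 4 * (N : ℝ) ^ (-e) := by
      have h3 : (N : ℝ) ^ (1 - e) = N * (N : ℝ) ^ (-e) := by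
        rw [sub_eq_add_neg, Real.rpow_add hN0, Real.rpow_one]
      calc k * (N : ℝ) ^ 3 * z' ≤ k * (N : ℝ) ^ 3 * (N : ℝ) ^ (1 - e) := mul_le_mul_of_nonneg_left hz'r (by positivity)
        _ = k * (N : ℝ) ^ 4 * (N : ℝ) ^ (-e) := by rw [h3]; ring
    have h3 : 11 * k * (N : ℝ) ^ 4 * (N : ℝ) ^ (-e) ≤ c * (N : ℝ) ^ 4 / (4 * Real.log N) := by
      rw [Real.rpow_neg hN0.le, ← div_eq_mul_inv, div_le_div_iff₀ (by positivity) (by positivity)]
      have h4 : Real.log N ≤ Real.log N ^ 3 := by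
        have : 1 ≤ Real.log N ^ 2 := one_le_pow₀ a41
        nlinarith
      have h5 : 44 * k * Real.log N ≤ c * (N : ℝ) ^ e := by
        have h6 : 44 * k / c * Real.log N ≤ (N : ℝ) ^ e :=
          (mul_le_mul_of_nonneg_left h4 (by positivity)).trans a5
        calc 44 * k * Real.log N = c * (44 * k / c * Real.log N) := by field_simp
          _ ≤ c * (N : ℝ) ^ e := mul_le_mul_of_nonneg_left h6 hc.le
      calc 11 * k * (N : ℝ) ^ 4 * (4 * Real.log N) = (N : ℝ) ^ 4 * (44 * k * Real.log N) := by ring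
        _ ≤ (N : ℝ) ^ 4 * (c * (N : ℝ) ^ e) := mul_le_mul_of_nonneg_left h5 (by positivity)
        _ = c * (N : ℝ) ^ 4 * (N : ℝ) ^ e := by ring
    linarith
  have hS2 : c * (N : ℝ) ^ 4 / (2 * Real.log N) ≤ (S.card : ℝ) := by
    refine le_trans ?_ hsieve
    apply div_le_div_of_nonneg_left (by positivity) hlY hlogY1
  -- the good quadruples
  set Gd := S \ Bd with hGd
  have hGcard : c * (N : ℝ) ^ 4 / (4 * Real.log N) ≤ (Gd.card : ℝ) := by
    have h1 : (S.card : ℝ) ≤ Bd.card + Gd.card := by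
      have : S.card ≤ Bd.card + Gd.card := by
        rw [hGd, add_comm]
        exact card_le_card_sdiff_add_card
      exact_mod_cast this
    have h2 : c * (N : ℝ) ^ 4 / (2 * Real.log N) = c * (N : ℝ) ^ 4 / (4 * Real.log N) + c * (N : ℝ) ^ 4 / (4 * Real.log N) := by
      field_simp
      norm_num
    linarith
  have hSsub : S ⊆ Q4 N := filter_subset _ _
  have hX1' : 1 ≤ X := by
    have : 0 < 2 * w.factorial * N := by positivity
    omega
  have hmaps : ∀ s ∈ Gd, (w.factorial * (s.1.1 + s.1.2), w.factorial * (s.2.1 + s.2.2)) ∈ (Icc 1 X ×ˢ Icc 1 X).filter (PK k X) := by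
    intro s hs
    rw [hGd, Finset.mem_sdiff] at hs
    obtain ⟨hs1, hs2⟩ := hs
    rw [hS, mem_filter] at hs1
    obtain ⟨b1, b2, b3⟩ := hs1
    rw [mem_filter]
    constructor
    · have b4 := b1
      unfold Q4 at b4
      rw [mem_product, mem_product, mem_product, mem_Icc, mem_Icc, mem_Icc, mem_Icc] at b4
      obtain ⟨⟨d1, d2⟩, ⟨d3, d4⟩⟩ := b4
      rw [mem_product, mem_Icc, mem_Icc]
      have g1 : w.factorial * (s.1.1 + s.1.2) ≤ X := by
        calc w.factorial * (s.1.1 + s.1.2) ≤ w.factorial * (N + N) := Nat.mul_le_mul_left _ (by omega)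
          _ = 2 * w.factorial * N := by ring
          _ ≤ X := hX1
      have g2 : w.factorial * (s.2.1 + s.2.2) ≤ X := by
        calc w.factorial * (s.2.1 + s.2.2) ≤ w.factorial * (N + N) := Nat.mul_le_mul_left _ (by omega)
          _ = 2 * w.factorial * N := by ring
          _ ≤ X := hX1
      exact ⟨⟨Nat.mul_pos hWpos (by omega), g1⟩, ⟨Nat.mul_pos hWpos (by omega), g2⟩⟩
    · apply good_value hk he hδ hv (by omega) hYdef hNY hY3 ?_ ?_ hX2 hX1' b1 b2 b3
      · intro p hp hp2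
        by_contra hlt
        push Not at hlt
        apply hs2
        rw [hBd, mem_filter]
        refine ⟨b1, p, hp, ?_, Nat.le_floor hlt.le, hp2⟩
        exact Nat.ceil_le.2 (b2 p hp ((dvd_pow_self p (by norm_num)).trans hp2))
      · rw [div_le_iff₀ (by positivity)] at a3
        linarith
      · rw [div_le_iff₀ (by positivity)] at a42
        linarith
  have hcount := card_le_mul_card_image_of_maps_to hmaps (N ^ 2) (fun b _ => fibre_card N w.factorial hWpos Gd (sdiff_subset.trans hSsub) b)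
  have hcount' : (Gd.card : ℝ) ≤ (N : ℝ) ^ 2 * (((Icc 1 X ×ˢ Icc 1 X).filter (PK k X)).card : ℝ) := by exact_mod_cast hcount
  have hfinal : (N : ℝ) ^ 2 * (c / 4 * (N : ℝ) ^ 2 / Real.log N) ≤ (N : ℝ) ^ 2 * (((Icc 1 X ×ˢ Icc 1 X).filter (PK k X)).card : ℝ) := by
    refine le_trans (le_of_eq ?_) (hGcard.trans hcount')
    field_simp
  exact le_of_mul_le_mul_left hfinal (by positivity)

open Classical in
/-- **Almost primes `n ^ k + m ^ k + 1`.** -/
theorem main {k : ℕ} (hk : 2 ≤ k) : ∃ c : ℝ, 0 < c ∧ ∃ X0 : ℕ, ∀ X : ℕ, X0 ≤ X →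
    c * (X : ℝ) ^ 2 / Real.log X ≤ (((Icc 1 X ×ˢ Icc 1 X).filter (PK k X)).card : ℝ) := by
  obtain ⟨W, hW, c, hc, N0, H⟩ := mainN hk
  have hWr : (0 : ℝ) < W := by exact_mod_cast hW
  refine ⟨c / (16 * W ^ 2), by positivity, 2 * W * (N0 + 2), fun X hX => ?_⟩
  set N : ℕ := X / (2 * W) with hN
  have hW2 : 0 < 2 * W := by omega
  have h1 : 2 * W * N ≤ X := Nat.mul_div_le X (2 * W)
  have h2 : N0 + 2 ≤ N := by
    rw [hN, Nat.le_div_iff_mul_le hW2]
    linarith
  have h3 : X < 2 * W * (N + 1) := by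
    rw [hN]
    exact Nat.lt_mul_div_succ X hW2
  have h4 : X ≤ 4 * W * N := by nlinarith
  have key := H N (by omega) X h1 h4
  refine le_trans ?_ key
  have hNr : (2 : ℝ) ≤ N := by exact_mod_cast (by omega : 2 ≤ N)
  have hXr : (X : ℝ) ≤ 4 * W * N := by exact_mod_cast h4
  have hNX : (N : ℝ) ≤ X := by
    have : N ≤ X := by nlinarith
    exact_mod_cast this
  have hlN : 0 < Real.log N := Real.log_pos (by linarith)
  have hlNX : Real.log N ≤ Real.log X := Real.log_le_log (by linarith) hNX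
  calc c / (16 * W ^ 2) * (X : ℝ) ^ 2 / Real.log X ≤ c / (16 * W ^ 2) * (4 * W * N) ^ 2 / Real.log N := by
        apply div_le_div₀ (by positivity) _ hlN hlNX
        apply mul_le_mul_of_nonneg_left _ (by positivity)
        exact pow_le_pow_left₀ (by positivity) hXr 2
    _ = c * (N : ℝ) ^ 2 / Real.log N := by
        field_simp
        norm_num

end Run7.h914
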