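import Mathlib

/-! Equidistribution of a set of residues with small exponential sums, for products of primes. -/

set_option autoImplicit false
set_option linter.all false

open Finset

namespace Run7.h914

section
variable {ι : Type} [Fintype ι] [DecidableEq ι] (q : ι → ℕ) [∀ i, NeZero (q i)]

/-- the character sum -/
noncomputable def GG (N : ℕ) (h : ∀ i, ZMod (q i)) : ℂ :=
  ∑ a ∈ Icc 1 N, ∏ i, ZMod.stdAddChar (N := q i) (h i * (a : ZMod (q i)))

theorem sq_GG (N : ℕ) (h : ∀ i, ZMod (q i)) :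
    ∑ a ∈ Icc 1 N, ∑ b ∈ Icc 1 N, ∏ i, ZMod.stdAddChar (N := q i) (h i * ((a + b : ℕ) : ZMod (q i))) = GG q N h ^ 2 := by
  unfold GG
  rw [pow_two, sum_mul_sum]
  refine sum_congr rfl fun a _ => sum_congr rfl fun b _ => ?_
  rw [← prod_mul_distrib]
  refine prod_congr rfl fun i _ => ?_
  rw [← AddChar.map_add_eq_mul]
  push_cast
  ring_nf

theorem norm_GG (N : ℕ) (h : ∀ i, ZMod (q i)) :
    ((‖GG q N h‖ ^ 2 : ℝ) : ℂ) = ∑ a ∈ Icc 1 N, ∑ b ∈ Icc 1 N,
      ∏ i, ZMod.stdAddChar (N := q i) (h i * ((a : ZMod (q i)) - (b : ZMod (q i)))) := by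
  have h1 : ((‖GG q N h‖ ^ 2 : ℝ) : ℂ) = GG q N h * (starRingEnd ℂ) (GG q N h) := by
    rw [Complex.mul_conj, Complex.normSq_eq_norm_sq]
  rw [h1]
  unfold GG
  rw [map_sum, sum_mul_sum]
  refine sum_congr rfl fun a _ => sum_congr rfl fun b _ => ?_
  rw [map_prod, ← prod_mul_distrib]
  refine prod_congr rfl fun i _ => ?_
  have h2 : (starRingEnd ℂ) (ZMod.stdAddChar (N := q i) (h i * (b : ZMod (q i)))) =
      ZMod.stdAddChar (N := q i) (- (h i * (b : ZMod (q i)))) := by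
    rw [AddChar.map_neg_eq_conj]
  rw [h2, ← AddChar.map_add_eq_mul]
  ring_nf

theorem GG_le (N : ℕ) (h : ∀ i, ZMod (q i)) : ‖GG q N h‖ ≤ N := by
  unfold GG
  refine (norm_sum_le _ _).trans ?_
  have h1 : ∀ a ∈ Icc 1 N, ‖∏ i, ZMod.stdAddChar (N := q i) (h i * (a : ZMod (q i)))‖ = 1 := by
    intro a _
    rw [norm_prod]
    exact prod_eq_one fun i _ => AddChar.norm_apply _ _
  rw [sum_congr rfl h1, sum_const, nsmul_eq_mul, mul_one, Nat.card_Icc]
  simp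

/-- the number of elements of a residue class -/
theorem card_class (N d a : ℕ) (hd : 0 < d) : ((Icc 1 N).filter (fun b : ℕ => (a : ZMod d) = b)).card ≤ N / d + 1 := by
  have h1 : ((Icc 1 N).filter (fun b : ℕ => (a : ZMod d) = b)).card ≤ (range (N / d + 1)).card := by
    refine card_le_card_of_injOn (fun b => b / d) ?_ ?_
    · intro b hb
      rw [mem_coe, mem_filter, mem_Icc] at hb
      rw [mem_coe, mem_range]
      exact Nat.lt_succ_of_le (Nat.div_le_div_right hb.1.2)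
    · intro b hb b' hb' h
      rw [mem_coe, mem_filter, ZMod.natCast_eq_natCast_iff] at hb hb'
      have h2 : b % d = b' % d := hb.2.symm.trans hb'.2
      have h3 : b / d = b' / d := h
      rw [← Nat.div_add_mod b d, ← Nat.div_add_mod b' d, h2, h3]
  rwa [card_range] at h1

/-- the number of pairs in a residue class -/
theorem card_pairs (N d : ℕ) (hd : 0 < d) :
    (((Icc 1 N) ×ˢ (Icc 1 N)).filter (fun z : ℕ × ℕ => (z.1 : ZMod d) = z.2)).card * d ≤ N * N + d * N := by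
  have h2 : (((Icc 1 N) ×ˢ (Icc 1 N)).filter (fun z : ℕ × ℕ => (z.1 : ZMod d) = z.2)).card ≤ N * (N / d + 1) := by
    rw [card_filter, sum_product]
    have h3 : ∀ a ∈ Icc 1 N, (∑ b ∈ Icc 1 N, if ((a, b).1 : ZMod d) = (a, b).2 then 1 else 0) ≤ N / d + 1 := by
      intro a _
      rw [← card_filter]
      exact card_class N d a hd
    refine (sum_le_sum h3).trans ?_
    rw [sum_const, Nat.card_Icc, smul_eq_mul]
    simp
  calc _ ≤ N * (N / d + 1) * d := Nat.mul_le_mul_right _ h2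
    _ = N * (N / d * d) + d * N := by ring
    _ ≤ N * N + d * N := by
      apply Nat.add_le_add_right
      exact Nat.mul_le_mul_left _ (Nat.div_mul_le_self _ _)

/-- the functions supported on `S` -/
def HS (S : Finset ι) : Finset (∀ i, ZMod (q i)) := Fintype.piFinset (fun i => if i ∈ S then univ else {0})

theorem mem_HS {S : Finset ι} {h : ∀ i, ZMod (q i)} : h ∈ HS q S ↔ ∀ i, i ∉ S → h i = 0 := by
  unfold HS
  rw [Fintype.mem_piFinset]
  refine forall_congr' fun i => ?_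
  by_cases hi : i ∈ S
  · rw [if_pos hi]; simp [hi]
  · rw [if_neg hi]; simp [hi]

theorem modEq_prod (hco : Pairwise (Function.onFun Nat.Coprime q)) (S : Finset ι) (a b : ℕ) :
    (∀ i ∈ S, (a : ZMod (q i)) = b) ↔ (a : ZMod (∏ i ∈ S, q i)) = b := by
  simp only [ZMod.natCast_eq_natCast_iff, Nat.modEq_iff_dvd]
  constructor
  · intro h
    push_cast
    apply Finset.prod_dvd_of_coprime
    · intro i _ j _ hij
      exact Nat.isCoprime_iff_coprime.2 (hco hij)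
    · intro i hi
      exact h i hi
  · intro h i hi
    refine dvd_trans ?_ h
    exact_mod_cast Finset.dvd_prod_of_mem q hi

/-- Parseval -/
theorem parseval (hco : Pairwise (Function.onFun Nat.Coprime q)) (N : ℕ) (S : Finset ι) :
    ∑ h ∈ HS q S, ‖GG q N h‖ ^ 2 ≤ (N : ℝ) ^ 2 + (∏ i ∈ S, q i : ℕ) * N := by
  have hprim : ∀ i, (ZMod.stdAddChar (N := q i)).IsPrimitive := fun i => ZMod.isPrimitive_stdAddChar (q i)
  have hq0 : 0 < ∏ i ∈ S, q i := prod_pos fun i _ => Nat.pos_of_ne_zero (NeZero.ne (q i))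
  have h1 : ((∑ h ∈ HS q S, ‖GG q N h‖ ^ 2 : ℝ) : ℂ) =
      (((((Icc 1 N) ×ˢ (Icc 1 N)).filter (fun z : ℕ × ℕ => (z.1 : ZMod (∏ i ∈ S, q i)) = z.2)).card * (∏ i ∈ S, q i) : ℕ) : ℂ) := by
    rw [Complex.ofReal_sum, sum_congr rfl fun h _ => norm_GG q N h, sum_comm]
    have h2 : ∀ a ∈ Icc 1 N, ∑ h ∈ HS q S, ∑ b ∈ Icc 1 N,
        ∏ i, ZMod.stdAddChar (N := q i) (h i * ((a : ZMod (q i)) - (b : ZMod (q i)))) =
        ∑ b ∈ Icc 1 N, if (a : ZMod (∏ i ∈ S, q i)) = b then ((∏ i ∈ S, q i : ℕ) : ℂ) else 0 := by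
      intro a _
      rw [sum_comm]
      refine sum_congr rfl fun b _ => ?_
      unfold HS
      rw [← prod_univ_sum (fun i => if i ∈ S then (univ : Finset (ZMod (q i))) else {0})
        (fun i x => ZMod.stdAddChar (N := q i) (x * ((a : ZMod (q i)) - (b : ZMod (q i)))))]
      have h3 : ∀ i : ι, (∑ x ∈ (if i ∈ S then (univ : Finset (ZMod (q i))) else {0}),
          ZMod.stdAddChar (N := q i) (x * ((a : ZMod (q i)) - (b : ZMod (q i))))) =
          if i ∈ S then (if (a : ZMod (q i)) = b then (q i : ℂ) else 0) else 1 := by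
        intro i
        by_cases hi : i ∈ S
        · rw [if_pos hi, if_pos hi, AddChar.sum_mulShift _ (hprim i), ZMod.card]
          simp only [sub_eq_zero]
          push_cast
          rfl
        · rw [if_neg hi, if_neg hi, sum_singleton, zero_mul, AddChar.map_zero_eq_one]
      rw [prod_congr rfl fun i _ => h3 i, prod_ite_mem, univ_inter, prod_ite_zero]
      have h4 := modEq_prod q hco S a b
      by_cases h5 : (a : ZMod (∏ i ∈ S, q i)) = b
      · rw [if_pos (h4.2 h5), if_pos h5]; push_cast; rfl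
      · rw [if_neg (fun h => h5 (h4.1 h)), if_neg h5]
    rw [sum_congr rfl h2, ← sum_product', ← sum_filter, sum_const, nsmul_eq_mul]
    push_cast
    rfl
  have h2 : (∑ h ∈ HS q S, ‖GG q N h‖ ^ 2 : ℝ) =
      (((((Icc 1 N) ×ˢ (Icc 1 N)).filter (fun z : ℕ × ℕ => (z.1 : ZMod (∏ i ∈ S, q i)) = z.2)).card * (∏ i ∈ S, q i) : ℕ) : ℝ) := by
    exact_mod_cast h1
  rw [h2]
  have h3 := card_pairs N (∏ i ∈ S, q i) hq0
  rw [pow_two]
  exact_mod_cast h3

/-- the Fourier coefficients of a set of residues -/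
noncomputable def cf (m : ℕ) [NeZero m] (V : Finset (ZMod m × ZMod m)) (ω : ZMod m × ZMod m) : ℂ :=
  (∑ z ∈ V, ZMod.stdAddChar (N := m) (-(ω.1 * z.1 + ω.2 * z.2))) / (m : ℂ) ^ 2

theorem cf_inv (m : ℕ) [NeZero m] (V : Finset (ZMod m × ZMod m)) (x y : ZMod m) :
    (if (x, y) ∈ V then (1 : ℂ) else 0) =
      ∑ ω : ZMod m × ZMod m, cf m V ω * (ZMod.stdAddChar (N := m) (ω.1 * x) * ZMod.stdAddChar (N := m) (ω.2 * y)) := by
  have hm : (m : ℂ) ≠ 0 := by exact_mod_cast NeZero.ne m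
  have hprim : (ZMod.stdAddChar (N := m)).IsPrimitive := ZMod.isPrimitive_stdAddChar m
  have h1 : ∑ ω : ZMod m × ZMod m, cf m V ω * (ZMod.stdAddChar (N := m) (ω.1 * x) * ZMod.stdAddChar (N := m) (ω.2 * y)) =
      (∑ z ∈ V, (∑ a : ZMod m, ZMod.stdAddChar (N := m) (a * (x - z.1))) *
        (∑ b : ZMod m, ZMod.stdAddChar (N := m) (b * (y - z.2)))) / (m : ℂ) ^ 2 := by
    unfold cf
    rw [Finset.sum_div]
    simp only [sum_div, sum_mul]
    rw [sum_comm]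
    refine sum_congr rfl fun z _ => ?_
    rw [Fintype.sum_prod_type]
    refine sum_congr rfl fun a _ => ?_
    rw [mul_sum, sum_div]
    refine sum_congr rfl fun b _ => ?_
    rw [div_mul_eq_mul_div]
    congr 1
    rw [← AddChar.map_add_eq_mul, ← AddChar.map_add_eq_mul, ← AddChar.map_add_eq_mul]
    ring_nf
  rw [h1]
  have h2 : ∀ z ∈ V, (∑ a : ZMod m, ZMod.stdAddChar (N := m) (a * (x - z.1))) *
        (∑ b : ZMod m, ZMod.stdAddChar (N := m) (b * (y - z.2))) = if (x, y) = z then (m : ℂ) ^ 2 else 0 := by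
    rintro ⟨z1, z2⟩ _
    rw [AddChar.sum_mulShift _ hprim, AddChar.sum_mulShift _ hprim, ZMod.card]
    simp only [sub_eq_zero, Prod.mk.injEq]
    by_cases hx : x = z1
    · by_cases hy : y = z2
      · simp [hx, hy, pow_two]
      · simp [hx, hy]
    · simp [hx]
  rw [sum_congr rfl h2, sum_ite_eq]
  by_cases hV : (x, y) ∈ V
  · rw [if_pos hV, if_pos hV, div_self (pow_ne_zero 2 hm)]
  · rw [if_neg hV, if_neg hV, zero_div]

variable (V : ∀ i, Finset (ZMod (q i) × ZMod (q i)))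

/-- the quadruples -/
def Q4 (N : ℕ) : Finset ((ℕ × ℕ) × (ℕ × ℕ)) := (Icc 1 N ×ˢ Icc 1 N) ×ˢ (Icc 1 N ×ˢ Icc 1 N)

theorem sq_GG' (N : ℕ) (h : ∀ i, ZMod (q i)) :
    ∑ t ∈ Icc 1 N ×ˢ Icc 1 N, ∏ i, ZMod.stdAddChar (N := q i) (h i * ((t.1 + t.2 : ℕ) : ZMod (q i))) = GG q N h ^ 2 := by
  rw [← sq_GG, sum_product]

/-- the number of quadruples, as a sum over frequencies -/
theorem quad_eq (N : ℕ) : (∑ s ∈ Q4 N,
      ∏ i, (if (((s.1.1 + s.1.2 : ℕ) : ZMod (q i)), ((s.2.1 + s.2.2 : ℕ) : ZMod (q i))) ∈ V i then (1 : ℂ) else 0)) =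
    ∑ ω : (∀ i, ZMod (q i) × ZMod (q i)), (∏ i, cf (q i) (V i) (ω i)) *
      (GG q N (fun i => (ω i).1) ^ 2 * GG q N (fun i => (ω i).2) ^ 2) := by
  have h1 : ∀ s : (ℕ × ℕ) × (ℕ × ℕ),
      ∏ i, (if (((s.1.1 + s.1.2 : ℕ) : ZMod (q i)), ((s.2.1 + s.2.2 : ℕ) : ZMod (q i))) ∈ V i then (1 : ℂ) else 0) =
      ∑ ω : (∀ i, ZMod (q i) × ZMod (q i)), (∏ i, cf (q i) (V i) (ω i)) *
        ((∏ i, ZMod.stdAddChar (N := q i) ((ω i).1 * ((s.1.1 + s.1.2 : ℕ) : ZMod (q i)))) *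
          ∏ i, ZMod.stdAddChar (N := q i) ((ω i).2 * ((s.2.1 + s.2.2 : ℕ) : ZMod (q i)))) := by
    intro s
    rw [prod_congr rfl fun i _ => cf_inv (q i) (V i) _ _]
    have h2 := prod_univ_sum (fun i => (univ : Finset (ZMod (q i) × ZMod (q i))))
      (fun i (ω : ZMod (q i) × ZMod (q i)) => cf (q i) (V i) ω *
        (ZMod.stdAddChar (N := q i) (ω.1 * ((s.1.1 + s.1.2 : ℕ) : ZMod (q i))) *
          ZMod.stdAddChar (N := q i) (ω.2 * ((s.2.1 + s.2.2 : ℕ) : ZMod (q i)))))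
    rw [h2, Fintype.piFinset_univ]
    refine sum_congr rfl fun ω _ => ?_
    rw [prod_mul_distrib, prod_mul_distrib]
  rw [sum_congr rfl fun s _ => h1 s, sum_comm]
  refine sum_congr rfl fun ω _ => ?_
  rw [← mul_sum, ← sq_GG', ← sq_GG', sum_mul_sum]
  congr 1
  unfold Q4
  rw [sum_product]

/-- the size of a Fourier coefficient -/
theorem norm_cf {m : ℕ} [NeZero m] (W : Finset (ZMod m × ZMod m)) {M : ℝ}
    (hB : ∀ h l : ZMod m, (h ≠ 0 ∨ l ≠ 0) → ‖∑ z ∈ W, ZMod.stdAddChar (N := m) (h * z.1 + l * z.2)‖ ≤ M * √(m : ℝ))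
    (hC : (W.card : ℝ) ≤ M * m) (ω : ZMod m × ZMod m) :
    ‖cf m W ω‖ ≤ if ω = 0 then M * m / (m : ℝ) ^ 2 else M * √(m : ℝ) / (m : ℝ) ^ 2 := by
  unfold cf
  rw [norm_div, norm_pow, Complex.norm_natCast]
  split_ifs with h0
  · apply div_le_div_of_nonneg_right _ (by positivity)
    refine (norm_sum_le _ _).trans ?_
    rw [sum_congr rfl fun z _ => AddChar.norm_apply _ _, sum_const, nsmul_eq_mul, mul_one]
    exact hC
  · apply div_le_div_of_nonneg_right _ (by positivity)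
    have h1 := hB (-ω.1) (-ω.2) (by
      by_contra hc
      push Not at hc
      apply h0
      exact Prod.ext (neg_eq_zero.1 hc.1) (neg_eq_zero.1 hc.2))
    have h2 : ∀ z ∈ W, ZMod.stdAddChar (N := m) (-(ω.1 * z.1 + ω.2 * z.2)) =
        ZMod.stdAddChar (N := m) (-ω.1 * z.1 + -ω.2 * z.2) := by
      intro z _
      congr 1
      ring
    rw [sum_congr rfl h2]
    exact h1

theorem cf_zero {m : ℕ} [NeZero m] (W : Finset (ZMod m × ZMod m)) : cf m W 0 = (W.card : ℂ) / (m : ℂ) ^ 2 := by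
  unfold cf
  simp

theorem GG_zero (N : ℕ) : GG q N (fun _ => 0) = N := by
  unfold GG
  simp

open Classical in
/-- **Equidistribution.** -/
theorem equi (hco : Pairwise (Function.onFun Nat.Coprime q)) {M : ℝ} (hM : 1 ≤ M)
    (hB : ∀ i, ∀ h l : ZMod (q i), (h ≠ 0 ∨ l ≠ 0) →
      ‖∑ z ∈ V i, ZMod.stdAddChar (N := q i) (h * z.1 + l * z.2)‖ ≤ M * √(q i : ℝ))
    (hC : ∀ i, ((V i).card : ℝ) ≤ M * q i) (N : ℕ) :
    |(((Q4 N).filter (fun s => ∀ i, (((s.1.1 + s.1.2 : ℕ) : ZMod (q i)), ((s.2.1 + s.2.2 : ℕ) : ZMod (q i))) ∈ V i)).card : ℝ) -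
      (N : ℝ) ^ 4 * ∏ i, ((V i).card : ℝ) / (q i : ℝ) ^ 2| ≤
      (2 * M) ^ Fintype.card ι * (2 * (N : ℝ) ^ 3 / √(∏ i, q i : ℕ) + (N : ℝ) ^ 2 * √(∏ i, q i : ℕ)) := by
  set d : ℕ := ∏ i, q i with hd
  have hqpos : ∀ i, 0 < (q i : ℝ) := fun i => by exact_mod_cast Nat.pos_of_ne_zero (NeZero.ne (q i))
  have hq1 : ∀ i, 1 ≤ q i := fun i => Nat.pos_of_ne_zero (NeZero.ne (q i))
  have e1 : (((((Q4 N).filter (fun s => ∀ i, (((s.1.1 + s.1.2 : ℕ) : ZMod (q i)), ((s.2.1 + s.2.2 : ℕ) : ZMod (q i))) ∈ V i)).card : ℝ) -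
      (N : ℝ) ^ 4 * ∏ i, ((V i).card : ℝ) / (q i : ℝ) ^ 2 : ℝ) : ℂ) =
      ∑ ω ∈ univ.erase (0 : ∀ i, ZMod (q i) × ZMod (q i)), (∏ i, cf (q i) (V i) (ω i)) *
        (GG q N (fun i => (ω i).1) ^ 2 * GG q N (fun i => (ω i).2) ^ 2) := by
    have h1 := quad_eq q V N
    have h2 : (∑ s ∈ Q4 N,
      ∏ i, (if (((s.1.1 + s.1.2 : ℕ) : ZMod (q i)), ((s.2.1 + s.2.2 : ℕ) : ZMod (q i))) ∈ V i then (1 : ℂ) else 0)) =
      (((Q4 N).filter (fun s => ∀ i, (((s.1.1 + s.1.2 : ℕ) : ZMod (q i)), ((s.2.1 + s.2.2 : ℕ) : ZMod (q i))) ∈ V i)).card : ℂ) := by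
      rw [card_filter]
      push_cast
      refine sum_congr rfl fun s _ => ?_
      rw [Fintype.prod_ite_zero]
      simp
    rw [h2, ← add_sum_erase univ _ (mem_univ 0)] at h1
    simp only [Pi.zero_apply, cf_zero, Prod.fst_zero, Prod.snd_zero, GG_zero] at h1
    rw [Complex.ofReal_sub, Complex.ofReal_mul, Complex.ofReal_natCast, h1]
    push_cast
    ring
  -- the bound for one set of primes
  let β : Finset ι → ℝ := fun S => ∏ i, (if i ∈ S then M * √(q i : ℝ) / (q i : ℝ) ^ 2 else M * (q i) / (q i : ℝ) ^ 2)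
  let sp : (∀ i, ZMod (q i) × ZMod (q i)) → Finset ι := fun ω => univ.filter (fun i => ω i ≠ 0)
  have hβ : ∀ ω : (∀ i, ZMod (q i) × ZMod (q i)), ‖∏ i, cf (q i) (V i) (ω i)‖ ≤ β (sp ω) := by
    intro ω
    rw [norm_prod]
    refine prod_le_prod (fun i _ => norm_nonneg _) fun i _ => ?_
    refine (norm_cf (V i) (hB i) (hC i) (ω i)).trans (le_of_eq ?_)
    by_cases h0 : ω i = 0
    · rw [if_pos h0, if_neg]
      simp [sp, h0]
    · rw [if_neg h0, if_pos]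
      simp [sp, h0]
  have hβ0 : ∀ S, 0 ≤ β S := by
    intro S
    refine prod_nonneg fun i _ => ?_
    have := hqpos i
    split_ifs <;> positivity
  let Fn : (∀ i, ZMod (q i)) × (∀ i, ZMod (q i)) → ℝ := fun x => ‖GG q N x.1‖ ^ 2 * ‖GG q N x.2‖ ^ 2
  have hFn0 : ∀ x, 0 ≤ Fn x := fun x => by positivity
  let φ : (∀ i, ZMod (q i) × ZMod (q i)) → (∀ i, ZMod (q i)) × (∀ i, ZMod (q i)) :=
    fun ω => (fun i => (ω i).1, fun i => (ω i).2)
  have hφ : Function.Injective φ := by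
    intro ω ω' h
    funext i
    have h1 := congrFun (congrArg Prod.fst h) i
    have h2 := congrFun (congrArg Prod.snd h) i
    exact Prod.ext h1 h2
  have hinner : ∀ S : Finset ι, ∑ ω ∈ (univ.erase (0 : ∀ i, ZMod (q i) × ZMod (q i))).filter (fun ω => sp ω = S), Fn (φ ω) ≤
      2 * (∏ i ∈ S, q i : ℕ) * (N : ℝ) ^ 3 + ((∏ i ∈ S, q i : ℕ) : ℝ) ^ 2 * (N : ℝ) ^ 2 := by
    intro S
    rw [← sum_image (f := Fn) (hφ.injOn)]
    have h1 : ((univ.erase (0 : ∀ i, ZMod (q i) × ZMod (q i))).filter (fun ω => sp ω = S)).image φ ⊆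
        (HS q S ×ˢ HS q S).erase 0 := by
      intro x hx
      rw [mem_image] at hx
      obtain ⟨ω, hω, rfl⟩ := hx
      rw [mem_filter, mem_erase] at hω
      rw [mem_erase, mem_product, mem_HS, mem_HS]
      refine ⟨fun h0 => hω.1.1 (hφ h0), ?_, ?_⟩
      · intro i hi
        have h2 : ω i = 0 := by
          by_contra hc
          apply hi
          rw [← hω.2]
          simp [sp, hc]
        change (ω i).1 = 0
        rw [h2]; rfl
      · intro i hi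
        have h2 : ω i = 0 := by
          by_contra hc
          apply hi
          rw [← hω.2]
          simp [sp, hc]
        change (ω i).2 = 0
        rw [h2]; rfl
    refine (sum_le_sum_of_subset_of_nonneg h1 fun x _ _ => hFn0 x).trans ?_
    have h2 : (0 : (∀ i, ZMod (q i)) × (∀ i, ZMod (q i))) ∈ HS q S ×ˢ HS q S := by
      rw [mem_product, mem_HS, mem_HS]
      exact ⟨fun i _ => rfl, fun i _ => rfl⟩
    have h3 := add_sum_erase (HS q S ×ˢ HS q S) Fn h2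
    have h4 : ∑ x ∈ HS q S ×ˢ HS q S, Fn x = (∑ h ∈ HS q S, ‖GG q N h‖ ^ 2) ^ 2 := by
      rw [pow_two, sum_mul_sum, sum_product]
    have h5 : Fn 0 = (N : ℝ) ^ 4 := by
      have e : GG q N (0 : ∀ i, ZMod (q i)) = N := GG_zero q N
      simp only [Fn, Prod.fst_zero, Prod.snd_zero, e, Complex.norm_natCast]
      ring
    have h6 := parseval q hco N S
    have h7 : 0 ≤ ∑ h ∈ HS q S, ‖GG q N h‖ ^ 2 := sum_nonneg fun _ _ => by positivity
    have h8 : (∑ h ∈ HS q S, ‖GG q N h‖ ^ 2) ^ 2 ≤ ((N : ℝ) ^ 2 + (∏ i ∈ S, q i : ℕ) * N) ^ 2 :=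
      pow_le_pow_left₀ h7 h6 2
    have h9 : ((N : ℝ) ^ 2 + (∏ i ∈ S, q i : ℕ) * N) ^ 2 = (N : ℝ) ^ 4 +
      (2 * (∏ i ∈ S, q i : ℕ) * (N : ℝ) ^ 3 + ((∏ i ∈ S, q i : ℕ) : ℝ) ^ 2 * (N : ℝ) ^ 2) := by ring
    linarith
  have hd0 : 0 < (d : ℝ) := by
    rw [hd]
    exact_mod_cast prod_pos fun i _ => Nat.pos_of_ne_zero (NeZero.ne (q i))
  have hterm : ∀ S : Finset ι, β S * (2 * (∏ i ∈ S, q i : ℕ) * (N : ℝ) ^ 3 + ((∏ i ∈ S, q i : ℕ) : ℝ) ^ 2 * (N : ℝ) ^ 2) ≤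
      M ^ Fintype.card ι * (2 * (N : ℝ) ^ 3 / √(d : ℝ) + (N : ℝ) ^ 2 * √(d : ℝ)) := by
    intro S
    set Q : ℝ := ((∏ i ∈ S, q i : ℕ) : ℝ) with hQ
    have hQ0 : 0 < Q := by
      rw [hQ]
      exact_mod_cast prod_pos fun i _ => Nat.pos_of_ne_zero (NeZero.ne (q i))
    have hQd : Q ≤ d := by
      rw [hQ, hd]
      exact_mod_cast prod_le_prod_of_subset_of_one_le' (subset_univ S) fun i _ _ => hq1 i
    have hb : β S = M ^ Fintype.card ι * (√Q / (Q * d)) := by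
      have b1 : β S = ∏ i, (M * ((if i ∈ S then √(q i : ℝ) / (q i : ℝ) else 1) * (1 / (q i : ℝ)))) := by
        refine prod_congr rfl fun i _ => ?_
        have := (hqpos i).ne'
        split_ifs
        · field_simp
        · field_simp
      rw [b1, prod_mul_distrib, prod_const, card_univ, prod_mul_distrib]
      have b2 : ∏ i, (if i ∈ S then √(q i : ℝ) / (q i : ℝ) else 1) = √Q / Q := by
        rw [prod_ite_mem, univ_inter, prod_div_distrib, hQ]
        push_cast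
        rw [Real.sqrt_eq_rpow, ← Real.finset_prod_rpow S (fun i => (q i : ℝ)) (fun i _ => (hqpos i).le)]
        simp only [Real.sqrt_eq_rpow]
      have b3 : ∏ i, (1 / (q i : ℝ)) = 1 / d := by
        rw [prod_div_distrib, prod_const_one, hd]
        push_cast
        rfl
      rw [b2, b3]
      field_simp
    rw [hb, mul_assoc]
    apply mul_le_mul_of_nonneg_left _ (by positivity)
    have hsQ : √Q * √Q = Q := Real.mul_self_sqrt hQ0.le
    have hsd : √(d : ℝ) * √(d : ℝ) = d := Real.mul_self_sqrt hd0.le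
    have hsQd : √Q ≤ √(d : ℝ) := Real.sqrt_le_sqrt hQd
    have hsd0 : 0 < √(d : ℝ) := Real.sqrt_pos.2 hd0
    have hsQ0 : 0 < √Q := Real.sqrt_pos.2 hQ0
    have c1 : √Q / (Q * d) * (2 * Q * (N : ℝ) ^ 3 + Q ^ 2 * (N : ℝ) ^ 2) =
        √Q / d * (2 * (N : ℝ) ^ 3) + (√Q * Q / d) * (N : ℝ) ^ 2 := by
      field_simp
    rw [c1]
    have c2 : √Q / d ≤ 1 / √(d : ℝ) := by
      rw [div_le_div_iff₀ hd0 hsd0]
      nlinarith
    have c3 : √Q * Q / d ≤ √(d : ℝ) := by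
      rw [div_le_iff₀ hd0]
      exact mul_le_mul hsQd hQd hQ0.le hsd0.le
    have c4 : √Q / d * (2 * (N : ℝ) ^ 3) ≤ 1 / √(d : ℝ) * (2 * (N : ℝ) ^ 3) :=
      mul_le_mul_of_nonneg_right c2 (by positivity)
    have c5 : (√Q * Q / d) * (N : ℝ) ^ 2 ≤ √(d : ℝ) * (N : ℝ) ^ 2 :=
      mul_le_mul_of_nonneg_right c3 (by positivity)
    calc _ ≤ 1 / √(d : ℝ) * (2 * (N : ℝ) ^ 3) + √(d : ℝ) * (N : ℝ) ^ 2 := add_le_add c4 c5
      _ = _ := by ring
  rw [← Real.norm_eq_abs, ← Complex.norm_real, e1]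
  calc _ ≤ ∑ ω ∈ univ.erase (0 : ∀ i, ZMod (q i) × ZMod (q i)), β (sp ω) * Fn (φ ω) := by
        refine (norm_sum_le _ _).trans (sum_le_sum fun ω _ => ?_)
        rw [norm_mul, norm_mul, norm_pow, norm_pow]
        exact mul_le_mul_of_nonneg_right (hβ ω) (by positivity)
    _ = ∑ S : Finset ι, ∑ ω ∈ (univ.erase (0 : ∀ i, ZMod (q i) × ZMod (q i))).filter (fun ω => sp ω = S), β (sp ω) * Fn (φ ω) :=
        (sum_fiberwise _ _ _).symm
    _ ≤ ∑ S : Finset ι, M ^ Fintype.card ι * (2 * (N : ℝ) ^ 3 / √(d : ℝ) + (N : ℝ) ^ 2 * √(d : ℝ)) := by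
        refine sum_le_sum fun S _ => ?_
        refine le_trans (le_of_eq ?_) ((mul_le_mul_of_nonneg_left (hinner S) (hβ0 S)).trans (hterm S))
        rw [mul_sum]
        refine sum_congr rfl fun ω hω => ?_
        rw [(mem_filter.1 hω).2]
    _ = _ := by
        rw [sum_const, card_univ, Fintype.card_finset, nsmul_eq_mul, mul_pow]
        push_cast
        ring

end

end Run7.h914
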