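import Pool.Agent.Run7.h914.Pts

/-! The points of the Artin-Schreier covers. -/

set_option autoImplicit false
set_option linter.all false
set_option linter.overlappingInstances false

open Module FF Pool.Agent.H525R3.FFp Pool.Agent.W132.AG Pool.Agent.W493.MX Pool.Agent.W343.BSD Polynomial
open IsDedekindDomain Pool.Agent.R410.PW

namespace Run7.h914

section
variable {k : Type} [Field k] {p : ℕ} [Fact p.Prime] [CharP k p]

theorem gC_AB {n : ℕ} (hn : 1 ≤ n) (h l : k) :
    C (C (n : k)) * gC k p n h l + (X ^ p - X - C (C h * X)) * derivative (gC k p n h l) =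
      C (C ((n : k) * l ^ n) * (X ^ n + 1)) := by
  have hp : ((p : ℕ) : k[X][X]) = 0 := by
    rw [← map_natCast (C : k[X] →+* k[X][X]), ← map_natCast (C : k →+* k[X]), CharP.cast_eq_zero k p, C_0, C_0]
  have h1 : derivative (X ^ p - X - C (C h * X) : k[X][X]) = -1 := by
    rw [derivative_sub, derivative_sub, derivative_X_pow, derivative_X, derivative_C, map_natCast, hp]
    ring
  have h2 : derivative (gC k p n h l) = - (C (C (n : k)) * (X ^ p - X - C (C h * X)) ^ (n - 1)) := by
    unfold gC
    rw [derivative_add, derivative_C, add_zero, derivative_pow, h1]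
    have e : (C (C (n : k)) : k[X][X]) = C ((n : k[X])) := by rw [map_natCast]
    rw [e]
    ring
  have h3 : (X ^ p - X - C (C h * X) : k[X][X]) ^ n = (X ^ p - X - C (C h * X)) * (X ^ p - X - C (C h * X)) ^ (n - 1) := by
    rw [← pow_succ']; congr 1; omega
  rw [h2]
  unfold gC
  rw [h3]
  simp only [C_mul]
  ring

theorem gC_fix {n : ℕ} {h l : k} (hh : h ^ p = h) (hl : l ^ p = l) (i j : ℕ) :
    (((gC k p n h l).coeff i).coeff j) ^ p ^ 1 = ((gC k p n h l).coeff i).coeff j := by
  have h1 : (gC k p n h l).map (mapRingHom (frobenius k p)) = gC k p n h l := by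
    unfold gC
    simp only [Polynomial.map_add, Polynomial.map_pow, Polynomial.map_sub, map_X, map_C, coe_mapRingHom, Polynomial.map_mul,
      Polynomial.map_one, frobenius_def, hh, hl]
    rw [← pow_mul, mul_comm n p, pow_mul, hl]
  have h2 := congrArg (fun g : k[X][X] => (g.coeff i).coeff j) h1
  simp only [coeff_map, coe_mapRingHom, frobenius_def] at h2
  rw [pow_one]
  exact h2

variable [IsAlgClosed k]

/-- the telescoping sum -/
theorem tele (w : k) (m : ℕ) : ∑ i ∈ Finset.range m, (w ^ p - w) ^ (p ^ i) = w ^ (p ^ m) - w := by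
  induction m with
  | zero => simp
  | succ m ih =>
    rw [Finset.sum_range_succ, ih, sub_pow_char_pow, ← pow_mul, ← pow_succ']
    ring

open Classical in
/-- the fixed points of the Artin-Schreier equation -/
noncomputable def RA (k : Type) [Field k] (p m : ℕ) (v : k) : Finset k :=
  (X ^ p - X - C v : k[X]).roots.toFinset.filter (fun w => w ^ (p ^ m) = w)

theorem mem_RA {m : ℕ} {v w : k} : w ∈ RA k p m v ↔ w ^ p - w = v ∧ w ^ (p ^ m) = w := by
  classical
  have hp : 1 < p := (Fact.out : p.Prime).one_lt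
  unfold RA
  rw [Finset.mem_filter, Multiset.mem_toFinset, mem_roots (AS_monic hp v).1.ne_zero, IsRoot.def]
  simp only [eval_sub, eval_pow, eval_X, eval_C, sub_eq_zero]

open Classical in
theorem card_RA {m : ℕ} (v : k) :
    (RA k p m v).card = if ∑ i ∈ Finset.range m, v ^ (p ^ i) = 0 then p else 0 := by
  classical
  have hp : 1 < p := (Fact.out : p.Prime).one_lt
  obtain ⟨hm, hd⟩ := AS_monic (R := k) hp v
  split_ifs with h
  · have h1 : RA k p m v = (X ^ p - X - C v : k[X]).roots.toFinset := by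
      unfold RA
      rw [Finset.filter_eq_self]
      intro w hw
      rw [Multiset.mem_toFinset, mem_roots hm.ne_zero, IsRoot.def] at hw
      simp only [eval_sub, eval_pow, eval_X, eval_C, sub_eq_zero] at hw
      have h2 := tele (p := p) w m
      rw [hw, h] at h2
      exact (sub_eq_zero.1 h2.symm)
    have h2 : (X ^ p - X - C v : k[X]).Separable := by
      rw [Polynomial.separable_def']
      refine ⟨0, -1, ?_⟩
      rw [derivative_sub, derivative_sub, derivative_X_pow, derivative_X, derivative_C]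
      simp
    rw [h1, Multiset.toFinset_card_of_nodup (nodup_roots h2), ← (IsAlgClosed.splits (X ^ p - X - C v : k[X])).natDegree_eq_card_roots, hd]
  · rw [Finset.card_eq_zero]
    ext w
    rw [mem_RA]
    simp only [Finset.notMem_empty, iff_false]
    rintro ⟨h1, h2⟩
    apply h
    have h3 := tele (p := p) w m
    rw [h1, h2, sub_self] at h3
    exact h3

open Classical in
theorem card_cover {n : ℕ} (hn : 0 < n) {h l : k} (hh : h ^ p = h) (hl : l ^ p = l) (hl0 : l ≠ 0) (m : ℕ)
    (Z Zc : Finset (k × k)) (hZ : ∀ z, z ∈ Z ↔ z ∈ Pt (X ^ n + C (X ^ n + 1) : k[X][X]) (p ^ m))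
    (hZc : ∀ z, z ∈ Zc ↔ z ∈ Pt (gC k p n h l) (p ^ m)) :
    Zc.card = ∑ z ∈ Z, if ∑ i ∈ Finset.range m, (h * z.1 + l * z.2) ^ (p ^ i) = 0 then p else 0 := by
  classical
  rw [Finset.sum_congr rfl fun z _ => (card_RA (p := p) (m := m) (h * z.1 + l * z.2)).symm, ← Finset.card_sigma]
  have hev : ∀ a b : k, evalEval a b (X ^ n + C (X ^ n + 1) : k[X][X]) = b ^ n + (a ^ n + 1) := by
    intro a b
    simp [evalEval]
  have hevc : ∀ a b : k, evalEval a b (gC k p n h l) = (b ^ p - b - h * a) ^ n + l ^ n * (a ^ n + 1) := by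
    intro a b
    simp [evalEval, gC]
  have hpow : ∀ a : k, a ^ p = a → a ^ p ^ m = a := by
    intro a ha
    induction m with
    | zero => simp
    | succ m ih =>
      clear hZ hZc
      have : ∀ j : ℕ, a ^ p ^ j = a := by
        intro j
        induction j with
        | zero => simp
        | succ j ihj => rw [pow_succ, pow_mul, ihj, ha]
      exact this _
  symm
  refine Finset.card_bij' (fun s _ => (s.1.1, s.2)) (fun z _ => ⟨(z.1, (z.2 ^ p - z.2 - h * z.1) / l), z.2⟩) ?_ ?_ ?_ ?_
  · rintro ⟨⟨a, b⟩, w⟩ hs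
    rw [Finset.mem_sigma, hZ, mem_RA] at hs
    obtain ⟨⟨h1, h2, h3⟩, h4, h5⟩ := hs
    simp only at h1 h2 h3 h4 h5
    rw [hZc]
    refine ⟨h1, h5, ?_⟩
    rw [hevc, h4]
    rw [hev] at h3
    have e : h * a + l * b - h * a = l * b := by ring
    rw [e, mul_pow, ← mul_add, h3, mul_zero]
  · rintro ⟨a, w⟩ hz
    rw [hZc] at hz
    obtain ⟨h1, h2, h3⟩ := hz
    simp only at h1 h2 h3
    rw [Finset.mem_sigma, hZ, mem_RA]
    refine ⟨⟨h1, ?_, ?_⟩, ?_, h2⟩
    · simp only
      rw [div_pow, hpow l hl, sub_pow_char_pow, sub_pow_char_pow, mul_pow, hpow h hh, h1, ← pow_mul, mul_comm p (p ^ m), pow_mul, h2]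
    · simp only
      rw [hev]
      rw [hevc] at h3
      rw [div_pow, div_add' _ _ _ (pow_ne_zero n hl0), mul_comm (a ^ n + 1), h3, zero_div]
    · simp only
      rw [mul_div_cancel₀ _ hl0]; ring
  · rintro ⟨⟨a, b⟩, w⟩ hs
    rw [Finset.mem_sigma, hZ, mem_RA] at hs
    obtain ⟨-, h4, -⟩ := hs
    simp only at h4
    simp only
    have : (w ^ p - w - h * a) / l = b := by
      rw [h4, div_eq_iff hl0]; ring
    rw [this]
  · rintro ⟨a, w⟩ _
    rfl

end

end Run7.h914
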