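import Pool.Agent.N39.RG.Pairs

/-! From exponential sums with square root cancellation to record gaps. -/

set_option autoImplicit false
set_option linter.all false

namespace Run7.h914

open Finset Filter
open Pool.Agent.W147.PS (ff)

open scoped Classical in
theorem rec_of_sums (r E : ℕ) (δ : ℝ) (hδ : 0 < δ) (hδ1 : δ ≤ 1) :
    ∃ κ : ℝ, 0 < κ ∧ ∃ p₀ : ℕ, ∀ (p : ℕ) [Fact p.Prime], p₀ ≤ p →
    ∀ (ι : Type) (S : Finset ι) (R : ι → Fin r → ZMod p), (p : ℝ) / 2 ≤ S.card →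
    (∀ α : Fin r → ZMod p, α ≠ 0 →
      ‖∑ i ∈ S, (ZMod.stdAddChar (∑ j, α j * R i j) : ℂ)‖ ≤ (p : ℝ) ^ (δ / 8) * √(p : ℝ)) →
    ∀ (M : Fin r → ℤ) (L : Fin r → ℕ), (∀ j, (p : ℝ) ^ δ ≤ L j ∧ L j ≤ p) →
      (p : ℝ) ^ ((r : ℝ) - 1 / 2 + δ) ≤ ∏ j, (L j : ℝ) →
    (p : ℝ) ^ (-δ) * (p * ∏ j, ((L j : ℝ) / p)) ≤
      ((S.filter (fun i => ∃ z : Fin r → ℤ,
        (∀ j, M j < z j ∧ z j ≤ M j + L j ∧ ((z j : ℤ) : ZMod p) = R i j) ∧
        ∀ e : Fin r → ℕ, (∀ j, e j ≤ E) → Finset.univ.gcd e = 1 →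
          ∀ m : ℤ, |(m : ℝ) - ∏ j, (z j : ℝ) ^ e j| ≤ κ * ff p →
            ∃ l : ℕ, l.Prime ∧ (l : ℝ) ≤ (p : ℝ) ^ δ ∧ (l : ℤ) ∣ m)).card : ℝ) := by
  obtain ⟨κ, hκ, p₁, h⟩ := Pool.Agent.N39.RG.mainE r E (δ / 2) (by linarith) (by linarith)
  have hev : ∀ᶠ x : ℝ in atTop, 2 ≤ x ^ (δ / 2) ∧ 2 ≤ x ^ (δ / 8) := by
    filter_upwards [(tendsto_rpow_atTop (by positivity : 0 < δ / 2)).eventually_ge_atTop 2,
      (tendsto_rpow_atTop (by positivity : 0 < δ / 8)).eventually_ge_atTop 2] with x h1 h2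
    exact ⟨h1, h2⟩
  obtain ⟨x₀, hx₀⟩ := eventually_atTop.mp hev
  obtain ⟨p₂, hp₂⟩ := exists_nat_ge x₀
  refine ⟨κ, hκ, max p₁ p₂, ?_⟩
  intro p _ hpp ι S R hS hE M L hL hV
  have hp : p.Prime := Fact.out
  obtain ⟨g2, gC⟩ := hx₀ p (hp₂.trans (by exact_mod_cast (le_max_right _ _).trans hpp))
  have hp1 : (1 : ℝ) < p := by exact_mod_cast hp.one_lt
  have hp0 : (0 : ℝ) < p := by linarith
  have hmo : ∀ x y : ℝ, x ≤ y → (p : ℝ) ^ x ≤ (p : ℝ) ^ y := fun x y h =>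
    Real.rpow_le_rpow_of_exponent_le hp1.le h
  have hSne : S.Nonempty := by
    rw [← Finset.card_pos]
    have : (0 : ℝ) < S.card := by linarith
    exact_mod_cast this
  have key := h p ((le_max_left _ _).trans hpp) (1 / 2 - δ / 4) ι S R hSne (by
      intro α hα
      refine (hE α hα).trans ?_
      have h1 : (p : ℝ) / 2 * (p : ℝ) ^ (-(1 / 2 - δ / 4)) ≤ S.card * (p : ℝ) ^ (-(1 / 2 - δ / 4)) :=
        mul_le_mul_of_nonneg_right hS (Real.rpow_nonneg hp0.le _)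
      refine le_trans ?_ h1
      have h2 : (p : ℝ) / 2 * (p : ℝ) ^ (-(1 / 2 - δ / 4)) = √(p : ℝ) * (p : ℝ) ^ (δ / 4) / 2 := by
        rw [Real.sqrt_eq_rpow, ← Real.rpow_add hp0, div_mul_eq_mul_div]
        congr 1
        nth_rewrite 1 [← Real.rpow_one (p : ℝ)]
        rw [← Real.rpow_add hp0]
        congr 1
        ring
      rw [h2]
      have h3 : 0 ≤ √(p : ℝ) := Real.sqrt_nonneg _
      have h4 : (p : ℝ) ^ (δ / 4) = (p : ℝ) ^ (δ / 8) * (p : ℝ) ^ (δ / 8) := by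
        rw [← Real.rpow_add hp0]; congr 1; ring
      have h5 : 0 < (p : ℝ) ^ (δ / 8) := Real.rpow_pos_of_pos hp0 _
      have h6 : 2 * (p : ℝ) ^ (δ / 8) ≤ (p : ℝ) ^ (δ / 4) := by rw [h4]; exact mul_le_mul_of_nonneg_right gC h5.le
      have h7 := mul_le_mul_of_nonneg_left h6 h3
      linarith) M L (fun j => (hL j).2) (fun j => (hmo _ _ (by linarith)).trans (hL j).1)
    ((hmo _ _ (by linarith)).trans hV)
  have hQ0 : 0 ≤ ∏ j, ((L j : ℝ) / p) := prod_nonneg fun j _ => by positivity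
  have h4 : (p : ℝ) ^ (-δ) * (p * ∏ j, ((L j : ℝ) / p)) ≤
      (p : ℝ) ^ (-(δ / 2)) * (S.card * ∏ j, ((L j : ℝ) / p)) := by
    rw [← mul_assoc, ← mul_assoc]
    refine mul_le_mul_of_nonneg_right ?_ hQ0
    have h5 : (p : ℝ) ^ (-δ) = (p : ℝ) ^ (-(δ / 2)) * (p : ℝ) ^ (-(δ / 2)) := by
      rw [← Real.rpow_add hp0]; congr 1; ring
    rw [h5, mul_assoc]
    refine mul_le_mul_of_nonneg_left ?_ (Real.rpow_nonneg hp0.le _)
    refine le_trans ?_ hS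
    rw [Real.rpow_neg hp0.le, inv_mul_eq_div, div_le_div_iff₀ (Real.rpow_pos_of_pos hp0 _) (by norm_num)]
    nlinarith
  refine h4.trans (key.trans ?_)
  have h5 := Pool.Agent.N39.RG.fam_to_index S R M L (fun j => (hL j).2) (fun z => ∀ e : Fin r → ℕ, (∀ i, e i ≤ E) →
        Finset.univ.gcd e = 1 → Pool.Agent.N39.RG.Far (∏ i, z i ^ e i) (κ * Pool.Agent.W147.PS.ff p) ((p : ℝ) ^ (δ / 2)))
  refine le_trans (Nat.cast_le.mpr h5) ?_
  rw [Nat.cast_le]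
  apply card_le_card
  intro q hq
  rw [mem_filter] at hq ⊢
  obtain ⟨h6, z, h7, h8⟩ := hq
  refine ⟨h6, z, h7, fun e he hg m hm => ?_⟩
  obtain ⟨l, hl, hl2, hl3⟩ := h8 e he hg m (by
    push_cast
    exact hm)
  exact ⟨l, hl, hl2.trans (hmo _ _ (by linarith)), hl3⟩

end Run7.h914
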