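import Pool.Agent.Run7.h914.Ratc
import Pool.Agent.Run7.h914.Rsum

/-! Record gaps at the points of curves modulo primes. -/

set_option autoImplicit false
set_option linter.all false

open Polynomial Filter

namespace Run7.h914

open Pool.Agent.W147.PS (ff)
open Pool.Agent.R410.PW (WC)

/-- the exact total degree -/
theorem exists_deg {K : Type} [Field K] {F : K[X][X]} {d : ℕ} (hF : TD F d) {i j : ℕ} (hij : 2 ≤ i + j)
    (h : (F.coeff i).coeff j ≠ 0) : ∃ m, 2 ≤ m ∧ m ≤ d ∧ TD F m ∧ ∃ i ≤ m, (F.coeff i).coeff (m - i) ≠ 0 := by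
  classical
  have hex : ∃ m, TD F m := ⟨d, hF⟩
  set m := Nat.find hex with hm
  have h1 : TD F m := Nat.find_spec hex
  have h2 : m ≤ d := Nat.find_min' hex hF
  have h3 : i + j ≤ m := by
    by_contra hc
    exact h (h1 i j (by omega))
  refine ⟨m, by omega, h2, h1, ?_⟩
  by_contra hc
  push Not at hc
  have h4 : TD F (m - 1) := by
    intro a b hab
    by_cases hab' : m < a + b
    · exact h1 a b hab'
    · have e : b = m - a := by omega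
      rw [e]
      exact hc a (by omega)
  exact Nat.find_min hex (m := m - 1) (by omega) h4

theorem EG_le {m : ℕ} (hm : 1 ≤ m) : EG m m (2 * m * m) ≤ 12 * m ^ 4 := by
  unfold EG
  have h1 : m ^ 3 ≤ m ^ 4 := Nat.pow_le_pow_right hm (by norm_num)
  have h2 : m ^ 2 ≤ m ^ 4 := Nat.pow_le_pow_right hm (by norm_num)
  have h3 : m ^ 1 ≤ m ^ 4 := Nat.pow_le_pow_right hm (by norm_num)
  have h4 : 1 ≤ m ^ 4 := Nat.one_le_pow _ _ hm
  rw [pow_one] at h3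
  have e : (m * m * m + 1) * (m + 1) + (2 * (m * m) + 1) * (m * m) + (2 * m * m * m + (m + 2 * m * m * m)) =
      3 * m ^ 4 + 5 * m ^ 3 + m ^ 2 + 2 * m + 1 := by ring
  rw [e]
  omega

theorem WC_le {m : ℕ} (hm : 1 ≤ m) : WC m m (2 * m * m) ≤ 9 * m ^ 4 := by
  unfold WC
  have h1 : m ^ 3 ≤ m ^ 4 := Nat.pow_le_pow_right hm (by norm_num)
  have h3 : m ^ 1 ≤ m ^ 4 := Nat.pow_le_pow_right hm (by norm_num)
  have h4 : 1 ≤ m ^ 4 := Nat.one_le_pow _ _ hm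
  rw [pow_one] at h3
  have e : (m * m * m + 1) * (m + 1) + 1 + (1 + m + 2 * m * m * m) = m ^ 4 + 3 * m ^ 3 + 2 * m + 3 := by ring
  rw [e]
  omega

/-- the growth conditions -/
theorem ev_large (δ : ℝ) (hδ : 0 < δ) (hδ1 : δ ≤ 1) : ∃ p₁ : ℕ, ∀ p : ℕ, p₁ ≤ p → ∀ d : ℕ, (d : ℝ) ≤ (p : ℝ) ^ (δ / 50) →
    193 * (d + 1 : ℝ) ^ 4 ≤ 3100 * (p : ℝ) ^ (δ * (2 / 25)) ∧ 3100 * (p : ℝ) ^ (δ * (2 / 25)) ≤ (p : ℝ) ^ (δ / 8) ∧
    20 * (d + 1 : ℝ) ^ 4 ≤ √(p : ℝ) ∧ (d + 1) * (d + 1) < p := by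
  have hev : ∀ᶠ x : ℝ in atTop, 3100 ≤ x ^ (δ * (9 / 200)) ∧ 320 ≤ x ^ (1 / 4 : ℝ) ∧ 1 ≤ x := by
    filter_upwards [(tendsto_rpow_atTop (by positivity : 0 < δ * (9 / 200))).eventually_ge_atTop 3100,
      (tendsto_rpow_atTop (by norm_num : (0 : ℝ) < 1 / 4)).eventually_ge_atTop 320, eventually_ge_atTop 1] with x h1 h2 h3
    exact ⟨h1, h2, h3⟩
  obtain ⟨x₀, hx₀⟩ := eventually_atTop.mp hev
  obtain ⟨p₂, hp₂⟩ := exists_nat_ge x₀
  refine ⟨p₂, fun p hp d hd => ?_⟩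
  obtain ⟨g1, g2, g3⟩ := hx₀ p (hp₂.trans (by exact_mod_cast hp))
  have hp0 : (0 : ℝ) < p := by linarith
  have h1 : (1 : ℝ) ≤ (p : ℝ) ^ (δ / 50) := Real.one_le_rpow g3 (by positivity)
  have h2 : (d + 1 : ℝ) ≤ 2 * (p : ℝ) ^ (δ / 50) := by linarith
  have hd0 : (0 : ℝ) ≤ d := Nat.cast_nonneg d
  have h3 : (d + 1 : ℝ) ^ 4 ≤ 16 * (p : ℝ) ^ (δ * (2 / 25)) := by
    have h4 : (d + 1 : ℝ) ^ 4 ≤ (2 * (p : ℝ) ^ (δ / 50)) ^ 4 := pow_le_pow_left₀ (by linarith) h2 4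
    refine h4.trans (le_of_eq ?_)
    rw [mul_pow, ← Real.rpow_natCast ((p : ℝ) ^ (δ / 50)) 4, ← Real.rpow_mul hp0.le]
    have : δ / 50 * ((4 : ℕ) : ℝ) = δ * (2 / 25) := by push_cast; ring
    rw [this]
    norm_num
  have hP : 0 < (p : ℝ) ^ (δ * (2 / 25)) := Real.rpow_pos_of_pos hp0 _
  have h5 : 20 * (d + 1 : ℝ) ^ 4 ≤ √(p : ℝ) := by
    have h6 : √(p : ℝ) = (p : ℝ) ^ (1 / 4 : ℝ) * (p : ℝ) ^ (1 / 4 : ℝ) := by
      rw [Real.sqrt_eq_rpow, ← Real.rpow_add hp0]; norm_num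
    have h7 : (p : ℝ) ^ (δ * (2 / 25)) ≤ (p : ℝ) ^ (1 / 4 : ℝ) :=
      Real.rpow_le_rpow_of_exponent_le g3 (by linarith)
    rw [h6]
    have h8 : 0 < (p : ℝ) ^ (1 / 4 : ℝ) := Real.rpow_pos_of_pos hp0 _
    nlinarith
  refine ⟨by linarith, ?_, h5, ?_⟩
  · have h6 : (p : ℝ) ^ (δ / 8) = (p : ℝ) ^ (δ * (9 / 200)) * (p : ℝ) ^ (δ * (2 / 25)) := by
      rw [← Real.rpow_add hp0]; congr 1; ring
    rw [h6]
    exact mul_le_mul_of_nonneg_right g1 hP.le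
  · have h6 : ((d : ℝ) + 1) * (d + 1) < p := by
      have h7 : √(p : ℝ) ^ 2 = p := Real.sq_sqrt hp0.le
      have h8 : (1 : ℝ) ≤ d + 1 := by linarith
      have h9 : (d + 1 : ℝ) ≤ (d + 1 : ℝ) ^ 4 := by
        have : (1 : ℝ) ≤ (d + 1 : ℝ) ^ 3 := one_le_pow₀ h8
        nlinarith
      have h10 : (d + 1 : ℝ) < √(p : ℝ) := by nlinarith
      nlinarith
    exact_mod_cast h6

/-- **Plane curves.** -/
theorem rec_curve (E : ℕ) (δ : ℝ) (hδ : 0 < δ) (hδ1 : δ ≤ 1) :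
    ∃ κ : ℝ, 0 < κ ∧ ∃ p₀ : ℕ, ∀ (p : ℕ) [Fact p.Prime], p₀ ≤ p →
    ∀ (d : ℕ) (F : (ZMod p)[X][X]), (d : ℝ) ≤ (p : ℝ) ^ (δ / 50) → TD F d → (∃ i j, 2 ≤ i + j ∧ (F.coeff i).coeff j ≠ 0) → AbsIrr F →
    ∀ (M : Fin 2 → ℤ) (L : Fin 2 → ℕ), (∀ j, (p : ℝ) ^ δ ≤ L j ∧ L j ≤ p) →
      (p : ℝ) ^ (3 / 2 + δ) ≤ L 0 * L 1 →
    (p : ℝ) ^ (-δ) * (L 0 * L 1 / p) ≤
      (Set.ncard {z : Fin 2 → ℤ | (∀ j, M j < z j ∧ z j ≤ M j + L j) ∧
        evalEval (z 0 : ZMod p) (z 1 : ZMod p) F = 0 ∧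
        ∀ e : Fin 2 → ℕ, (∀ j, e j ≤ E) → Nat.Coprime (e 0) (e 1) →
          ∀ m : ℤ, |(m : ℝ) - (z 0 : ℝ) ^ e 0 * (z 1 : ℝ) ^ e 1| ≤ κ * ff p →
            ∃ l : ℕ, l.Prime ∧ (l : ℝ) ≤ (p : ℝ) ^ δ ∧ (l : ℤ) ∣ m} : ℝ) := by
  classical
  obtain ⟨κ, hκ, p₁, h⟩ := rec_of_sums 2 E δ hδ hδ1
  obtain ⟨p₂, h'⟩ := ev_large δ hδ hδ1
  refine ⟨κ, hκ, max p₁ p₂, ?_⟩
  intro p _ hpp d F hdp hF hij hirr M L hL hV
  have hp : p.Prime := Fact.out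
  have hp1 : p₁ ≤ p := (le_max_left _ _).trans hpp
  obtain ⟨a1, a2, a3, a4⟩ := h' p ((le_max_right _ _).trans hpp) d hdp
  have hp0 : (0 : ℝ) < p := by exact_mod_cast hp.pos
  obtain ⟨i, j, hij1, hij2⟩ := hij
  obtain ⟨m, hm2, hmd, hTD, i', hi', htop⟩ := exists_deg hF hij1 hij2
  have hmp : m * m < p := lt_of_le_of_lt (Nat.mul_le_mul (by omega) (by omega)) a4
  have hcard := card_curve hTD hi' htop hm2 hmp hirr
  have hsq : √(p : ℝ) ^ 2 = p := Real.sq_sqrt hp0.le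
  have hsq0 : 0 < √(p : ℝ) := Real.sqrt_pos.2 hp0
  have hmd' : (m : ℝ) ≤ d + 1 := by
    have : (m : ℝ) ≤ d := by exact_mod_cast hmd
    linarith
  have hm4 : (m : ℝ) ^ 4 ≤ (d + 1 : ℝ) ^ 4 := pow_le_pow_left₀ (Nat.cast_nonneg m) hmd' 4
  have hWs : (WC m m (2 * m * m) : ℝ) * √(p : ℝ) ≤ p / 2 := by
    have h1 : (WC m m (2 * m * m) : ℝ) ≤ 9 * (m : ℝ) ^ 4 := by exact_mod_cast WC_le (m := m) (by omega)
    have h2 : 2 * (WC m m (2 * m * m) : ℝ) ≤ √(p : ℝ) := by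
      have : (0 : ℝ) ≤ (d + 1 : ℝ) ^ 4 := by positivity
      linarith
    nlinarith
  have hS : (p : ℝ) / 2 ≤ (ZG F).card := by
    rw [abs_le] at hcard
    linarith [hcard.1]
  have key := h p hp1 (ZMod p × ZMod p) (ZG F) (fun q j => if j = 0 then q.1 else q.2) hS (by
      intro α hα
      have h1 : α 0 ≠ 0 ∨ α 1 ≠ 0 := by
        by_contra hc
        push Not at hc
        apply hα
        funext j
        fin_cases j
        · exact hc.1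
        · exact hc.2
      have h2 := exp_curve hTD hi' htop hm2 hmp hirr (α 0) (α 1) h1
      have h3 : ∀ q : ZMod p × ZMod p, (∑ j : Fin 2, α j * (if j = 0 then q.1 else q.2)) = α 0 * q.1 + α 1 * q.2 := by
        intro q
        rw [Fin.sum_univ_two]
        simp
      simp_rw [h3]
      refine h2.trans (mul_le_mul_of_nonneg_right ?_ hsq0.le)
      have h4 : (EG m m (2 * m * m) : ℝ) ≤ 12 * (m : ℝ) ^ 4 := by exact_mod_cast EG_le (m := m) (by omega)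
      have : (0 : ℝ) ≤ (d + 1 : ℝ) ^ 4 := by positivity
      linarith) M L hL (by
      rw [Fin.prod_univ_two]
      refine le_trans (le_of_eq ?_) hV
      congr 1
      norm_num)
  rw [Fin.prod_univ_two] at key
  have h6 : (p : ℝ) * ((L 0 : ℝ) / p * (L 1 / p)) = L 0 * L 1 / p := by field_simp
  rw [h6] at key
  refine key.trans ?_
  rw [Nat.cast_le]
  set T := (ZG F).filter (fun q => ∃ z : Fin 2 → ℤ,
        (∀ j, M j < z j ∧ z j ≤ M j + L j ∧ ((z j : ℤ) : ZMod p) = if j = 0 then q.1 else q.2) ∧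
        ∀ e : Fin 2 → ℕ, (∀ j, e j ≤ E) → Finset.univ.gcd e = 1 →
          ∀ m : ℤ, |(m : ℝ) - ∏ j, (z j : ℝ) ^ e j| ≤ κ * ff p →
            ∃ l : ℕ, l.Prime ∧ (l : ℝ) ≤ (p : ℝ) ^ δ ∧ (l : ℤ) ∣ m) with hT
  have hch : ∀ q : ZMod p × ZMod p, ∃ z : Fin 2 → ℤ, q ∈ T → ((∀ j, M j < z j ∧ z j ≤ M j + L j ∧
        ((z j : ℤ) : ZMod p) = if j = 0 then q.1 else q.2) ∧
        ∀ e : Fin 2 → ℕ, (∀ j, e j ≤ E) → Finset.univ.gcd e = 1 →
          ∀ m : ℤ, |(m : ℝ) - ∏ j, (z j : ℝ) ^ e j| ≤ κ * ff p →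
            ∃ l : ℕ, l.Prime ∧ (l : ℝ) ≤ (p : ℝ) ^ δ ∧ (l : ℤ) ∣ m) := by
    intro q
    by_cases hq : q ∈ T
    · rw [hT, Finset.mem_filter] at hq
      obtain ⟨-, z, hz⟩ := hq
      exact ⟨z, fun _ => hz⟩
    · exact ⟨0, fun h => absurd h hq⟩
  choose Z hZ using hch
  rw [← Set.ncard_coe_finset T]
  refine Set.ncard_le_ncard_of_injOn Z ?_ ?_ ?_
  · intro q hq
    obtain ⟨h1, h2⟩ := hZ q hq
    have hqF : q ∈ ZG F := (Finset.mem_filter.1 hq).1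
    refine ⟨fun j => ⟨(h1 j).1, (h1 j).2.1⟩, ?_, ?_⟩
    · have e0 := (h1 0).2.2
      have e1 := (h1 1).2.2
      rw [if_pos rfl] at e0
      rw [if_neg (by decide)] at e1
      rw [e0, e1]
      exact mem_ZG.1 hqF
    · intro e he hco m hm
      refine h2 e he ?_ m ?_
      · have : (Finset.univ : Finset (Fin 2)).gcd e = Nat.gcd (e 0) (e 1) := by
          have hu : (Finset.univ : Finset (Fin 2)) = {0, 1} := by decide
          rw [hu, Finset.gcd_insert, Finset.gcd_singleton]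
          simp [gcd_eq_nat_gcd]
        rw [this]
        exact hco
      · rw [Fin.prod_univ_two]
        exact hm
  · intro q hq q' hq' heq
    have h1 := (hZ q hq).1
    have h2 := (hZ q' hq').1
    have a0 := (h1 0).2.2
    have a1 := (h1 1).2.2
    have b0 := (h2 0).2.2
    have b1 := (h2 1).2.2
    rw [heq] at a0 a1
    rw [if_pos rfl] at a0 b0
    rw [if_neg (by decide)] at a1 b1
    exact Prod.ext (a0.symm.trans b0) (a1.symm.trans b1)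
  · have : Set.Finite {z : Fin 2 → ℤ | ∀ j, z j ∈ Set.Icc (M j) (M j + L j)} := by
      have h1 : {z : Fin 2 → ℤ | ∀ j, z j ∈ Set.Icc (M j) (M j + L j)} = Set.Icc M (fun j => M j + L j) := by
        ext z
        simp only [Set.mem_setOf_eq, Set.mem_Icc, Pi.le_def]
        exact ⟨fun h => ⟨fun j => (h j).1, fun j => (h j).2⟩, fun h j => ⟨h.1 j, h.2 j⟩⟩
      rw [h1]
      exact Set.finite_Icc _ _
    exact this.subset fun z hz j => ⟨(hz.1 j).1.le, (hz.1 j).2⟩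

open scoped Classical in
/-- **Rational functions.** -/
theorem rec_rat (r E : ℕ) (δ : ℝ) (hδ : 0 < δ) (hδ1 : δ ≤ 1) :
    ∃ κ : ℝ, 0 < κ ∧ ∃ p₀ : ℕ, ∀ (p : ℕ) [Fact p.Prime], p₀ ≤ p →
    ∀ (d : ℕ) (N : Fin r → (ZMod p)[X]) (Q : (ZMod p)[X]), (d : ℝ) ≤ (p : ℝ) ^ (δ / 50) →
    (∀ j, (N j).natDegree ≤ d) → Q.natDegree ≤ d → Q ≠ 0 →
    (∀ (α : Fin r → ZMod p) (c : ZMod p), ∑ j, C (α j) * N j = C c * Q → α = 0) →
    ∀ (M : Fin r → ℤ) (L : Fin r → ℕ), (∀ j, (p : ℝ) ^ δ ≤ L j ∧ L j ≤ p) →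
      (p : ℝ) ^ ((r : ℝ) - 1 / 2 + δ) ≤ ∏ j, (L j : ℝ) →
    (p : ℝ) ^ (-δ) * (p * ∏ j, ((L j : ℝ) / p)) ≤
      ((Finset.univ.filter (fun x : ZMod p => Q.eval x ≠ 0 ∧ ∃ z : Fin r → ℤ,
        (∀ j, M j < z j ∧ z j ≤ M j + L j ∧ ((z j : ℤ) : ZMod p) = (N j).eval x / Q.eval x) ∧
        ∀ e : Fin r → ℕ, (∀ j, e j ≤ E) → Finset.univ.gcd e = 1 →
          ∀ m : ℤ, |(m : ℝ) - ∏ j, (z j : ℝ) ^ e j| ≤ κ * ff p →
            ∃ l : ℕ, l.Prime ∧ (l : ℝ) ≤ (p : ℝ) ^ δ ∧ (l : ℤ) ∣ m)).card : ℝ) := by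
  obtain ⟨κ, hκ, p₁, h⟩ := rec_of_sums r E δ hδ hδ1
  obtain ⟨p₂, h'⟩ := ev_large δ hδ hδ1
  refine ⟨κ, hκ, max p₁ p₂, ?_⟩
  intro p _ hpp d N Q hdp hN hQd hQ hind M L hL hV
  have hp : p.Prime := Fact.out
  have hp1 : p₁ ≤ p := (le_max_left _ _).trans hpp
  obtain ⟨a1, a2, a3, a4⟩ := h' p ((le_max_right _ _).trans hpp) d hdp
  have hp0 : (0 : ℝ) < p := by exact_mod_cast hp.pos
  have hsq : √(p : ℝ) ^ 2 = p := Real.sq_sqrt hp0.le
  have hsq0 : 0 < √(p : ℝ) := Real.sqrt_pos.2 hp0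
  have hd0 : (0 : ℝ) ≤ d := Nat.cast_nonneg d
  have hd4 : (d : ℝ) + 1 ≤ (d + 1 : ℝ) ^ 4 := by
    have : (1 : ℝ) ≤ (d + 1 : ℝ) ^ 3 := one_le_pow₀ (by linarith)
    nlinarith
  have hp1' : (1 : ℝ) ≤ √(p : ℝ) := by linarith
  set S : Finset (ZMod p) := Finset.univ.filter (fun x => Q.eval x ≠ 0) with hS
  have hScard : (p : ℝ) / 2 ≤ S.card := by
    have h1 := Finset.card_filter_add_card_filter_not (s := (Finset.univ : Finset (ZMod p))) (fun x => Q.eval x = 0)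
    have h2 := card_roots_filter Q hQ
    rw [Finset.card_univ, ZMod.card] at h1
    have h3 : (p : ℝ) ≤ d + S.card := by
      have : p ≤ d + S.card := by
        rw [hS]
        have e : (Finset.univ.filter (fun x : ZMod p => Q.eval x ≠ 0)) = Finset.univ.filter (fun x : ZMod p => ¬ Q.eval x = 0) := rfl
        rw [e]
        omega
      exact_mod_cast this
    nlinarith
  have key := h p hp1 (ZMod p) S (fun x j => (N j).eval x / Q.eval x) hScard (by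
      intro α hα
      have hNd : (∑ j, C (α j) * N j).natDegree ≤ d :=
        natDegree_sum_le_of_forall_le _ _ fun i _ => (natDegree_C_mul_le _ _).trans (hN i)
      have h1 := exp_rat (∑ j, C (α j) * N j) Q hQ hNd hQd (fun c hc => hα (hind α c hc)) a4
      have h2 : ∀ x : ZMod p, (∑ j, α j * ((N j).eval x / Q.eval x)) = (∑ j, C (α j) * N j).eval x / Q.eval x := by
        intro x
        rw [eval_finset_sum, Finset.sum_div]
        refine Finset.sum_congr rfl fun j _ => ?_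
        rw [eval_mul, eval_C, mul_div_assoc]
      simp_rw [h2]
      refine h1.trans ?_
      have h4 : (EG (d + 1) (d + 1) (2 * (d + 1) * (d + 1)) : ℝ) ≤ 12 * (d + 1 : ℝ) ^ 4 := by
        exact_mod_cast EG_le (m := d + 1) (by omega)
      have h5 : (13 : ℝ) * (d + 1 : ℝ) ^ 4 ≤ (p : ℝ) ^ (δ / 8) := by
        have : (0 : ℝ) ≤ (d + 1 : ℝ) ^ 4 := by positivity
        linarith
      have h6 : (EG (d + 1) (d + 1) (2 * (d + 1) * (d + 1)) : ℝ) * √(p : ℝ) ≤ 12 * (d + 1 : ℝ) ^ 4 * √(p : ℝ) :=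
        mul_le_mul_of_nonneg_right h4 hsq0.le
      have h7 : (d : ℝ) ≤ (d + 1 : ℝ) ^ 4 * √(p : ℝ) := by nlinarith
      have h8 := mul_le_mul_of_nonneg_right h5 hsq0.le
      linarith) M L hL hV
  refine key.trans ?_
  rw [Nat.cast_le]
  apply Finset.card_le_card
  intro x hx
  rw [Finset.mem_filter, hS, Finset.mem_filter] at hx
  rw [Finset.mem_filter]
  exact ⟨Finset.mem_univ _, hx.1.2, hx.2⟩

end Run7.h914
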