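import Pool.Agent.Run7.h914.Cov

/-! The exponential sums over the Fermat curve. -/

set_option autoImplicit false
set_option linter.all false
set_option linter.overlappingInstances false

open Module FF Pool.Agent.H525R3.FFp Pool.Agent.W132.AG Pool.Agent.W493.MX Pool.Agent.W343.BSD Polynomial
open IsDedekindDomain Pool.Agent.R410.PW

namespace Run7.h914

/-- the Fermat curve -/
noncomputable def fF (F : Type) [Field F] (n : ℕ) : F[X][X] := X ^ n + C (X ^ n + 1)

section
variable {F : Type} [Field F] {n : ℕ}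

theorem fF_monic (hn : 0 < n) : (fF F n).Monic := monic_X_pow_add_C _ hn.ne'

theorem fF_natDegree (hn : 0 < n) : (fF F n).natDegree = n := natDegree_X_pow_add_C

theorem fF_coeff (hn : 0 < n) (i : ℕ) : ((fF F n).coeff i).natDegree ≤ n := by
  unfold fF
  simp only [coeff_add, coeff_X_pow, coeff_C]
  have h1 : (X ^ n + 1 : F[X]).natDegree ≤ n := by
    rw [← C_1, natDegree_X_pow_add_C]
  split_ifs
  · refine (natDegree_add_le _ _).trans ?_
    rw [natDegree_one]
    exact max_le (Nat.zero_le _) h1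
  · rw [add_zero, natDegree_one]; exact Nat.zero_le _
  · rw [zero_add]; exact h1
  · rw [add_zero, natDegree_zero]; exact Nat.zero_le _

theorem fF_AB (hn : 0 < n) : C (C (n : F)) * fF F n + (- X) * derivative (fF F n) = C (C (n : F) * (X ^ n + 1)) := by
  unfold fF
  have e : (C (C (n : F)) : F[X][X]) = C ((n : F[X])) := by rw [map_natCast]
  have h3 : (X : F[X][X]) ^ n = X * X ^ (n - 1) := by
    rw [← pow_succ']; congr 1; omega
  rw [derivative_add, derivative_C, add_zero, derivative_X_pow, h3, C_mul, e]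
  ring

theorem fF_D (hn : 0 < n) (hnF : (n : F) ≠ 0) : (C (n : F) * (X ^ n + 1) : F[X]) ≠ 0 ∧
    (C (n : F) * (X ^ n + 1) : F[X]).natDegree ≤ n := by
  have h1 : (X ^ n + 1 : F[X]) = X ^ n + C 1 := by rw [C_1]
  constructor
  · apply mul_ne_zero (C_ne_zero.2 hnF)
    rw [h1]
    exact (monic_X_pow_add_C (1 : F) hn.ne').ne_zero
  · refine (natDegree_C_mul_le _ _).trans ?_
    rw [h1, natDegree_X_pow_add_C]

theorem fF_map {k : Type} [Field k] [Algebra F k] : (fF F n).map (mapRingHom (algebraMap F k)) = fF k n := by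
  unfold fF
  simp

theorem fF_irr {k : Type} [Field k] [IsAlgClosed k] (hn : 0 < n) (hnk : (n : k) ≠ 0) : Irreducible (fF k n) := by
  have := irr_base hn hnk (a := (1 : k)) one_ne_zero
  rwa [C_1, one_mul] at this

end

/-- the constant -/
def EC (n : ℕ) : ℕ := ((n * n * n + 1) * (n + 1) + (2 * (n * n) + 1) * (n * n)) + (n * n + (n + n * n))

theorem range_of_pow {p : ℕ} [Fact p.Prime] {k : Type} [Field k] [Algebra (ZMod p) k] [CharP k p] {x : k} (hx : x ^ p = x) :
    ∃ a : ZMod p, algebraMap (ZMod p) k a = x := by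
  have h1 : x ∈ (⊥ : Subfield k) := (Subfield.mem_bot_iff_pow_eq_self k p).2 hx
  obtain ⟨n, hn⟩ := (mem_bot_iff_intCast p k).1 h1
  exact ⟨(n : ZMod p), by rw [map_intCast, hn]⟩

theorem trace_fix {p : ℕ} [Fact p.Prime] {k : Type} [Field k] [Algebra (ZMod p) k] [CharP k p] {m : ℕ} {v : k}
    (hv : v ^ p ^ m = v) : ∃ t : ZMod p, ∑ i ∈ Finset.range m, v ^ (p ^ i) = algebraMap (ZMod p) k t := by
  have h1 : (∑ i ∈ Finset.range m, v ^ (p ^ i)) ^ p = ∑ i ∈ Finset.range m, v ^ (p ^ i) := by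
    rw [sum_pow_char]
    have h2 : ∀ i, (v ^ (p ^ i)) ^ p = v ^ (p ^ (i + 1)) := fun i => by rw [← pow_mul, ← pow_succ]
    rw [Finset.sum_congr rfl fun i _ => h2 i]
    have h3 := Finset.sum_range_succ (fun i => v ^ (p ^ i)) m
    have h4 := Finset.sum_range_succ' (fun i => v ^ (p ^ i)) m
    rw [h3] at h4
    simp only [pow_zero, pow_one, hv] at h4
    exact (add_right_cancel h4).symm
  obtain ⟨t, ht⟩ := range_of_pow h1
  exact ⟨t, ht.symm⟩

section
variable {p : ℕ} [Fact p.Prime] {L k : Type} [Field L] [Algebra (ZMod p) L] [Algebra (RatFunc (ZMod p)) L]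
  [IsScalarTower (ZMod p) (RatFunc (ZMod p)) L] [FiniteDimensional (RatFunc (ZMod p)) L]
  [Algebra.IsSeparable (RatFunc (ZMod p)) L]
  [Field k] [IsAlgClosed k] [Algebra (ZMod p) k] [Algebra.IsAlgebraic (ZMod p) k] [Algebra (ZMod p)[X] L]
  [IsScalarTower (ZMod p)[X] (RatFunc (ZMod p)) L] [IsScalarTower (ZMod p) (ZMod p)[X] L]

theorem exp_L {n : ℕ} (hn : 2 ≤ n) (hnp : n * n < p) (pb : PowerBasis (RatFunc (ZMod p)) L)
    (hy : ((fF (ZMod p) n).map (cEh (ZMod p) L)).eval pb.gen = 0) (hdim : pb.dim = n)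
    (hmin : minpoly (RatFunc (ZMod p)) pb.gen = (fF (ZMod p) n).map (algebraMap (ZMod p)[X] (RatFunc (ZMod p))))
    (h : ZMod p) {l : ZMod p} (hl : l ≠ 0) (Z1 : Finset (k × k)) (hZ1 : ∀ z, z ∈ Z1 ↔ z ∈ Pt (fF k n) p) :
    ‖∑ z ∈ Z1, wt (ZMod.stdAddChar (N := p)) 1 (algebraMap (ZMod p) k h * z.1 + algebraMap (ZMod p) k l * z.2)‖ ≤
      EC n * √(p : ℝ) := by
  classical
  have hpp : p.Prime := Fact.out
  haveI : CharP k p := charP_of_injective_algebraMap (algebraMap (ZMod p) k).injective p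
  haveI : IsFF (ZMod p) (RatFunc (ZMod p)) := isFF_ratFunc (ZMod p)
  haveI : IsFF (ZMod p) L := isFF_of_ext (F := RatFunc (ZMod p))
  set ψ : AddChar (ZMod p) ℂ := ZMod.stdAddChar (N := p) with hψ
  set y := pb.gen with hyd
  have hn0 : 0 < n := by omega
  have hndvd : ¬ p ∣ n := Nat.not_dvd_of_pos_of_lt hn0 (by nlinarith)
  have hnF : (n : ZMod p) ≠ 0 := by rw [Ne, ZMod.natCast_eq_zero_iff]; exact hndvd
  have hnk : (n : k) ≠ 0 := by rw [Ne, CharP.cast_eq_zero_iff k p]; exact hndvd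
  have hcard : Nat.card (ZMod p) = p := Nat.card_zmod p
  have hf := fF_monic (F := ZMod p) hn0
  have hfd := fF_natDegree (F := ZMod p) hn0
  have hfc := fF_coeff (F := ZMod p) hn0
  obtain ⟨hD, hδ⟩ := fF_D (F := ZMod p) hn0 hnF
  have hirr : Irreducible ((fF (ZMod p) n).map (mapRingHom (algebraMap (ZMod p) k))) := by
    rw [fF_map]; exact fF_irr hn0 hnk
  have hdim' : pb.dim = (fF (ZMod p) n).natDegree := by rw [hfd, hdim]
  have hconst := const_of hf hirr pb hy hdim'
  have hfin : finrank (RatFunc (ZMod p)) L = (fF (ZMod p) n).natDegree := by rw [pb.finrank, hdim']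
  have hfin' : finrank (RatFunc (ZMod p)) L = n := by rw [hfin, hfd]
  have hli : LinearIndependent (RatFunc (ZMod p)) (fun i : Fin n => pb.gen ^ (i : ℕ)) := by
    have h1 := pb.basis.linearIndependent
    rw [pb.coe_basis] at h1
    exact h1.comp (Fin.cast hdim.symm) (Fin.cast_injective _)
  -- Riemann's theorem
  have hx0 : cEh (ZMod p) L X ≠ 0 := by
    rw [← map_zero (cEh (ZMod p) L)]
    exact fun h => X_ne_zero (cEh_inj h)
  have hR1 := lower_expl (k := ZMod p) hx0 (n := n) (r := n * n) (fun i : Fin n => y ^ (i : ℕ)) (lin_indep hli)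
    (fun i => mem_LL_y hf hfc hy (Nat.mul_le_mul_right _ i.2.le))
  have hR2 := ell_zero_le (F := ZMod p) (L := L) hconst
  obtain ⟨γ, hγ3, hγ4, hγ5⟩ := riemann_expl (k := ZMod p) hx0 (n := n) (c := n * n * n) hn0
    (by rw [ddeg_polar_X, hfin']) (fun m => by
      have := hR1 m
      push_cast at this ⊢
      exact this) hR2
  have hyr : y ∉ (algebraMap (RatFunc (ZMod p)) L).range := by
    rintro ⟨r, hr⟩
    have h3 : minpoly (RatFunc (ZMod p)) y = X - C r := by
      rw [← hr]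
      exact minpoly.eq_X_sub_C L _
    have h5 := congrArg natDegree h3
    rw [hmin, hf.natDegree_map, hfd, natDegree_X_sub_C] at h5
    omega
  -- the L-functions
  let ua : ZMod p → L := fun a => uf (ZMod p) (a * h) (a * l) y
  let S : ZMod p → ℕ → ℂ := fun a m => SC (aG ψ (ua a)) (dG (ZMod p) (ua a)) (fun n => fin_Gp (ua a) n) m
  let c : ZMod p → ℕ → ℂ := fun a m => cL ψ (ua a) m
  set s : Finset (ZMod p) := Finset.univ.erase 0 with hs
  set M : ℕ := (n * n * n + 1) * (n + 1) + (2 * (n * n) + 1) * (n * n) with hM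
  have hc0 : ∀ a ∈ s, c a 0 = 1 := fun a _ => cC_zero (aG ψ (ua a)) (dG (ZMod p) (ua a)) (dG_ne _) (fun n => fin_Gp (ua a) n)
  have hlog : ∀ a ∈ s, ∀ n : ℕ, (n : ℂ) * c a n = ∑ m ∈ Finset.Icc 1 n, c a (n - m) * S a m := fun a _ n =>
    cC_log (aG ψ (ua a)) (dG (ZMod p) (ua a)) (dG_ne _) (fun n => fin_Gp (ua a) n) n
  have hcM : ∀ a ∈ s, ∀ m, M < m → c a m = 0 := by
    intro a ha m hm
    have ha0 : a ≠ 0 := (Finset.mem_erase.1 ha).1
    have hal : a * l ≠ 0 := mul_ne_zero ha0 hl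
    have h1 := ddeg_polar_le hf hfc (by omega) hy (a * h) (a * l)
    have h2 := ddeg_polar_pos' hconst hyr (a * h) hal
    rw [hfin'] at h1
    obtain ⟨d, hd⟩ : ∃ d : ℕ, ddeg (polar (k := ZMod p) (ua a)) = d := ⟨_, (Int.toNat_of_nonneg h2.le).symm⟩
    have h1' : ddeg (polar (k := ZMod p) (ua a)) ≤ n * n := h1
    have h2' : 0 < ddeg (polar (k := ZMod p) (ua a)) := h2
    rw [hd] at h1' h2'
    have hd0 : 0 < d := by exact_mod_cast h2'
    have hdn : d ≤ n * n := by exact_mod_cast h1'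
    have hu0 : ua a ≠ 0 := by
      intro h0
      rw [h0] at hd
      have : polar (k := ZMod p) (0 : L) = 0 := by
        ext P; rw [polar_apply, P.ord_zero]; simp
      rw [this, ddeg_zero] at hd
      omega
    have hψd : ψ ((d : ℕ) : ZMod p) ≠ 1 := by
      intro h0
      have h3 := ZMod.injective_stdAddChar (N := p) (h0.trans (AddChar.map_zero_eq_one ψ).symm)
      rw [ZMod.natCast_eq_zero_iff] at h3
      have := Nat.le_of_dvd hd0 h3
      omega
    refine cL_eq_zero ψ hu0 hd hd0 hψd hγ5 ?_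
    have h3 : (2 * d + 1) * d ≤ (2 * (n * n) + 1) * (n * n) := Nat.mul_le_mul (by omega) hdn
    have h4 : (n * n * n + 1) * (n + 1) + (2 * d + 1) * d ≤ m := by omega
    exact_mod_cast h4
  -- the points
  have hfixF : ∀ a : ZMod p, (algebraMap (ZMod p) k a) ^ p = algebraMap (ZMod p) k a := fun a => by
    rw [← map_pow, ZMod.pow_card]
  have hfixm : ∀ (a : ZMod p) (j : ℕ), (algebraMap (ZMod p) k a) ^ p ^ j = algebraMap (ZMod p) k a := by
    intro a j
    induction j with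
    | zero => simp
    | succ j ih => rw [pow_succ, pow_mul, ih, hfixF]
  set h' : k := algebraMap (ZMod p) k h with hh'
  set l' : k := algebraMap (ZMod p) k l with hl'
  have hl'0 : l' ≠ 0 := (_root_.map_ne_zero _).2 hl
  have hZex : ∀ m : ℕ, ∃ Z : Finset (k × k), 1 ≤ m → ∀ z, z ∈ Z ↔ z ∈ Pt (fF k n) (p ^ m) := by
    intro m
    by_cases hm : 1 ≤ m
    · have := Pt_finite (p := p) (N := m) (by omega) (fF k n)
      exact ⟨this.toFinset, fun _ z => by rw [Set.Finite.mem_toFinset]⟩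
    · exact ⟨∅, fun h => absurd h hm⟩
  choose Z hZ using hZex
  have hZcex : ∀ m : ℕ, ∃ Z : Finset (k × k), 1 ≤ m → ∀ z, z ∈ Z ↔ z ∈ Pt (gC k p n h' l') (p ^ m) := by
    intro m
    by_cases hm : 1 ≤ m
    · have := Pt_finite (p := p) (N := m) (by omega) (gC k p n h' l')
      exact ⟨this.toFinset, fun _ z => by rw [Set.Finite.mem_toFinset]⟩
    · exact ⟨∅, fun h => absurd h hm⟩
  choose Zc hZc using hZcex
  have hprim : ψ.IsPrimitive := ZMod.isPrimitive_stdAddChar p
  have hkey : ∀ m, 1 ≤ m → ∑ a ∈ s, ∑ z ∈ Z m, wt ψ m (algebraMap (ZMod p) k (a * h) * z.1 + algebraMap (ZMod p) k (a * l) * z.2) =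
      ((Zc m).card : ℂ) - (Z m).card := by
    intro m hm
    rw [Finset.sum_comm]
    have h1 : ∀ z ∈ Z m, ∑ a ∈ s, wt ψ m (algebraMap (ZMod p) k (a * h) * z.1 + algebraMap (ZMod p) k (a * l) * z.2) =
        ((if ∑ i ∈ Finset.range m, (h' * z.1 + l' * z.2) ^ (p ^ i) = 0 then p else 0 : ℕ) : ℂ) - 1 := by
      intro z hz
      rw [hZ m hm] at hz
      obtain ⟨hz1, hz2, -⟩ := hz
      have hv : (h' * z.1 + l' * z.2) ^ p ^ m = h' * z.1 + l' * z.2 := by
        rw [add_pow_char_pow, mul_pow, mul_pow, hz1, hz2, hfixm, hfixm]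
      obtain ⟨t, ht⟩ := trace_fix hv
      have h2 : ∀ a : ZMod p, wt ψ m (algebraMap (ZMod p) k (a * h) * z.1 + algebraMap (ZMod p) k (a * l) * z.2) = ψ (a * t) := by
        intro a
        apply wt_of
        rw [hcard, map_mul (algebraMap (ZMod p) k) a t, ← ht, Finset.mul_sum]
        refine Finset.sum_congr rfl fun i _ => ?_
        have h3 : algebraMap (ZMod p) k (a * h) * z.1 + algebraMap (ZMod p) k (a * l) * z.2 =
            algebraMap (ZMod p) k a * (h' * z.1 + l' * z.2) := by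
          rw [map_mul, map_mul]; ring
        rw [h3, mul_pow, hfixm]
      rw [Finset.sum_congr rfl fun a _ => h2 a]
      have h4 := Finset.add_sum_erase Finset.univ (fun a : ZMod p => ψ (a * t)) (Finset.mem_univ 0)
      rw [AddChar.sum_mulShift t hprim, ZMod.card p] at h4
      simp only [zero_mul, AddChar.map_zero_eq_one] at h4
      have h5 : (∑ i ∈ Finset.range m, (h' * z.1 + l' * z.2) ^ (p ^ i) = 0) ↔ t = 0 := by
        rw [ht, _root_.map_eq_zero]
      rw [hs, if_congr h5 rfl rfl]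
      push_cast
      have h6 : (∑ x ∈ Finset.univ.erase (0 : ZMod p), ψ (x * t)) = (1 + ∑ x ∈ Finset.univ.erase (0 : ZMod p), ψ (x * t)) - 1 := by ring
      rw [h6, h4]
      push_cast
      rfl
    rw [Finset.sum_congr rfl h1, Finset.sum_sub_distrib, Finset.sum_const, nsmul_eq_mul, mul_one, ← Nat.cast_sum,
      ← card_cover hn0 (hfixF h) (hfixF l) hl'0 m (Z m) (Zc m) (hZ m hm) (hZc m hm)]
  -- the number of points
  have hmapF : ∀ {i j : ℕ}, (((fF k n).coeff i).coeff j) ^ p ^ 1 = ((fF k n).coeff i).coeff j := by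
    intro i j
    rw [← fF_map (F := ZMod p) (k := k) (n := n), coeff_map, coe_mapRingHom, coeff_map, pow_one]
    exact hfixF _
  obtain ⟨hDk, -⟩ := fF_D (F := k) hn0 hnk
  obtain ⟨C1, N1, hgeo1⟩ := geo k p 1 one_pos (fF k n) _ _ _ (fF_monic hn0) (by rw [fF_natDegree hn0]; exact hn0)
    (fun i j => hmapF) hDk (fF_AB hn0) (fF_irr hn0 hnk)
  obtain ⟨hgm, hgd⟩ := gC_monic (k := k) hpp.one_lt hn0 h' l'
  have hDc : (C ((n : k) * l' ^ n) * (X ^ n + 1) : k[X]) ≠ 0 := by
    have h1 : (X ^ n + 1 : k[X]) = X ^ n + C 1 := by rw [C_1]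
    apply mul_ne_zero (C_ne_zero.2 (mul_ne_zero hnk (pow_ne_zero _ hl'0)))
    rw [h1]
    exact (monic_X_pow_add_C (1 : k) hn0.ne').ne_zero
  obtain ⟨C2, N2, hgeo2⟩ := geo k p 1 one_pos (gC k p n h' l') _ _ _ hgm (by rw [hgd]; exact Nat.mul_pos hpp.pos hn0)
    (fun i j => gC_fix (hfixF h) (hfixF l) i j) hDc (gC_AB (by omega) h' l') (gC_irr hn hnp h' hl'0)
  set r : ℝ := √(p : ℝ) with hr
  have hp1 : (1 : ℝ) ≤ p := by exact_mod_cast hpp.one_lt.le
  have hr1 : 1 ≤ r := by rw [hr, Real.one_le_sqrt]; exact hp1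
  have hrm : ∀ m : ℕ, √((p : ℝ) ^ m) = r ^ m := by
    intro m
    rw [hr, Real.sqrt_eq_rpow, Real.sqrt_eq_rpow, ← Real.rpow_natCast, ← Real.rpow_natCast,
      ← Real.rpow_mul (by positivity), ← Real.rpow_mul (by positivity), mul_comm]
  have hmain : ∀ m, 1 ≤ m → N1 ≤ m → N2 ≤ m → |((Zc m).card : ℝ) - (Z m).card| ≤ (C1 + C2) * r * r ^ m := by
    intro m hm h1 h2
    obtain ⟨a1, a2⟩ := hgeo1 m h1
    obtain ⟨b1, b2⟩ := hgeo2 m h2
    have e1 : Pt (fF k n) ((p ^ 1) ^ m) = ↑(Z m) := by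
      ext z; rw [Finset.mem_coe, hZ m hm, pow_one]
    have e2 : Pt (gC k p n h' l') ((p ^ 1) ^ m) = ↑(Zc m) := by
      ext z; rw [Finset.mem_coe, hZc m hm, pow_one]
    rw [e1, Set.ncard_coe_finset, pow_one, one_mul] at a1 a2
    rw [e2, Set.ncard_coe_finset, pow_one, one_mul] at b1 b2
    have h3 := pow_half_le p m hpp.pos
    rw [hrm] at h3
    have h3' : (p : ℝ) ^ (m - m / 2) ≤ r * r ^ m := by
      have := h3; push_cast at this; exact this
    have a1' : ((Z m).card : ℝ) ≤ (p : ℝ) ^ m + C1 * (p : ℝ) ^ (m - m / 2) := by exact_mod_cast a1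
    have a2' : (p : ℝ) ^ m ≤ (Z m).card + C1 * (p : ℝ) ^ (m - m / 2) := by exact_mod_cast a2
    have b1' : ((Zc m).card : ℝ) ≤ (p : ℝ) ^ m + C2 * (p : ℝ) ^ (m - m / 2) := by exact_mod_cast b1
    have b2' : (p : ℝ) ^ m ≤ (Zc m).card + C2 * (p : ℝ) ^ (m - m / 2) := by exact_mod_cast b2
    have h4 : (C1 : ℝ) * (p : ℝ) ^ (m - m / 2) ≤ C1 * (r * r ^ m) := mul_le_mul_of_nonneg_left h3' (by positivity)
    have h5 : (C2 : ℝ) * (p : ℝ) ^ (m - m / 2) ≤ C2 * (r * r ^ m) := mul_le_mul_of_nonneg_left h3' (by positivity)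
    have h6 : (C1 + C2 : ℝ) * r * r ^ m = C1 * (r * r ^ m) + C2 * (r * r ^ m) := by ring
    rw [abs_le, h6]
    constructor <;> linarith
  -- comparison
  set Cc : ℕ := n * n + (n + n * n) with hCc
  have hq : Nat.card (ZMod p) = p ^ 1 := by rw [hcard, pow_one]
  have hcmp : ∀ a : ZMod p, ∀ m, 1 ≤ m →
      ‖S a m - ∑ z ∈ Z m, wt ψ m (algebraMap (ZMod p) k (a * h) * z.1 + algebraMap (ZMod p) k (a * l) * z.2)‖ ≤ Cc := by
    intro a m hm
    have h1 := compare_sum (k := k) (p := p) hf (fF_AB hn0) hD hδ hy hmin hfin ψ (a * h) (a * l) hm one_pos hq (Z m) (by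
      intro z
      rw [hZ m hm, fF_map, hcard])
    rw [hfd] at h1
    exact h1
  have hS : ∀ m, 1 ≤ m → ‖∑ a ∈ s, S a m‖ ≤
      (((s.card * Cc : ℕ) : ℝ) + (C1 + C2) * r + ∑ j ∈ Finset.range (N1 + N2), ‖∑ a ∈ s, S a j‖) * r ^ m := by
    intro m hm
    have hrm1 : 1 ≤ r ^ m := one_le_pow₀ hr1
    have hCs0 : 0 ≤ ∑ j ∈ Finset.range (N1 + N2), ‖∑ a ∈ s, S a j‖ := Finset.sum_nonneg fun _ _ => norm_nonneg _
    have hA0 : (0 : ℝ) ≤ ((s.card * Cc : ℕ) : ℝ) := Nat.cast_nonneg _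
    have hB0 : (0 : ℝ) ≤ (C1 + C2) * r := by positivity
    rcases lt_or_ge m (N1 + N2) with hlt | hge
    · have h1 : ‖∑ a ∈ s, S a m‖ ≤ ∑ j ∈ Finset.range (N1 + N2), ‖∑ a ∈ s, S a j‖ :=
        Finset.single_le_sum (f := fun j => ‖∑ a ∈ s, S a j‖) (fun _ _ => norm_nonneg _) (Finset.mem_range.2 hlt)
      nlinarith
    · have h1 := hmain m hm (by omega) (by omega)
      have h2 : ‖∑ a ∈ s, (S a m - ∑ z ∈ Z m, wt ψ m (algebraMap (ZMod p) k (a * h) * z.1 + algebraMap (ZMod p) k (a * l) * z.2))‖ ≤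
          ((s.card * Cc : ℕ) : ℝ) := by
        refine (norm_sum_le _ _).trans ?_
        refine (Finset.sum_le_sum fun a _ => hcmp a m hm).trans ?_
        rw [Finset.sum_const, nsmul_eq_mul]
        push_cast
        exact le_rfl
      have h3 : ∑ a ∈ s, S a m = ∑ a ∈ s, (S a m - ∑ z ∈ Z m, wt ψ m (algebraMap (ZMod p) k (a * h) * z.1 + algebraMap (ZMod p) k (a * l) * z.2)) +
          (((Zc m).card : ℂ) - (Z m).card) := by
        rw [← hkey m hm, ← Finset.sum_add_distrib]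
        exact Finset.sum_congr rfl fun a _ => by ring
      have h4 : ‖((Zc m).card : ℂ) - (Z m).card‖ ≤ (C1 + C2) * r * r ^ m := by
        have : ((Zc m).card : ℂ) - (Z m).card = (((Zc m).card : ℝ) - (Z m).card : ℝ) := by push_cast; rfl
        rw [this, Complex.norm_real, Real.norm_eq_abs]
        exact h1
      rw [h3]
      refine (norm_add_le _ _).trans ?_
      nlinarith
  have hfb := first_bound s c S M hc0 hcM hlog r
    (((s.card * Cc : ℕ) : ℝ) + (C1 + C2) * r + ∑ j ∈ Finset.range (N1 + N2), ‖∑ a ∈ s, S a j‖)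
    (by linarith) (by
      have : (0 : ℝ) ≤ ∑ j ∈ Finset.range (N1 + N2), ‖∑ a ∈ s, S a j‖ := Finset.sum_nonneg fun _ _ => norm_nonneg _
      exact add_nonneg (add_nonneg (Nat.cast_nonneg _) (mul_nonneg (by positivity) (by linarith))) this) hS 1 (by rw [hs, Finset.mem_erase]; exact ⟨one_ne_zero, Finset.mem_univ _⟩)
  have h1 := hcmp 1 1 le_rfl
  have hZ1' : Z1 = Z 1 := by
    ext z
    rw [hZ1, hZ 1 le_rfl, pow_one]
  rw [one_mul, one_mul, ← hZ1'] at h1
  have h2 : ‖∑ z ∈ Z1, wt ψ 1 (h' * z.1 + l' * z.2)‖ ≤ ‖S 1 1‖ + Cc := by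
    have h3 : ∑ z ∈ Z1, wt ψ 1 (h' * z.1 + l' * z.2) = S 1 1 - (S 1 1 - ∑ z ∈ Z1, wt ψ 1 (h' * z.1 + l' * z.2)) := by ring
    rw [h3]
    refine (norm_sub_le _ _).trans ?_
    linarith
  refine h2.trans ?_
  have h3 : (Cc : ℝ) ≤ Cc * r := le_mul_of_one_le_right (by positivity) hr1
  have h4 : ((EC n : ℕ) : ℝ) = M + Cc := by rw [hM, hCc, EC]; push_cast; ring
  rw [h4]
  linarith

end

/-- the points of the Fermat curve over the prime field -/
noncomputable def ZF (p n : ℕ) [NeZero p] : Finset (ZMod p × ZMod p) :=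
  Finset.univ.filter fun z => z.1 ^ n + z.2 ^ n + 1 = 0

theorem evalEval_fF {k : Type} [Field k] (n : ℕ) (a b : k) : evalEval a b (fF k n) = b ^ n + (a ^ n + 1) := by
  simp [evalEval, fF]

theorem exp_aux {p : ℕ} [Fact p.Prime] {n : ℕ} (hn : 2 ≤ n) (hnp : n * n < p) (h : ZMod p) {l : ZMod p} (hl : l ≠ 0) :
    ‖∑ z ∈ ZF p n, ZMod.stdAddChar (N := p) (h * z.1 + l * z.2)‖ ≤ EC n * √(p : ℝ) := by
  classical
  have hpp : p.Prime := Fact.out
  have hn0 : 0 < n := by omega
  have hndvd : ¬ p ∣ n := Nat.not_dvd_of_pos_of_lt hn0 (by nlinarith)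
  have hnF : (n : ZMod p) ≠ 0 := by rw [Ne, ZMod.natCast_eq_zero_iff]; exact hndvd
  let k := AlgebraicClosure (ZMod p)
  haveI : CharP k p := charP_of_injective_algebraMap (algebraMap (ZMod p) k).injective p
  have hnk : (n : k) ≠ 0 := by rw [Ne, CharP.cast_eq_zero_iff k p]; exact hndvd
  have hf := fF_monic (F := ZMod p) hn0
  obtain ⟨hD, -⟩ := fF_D (F := ZMod p) hn0 hnF
  have hAB := fF_AB (F := ZMod p) hn0
  have hirr : Irreducible ((fF (ZMod p) n).map (mapRingHom (algebraMap (ZMod p) k))) := by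
    rw [fF_map]; exact fF_irr hn0 hnk
  have hirrF : Irreducible (fF (ZMod p) n) := hf.irreducible_of_irreducible_map _ _ hirr
  set F0 : (RatFunc (ZMod p))[X] := (fF (ZMod p) n).map (algebraMap (ZMod p)[X] (RatFunc (ZMod p))) with hF0
  have hF0m : F0.Monic := hf.map _
  haveI hfact : Fact (Irreducible F0) :=
    ⟨(hf.irreducible_iff_irreducible_map_fraction_map (K := RatFunc (ZMod p))).1 hirrF⟩
  have hsep : F0.Separable := by
    rw [Polynomial.separable_def']
    have h := congrArg (Polynomial.map (algebraMap (ZMod p)[X] (RatFunc (ZMod p)))) hAB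
    rw [Polynomial.map_add, Polynomial.map_mul, Polynomial.map_mul] at h
    have hc : algebraMap (ZMod p)[X] (RatFunc (ZMod p)) (C (n : ZMod p) * (X ^ n + 1)) ≠ 0 := by
      rw [map_ne_zero_iff _ (IsFractionRing.injective (ZMod p)[X] (RatFunc (ZMod p)))]
      exact hD
    set c0 := algebraMap (ZMod p)[X] (RatFunc (ZMod p)) (C (n : ZMod p) * (X ^ n + 1)) with hc0
    refine ⟨C c0⁻¹ * (C (C (n : ZMod p)) : (ZMod p)[X][X]).map (algebraMap (ZMod p)[X] (RatFunc (ZMod p))),
      C c0⁻¹ * (- X : (ZMod p)[X][X]).map (algebraMap (ZMod p)[X] (RatFunc (ZMod p))), ?_⟩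
    rw [hF0, derivative_map, mul_assoc, mul_assoc, ← mul_add, h, Polynomial.map_C, ← hc0, ← C_mul, inv_mul_cancel₀ hc, C_1]
  let L := AdjoinRoot F0
  let pb : PowerBasis (RatFunc (ZMod p)) L := AdjoinRoot.powerBasis hF0m.ne_zero
  have hgen : pb.gen = AdjoinRoot.root F0 := AdjoinRoot.powerBasis_gen hF0m.ne_zero
  have hdim : pb.dim = n := by
    rw [AdjoinRoot.powerBasis_dim, hF0, hf.natDegree_map, fF_natDegree hn0]
  haveI : FiniteDimensional (RatFunc (ZMod p)) L := pb.finite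
  have hy : ((fF (ZMod p) n).map (cEh (ZMod p) L)).eval pb.gen = 0 := by
    rw [hgen, eval_map]
    have h1 := AdjoinRoot.eval₂_root F0
    rw [hF0, eval₂_map] at h1
    exact h1
  have hmin : minpoly (RatFunc (ZMod p)) pb.gen = F0 := by
    rw [hgen, AdjoinRoot.minpoly_root hF0m.ne_zero, hF0m.leadingCoeff, inv_one, C_1, mul_one]
  haveI : Algebra.IsSeparable (RatFunc (ZMod p)) L := by
    have h1 : IsSeparable (RatFunc (ZMod p)) (AdjoinRoot.root F0) := by
      unfold IsSeparable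
      rw [← hgen, hmin]
      exact hsep
    have h2 := (IntermediateField.isSeparable_adjoin_simple_iff_isSeparable (RatFunc (ZMod p)) L).2 h1
    rw [IntermediateField.adjoin_root_eq_top] at h2
    exact Algebra.IsSeparable.of_algHom (RatFunc (ZMod p)) _
      (IntermediateField.topEquiv.symm : L ≃ₐ[RatFunc (ZMod p)] _).toAlgHom
  let em : ZMod p × ZMod p → k × k := Prod.map (algebraMap (ZMod p) k) (algebraMap (ZMod p) k)
  have hem : Function.Injective em :=
    Prod.map_injective.2 ⟨(algebraMap (ZMod p) k).injective, (algebraMap (ZMod p) k).injective⟩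
  have hev : ∀ a b : k, evalEval a b (fF k n) = b ^ n + (a ^ n + 1) := evalEval_fF n
  have key := exp_L (L := L) (k := k) hn hnp pb hy hdim hmin h hl ((ZF p n).image em) (by
    rintro ⟨a, b⟩
    rw [Finset.mem_image]
    constructor
    · rintro ⟨⟨x, y⟩, hxy, hz⟩
      simp only [em, Prod.map_apply, Prod.mk.injEq] at hz
      obtain ⟨rfl, rfl⟩ := hz
      rw [ZF, Finset.mem_filter] at hxy
      refine ⟨?_, ?_, ?_⟩
      · change _ ^ p = _
        rw [← map_pow, ZMod.pow_card]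
      · change _ ^ p = _
        rw [← map_pow, ZMod.pow_card]
      · rw [hev, ← map_pow, ← map_pow]
        have h1 := congrArg (algebraMap (ZMod p) k) hxy.2
        rw [map_add, map_add, map_one, map_zero] at h1
        rw [← h1]; ring
    · rintro ⟨h1, h2, h3⟩
      obtain ⟨x, rfl⟩ := range_of_pow (p := p) (k := k) h1
      obtain ⟨y, rfl⟩ := range_of_pow (p := p) (k := k) h2
      refine ⟨(x, y), ?_, rfl⟩
      rw [ZF, Finset.mem_filter]
      refine ⟨Finset.mem_univ _, ?_⟩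
      apply (algebraMap (ZMod p) k).injective
      rw [hev] at h3
      rw [map_add, map_add, map_pow, map_pow, map_one, map_zero, ← h3]
      ring)
  rw [Finset.sum_image (fun x _ y _ h => hem h)] at key
  refine le_trans (le_of_eq ?_) key
  congr 1
  refine Finset.sum_congr rfl fun z _ => ?_
  symm
  apply wt_of
  simp only [em, Prod.map, Finset.range_one, Finset.sum_singleton, pow_zero, pow_one, map_add, map_mul]

/-- **The bound for the exponential sums over the Fermat curve.** -/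
theorem exp_bound {p : ℕ} [Fact p.Prime] {n : ℕ} (hn : 2 ≤ n) (hnp : n * n < p) (h l : ZMod p) (hhl : h ≠ 0 ∨ l ≠ 0) :
    ‖∑ z ∈ ZF p n, ZMod.stdAddChar (N := p) (h * z.1 + l * z.2)‖ ≤ EC n * √(p : ℝ) := by
  by_cases hl : l = 0
  · have hh : h ≠ 0 := hhl.resolve_right (fun h' => h' hl)
    have key := exp_aux hn hnp l hh
    refine le_trans (le_of_eq ?_) key
    congr 1
    refine Finset.sum_bij' (fun z _ => (z.2, z.1)) (fun z _ => (z.2, z.1)) ?_ ?_ ?_ ?_ ?_
    · intro z hz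
      rw [ZF, Finset.mem_filter] at hz ⊢
      exact ⟨Finset.mem_univ _, by rw [← hz.2]; ring⟩
    · intro z hz
      rw [ZF, Finset.mem_filter] at hz ⊢
      exact ⟨Finset.mem_univ _, by rw [← hz.2]; ring⟩
    · intro z _; rfl
    · intro z _; rfl
    · intro z _
      simp only
      rw [add_comm]
  · exact exp_aux hn hnp h hl

/-- **The number of points of the Fermat curve.** -/
theorem card_ZF {p : ℕ} [Fact p.Prime] {n : ℕ} (hn : 2 ≤ n) (hnp : n * n < p) :
    |((ZF p n).card : ℝ) - p| ≤ WC n n n * √(p : ℝ) := by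
  classical
  have hpp : p.Prime := Fact.out
  have hn0 : 0 < n := by omega
  have hndvd : ¬ p ∣ n := Nat.not_dvd_of_pos_of_lt hn0 (by nlinarith)
  have hnF : (n : ZMod p) ≠ 0 := by rw [Ne, ZMod.natCast_eq_zero_iff]; exact hndvd
  let k := AlgebraicClosure (ZMod p)
  haveI : CharP k p := charP_of_injective_algebraMap (algebraMap (ZMod p) k).injective p
  have hnk : (n : k) ≠ 0 := by rw [Ne, CharP.cast_eq_zero_iff k p]; exact hndvd
  have hf := fF_monic (F := ZMod p) hn0
  obtain ⟨hD, hδ⟩ := fF_D (F := ZMod p) hn0 hnF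
  have hirr : Irreducible ((fF (ZMod p) n).map (mapRingHom (algebraMap (ZMod p) k))) := by
    rw [fF_map]; exact fF_irr hn0 hnk
  have key := weil (F := ZMod p) k hf (by rw [fF_natDegree hn0]; exact hn0) (fF_AB hn0) hD hδ (fF_coeff hn0) hirr
  rw [fF_natDegree hn0, Nat.card_zmod] at key
  have hset : {z : ZMod p × ZMod p | evalEval z.1 z.2 (fF (ZMod p) n) = 0} = ↑(ZF p n) := by
    ext ⟨a, b⟩
    rw [Set.mem_setOf_eq, evalEval_fF, Finset.mem_coe, ZF, Finset.mem_filter]
    constructor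
    · intro h
      exact ⟨Finset.mem_univ _, by rw [← h]; ring⟩
    · intro h
      rw [← h.2]; ring
  rw [hset, Set.ncard_coe_finset] at key
  exact key

end Run7.h914
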