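import Pool.Agent.W366.DC.SFX
import Pool.Agent.W505.DC.MI
import Pool.Agent.W505.DC.MT

/-! Estimates for the functions of the linear sieve. -/

set_option autoImplicit false
set_option linter.all false

open Finset MeasureTheory intervalIntegral

namespace Run7.h914

open Pool.Agent.W23.DC

/-- the majorant -/
noncomputable def qf (x : ℝ) : ℝ := 1 + (max 0 (2 - 5 * x)) ^ 2 / 4

theorem qf_cont : Continuous qf := by
  unfold qf
  fun_prop

theorem qf_one (x : ℝ) : 1 ≤ qf x := by
  unfold qf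
  have := sq_nonneg (max 0 (2 - 5 * x))
  linarith

theorem qf_le (x : ℝ) (hx : 1 / 5 ≤ x) : qf x ≤ 5 / 4 := by
  unfold qf
  have h1 : max 0 (2 - 5 * x) ≤ 1 := max_le (by norm_num) (by linarith)
  have h2 : 0 ≤ max 0 (2 - 5 * x) := le_max_left _ _
  nlinarith

theorem qf_lip (x y : ℝ) (hx : 1 / 5 ≤ x) (hy : 1 / 5 ≤ y) : |qf x - qf y| ≤ 3 * |x - y| := by
  unfold qf
  have h1 : max 0 (2 - 5 * x) ≤ 1 := max_le (by norm_num) (by linarith)
  have h2 : 0 ≤ max 0 (2 - 5 * x) := le_max_left _ _
  have h3 : max 0 (2 - 5 * y) ≤ 1 := max_le (by norm_num) (by linarith)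
  have h4 : 0 ≤ max 0 (2 - 5 * y) := le_max_left _ _
  have h5 : |max 0 (2 - 5 * x) - max 0 (2 - 5 * y)| ≤ 5 * |x - y| := by
    have h50 := abs_max_sub_max_le_abs (2 - 5 * x) (2 - 5 * y) 0
    rw [max_comm (2 - 5 * x), max_comm (2 - 5 * y)] at h50
    refine h50.trans ?_
    rw [show (2 - 5 * x) - (2 - 5 * y) = -(5 * (x - y)) by ring, abs_neg, abs_mul, abs_of_pos (by norm_num : (0:ℝ) < 5)]
  set a := max 0 (2 - 5 * x)
  set b := max 0 (2 - 5 * y)
  have h6 : 1 + a ^ 2 / 4 - (1 + b ^ 2 / 4) = (a - b) * ((a + b) / 4) := by ring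
  rw [h6, abs_mul, abs_of_nonneg (show 0 ≤ (a + b) / 4 by linarith)]
  have h7 : (a + b) / 4 ≤ 1 / 2 := by linarith
  have h8 := abs_nonneg (a - b)
  have h9 := abs_nonneg (x - y)
  nlinarith

theorem qf_int (v : ℝ) (hv : 2 / 5 ≤ v) (hv1 : v ≤ 1) :
    ∫ x in (1 / 5 : ℝ)..v, qf x / x ≤ Real.log 2 + Real.log 5 - 5 / 8 := by
  have hc : ∀ a b : ℝ, 0 < a → a ≤ b → ContinuousOn (fun x => qf x / x) (Set.uIcc a b) := by
    intro a b ha hab
    rw [Set.uIcc_of_le hab]
    apply qf_cont.continuousOn.div continuousOn_id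
    intro x hx
    have := hx.1
    simp only [id]
    linarith
  rw [← integral_add_adjacent_intervals (b := 2 / 5) ((hc _ _ (by norm_num) (by norm_num)).intervalIntegrable)
    ((hc _ _ (by norm_num) hv).intervalIntegrable)]
  have e1 : ∫ x in (1 / 5 : ℝ)..(2 / 5), qf x / x = 2 * Real.log 2 - 5 / 8 := by
    have h1 : ∫ x in (1 / 5 : ℝ)..(2 / 5), qf x / x = ∫ x in (1 / 5 : ℝ)..(2 / 5), (2 / x - 5 + 25 * x / 4) := by
      apply integral_congr
      intro x hx
      rw [Set.uIcc_of_le (by norm_num)] at hx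
      have hx0 : (0 : ℝ) < x := by linarith [hx.1]
      simp only
      unfold qf
      rw [max_eq_right (by linarith [hx.2])]
      field_simp
      ring
    rw [h1]
    have h2 : ∀ x ∈ Set.uIcc (1 / 5 : ℝ) (2 / 5), HasDerivAt (fun x : ℝ => 2 * Real.log x - 5 * x + 25 * x ^ 2 / 8)
        (2 / x - 5 + 25 * x / 4) x := by
      intro x hx
      rw [Set.uIcc_of_le (by norm_num)] at hx
      have hx0 : x ≠ 0 := by linarith [hx.1]
      have d1 := ((Real.hasDerivAt_log hx0).const_mul 2)
      have d2 := (hasDerivAt_id x).const_mul (5 : ℝ)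
      have d3 := ((hasDerivAt_pow 2 x).const_mul (25 : ℝ)).div_const 8
      have d4 := (d1.sub d2).add d3
      refine d4.congr_deriv ?_
      simp
      ring
    rw [integral_eq_sub_of_hasDerivAt h2 (ContinuousOn.intervalIntegrable (by
      rw [Set.uIcc_of_le (by norm_num)]
      intro x hx
      have hx0 : x ≠ 0 := by linarith [hx.1]
      fun_prop (disch := assumption)))]
    rw [Real.log_div (by norm_num) (by norm_num), Real.log_div (by norm_num) (by norm_num), Real.log_one]
    ring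
  have e2 : ∫ x in (2 / 5 : ℝ)..v, qf x / x = Real.log v - Real.log (2 / 5) := by
    have h1 : ∫ x in (2 / 5 : ℝ)..v, qf x / x = ∫ x in (2 / 5 : ℝ)..v, 1 / x := by
      apply integral_congr
      intro x hx
      rw [Set.uIcc_of_le hv] at hx
      simp only
      unfold qf
      rw [max_eq_left (by linarith [hx.1])]
      norm_num
    rw [h1, integral_one_div_of_pos (by norm_num) (by linarith), Real.log_div (by linarith) (by norm_num)]
  rw [e1, e2, Real.log_div (by norm_num) (by norm_num)]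
  have : Real.log v ≤ 0 := Real.log_nonpos (by linarith) hv1
  linarith

theorem F_le {A0 : ℝ} {F f : ℝ → ℝ} (H : SF A0 F f) {s : ℝ} (h1 : 1 ≤ s) (h4 : s ≤ 4) :
    s * F s ≤ A0 * (1 + (max 0 (s - 3)) ^ 2 / 4) := by
  have hA := H.pos
  rcases le_total s 3 with h | h
  · rw [H.F3 s h1 h, max_eq_left (by linarith)]
    have : s ≠ 0 := by linarith
    field_simp
    norm_num
  · rw [H.eF s h, max_eq_right (by linarith)]
    have hcf : ContinuousOn (fun x => f (x - 1)) (Set.uIcc 3 s) := by
      rw [Set.uIcc_of_le h]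
      apply H.cf.comp (continuousOn_id.sub continuousOn_const)
      intro x hx
      show 1 ≤ x - 1
      linarith [hx.1]
    have h2 : ∫ x in (3 : ℝ)..s, f (x - 1) ≤ ∫ x in (3 : ℝ)..s, A0 / 2 * (x - 3) := by
      apply integral_mono_on h hcf.intervalIntegrable
      · exact ContinuousOn.intervalIntegrable (by fun_prop)
      · intro x hx
        rw [H.f4 (x - 1) (by linarith [hx.1]) (by linarith [hx.2])]
        have hx1 := hx.1
        have h3 : Real.log (x - 1 - 1) ≤ x - 3 := by
          have := Real.log_le_sub_one_of_pos (show 0 < x - 1 - 1 by linarith)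
          linarith
        rw [div_le_iff₀ (by linarith)]
        have h5 : 0 ≤ A0 * (x - 3) := mul_nonneg hA.le (by linarith)
        have h6 : A0 * Real.log (x - 1 - 1) ≤ A0 * (x - 3) := mul_le_mul_of_nonneg_left h3 hA.le
        nlinarith
    have h3 : ∫ x in (3 : ℝ)..s, A0 / 2 * (x - 3) = A0 * (s - 3) ^ 2 / 4 := by
      have h4 : ∀ x ∈ Set.uIcc (3 : ℝ) s, HasDerivAt (fun x : ℝ => A0 * (x - 3) ^ 2 / 4) (A0 / 2 * (x - 3)) x := by
        intro x _
        have d1 := (((hasDerivAt_id x).sub_const 3).pow 2).const_mul A0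
        have d2 := d1.div_const 4
        refine d2.congr_deriv ?_
        simp
        ring
      rw [integral_eq_sub_of_hasDerivAt h4 (ContinuousOn.intervalIntegrable (by fun_prop))]
      ring
    rw [h3] at h2
    linarith

theorem F_ge {A0 : ℝ} {F f : ℝ → ℝ} (H : SF A0 F f) {s : ℝ} (h1 : 1 ≤ s) (h4 : s ≤ 4) :
    A0 ≤ s * F s := by
  have hA := H.pos
  rcases le_total s 3 with h | h
  · rw [H.F3 s h1 h]
    have : s ≠ 0 := by linarith
    field_simp
    exact le_refl _
  · rw [H.eF s h]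
    have : 0 ≤ ∫ x in (3 : ℝ)..s, f (x - 1) := by
      apply integral_nonneg h
      intro x hx
      rw [H.f4 (x - 1) (by linarith [hx.1]) (by linarith [hx.2])]
      have := Real.log_nonneg (show 1 ≤ x - 1 - 1 by linarith [hx.1])
      have hx1 := hx.1
      have hx2 : 0 < x - 1 := by linarith
      positivity
    linarith

theorem f5 {A0 : ℝ} {F f : ℝ → ℝ} (H : SF A0 F f) : A0 * Real.log 4 ≤ 5 * f 5 := by
  rw [H.ef 5 (by norm_num)]
  have hcF : ContinuousOn (fun x => F (x - 1)) (Set.uIcc 2 5) := by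
    rw [Set.uIcc_of_le (by norm_num)]
    apply H.cF.comp (continuousOn_id.sub continuousOn_const)
    intro x hx
    show 1 ≤ x - 1
    linarith [hx.1]
  have h1 := Pool.Agent.W366.DC.SFXaux.int_inv (s := 5) (by norm_num)
  have h2 : A0 * Real.log 4 = ∫ x in (2 : ℝ)..5, A0 * (1 / (x - 1)) := by
    rw [intervalIntegral.integral_const_mul, h1]
    norm_num
  rw [h2]
  apply integral_mono_on (by norm_num) _ hcF.intervalIntegrable
  · intro x hx
    have h3 := F_ge H (s := x - 1) (by linarith [hx.1]) (by linarith [hx.2])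
    have hx1 := hx.1
    rw [mul_one_div, div_le_iff₀ (by linarith)]
    linarith
  · apply ContinuousOn.intervalIntegrable
    rw [Set.uIcc_of_le (by norm_num)]
    intro x hx
    have hx0 : x - 1 ≠ 0 := by linarith [hx.1]
    fun_prop (disch := assumption)

theorem num : Real.log 2 + Real.log 5 - 5 / 8 < 31 / 25 * Real.log 4 := by
  have h1 : Real.log 4 = 2 * Real.log 2 := by
    rw [show (4 : ℝ) = 2 ^ 2 by norm_num, Real.log_pow]; norm_num
  have h2 : 3 * Real.log 5 ≤ 7 * Real.log 2 := by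
    have h3 : Real.log ((5 : ℝ) ^ 3) ≤ Real.log ((2 : ℝ) ^ 7) := Real.log_le_log (by norm_num) (by norm_num)
    rw [Real.log_pow, Real.log_pow] at h3
    push_cast at h3
    exact h3
  have h4 := Real.log_two_lt_d9
  rw [h1]
  linarith

end Run7.h914
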