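import Pool.Agent.Run7.h914.Exp

/-! Artin-Schreier covers of general plane curves. -/

set_option autoImplicit false
set_option linter.all false
set_option linter.overlappingInstances false

open Module FF Pool.Agent.H525R3.FFp Pool.Agent.W132.AG Pool.Agent.W493.MX Pool.Agent.W343.BSD Polynomial
open Pool.Agent.R410.PW

namespace Run7.h914

section cover
variable {k : Type} [Field k]

/-- the substitution -/
noncomputable def UG (p : ℕ) (h l : k) : k[X][X] := C (C l⁻¹) * (X ^ p - X - C (C h * X))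

/-- the cover of a general curve -/
noncomputable def gG (p : ℕ) (f : k[X][X]) (h l : k) : k[X][X] := C (C (l ^ f.natDegree)) * f.comp (UG p h l)

theorem UG_lead {p : ℕ} (hp : 1 < p) (h : k) {l : k} (hl : l ≠ 0) :
    (UG p h l).natDegree = p ∧ (UG p h l).leadingCoeff = C l⁻¹ := by
  obtain ⟨hm, hd⟩ := AS_monic (R := k[X]) hp (C h * X)
  have h1 : (C l⁻¹ : k[X]) ≠ 0 := C_ne_zero.2 (inv_ne_zero hl)
  unfold UG
  constructor
  · rw [natDegree_C_mul h1, hd]
  · rw [leadingCoeff_mul, leadingCoeff_C, hm.leadingCoeff, mul_one]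

theorem gG_monic {p : ℕ} (hp : 1 < p) {f : k[X][X]} (hf : f.Monic) (h : k) {l : k} (hl : l ≠ 0) :
    (gG p f h l).Monic ∧ (gG p f h l).natDegree = f.natDegree * p := by
  obtain ⟨hd, hm⟩ := UG_lead hp h hl
  have h1 : (C (l ^ f.natDegree) : k[X]) ≠ 0 := C_ne_zero.2 (pow_ne_zero _ hl)
  unfold gG
  constructor
  · rw [Monic, leadingCoeff_mul, leadingCoeff_C, leadingCoeff_comp (by rw [hd]; omega), hm, hf.leadingCoeff, one_mul,
      ← C_pow, ← C_mul, inv_pow, mul_inv_cancel₀ (pow_ne_zero _ hl), C_1]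
  · rw [natDegree_C_mul h1, natDegree_comp, hd]

theorem gG_AB {p : ℕ} [CharP k p] {f A B : k[X][X]} {D : k[X]} (hAB : A * f + B * derivative f = C D)
    (h : k) {l : k} (hl : l ≠ 0) :
    (A.comp (UG p h l)) * gG p f h l + (- (C (C l) * B.comp (UG p h l))) * derivative (gG p f h l) =
      C (C (l ^ f.natDegree) * D) := by
  have hp : ((p : ℕ) : k[X][X]) = 0 := by
    rw [← map_natCast (C : k[X] →+* k[X][X]), ← map_natCast (C : k →+* k[X]), CharP.cast_eq_zero k p, C_0, C_0]
  have h1 : derivative (UG p h l) = - C (C l⁻¹) := by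
    unfold UG
    rw [derivative_C_mul, derivative_sub, derivative_sub, derivative_X_pow, derivative_X, derivative_C, map_natCast, hp]
    ring
  have h2 : derivative (gG p f h l) = C (C (l ^ f.natDegree)) * (- C (C l⁻¹) * (derivative f).comp (UG p h l)) := by
    unfold gG
    rw [derivative_C_mul, derivative_comp, h1]
  have h3 := congrArg (fun g : k[X][X] => g.comp (UG p h l)) hAB
  simp only [add_comp, mul_comp, C_comp] at h3
  have h4 : (C (C l) : k[X][X]) * C (C l⁻¹) = 1 := by
    rw [← C_mul, ← C_mul, mul_inv_cancel₀ hl, C_1, C_1]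
  rw [h2, C_mul, ← h3]
  unfold gG
  linear_combination (C (C (l ^ f.natDegree)) * B.comp (UG p h l) * (derivative f).comp (UG p h l)) * h4

theorem gG_fix {p : ℕ} [Fact p.Prime] [CharP k p] {f : k[X][X]} (hf : f.map (mapRingHom (frobenius k p)) = f) {h l : k} (hh : h ^ p = h)
    (hl : l ^ p = l) (i j : ℕ) :
    (((gG p f h l).coeff i).coeff j) ^ p ^ 1 = ((gG p f h l).coeff i).coeff j := by
  have h0 : (UG p h l).map (mapRingHom (frobenius k p)) = UG p h l := by
    unfold UG
    simp only [Polynomial.map_sub, Polynomial.map_mul, Polynomial.map_pow, map_X, map_C, coe_mapRingHom, frobenius_def, hh,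
      inv_pow, hl]
  have h1 : (gG p f h l).map (mapRingHom (frobenius k p)) = gG p f h l := by
    unfold gG
    rw [Polynomial.map_mul, Polynomial.map_comp, hf, h0, map_C, coe_mapRingHom, map_C, frobenius_def, ← pow_mul,
      mul_comm f.natDegree p, pow_mul, hl]
  have h2 := congrArg (fun g : k[X][X] => (g.coeff i).coeff j) h1
  simp only [coeff_map, coe_mapRingHom, frobenius_def] at h2
  rw [pow_one]
  exact h2

theorem evalEval_UG {p : ℕ} (h l a w : k) : evalEval a w (UG p h l) = (w ^ p - w - h * a) / l := by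
  rw [← map_evalRingHom_eval]
  unfold UG
  simp only [Polynomial.map_mul, Polynomial.map_sub, Polynomial.map_pow, map_X, map_C, coe_evalRingHom, eval_C, eval_mul,
    eval_X, eval_sub, eval_pow]
  rw [div_eq_inv_mul]

theorem evalEval_gG {p : ℕ} (f : k[X][X]) (h l a w : k) :
    evalEval a w (gG p f h l) = l ^ f.natDegree * evalEval a ((w ^ p - w - h * a) / l) f := by
  rw [← evalEval_UG, ← map_evalRingHom_eval, ← map_evalRingHom_eval, ← map_evalRingHom_eval]
  unfold gG
  rw [Polynomial.map_mul, Polynomial.map_comp, eval_mul, eval_comp, map_C, eval_C, coe_evalRingHom, eval_C]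

theorem irr_affine {K : Type*} [Field K] {q : K[X]} (hq : Irreducible q) {a : K} (ha : a ≠ 0) (b : K) :
    Irreducible (q.comp (C a * (X - C b))) := by
  letI : Invertible a := invertibleOfNonzero ha
  have h : q.comp (C a * (X - C b)) = algEquivCMulXAddC a (- (a * b)) q := by
    rw [algEquivCMulXAddC_apply, aeval_def, Polynomial.comp]
    congr 1
    rw [C_neg, C_mul]; ring
  rw [h]
  exact (MulEquiv.irreducible_iff (algEquivCMulXAddC a (- (a * b)))).2 hq

variable [IsAlgClosed k]

/-- irreducibility of the Artin-Schreier extension -/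
theorem irr_ASG {p d : ℕ} [Fact p.Prime] [CharP k p] {f A B : k[X][X]} {D : k[X]} (hf : f.Monic)
    (hAB : A * f + B * derivative f = C D) (hD : D ≠ 0) (hn : 2 ≤ f.natDegree)
    (hfd : ∀ i, (f.coeff i).natDegree ≤ d) (hd1 : 1 ≤ d) (hdn : d * f.natDegree < p) (h : k) {l : k} (hl : l ≠ 0)
    (E : Type) [Field E] [Algebra (RatFunc k) E] (x : E)
    (hx : minpoly (RatFunc k) x = C (algebraMap k[X] (RatFunc k) (C (l ^ f.natDegree))) *
      (f.map (algebraMap k[X] (RatFunc k))).comp (C (algebraMap k[X] (RatFunc k) (C l⁻¹)) *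
        (X - C (algebraMap k[X] (RatFunc k) (C h * X))))) :
    Irreducible ((X ^ p - X : (RatFunc k)[X]).map (algebraMap (RatFunc k) (IntermediateField.adjoin (RatFunc k) {x})) -
      C (IntermediateField.AdjoinSimple.gen (RatFunc k) x)) := by
  classical
  have hpp : p.Prime := Fact.out
  letI : Algebra k E := ((algebraMap (RatFunc k) E).comp (algebraMap k (RatFunc k))).toAlgebra
  haveI : IsScalarTower k (RatFunc k) E := IsScalarTower.of_algebraMap_eq fun c => rfl
  set n := f.natDegree with hnd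
  set ι := algebraMap k[X] (RatFunc k) with hι
  have hιi : Function.Injective ι := IsFractionRing.injective k[X] (RatFunc k)
  set b : RatFunc k := ι (C h * X) with hb
  set F0 : (RatFunc k)[X] := f.map ι with hF0
  have hF0m : F0.Monic := hf.map _
  have hF0d : F0.natDegree = n := hf.natDegree_map _
  set V : (RatFunc k)[X] := C (ι (C l⁻¹)) * (X - C b) with hV
  set q : (RatFunc k)[X] := C (ι (C (l ^ n))) * F0.comp V with hq
  have hl0 : ι (C l) ≠ 0 := by rw [Ne, map_eq_zero_iff _ hιi]; exact C_ne_zero.2 hl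
  have hli0 : ι (C l⁻¹) ≠ 0 := by rw [Ne, map_eq_zero_iff _ hιi]; exact C_ne_zero.2 (inv_ne_zero hl)
  have hln0 : ι (C (l ^ n)) ≠ 0 := by rw [Ne, map_eq_zero_iff _ hιi]; exact C_ne_zero.2 (pow_ne_zero _ hl)
  have hll : ι (C l) * ι (C l⁻¹) = 1 := by rw [← map_mul, ← C_mul, mul_inv_cancel₀ hl, C_1, map_one]
  have hVd : V.natDegree = 1 := by rw [hV, natDegree_C_mul hli0, natDegree_X_sub_C]
  have hVl : V.leadingCoeff = ι (C l⁻¹) := by
    rw [hV, leadingCoeff_mul, leadingCoeff_C, leadingCoeff_X_sub_C, mul_one]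
  have hqm : q.Monic := by
    rw [Monic, hq, leadingCoeff_mul, leadingCoeff_C, leadingCoeff_comp (by rw [hVd]; exact one_ne_zero), hVl,
      hF0m.leadingCoeff, one_mul, hF0d, ← map_pow, ← map_mul, ← C_pow, ← C_mul, inv_pow, mul_inv_cancel₀ (pow_ne_zero _ hl), C_1, map_one]
  have hqd : q.natDegree = n := by
    rw [hq, natDegree_C_mul hln0, natDegree_comp, hVd, hF0d, mul_one]
  have hint : IsIntegral (RatFunc k) x := by
    by_contra h0
    have := minpoly.eq_zero h0
    rw [hx] at this
    exact hqm.ne_zero this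
  have hABK : A.map ι * F0 + B.map ι * derivative F0 = C (ι D) := by
    have h1 := congrArg (Polynomial.map ι) hAB
    rw [Polynomial.map_add, Polynomial.map_mul, Polynomial.map_mul, map_C] at h1
    rw [← h1, hF0, derivative_map]
  have hsepq : q.Separable := by
    rw [Polynomial.separable_def']
    have hc0 : ι (C (l ^ n) * D) ≠ 0 := by
      rw [Ne, map_eq_zero_iff _ hιi]
      exact mul_ne_zero (C_ne_zero.2 (pow_ne_zero _ hl)) hD
    have h3 := congrArg (fun g : (RatFunc k)[X] => g.comp V) hABK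
    simp only [add_comp, mul_comp, C_comp] at h3
    have hVder : derivative V = C (ι (C l⁻¹)) := by
      rw [hV, derivative_C_mul, derivative_X_sub_C, mul_one]
    have hqder : derivative q = C (ι (C (l ^ n))) * (C (ι (C l⁻¹)) * (derivative F0).comp V) := by
      rw [hq, derivative_C_mul, derivative_comp, hVder]
    have hll' : (C (ι (C l)) : (RatFunc k)[X]) * C (ι (C l⁻¹)) = 1 := by rw [← C_mul, hll, C_1]
    refine ⟨C (ι (C (l ^ n) * D))⁻¹ * (A.map ι).comp V, C (ι (C (l ^ n) * D))⁻¹ * (C (ι (C l)) * (B.map ι).comp V), ?_⟩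
    have h5 : (C (ι (C (l ^ n) * D))⁻¹ : (RatFunc k)[X]) * (C (ι (C (l ^ n))) * C (ι D)) = 1 := by
      rw [← C_mul, ← C_mul, ← map_mul ι, inv_mul_cancel₀ hc0, C_1]
    rw [hqder, hq]
    linear_combination h5 + C (ι (C (l ^ n) * D))⁻¹ * C (ι (C (l ^ n))) * h3 +
      (C (ι (C (l ^ n) * D))⁻¹ * (B.map ι).comp V * C (ι (C (l ^ n))) * (derivative F0).comp V) * hll'
  have hsep : IsSeparable (RatFunc k) x := by
    unfold IsSeparable
    rw [hx]
    exact hsepq
  let L := IntermediateField.adjoin (RatFunc k) {x}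
  haveI : FiniteDimensional (RatFunc k) L := IntermediateField.adjoin.finiteDimensional hint
  haveI : Algebra.IsSeparable (RatFunc k) L := (IntermediateField.isSeparable_adjoin_simple_iff_isSeparable (RatFunc k) E).2 hsep
  haveI : IsFF k (RatFunc k) := isFF_ratFunc k
  haveI : IsScalarTower k (RatFunc k) L := IsScalarTower.of_algebraMap_eq fun c => rfl
  haveI : IsFF k L := isFF_of_ext (F := RatFunc k)
  let gn : L := IntermediateField.AdjoinSimple.gen (RatFunc k) x
  have hfin : finrank (RatFunc k) L = n := by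
    rw [IntermediateField.adjoin.finrank hint, hx, hqd]
  have hgen : aeval gn (minpoly (RatFunc k) x) = 0 := by
    have h1 := IntermediateField.minpoly_gen (RatFunc k) x
    rw [← h1]
    exact minpoly.aeval _ _
  -- the second coordinate
  have hlL : algebraMap k L l ≠ 0 := (_root_.map_ne_zero _).2 hl
  have hbL : algebraMap (RatFunc k) L b = algebraMap k L h * cEh k L X := by
    rw [hb]
    change cEh k L (C h * X) = _
    rw [map_mul, cEh_C]
  have hliL : algebraMap (RatFunc k) L (ι (C l⁻¹)) = (algebraMap k L l)⁻¹ := by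
    change cEh k L (C l⁻¹) = _
    rw [cEh_C, map_inv₀]
  set z : L := (gn - algebraMap k L h * cEh k L X) / algebraMap k L l with hz
  have hgz : gn = algebraMap k L h * cEh k L X + algebraMap k L l * z := by
    rw [hz, mul_div_cancel₀ _ hlL]; ring
  have hVz : aeval gn V = z := by
    rw [hV, map_mul, map_sub, aeval_C, aeval_C, aeval_X, hbL, hliL, hz, div_eq_inv_mul]
  have hy : (f.map (cEh k L)).eval z = 0 := by
    rw [hx, map_mul, aeval_C, aeval_comp, hVz] at hgen
    have h1 := (mul_eq_zero.1 hgen).resolve_left ((_root_.map_ne_zero _).2 hln0)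
    rw [aeval_def, hF0, eval₂_map] at h1
    rw [eval_map]
    exact h1
  have h1 := ddeg_polar_le hf hfd hd1 hy h l
  rw [← hgz, hfin] at h1
  have hzr : z ∉ (algebraMap (RatFunc k) L).range := by
    rintro ⟨r, hr⟩
    have h2 : gn = algebraMap (RatFunc k) L (b + algebraMap k (RatFunc k) l * r) := by
      rw [map_add, hbL, map_mul, ← IsScalarTower.algebraMap_apply k (RatFunc k) L, hr]
      exact hgz
    have h3 : minpoly (RatFunc k) gn = X - C (b + algebraMap k (RatFunc k) l * r) := by
      rw [h2]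
      exact minpoly.eq_X_sub_C L _
    have h4 : minpoly (RatFunc k) gn = minpoly (RatFunc k) x := IntermediateField.minpoly_gen (RatFunc k) x
    have h5 := congrArg natDegree h3
    rw [h4, hx, hqd, natDegree_X_sub_C] at h5
    omega
  have h2 := ddeg_polar_pos' (F := k) (L := L) (fun a ha => by
    have h2 := IsAlgClosed.degree_eq_one_of_irreducible k (minpoly.irreducible ha.isIntegral)
    obtain ⟨c, hc⟩ := minpoly.mem_range_of_degree_eq_one k a h2
    exact ⟨c, hc⟩) hzr h hl
  rw [← hgz] at h2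
  haveI : CharP L p := charP_of_injective_algebraMap (algebraMap k L).injective p
  have hno : ∀ v : L, v ^ p - v ≠ gn := by
    intro v hv
    have h3 := polar_AS (F := k) hpp.one_lt v
    rw [hv] at h3
    rw [h3, ddeg_nsmul] at h1 h2
    have h4 : 0 < ddeg (polar (k := k) v) := by
      by_contra h5
      have : (p : ℤ) * ddeg (polar (k := k) v) ≤ 0 := mul_nonpos_of_nonneg_of_nonpos (by positivity) (by omega)
      omega
    have h5 : (p : ℤ) * 1 ≤ p * ddeg (polar (k := k) v) := mul_le_mul_of_nonneg_left (by omega) (by positivity)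
    have h6 : ((d * n : ℕ) : ℤ) < p := by exact_mod_cast hdn
    push_cast at h6
    omega
  have h3 := Pool.Agent.W290.WA.irr p L gn hno
  rw [Polynomial.map_sub, Polynomial.map_pow, map_X]
  exact h3

/-- the cover is irreducible -/
theorem gG_irr {p d : ℕ} [Fact p.Prime] [CharP k p] {f A B : k[X][X]} {D : k[X]} (hf : f.Monic)
    (hAB : A * f + B * derivative f = C D) (hD : D ≠ 0) (hn : 2 ≤ f.natDegree)
    (hfd : ∀ i, (f.coeff i).natDegree ≤ d) (hd1 : 1 ≤ d) (hdn : d * f.natDegree < p) (hirr : Irreducible f)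
    (h : k) {l : k} (hl : l ≠ 0) : Irreducible (gG p f h l) := by
  have hpp : p.Prime := Fact.out
  obtain ⟨hgm, hgd⟩ := gG_monic hpp.one_lt hf h hl
  rw [hgm.irreducible_iff_irreducible_map_fraction_map (K := RatFunc k)]
  rw [hf.irreducible_iff_irreducible_map_fraction_map (K := RatFunc k)] at hirr
  have hιi : Function.Injective (algebraMap k[X] (RatFunc k)) := IsFractionRing.injective k[X] (RatFunc k)
  have hli0 : algebraMap k[X] (RatFunc k) (C l⁻¹) ≠ 0 := by
    rw [Ne, map_eq_zero_iff _ hιi]; exact C_ne_zero.2 (inv_ne_zero hl)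
  have hln0 : algebraMap k[X] (RatFunc k) (C (l ^ f.natDegree)) ≠ 0 := by
    rw [Ne, map_eq_zero_iff _ hιi]; exact C_ne_zero.2 (pow_ne_zero _ hl)
  have hmap : (gG p f h l).map (algebraMap k[X] (RatFunc k)) =
      (C (algebraMap k[X] (RatFunc k) (C (l ^ f.natDegree))) *
      (f.map (algebraMap k[X] (RatFunc k))).comp (C (algebraMap k[X] (RatFunc k) (C l⁻¹)) *
        (X - C (algebraMap k[X] (RatFunc k) (C h * X))))).comp (X ^ p - X) := by
    unfold gG UG
    rw [Polynomial.map_mul, Polynomial.map_comp, mul_comp, C_comp, map_C, comp_assoc, mul_comp, C_comp, sub_comp, X_comp, C_comp,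
      Polynomial.map_mul, map_C, Polynomial.map_sub, Polynomial.map_sub, Polynomial.map_pow, map_X, map_C]
  rw [hmap]
  have hV : Irreducible ((f.map (algebraMap k[X] (RatFunc k))).comp (C (algebraMap k[X] (RatFunc k) (C l⁻¹)) *
        (X - C (algebraMap k[X] (RatFunc k) (C h * X))))) := irr_affine hirr hli0 _
  have hF0m := hf.map (algebraMap k[X] (RatFunc k))
  have hF0d : (f.map (algebraMap k[X] (RatFunc k))).natDegree = f.natDegree := hf.natDegree_map _
  refine irreducible_comp ?_ ?_ ((irreducible_isUnit_mul (isUnit_C.2 (IsUnit.mk0 _ hln0))).2 hV) ?_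
  · have hVd : (C (algebraMap k[X] (RatFunc k) (C l⁻¹)) * (X - C (algebraMap k[X] (RatFunc k) (C h * X))) :
        (RatFunc k)[X]).natDegree = 1 := by rw [natDegree_C_mul hli0, natDegree_X_sub_C]
    rw [Monic, leadingCoeff_mul, leadingCoeff_C, leadingCoeff_comp (by rw [hVd]; exact one_ne_zero), leadingCoeff_mul,
      leadingCoeff_C, leadingCoeff_X_sub_C, mul_one, hF0m.leadingCoeff, one_mul, hF0d, ← map_pow, ← map_mul, ← C_pow, ← C_mul,
      inv_pow, mul_inv_cancel₀ (pow_ne_zero _ hl), C_1, map_one]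
  · have h1 : (X ^ p - X : (RatFunc k)[X]) = X ^ p - X - C 0 := by rw [C_0, sub_zero]
    rw [h1]
    exact (AS_monic hpp.one_lt 0).1
  · intro E _ _ x hx
    exact irr_ASG hf hAB hD hn hfd hd1 hdn h hl E x hx

end cover

section pts
variable {k : Type} [Field k] {p : ℕ} [Fact p.Prime] [CharP k p] [IsAlgClosed k]

theorem pow_fix {a : k} (ha : a ^ p = a) (j : ℕ) : a ^ p ^ j = a := by
  induction j with
  | zero => simp
  | succ j ihj => rw [pow_succ, pow_mul, ihj, ha]

open Classical in
theorem card_coverG {f : k[X][X]} {h l : k} (hh : h ^ p = h) (hl : l ^ p = l) (hl0 : l ≠ 0) (m : ℕ)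
    (Z Zc : Finset (k × k)) (hZ : ∀ z, z ∈ Z ↔ z ∈ Pt f (p ^ m))
    (hZc : ∀ z, z ∈ Zc ↔ z ∈ Pt (gG p f h l) (p ^ m)) :
    Zc.card = ∑ z ∈ Z, if ∑ i ∈ Finset.range m, (h * z.1 + l * z.2) ^ (p ^ i) = 0 then p else 0 := by
  classical
  rw [Finset.sum_congr rfl fun z _ => (card_RA (p := p) (m := m) (h * z.1 + l * z.2)).symm, ← Finset.card_sigma]
  symm
  refine Finset.card_bij' (fun s _ => (s.1.1, s.2)) (fun z _ => ⟨(z.1, (z.2 ^ p - z.2 - h * z.1) / l), z.2⟩) ?_ ?_ ?_ ?_
  · rintro ⟨⟨a, b⟩, w⟩ hs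
    rw [Finset.mem_sigma, hZ, mem_RA] at hs
    obtain ⟨⟨h1, h2, h3⟩, h4, h5⟩ := hs
    simp only at h1 h2 h3 h4 h5
    rw [hZc]
    refine ⟨h1, h5, ?_⟩
    rw [evalEval_gG, h4]
    have e : (h * a + l * b - h * a) / l = b := by
      rw [add_sub_cancel_left, mul_div_cancel_left₀ _ hl0]
    rw [e]
    change l ^ f.natDegree * evalEval a b f = 0
    rw [h3, mul_zero]
  · rintro ⟨a, w⟩ hz
    rw [hZc] at hz
    obtain ⟨h1, h2, h3⟩ := hz
    simp only at h1 h2 h3
    rw [Finset.mem_sigma, hZ, mem_RA]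
    refine ⟨⟨h1, ?_, ?_⟩, ?_, h2⟩
    · simp only
      rw [div_pow, pow_fix hl, sub_pow_char_pow, sub_pow_char_pow, mul_pow, pow_fix hh, h1, ← pow_mul, mul_comm p (p ^ m), pow_mul, h2]
    · rw [evalEval_gG] at h3
      exact (mul_eq_zero.1 h3).resolve_left (pow_ne_zero _ hl0)
    · simp only
      rw [mul_div_cancel₀ _ hl0]; ring
  · rintro ⟨⟨a, b⟩, w⟩ hs
    rw [Finset.mem_sigma, hZ, mem_RA] at hs
    obtain ⟨-, h4, -⟩ := hs
    simp only at h4
    simp only
    have : (w ^ p - w - h * a) / l = b := by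
      rw [h4, div_eq_iff hl0]; ring
    rw [this]
  · rintro ⟨a, w⟩ _
    rfl

end pts

end Run7.h914
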