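import Pool.Agent.Run7.h914.GCov

/-! The exponential sums over general plane curves. -/

set_option autoImplicit false
set_option linter.all false
set_option linter.overlappingInstances false

open Module FF Pool.Agent.H525R3.FFp Pool.Agent.W132.AG Pool.Agent.W493.MX Pool.Agent.W343.BSD Polynomial
open IsDedekindDomain Pool.Agent.R410.PW

namespace Run7.h914

/-- the constant -/
def EG (n d δ : ℕ) : ℕ := ((n * d * n + 1) * (n + 1) + (2 * (d * n) + 1) * (d * n)) + (δ * n + (n + δ * n))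

theorem map_AB {R S : Type} [CommRing R] [CommRing S] (φ : R →+* S) {f A B : R[X][X]} {D : R[X]}
    (hAB : A * f + B * derivative f = C D) :
    A.map (mapRingHom φ) * f.map (mapRingHom φ) + B.map (mapRingHom φ) * derivative (f.map (mapRingHom φ)) = C (D.map φ) := by
  have h1 := congrArg (Polynomial.map (mapRingHom φ)) hAB
  rw [Polynomial.map_add, Polynomial.map_mul, Polynomial.map_mul, map_C, coe_mapRingHom] at h1
  rw [← h1, derivative_map]

section
variable {p : ℕ} [Fact p.Prime] {L k : Type} [Field L] [Algebra (ZMod p) L] [Algebra (RatFunc (ZMod p)) L]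
  [IsScalarTower (ZMod p) (RatFunc (ZMod p)) L] [FiniteDimensional (RatFunc (ZMod p)) L]
  [Algebra.IsSeparable (RatFunc (ZMod p)) L]
  [Field k] [IsAlgClosed k] [Algebra (ZMod p) k] [Algebra.IsAlgebraic (ZMod p) k] [Algebra (ZMod p)[X] L]
  [IsScalarTower (ZMod p)[X] (RatFunc (ZMod p)) L] [IsScalarTower (ZMod p) (ZMod p)[X] L]

theorem exp_LG {n d δ : ℕ} {f A B : (ZMod p)[X][X]} {D : (ZMod p)[X]} (hf : f.Monic) (hfd : f.natDegree = n)
    (hfc : ∀ i, (f.coeff i).natDegree ≤ d) (hd1 : 1 ≤ d) (hAB : A * f + B * derivative f = C D) (hD : D ≠ 0)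
    (hδ : D.natDegree ≤ δ) (hn : 2 ≤ n) (hnp : d * n < p)
    (hirr : Irreducible (f.map (mapRingHom (algebraMap (ZMod p) k)))) (pb : PowerBasis (RatFunc (ZMod p)) L)
    (hy : (f.map (cEh (ZMod p) L)).eval pb.gen = 0) (hdim : pb.dim = n)
    (hmin : minpoly (RatFunc (ZMod p)) pb.gen = f.map (algebraMap (ZMod p)[X] (RatFunc (ZMod p))))
    (h : ZMod p) {l : ZMod p} (hl : l ≠ 0) (Z1 : Finset (k × k))
    (hZ1 : ∀ z, z ∈ Z1 ↔ z ∈ Pt (f.map (mapRingHom (algebraMap (ZMod p) k))) p) :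
    ‖∑ z ∈ Z1, wt (ZMod.stdAddChar (N := p)) 1 (algebraMap (ZMod p) k h * z.1 + algebraMap (ZMod p) k l * z.2)‖ ≤
      EG n d δ * √(p : ℝ) := by
  classical
  have hpp : p.Prime := Fact.out
  haveI : CharP k p := charP_of_injective_algebraMap (algebraMap (ZMod p) k).injective p
  haveI : IsFF (ZMod p) (RatFunc (ZMod p)) := isFF_ratFunc (ZMod p)
  haveI : IsFF (ZMod p) L := isFF_of_ext (F := RatFunc (ZMod p))
  set ψ : AddChar (ZMod p) ℂ := ZMod.stdAddChar (N := p) with hψ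
  set y := pb.gen with hyd
  have hn0 : 0 < n := by omega
  have hcard : Nat.card (ZMod p) = p := Nat.card_zmod p
  set fk : k[X][X] := f.map (mapRingHom (algebraMap (ZMod p) k)) with hfk
  have hfkm : fk.Monic := hf.map _
  have hfkd : fk.natDegree = n := by rw [hfk, hf.natDegree_map, hfd]
  have hdim' : pb.dim = f.natDegree := by rw [hfd, hdim]
  have hconst := const_of hf hirr pb hy hdim'
  have hfin : finrank (RatFunc (ZMod p)) L = f.natDegree := by rw [pb.finrank, hdim']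
  have hfin' : finrank (RatFunc (ZMod p)) L = n := by rw [hfin, hfd]
  have hli : LinearIndependent (RatFunc (ZMod p)) (fun i : Fin n => pb.gen ^ (i : ℕ)) := by
    have h1 := pb.basis.linearIndependent
    rw [pb.coe_basis] at h1
    exact h1.comp (Fin.cast hdim.symm) (Fin.cast_injective _)
  -- Riemann's theorem
  have hx0 : cEh (ZMod p) L X ≠ 0 := by
    rw [← map_zero (cEh (ZMod p) L)]
    exact fun h => X_ne_zero (cEh_inj h)
  have hR1 := lower_expl (k := ZMod p) hx0 (n := n) (r := n * d) (fun i : Fin n => y ^ (i : ℕ)) (lin_indep hli)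
    (fun i => mem_LL_y hf hfc hy (Nat.mul_le_mul_right _ i.2.le))
  have hR2 := ell_zero_le (F := ZMod p) (L := L) hconst
  obtain ⟨γ, hγ3, hγ4, hγ5⟩ := riemann_expl (k := ZMod p) hx0 (n := n) (c := n * d * n) hn0
    (by rw [ddeg_polar_X, hfin']) (fun m => by
      have := hR1 m
      push_cast at this ⊢
      exact this) hR2
  have hyr : y ∉ (algebraMap (RatFunc (ZMod p)) L).range := by
    rintro ⟨r, hr⟩
    have h3 : minpoly (RatFunc (ZMod p)) y = X - C r := by
      rw [← hr]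
      exact minpoly.eq_X_sub_C L _
    have h5 := congrArg natDegree h3
    rw [hmin, hf.natDegree_map, hfd, natDegree_X_sub_C] at h5
    omega
  -- the L-functions
  let ua : ZMod p → L := fun a => uf (ZMod p) (a * h) (a * l) y
  let S : ZMod p → ℕ → ℂ := fun a m => SC (aG ψ (ua a)) (dG (ZMod p) (ua a)) (fun n => fin_Gp (ua a) n) m
  let c : ZMod p → ℕ → ℂ := fun a m => cL ψ (ua a) m
  set s : Finset (ZMod p) := Finset.univ.erase 0 with hs
  set M : ℕ := (n * d * n + 1) * (n + 1) + (2 * (d * n) + 1) * (d * n) with hM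
  have hc0 : ∀ a ∈ s, c a 0 = 1 := fun a _ => cC_zero (aG ψ (ua a)) (dG (ZMod p) (ua a)) (dG_ne _) (fun n => fin_Gp (ua a) n)
  have hlog : ∀ a ∈ s, ∀ n : ℕ, (n : ℂ) * c a n = ∑ m ∈ Finset.Icc 1 n, c a (n - m) * S a m := fun a _ n =>
    cC_log (aG ψ (ua a)) (dG (ZMod p) (ua a)) (dG_ne _) (fun n => fin_Gp (ua a) n) n
  have hcM : ∀ a ∈ s, ∀ m, M < m → c a m = 0 := by
    intro a ha m hm
    have ha0 : a ≠ 0 := (Finset.mem_erase.1 ha).1
    have hal : a * l ≠ 0 := mul_ne_zero ha0 hl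
    have h1 := ddeg_polar_le hf hfc hd1 hy (a * h) (a * l)
    have h2 := ddeg_polar_pos' hconst hyr (a * h) hal
    rw [hfin'] at h1
    obtain ⟨e, he⟩ : ∃ e : ℕ, ddeg (polar (k := ZMod p) (ua a)) = e := ⟨_, (Int.toNat_of_nonneg h2.le).symm⟩
    have h1' : ddeg (polar (k := ZMod p) (ua a)) ≤ d * n := h1
    have h2' : 0 < ddeg (polar (k := ZMod p) (ua a)) := h2
    rw [he] at h1' h2'
    have he0 : 0 < e := by exact_mod_cast h2'
    have hen : e ≤ d * n := by exact_mod_cast h1'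
    have hu0 : ua a ≠ 0 := by
      intro h0
      rw [h0] at he
      have : polar (k := ZMod p) (0 : L) = 0 := by
        ext P; rw [polar_apply, P.ord_zero]; simp
      rw [this, ddeg_zero] at he
      omega
    have hψd : ψ ((e : ℕ) : ZMod p) ≠ 1 := by
      intro h0
      have h3 := ZMod.injective_stdAddChar (N := p) (h0.trans (AddChar.map_zero_eq_one ψ).symm)
      rw [ZMod.natCast_eq_zero_iff] at h3
      have := Nat.le_of_dvd he0 h3
      omega
    refine cL_eq_zero ψ hu0 he he0 hψd hγ5 ?_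
    have h3 : (2 * e + 1) * e ≤ (2 * (d * n) + 1) * (d * n) := Nat.mul_le_mul (by omega) hen
    have h4 : (n * d * n + 1) * (n + 1) + (2 * e + 1) * e ≤ m := by omega
    exact_mod_cast h4
  -- the points
  have hfixF : ∀ a : ZMod p, (algebraMap (ZMod p) k a) ^ p = algebraMap (ZMod p) k a := fun a => by
    rw [← map_pow, ZMod.pow_card]
  have hfixm : ∀ (a : ZMod p) (j : ℕ), (algebraMap (ZMod p) k a) ^ p ^ j = algebraMap (ZMod p) k a := by
    intro a j
    induction j with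
    | zero => simp
    | succ j ih => rw [pow_succ, pow_mul, ih, hfixF]
  set h' : k := algebraMap (ZMod p) k h with hh'
  set l' : k := algebraMap (ZMod p) k l with hl'
  have hl'0 : l' ≠ 0 := (_root_.map_ne_zero _).2 hl
  have hZex : ∀ m : ℕ, ∃ Z : Finset (k × k), 1 ≤ m → ∀ z, z ∈ Z ↔ z ∈ Pt fk (p ^ m) := by
    intro m
    by_cases hm : 1 ≤ m
    · have := Pt_finite (p := p) (N := m) (by omega) fk
      exact ⟨this.toFinset, fun _ z => by rw [Set.Finite.mem_toFinset]⟩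
    · exact ⟨∅, fun h => absurd h hm⟩
  choose Z hZ using hZex
  have hZcex : ∀ m : ℕ, ∃ Z : Finset (k × k), 1 ≤ m → ∀ z, z ∈ Z ↔ z ∈ Pt (gG p fk h' l') (p ^ m) := by
    intro m
    by_cases hm : 1 ≤ m
    · have := Pt_finite (p := p) (N := m) (by omega) (gG p fk h' l')
      exact ⟨this.toFinset, fun _ z => by rw [Set.Finite.mem_toFinset]⟩
    · exact ⟨∅, fun h => absurd h hm⟩
  choose Zc hZc using hZcex
  have hprim : ψ.IsPrimitive := ZMod.isPrimitive_stdAddChar p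
  have hkey : ∀ m, 1 ≤ m → ∑ a ∈ s, ∑ z ∈ Z m, wt ψ m (algebraMap (ZMod p) k (a * h) * z.1 + algebraMap (ZMod p) k (a * l) * z.2) =
      ((Zc m).card : ℂ) - (Z m).card := by
    intro m hm
    rw [Finset.sum_comm]
    have h1 : ∀ z ∈ Z m, ∑ a ∈ s, wt ψ m (algebraMap (ZMod p) k (a * h) * z.1 + algebraMap (ZMod p) k (a * l) * z.2) =
        ((if ∑ i ∈ Finset.range m, (h' * z.1 + l' * z.2) ^ (p ^ i) = 0 then p else 0 : ℕ) : ℂ) - 1 := by
      intro z hz
      rw [hZ m hm] at hz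
      obtain ⟨hz1, hz2, -⟩ := hz
      have hv : (h' * z.1 + l' * z.2) ^ p ^ m = h' * z.1 + l' * z.2 := by
        rw [add_pow_char_pow, mul_pow, mul_pow, hz1, hz2, hfixm, hfixm]
      obtain ⟨t, ht⟩ := trace_fix hv
      have h2 : ∀ a : ZMod p, wt ψ m (algebraMap (ZMod p) k (a * h) * z.1 + algebraMap (ZMod p) k (a * l) * z.2) = ψ (a * t) := by
        intro a
        apply wt_of
        rw [hcard, map_mul (algebraMap (ZMod p) k) a t, ← ht, Finset.mul_sum]
        refine Finset.sum_congr rfl fun i _ => ?_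
        have h3 : algebraMap (ZMod p) k (a * h) * z.1 + algebraMap (ZMod p) k (a * l) * z.2 =
            algebraMap (ZMod p) k a * (h' * z.1 + l' * z.2) := by
          rw [map_mul, map_mul]; ring
        rw [h3, mul_pow, hfixm]
      rw [Finset.sum_congr rfl fun a _ => h2 a]
      have h4 := Finset.add_sum_erase Finset.univ (fun a : ZMod p => ψ (a * t)) (Finset.mem_univ 0)
      rw [AddChar.sum_mulShift t hprim, ZMod.card p] at h4
      simp only [zero_mul, AddChar.map_zero_eq_one] at h4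
      have h5 : (∑ i ∈ Finset.range m, (h' * z.1 + l' * z.2) ^ (p ^ i) = 0) ↔ t = 0 := by
        rw [ht, _root_.map_eq_zero]
      rw [hs, if_congr h5 rfl rfl]
      push_cast
      have h6 : (∑ x ∈ Finset.univ.erase (0 : ZMod p), ψ (x * t)) = (1 + ∑ x ∈ Finset.univ.erase (0 : ZMod p), ψ (x * t)) - 1 := by ring
      rw [h6, h4]
      push_cast
      rfl
    rw [Finset.sum_congr rfl h1, Finset.sum_sub_distrib, Finset.sum_const, nsmul_eq_mul, mul_one, ← Nat.cast_sum,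
      ← card_coverG (hfixF h) (hfixF l) hl'0 m (Z m) (Zc m) (hZ m hm) (hZc m hm)]
  -- the number of points
  have hfrob : fk.map (mapRingHom (frobenius k p)) = fk := by
    ext i j
    rw [coeff_map, coe_mapRingHom, coeff_map, frobenius_def, hfk, coeff_map, coe_mapRingHom, coeff_map]
    exact hfixF _
  have hmapF : ∀ {i j : ℕ}, ((fk.coeff i).coeff j) ^ p ^ 1 = (fk.coeff i).coeff j := by
    intro i j
    rw [hfk, coeff_map, coe_mapRingHom, coeff_map, pow_one]
    exact hfixF _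
  have hABk := map_AB (algebraMap (ZMod p) k) hAB
  rw [← hfk] at hABk
  have hDk : D.map (algebraMap (ZMod p) k) ≠ 0 := (Polynomial.map_ne_zero_iff (algebraMap (ZMod p) k).injective).2 hD
  have hfck : ∀ i, (fk.coeff i).natDegree ≤ d := by
    intro i
    rw [hfk, coeff_map, coe_mapRingHom]
    exact natDegree_map_le.trans (hfc i)
  obtain ⟨C1, N1, hgeo1⟩ := geo k p 1 one_pos fk _ _ _ hfkm (by rw [hfkd]; exact hn0)
    (fun i j => hmapF) hDk hABk hirr
  obtain ⟨hgm, hgd⟩ := gG_monic hpp.one_lt hfkm h' hl'0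
  have hDc : (C (l' ^ fk.natDegree) * D.map (algebraMap (ZMod p) k) : k[X]) ≠ 0 :=
    mul_ne_zero (C_ne_zero.2 (pow_ne_zero _ hl'0)) hDk
  obtain ⟨C2, N2, hgeo2⟩ := geo k p 1 one_pos (gG p fk h' l') _ _ _ hgm (by rw [hgd, hfkd]; exact Nat.mul_pos hn0 hpp.pos)
    (fun i j => gG_fix hfrob (hfixF h) (hfixF l) i j) hDc (gG_AB hABk h' hl'0)
    (gG_irr hfkm hABk hDk (by rw [hfkd]; exact hn) hfck hd1 (by rw [hfkd]; exact hnp) hirr h' hl'0)
  set r : ℝ := √(p : ℝ) with hr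
  have hp1 : (1 : ℝ) ≤ p := by exact_mod_cast hpp.one_lt.le
  have hr1 : 1 ≤ r := by rw [hr, Real.one_le_sqrt]; exact hp1
  have hrm : ∀ m : ℕ, √((p : ℝ) ^ m) = r ^ m := by
    intro m
    rw [hr, Real.sqrt_eq_rpow, Real.sqrt_eq_rpow, ← Real.rpow_natCast, ← Real.rpow_natCast,
      ← Real.rpow_mul (by positivity), ← Real.rpow_mul (by positivity), mul_comm]
  have hmain : ∀ m, 1 ≤ m → N1 ≤ m → N2 ≤ m → |((Zc m).card : ℝ) - (Z m).card| ≤ (C1 + C2) * r * r ^ m := by
    intro m hm h1 h2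
    obtain ⟨a1, a2⟩ := hgeo1 m h1
    obtain ⟨b1, b2⟩ := hgeo2 m h2
    have e1 : Pt fk ((p ^ 1) ^ m) = ↑(Z m) := by
      ext z; rw [Finset.mem_coe, hZ m hm, pow_one]
    have e2 : Pt (gG p fk h' l') ((p ^ 1) ^ m) = ↑(Zc m) := by
      ext z; rw [Finset.mem_coe, hZc m hm, pow_one]
    rw [e1, Set.ncard_coe_finset, pow_one, one_mul] at a1 a2
    rw [e2, Set.ncard_coe_finset, pow_one, one_mul] at b1 b2
    have h3 := pow_half_le p m hpp.pos
    rw [hrm] at h3
    have h3' : (p : ℝ) ^ (m - m / 2) ≤ r * r ^ m := by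
      have := h3; push_cast at this; exact this
    have a1' : ((Z m).card : ℝ) ≤ (p : ℝ) ^ m + C1 * (p : ℝ) ^ (m - m / 2) := by exact_mod_cast a1
    have a2' : (p : ℝ) ^ m ≤ (Z m).card + C1 * (p : ℝ) ^ (m - m / 2) := by exact_mod_cast a2
    have b1' : ((Zc m).card : ℝ) ≤ (p : ℝ) ^ m + C2 * (p : ℝ) ^ (m - m / 2) := by exact_mod_cast b1
    have b2' : (p : ℝ) ^ m ≤ (Zc m).card + C2 * (p : ℝ) ^ (m - m / 2) := by exact_mod_cast b2
    have h4 : (C1 : ℝ) * (p : ℝ) ^ (m - m / 2) ≤ C1 * (r * r ^ m) := mul_le_mul_of_nonneg_left h3' (by positivity)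
    have h5 : (C2 : ℝ) * (p : ℝ) ^ (m - m / 2) ≤ C2 * (r * r ^ m) := mul_le_mul_of_nonneg_left h3' (by positivity)
    have h6 : (C1 + C2 : ℝ) * r * r ^ m = C1 * (r * r ^ m) + C2 * (r * r ^ m) := by ring
    rw [abs_le, h6]
    constructor <;> linarith
  -- comparison
  set Cc : ℕ := δ * n + (n + δ * n) with hCc
  have hq : Nat.card (ZMod p) = p ^ 1 := by rw [hcard, pow_one]
  have hcmp : ∀ a : ZMod p, ∀ m, 1 ≤ m →
      ‖S a m - ∑ z ∈ Z m, wt ψ m (algebraMap (ZMod p) k (a * h) * z.1 + algebraMap (ZMod p) k (a * l) * z.2)‖ ≤ Cc := by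
    intro a m hm
    have h1 := compare_sum (k := k) (p := p) hf hAB hD hδ hy hmin hfin ψ (a * h) (a * l) hm one_pos hq (Z m) (by
      intro z
      rw [hZ m hm, hcard])
    rw [hfd] at h1
    exact h1
  have hS : ∀ m, 1 ≤ m → ‖∑ a ∈ s, S a m‖ ≤
      (((s.card * Cc : ℕ) : ℝ) + (C1 + C2) * r + ∑ j ∈ Finset.range (N1 + N2), ‖∑ a ∈ s, S a j‖) * r ^ m := by
    intro m hm
    have hrm1 : 1 ≤ r ^ m := one_le_pow₀ hr1
    have hCs0 : 0 ≤ ∑ j ∈ Finset.range (N1 + N2), ‖∑ a ∈ s, S a j‖ := Finset.sum_nonneg fun _ _ => norm_nonneg _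
    have hA0 : (0 : ℝ) ≤ ((s.card * Cc : ℕ) : ℝ) := Nat.cast_nonneg _
    have hB0 : (0 : ℝ) ≤ (C1 + C2) * r := by positivity
    rcases lt_or_ge m (N1 + N2) with hlt | hge
    · have h1 : ‖∑ a ∈ s, S a m‖ ≤ ∑ j ∈ Finset.range (N1 + N2), ‖∑ a ∈ s, S a j‖ :=
        Finset.single_le_sum (f := fun j => ‖∑ a ∈ s, S a j‖) (fun _ _ => norm_nonneg _) (Finset.mem_range.2 hlt)
      nlinarith
    · have h1 := hmain m hm (by omega) (by omega)
      have h2 : ‖∑ a ∈ s, (S a m - ∑ z ∈ Z m, wt ψ m (algebraMap (ZMod p) k (a * h) * z.1 + algebraMap (ZMod p) k (a * l) * z.2))‖ ≤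
          ((s.card * Cc : ℕ) : ℝ) := by
        refine (norm_sum_le _ _).trans ?_
        refine (Finset.sum_le_sum fun a _ => hcmp a m hm).trans ?_
        rw [Finset.sum_const, nsmul_eq_mul]
        push_cast
        exact le_rfl
      have h3 : ∑ a ∈ s, S a m = ∑ a ∈ s, (S a m - ∑ z ∈ Z m, wt ψ m (algebraMap (ZMod p) k (a * h) * z.1 + algebraMap (ZMod p) k (a * l) * z.2)) +
          (((Zc m).card : ℂ) - (Z m).card) := by
        rw [← hkey m hm, ← Finset.sum_add_distrib]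
        exact Finset.sum_congr rfl fun a _ => by ring
      have h4 : ‖((Zc m).card : ℂ) - (Z m).card‖ ≤ (C1 + C2) * r * r ^ m := by
        have : ((Zc m).card : ℂ) - (Z m).card = (((Zc m).card : ℝ) - (Z m).card : ℝ) := by push_cast; rfl
        rw [this, Complex.norm_real, Real.norm_eq_abs]
        exact h1
      rw [h3]
      refine (norm_add_le _ _).trans ?_
      nlinarith
  have hfb := first_bound s c S M hc0 hcM hlog r
    (((s.card * Cc : ℕ) : ℝ) + (C1 + C2) * r + ∑ j ∈ Finset.range (N1 + N2), ‖∑ a ∈ s, S a j‖)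
    (by linarith) (by
      have : (0 : ℝ) ≤ ∑ j ∈ Finset.range (N1 + N2), ‖∑ a ∈ s, S a j‖ := Finset.sum_nonneg fun _ _ => norm_nonneg _
      exact add_nonneg (add_nonneg (Nat.cast_nonneg _) (mul_nonneg (by positivity) (by linarith))) this) hS 1 (by rw [hs, Finset.mem_erase]; exact ⟨one_ne_zero, Finset.mem_univ _⟩)
  have h1 := hcmp 1 1 le_rfl
  have hZ1' : Z1 = Z 1 := by
    ext z
    rw [hZ1, hZ 1 le_rfl, pow_one]
  rw [one_mul, one_mul, ← hZ1'] at h1
  have h2 : ‖∑ z ∈ Z1, wt ψ 1 (h' * z.1 + l' * z.2)‖ ≤ ‖S 1 1‖ + Cc := by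
    have h3 : ∑ z ∈ Z1, wt ψ 1 (h' * z.1 + l' * z.2) = S 1 1 - (S 1 1 - ∑ z ∈ Z1, wt ψ 1 (h' * z.1 + l' * z.2)) := by ring
    rw [h3]
    refine (norm_sub_le _ _).trans ?_
    linarith
  refine h2.trans ?_
  have h3 : (Cc : ℝ) ≤ Cc * r := le_mul_of_one_le_right (by positivity) hr1
  have h4 : ((EG n d δ : ℕ) : ℝ) = M + Cc := by rw [hM, hCc, EG]; push_cast; ring
  rw [h4]
  linarith

end

end Run7.h914
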