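import Mathlib

/-! Bezout identities for bivariate polynomials and linear changes of the coordinates. -/

set_option autoImplicit false
set_option linter.all false

open Polynomial

namespace Run7.h914

/-! ## The degree of the resultant -/

theorem natDegree_det_le {K : Type*} [CommRing K] {N d : ℕ} (M : Matrix (Fin N) (Fin N) K[X])
    (hM : ∀ i j, (M i j).natDegree ≤ d) : M.det.natDegree ≤ N * d := by
  rw [Matrix.det_apply]
  refine natDegree_sum_le_of_forall_le _ _ fun σ _ => ?_
  have h1 : (∏ i, M (σ i) i).natDegree ≤ N * d := by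
    refine (natDegree_prod_le _ _).trans ?_
    refine (Finset.sum_le_sum fun i _ => hM (σ i) i).trans ?_
    rw [Finset.sum_const, Finset.card_univ, Fintype.card_fin, smul_eq_mul]
  rcases Int.units_eq_one_or (Equiv.Perm.sign σ) with h | h
  · rw [h, one_smul]; exact h1
  · rw [h, Units.neg_smul, one_smul, natDegree_neg]; exact h1

theorem natDegree_resultant_le {K : Type*} [CommRing K] {d : ℕ} (f g : K[X][X]) (m n : ℕ)
    (hf : ∀ i, (f.coeff i).natDegree ≤ d) (hg : ∀ i, (g.coeff i).natDegree ≤ d) :
    (resultant f g m n).natDegree ≤ (m + n) * d := by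
  unfold resultant
  refine natDegree_det_le _ fun i j => ?_
  unfold sylvester
  rw [Matrix.of_apply]
  refine Fin.addCases (fun j₁ => ?_) (fun j₁ => ?_) j
  · rw [Fin.addCases_left]
    split_ifs
    · exact hg _
    · rw [natDegree_zero]; exact Nat.zero_le _
  · rw [Fin.addCases_right]
    split_ifs
    · exact hf _
    · rw [natDegree_zero]; exact Nat.zero_le _

/-- Bezout's identity for a monic irreducible polynomial and its derivative. -/
theorem exists_AB {K : Type} [Field K] {f : K[X][X]} {d n : ℕ} (hf : f.Monic) (hn : f.natDegree = n) (hn0 : 0 < n)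
    (hnK : (n : K) ≠ 0) (hd : ∀ i, (f.coeff i).natDegree ≤ d) (hirr : Irreducible f) :
    ∃ (A B : K[X][X]) (D : K[X]), A * f + B * derivative f = C D ∧ D ≠ 0 ∧ D.natDegree ≤ 2 * n * d := by
  have hd' : ∀ i, ((derivative f).coeff i).natDegree ≤ d := by
    intro i
    rw [coeff_derivative]
    have h1 : ((i : K[X]) + 1) = C ((i : K) + 1) := by rw [C_add, C_1, map_natCast]
    rw [h1]
    exact (natDegree_mul_C_le _ _).trans (hd _)
  obtain ⟨a, b, -, -, hab⟩ := exists_mul_add_mul_eq_C_resultant f (derivative f) (m := n) (n := (derivative f).natDegree)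
    hn.le le_rfl (Or.inl hn0.ne')
  refine ⟨a, b, _, by rw [← hab]; ring, ?_, ?_⟩
  · intro h0
    have hfirr : Irreducible (f.map (algebraMap K[X] (RatFunc K))) :=
      (hf.irreducible_iff_irreducible_map_fraction_map (K := RatFunc K)).1 hirr
    have hfm := hf.map (algebraMap K[X] (RatFunc K))
    have hder : derivative (f.map (algebraMap K[X] (RatFunc K))) ≠ 0 := by
      intro h1
      have h2 := congrArg (fun g : (RatFunc K)[X] => g.coeff (n - 1)) h1
      simp only [coeff_derivative, coeff_zero] at h2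
      have h3 : n - 1 + 1 = n := by omega
      have h4 : (f.map (algebraMap K[X] (RatFunc K))).natDegree = n := by rw [hf.natDegree_map, hn]
      rw [h3, ← h4, hfm.coeff_natDegree, one_mul, h4] at h2
      have h5 : (((n - 1 : ℕ) : RatFunc K) + 1) = (algebraMap K (RatFunc K)) (n : K) := by
        rw [map_natCast]
        have : ((n - 1 + 1 : ℕ) : RatFunc K) = (n : RatFunc K) := by rw [h3]
        rw [← this]; push_cast; ring
      rw [h5, _root_.map_eq_zero] at h2
      exact hnK h2
    have hsep : (f.map (algebraMap K[X] (RatFunc K))).Separable := (separable_iff_derivative_ne_zero hfirr).2 hder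
    have hιi : Function.Injective (algebraMap K[X] (RatFunc K)) := IsFractionRing.injective K[X] (RatFunc K)
    have h3 := resultant_map_map f (derivative f) f.natDegree (derivative f).natDegree (algebraMap K[X] (RatFunc K))
    have h4 : resultant (f.map (algebraMap K[X] (RatFunc K))) ((derivative f).map (algebraMap K[X] (RatFunc K))) ≠ 0 := by
      apply resultant_ne_zero
      rw [← derivative_map]
      exact hsep
    rw [natDegree_map_eq_of_injective hιi, natDegree_map_eq_of_injective hιi, h3] at h4
    apply h4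
    rw [hn, h0, map_zero]
  · refine (natDegree_resultant_le f (derivative f) n (derivative f).natDegree hd hd').trans ?_
    apply Nat.mul_le_mul_right
    have := natDegree_derivative_le f
    omega

/-! ## Total degree -/

/-- the total degree is at most `n` -/
def TD {K : Type} [Field K] (F : K[X][X]) (n : ℕ) : Prop := ∀ i j, n < i + j → (F.coeff i).coeff j = 0

section
variable {K : Type} [Field K]

theorem TD.mono {F : K[X][X]} {m n : ℕ} (h : TD F m) (hmn : m ≤ n) : TD F n := fun i j hij => h i j (by omega)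

theorem TD.mul {F G : K[X][X]} {m n : ℕ} (hF : TD F m) (hG : TD G n) : TD (F * G) (m + n) := by
  intro i j hij
  rw [coeff_mul, finset_sum_coeff]
  refine Finset.sum_eq_zero fun a ha => ?_
  rw [coeff_mul]
  refine Finset.sum_eq_zero fun b hb => ?_
  rw [Finset.HasAntidiagonal.mem_antidiagonal] at ha hb
  by_cases h1 : m < a.1 + b.1
  · rw [hF _ _ h1, zero_mul]
  · rw [hG _ _ (by omega), mul_zero]

theorem TD.add {F G : K[X][X]} {n : ℕ} (hF : TD F n) (hG : TD G n) : TD (F + G) n := by
  intro i j hij
  rw [coeff_add, coeff_add, hF i j hij, hG i j hij, add_zero]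

theorem TD.sum {ι : Type} (s : Finset ι) (F : ι → K[X][X]) {n : ℕ} (h : ∀ i ∈ s, TD (F i) n) : TD (∑ i ∈ s, F i) n := by
  classical
  induction s using Finset.induction_on with
  | empty => intro i j _; simp
  | insert a s ha ih =>
    rw [Finset.sum_insert ha]
    exact (h a (Finset.mem_insert_self _ _)).add (ih fun i hi => h i (Finset.mem_insert_of_mem hi))

theorem TD.cc (a : K) : TD (C (C a)) 0 := by
  intro i j hij
  rw [coeff_C]
  split_ifs with h
  · rw [coeff_C, if_neg (by omega)]
  · simp

theorem TD.x : TD (C X : K[X][X]) 1 := by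
  intro i j hij
  rw [coeff_C]
  split_ifs with h
  · rw [coeff_X, if_neg (by omega)]
  · simp

theorem TD.y : TD (X : K[X][X]) 1 := by
  intro i j hij
  rw [coeff_X]
  split_ifs with h
  · rw [coeff_one, if_neg (by omega)]
  · simp

theorem TD.pow {F : K[X][X]} {m : ℕ} (hF : TD F m) (r : ℕ) : TD (F ^ r) (r * m) := by
  induction r with
  | zero => rw [pow_zero, zero_mul, ← C_1, ← C_1]; exact TD.cc 1
  | succ r ih => rw [pow_succ, Nat.succ_mul]; exact ih.mul hF

theorem TD.natDegree {F : K[X][X]} {n : ℕ} (hF : TD F n) : F.natDegree ≤ n := by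
  rw [natDegree_le_iff_coeff_eq_zero]
  intro i hi
  ext j
  rw [hF i j (by omega), coeff_zero]

theorem TD.coeff {F : K[X][X]} {n : ℕ} (hF : TD F n) (i : ℕ) : (F.coeff i).natDegree ≤ n - i := by
  rw [natDegree_le_iff_coeff_eq_zero]
  intro j hj
  exact hF i j (by omega)

/-! ## The change of the coordinates -/

/-- the substitution `x ↦ x + c y` on the polynomials in `x` -/
noncomputable def psi (c : K) : K[X] →+* K[X][X] :=
  eval₂RingHom ((C : K[X] →+* K[X][X]).comp (C : K →+* K[X])) (C X + C (C c) * X)

/-- the substitution `x ↦ x + c y` -/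
noncomputable def phi (c : K) : K[X][X] →+* K[X][X] := eval₂RingHom (psi c) X

theorem phi_CC (c a : K) : phi c (C (C a)) = C (C a) := by
  simp [phi, psi]

theorem phi_CX (c : K) : phi c (C X) = C X + C (C c) * X := by
  simp [phi, psi]

theorem phi_X (c : K) : phi c X = X := by
  simp [phi]

theorem phi_phi (c : K) (F : K[X][X]) : phi (-c) (phi c F) = F := by
  have h : (phi (-c)).comp (phi c) = RingHom.id (K[X][X]) := by
    refine Polynomial.ringHom_ext' (Polynomial.ringHom_ext' ?_ ?_) ?_
    · ext a
      simp only [RingHom.comp_apply, phi_CC, RingHom.id_apply]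
    · simp only [RingHom.comp_apply, phi_CX, RingHom.id_apply, map_add, map_mul, phi_CC, phi_X]
      rw [C_neg, C_neg]; ring
    · simp only [RingHom.comp_apply, phi_X, RingHom.id_apply]
  exact congrArg (fun g : K[X][X] →+* K[X][X] => g F) h

/-- the automorphism -/
noncomputable def phiE (c : K) : K[X][X] ≃+* K[X][X] :=
  RingEquiv.ofRingHom (phi c) (phi (-c)) (by
    refine RingHom.ext fun F => ?_
    have := phi_phi (-c) F
    rw [neg_neg] at this
    exact this) (RingHom.ext fun F => phi_phi c F)

theorem phi_irr (c : K) {F : K[X][X]} (hF : Irreducible F) : Irreducible (phi c F) :=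
  (MulEquiv.irreducible_iff (phiE c)).2 hF

theorem phi_map {k : Type} [Field k] (σ : K →+* k) (c : K) (F : K[X][X]) :
    (phi c F).map (mapRingHom σ) = phi (σ c) (F.map (mapRingHom σ)) := by
  have h : (mapRingHom (mapRingHom σ)).comp (phi c) = (phi (σ c)).comp (mapRingHom (mapRingHom σ)) := by
    refine Polynomial.ringHom_ext' (Polynomial.ringHom_ext' ?_ ?_) ?_
    · ext a
      simp only [RingHom.comp_apply, phi_CC, coe_mapRingHom, map_C]
    · simp only [RingHom.comp_apply, phi_CX, coe_mapRingHom, map_C, Polynomial.map_add, Polynomial.map_mul, map_X]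
    · simp only [RingHom.comp_apply, phi_X, coe_mapRingHom, map_X]
  exact congrArg (fun g : K[X][X] →+* k[X][X] => g F) h

theorem phi_eval (c x y : K) (F : K[X][X]) : evalEval x y (phi c F) = evalEval (x + c * y) y F := by
  have h : (evalEvalRingHom x y).comp (phi c) = evalEvalRingHom (x + c * y) y := by
    refine Polynomial.ringHom_ext' (Polynomial.ringHom_ext' ?_ ?_) ?_
    · ext a
      simp only [RingHom.comp_apply, phi_CC, coe_evalEvalRingHom, evalEval_C, eval_C, coe_evalRingHom]
    · simp only [RingHom.comp_apply, phi_CX, map_add, map_mul, coe_evalEvalRingHom, evalEval_C, eval_C, eval_X, evalEval_X, coe_evalRingHom]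
    · simp only [RingHom.comp_apply, phi_X, coe_evalEvalRingHom, evalEval_X, coe_evalRingHom, eval_X, eval_C]
  exact congrArg (fun g : K[X][X] →+* K => g F) h

theorem psi_TD (c : K) {g : K[X]} {m : ℕ} (hg : g.natDegree ≤ m) : TD (psi c g) m := by
  have h : psi c g = ∑ j ∈ Finset.range (m + 1), C (C (g.coeff j)) * (C X + C (C c) * X) ^ j := by
    unfold psi
    rw [coe_eval₂RingHom, eval₂_eq_sum_range' _ (Nat.lt_succ_of_le hg)]
    rfl
  rw [h]
  refine TD.sum _ _ fun j hj => ?_
  rw [Finset.mem_range] at hj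
  have h1 : TD (C X + C (C c) * X : K[X][X]) 1 := by
    refine TD.x.add ?_
    have := (TD.cc c).mul (TD.y (K := K))
    rwa [zero_add] at this
  have h2 := (TD.cc (g.coeff j)).mul (h1.pow j)
  exact h2.mono (by omega)

theorem phi_TD (c : K) {F : K[X][X]} {n : ℕ} (hF : TD F n) : TD (phi c F) n := by
  have h : phi c F = ∑ i ∈ Finset.range (n + 1), psi c (F.coeff i) * X ^ i := by
    unfold phi
    rw [coe_eval₂RingHom, eval₂_eq_sum_range' _ (Nat.lt_succ_of_le hF.natDegree)]
  rw [h]
  refine TD.sum _ _ fun i hi => ?_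
  rw [Finset.mem_range] at hi
  have h1 := (psi_TD c (hF.coeff i)).mul ((TD.y (K := K)).pow i)
  exact h1.mono (by omega)

/-- the top coefficient of `F (x + c y, y)` -/
noncomputable def topc (F : K[X][X]) (n : ℕ) : K[X] :=
  ∑ i ∈ Finset.range (n + 1), C ((F.coeff i).coeff (n - i)) * X ^ (n - i)

theorem phi_top (c : K) {F : K[X][X]} {n : ℕ} (hF : TD F n) : (phi c F).coeff n = C ((topc F n).eval c) := by
  have h0 : ((phi c F).coeff n).natDegree ≤ 0 := by
    have := (phi_TD c hF).coeff n
    rwa [Nat.sub_self] at this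
  rw [eq_C_of_natDegree_le_zero h0]
  congr 1
  have h : (evalRingHom (0 : K)).comp (C : K →+* K[X]) = RingHom.id K := by ext a; simp
  have h1 : (mapRingHom (evalRingHom (0 : K))).comp (phi c) =
      eval₂RingHom (eval₂RingHom (C : K →+* K[X]) (C c * X)) X := by
    refine Polynomial.ringHom_ext' (Polynomial.ringHom_ext' ?_ ?_) ?_
    · ext a
      simp only [RingHom.comp_apply, phi_CC, coe_mapRingHom, map_C, coe_evalRingHom, eval_C, coe_eval₂RingHom, eval₂_C]
    · simp only [RingHom.comp_apply, phi_CX, coe_mapRingHom, map_C, Polynomial.map_add, Polynomial.map_mul, map_X,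
        coe_evalRingHom, eval_C, eval_X, coe_eval₂RingHom, eval₂_C, eval₂_X, C_0, zero_add]
    · simp only [RingHom.comp_apply, phi_X, coe_mapRingHom, map_X, coe_eval₂RingHom, eval₂_X]
  have h2 := congrArg (fun g : K[X][X] →+* K[X] => (g F).coeff n) h1
  simp only [RingHom.comp_apply, coe_mapRingHom, coeff_map, coe_evalRingHom, coe_eval₂RingHom] at h2
  rw [coeff_zero_eq_eval_zero, h2, eval₂_eq_sum_range' _ (Nat.lt_succ_of_le hF.natDegree), finset_sum_coeff]
  unfold topc
  rw [eval_finset_sum]
  refine Finset.sum_congr rfl fun i hi => ?_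
  rw [Finset.mem_range] at hi
  have h3 : n = (n - i) + i := by omega
  rw [eval_mul, eval_C, eval_pow, eval_X, coe_eval₂RingHom]
  conv_lhs => rw [h3]
  rw [coeff_mul_X_pow]
  change ((F.coeff i).comp (C c * X)).coeff (n - i) = _
  rw [comp_C_mul_X_coeff]

theorem topc_ne {F : K[X][X]} {n : ℕ} {i : ℕ} (hi : i ≤ n) (h : (F.coeff i).coeff (n - i) ≠ 0) : topc F n ≠ 0 := by
  intro h0
  apply h
  have h1 := congrArg (fun g : K[X] => g.coeff (n - i)) h0
  simp only [topc, finset_sum_coeff, coeff_C_mul, coeff_X_pow, coeff_zero] at h1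
  rw [Finset.sum_eq_single i] at h1
  · simpa using h1
  · intro j hj hji
    rw [Finset.mem_range] at hj
    rw [if_neg (by omega), mul_zero]
  · intro h2
    exact absurd (Finset.mem_range.2 (by omega)) h2

theorem topc_deg (F : K[X][X]) (n : ℕ) : (topc F n).natDegree ≤ n := by
  unfold topc
  refine natDegree_sum_le_of_forall_le _ _ fun i hi => ?_
  refine (natDegree_C_mul_X_pow_le _ _).trans ?_
  omega

/-- A generic linear change makes the polynomial monic in `y`. -/
theorem exists_monic [Fintype K] {F : K[X][X]} {n : ℕ} (hF : TD F n) {i : ℕ} (hi : i ≤ n)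
    (h : (F.coeff i).coeff (n - i) ≠ 0) (hK : n + 1 < Fintype.card K) (u v : K) (huv : u ≠ 0 ∨ v ≠ 0) :
    ∃ c : K, v + u * c ≠ 0 ∧ ∃ a : K, a ≠ 0 ∧ (C (C a) * phi c F).Monic ∧ (C (C a) * phi c F).natDegree = n ∧
      ∀ i, ((C (C a) * phi c F).coeff i).natDegree ≤ n := by
  have h1 : topc F n * (C v + C u * X) ≠ 0 := by
    refine mul_ne_zero (topc_ne hi h) ?_
    intro h0
    have e0 := congrArg (fun g : K[X] => g.coeff 0) h0
    have e1 := congrArg (fun g : K[X] => g.coeff 1) h0
    simp at e0 e1
    rcases huv with h2 | h2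
    · exact h2 (by simpa [coeff_C] using e1)
    · exact h2 e0
  have h2 : (topc F n * (C v + C u * X)).natDegree < Fintype.card K := by
    refine lt_of_le_of_lt ((natDegree_mul_le).trans (Nat.add_le_add (topc_deg F n) (?_ : _ ≤ 1))) hK
    refine (natDegree_add_le _ _).trans ?_
    rw [natDegree_C]
    exact max_le (Nat.zero_le _) ((natDegree_C_mul_le _ _).trans natDegree_X_le)
  obtain ⟨c, hc⟩ := exists_eval_ne_zero_of_natDegree_lt_card _ h1 (by rw [Cardinal.mk_fintype]; exact_mod_cast h2)
  rw [eval_mul, mul_ne_zero_iff] at hc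
  obtain ⟨hc1, hc2⟩ := hc
  refine ⟨c, by simpa using hc2, ((topc F n).eval c)⁻¹, inv_ne_zero hc1, ?_⟩
  have h3 := phi_top c hF
  have hT := phi_TD c hF
  have hne : (C ((topc F n).eval c)⁻¹ : K[X]) ≠ 0 := C_ne_zero.2 (inv_ne_zero hc1)
  have hd : (phi c F).natDegree = n := by
    apply le_antisymm hT.natDegree
    apply le_natDegree_of_ne_zero
    rw [h3]
    exact C_ne_zero.2 hc1
  have hd2 : (C (C ((topc F n).eval c)⁻¹) * phi c F).natDegree = n := by rw [natDegree_C_mul hne, hd]
  refine ⟨?_, hd2, ?_⟩
  · rw [Monic, leadingCoeff_mul, leadingCoeff_C, leadingCoeff, hd, h3, ← C_mul, inv_mul_cancel₀ hc1, C_1]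
  · intro i
    rw [coeff_C_mul]
    exact (natDegree_C_mul_le _ _).trans ((hT.coeff i).trans (Nat.sub_le _ _))

end

end Run7.h914
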