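import Pool.Agent.Run7.h914.GExp
import Pool.Agent.Run7.h914.Lin

/-! The exponential sums over the points of absolutely irreducible plane curves. -/

set_option autoImplicit false
set_option linter.all false
set_option linter.overlappingInstances false

open Module FF Pool.Agent.H525R3.FFp Pool.Agent.W132.AG Pool.Agent.W493.MX Pool.Agent.W343.BSD Polynomial
open IsDedekindDomain Pool.Agent.R410.PW

namespace Run7.h914

open Classical in
/-- the points of a plane curve over the prime field -/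
noncomputable def ZG {p : ℕ} [NeZero p] (f : (ZMod p)[X][X]) : Finset (ZMod p × ZMod p) :=
  Finset.univ.filter fun z => evalEval z.1 z.2 f = 0

theorem mem_ZG {p : ℕ} [NeZero p] {f : (ZMod p)[X][X]} {z : ZMod p × ZMod p} : z ∈ ZG f ↔ evalEval z.1 z.2 f = 0 := by
  classical
  unfold ZG
  rw [Finset.mem_filter]
  exact ⟨fun h => h.2, fun h => ⟨Finset.mem_univ _, h⟩⟩

/-- a polynomial over the prime field is absolutely irreducible -/
def AbsIrr {p : ℕ} [Fact p.Prime] (f : (ZMod p)[X][X]) : Prop :=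
  Irreducible (f.map (mapRingHom (algebraMap (ZMod p) (AlgebraicClosure (ZMod p)))))

theorem evalEval_map_map {R S : Type} [CommRing R] [CommRing S] (σ : R →+* S) (f : R[X][X]) (x y : R) :
    evalEval (σ x) (σ y) (f.map (mapRingHom σ)) = σ (evalEval x y f) := by
  rw [← map_evalRingHom_eval, ← map_evalRingHom_eval, Polynomial.map_map]
  have h : (evalRingHom (σ x)).comp (mapRingHom σ) = σ.comp (evalRingHom x) := by
    refine Polynomial.ringHom_ext' ?_ ?_
    · ext a; simp
    · simp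
  rw [h, ← Polynomial.map_map, eval_map, eval₂_at_apply]

theorem exp_auxG {p n d δ : ℕ} [Fact p.Prime] {f A B : (ZMod p)[X][X]} {D : (ZMod p)[X]} (hf : f.Monic)
    (hfd : f.natDegree = n) (hfc : ∀ i, (f.coeff i).natDegree ≤ d) (hd1 : 1 ≤ d) (hAB : A * f + B * derivative f = C D)
    (hD : D ≠ 0) (hδ : D.natDegree ≤ δ) (hn : 2 ≤ n) (hnp : d * n < p) (hirr : AbsIrr f) (h : ZMod p) {l : ZMod p}
    (hl : l ≠ 0) : ‖∑ z ∈ ZG f, ZMod.stdAddChar (N := p) (h * z.1 + l * z.2)‖ ≤ EG n d δ * √(p : ℝ) := by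
  classical
  have hpp : p.Prime := Fact.out
  have hn0 : 0 < n := by omega
  let k := AlgebraicClosure (ZMod p)
  haveI : CharP k p := charP_of_injective_algebraMap (algebraMap (ZMod p) k).injective p
  have hirr' : Irreducible (f.map (mapRingHom (algebraMap (ZMod p) k))) := hirr
  have hirrF : Irreducible f := hf.irreducible_of_irreducible_map _ _ hirr'
  set F0 : (RatFunc (ZMod p))[X] := f.map (algebraMap (ZMod p)[X] (RatFunc (ZMod p))) with hF0
  have hF0m : F0.Monic := hf.map _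
  haveI hfact : Fact (Irreducible F0) :=
    ⟨(hf.irreducible_iff_irreducible_map_fraction_map (K := RatFunc (ZMod p))).1 hirrF⟩
  have hsep : F0.Separable := by
    rw [Polynomial.separable_def']
    have h := congrArg (Polynomial.map (algebraMap (ZMod p)[X] (RatFunc (ZMod p)))) hAB
    rw [Polynomial.map_add, Polynomial.map_mul, Polynomial.map_mul] at h
    have hc : algebraMap (ZMod p)[X] (RatFunc (ZMod p)) D ≠ 0 := by
      rw [map_ne_zero_iff _ (IsFractionRing.injective (ZMod p)[X] (RatFunc (ZMod p)))]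
      exact hD
    set c0 := algebraMap (ZMod p)[X] (RatFunc (ZMod p)) D with hc0
    refine ⟨C c0⁻¹ * A.map (algebraMap (ZMod p)[X] (RatFunc (ZMod p))),
      C c0⁻¹ * B.map (algebraMap (ZMod p)[X] (RatFunc (ZMod p))), ?_⟩
    rw [hF0, derivative_map, mul_assoc, mul_assoc, ← mul_add, h, Polynomial.map_C, ← hc0, ← C_mul, inv_mul_cancel₀ hc, C_1]
  let L := AdjoinRoot F0
  let pb : PowerBasis (RatFunc (ZMod p)) L := AdjoinRoot.powerBasis hF0m.ne_zero
  have hgen : pb.gen = AdjoinRoot.root F0 := AdjoinRoot.powerBasis_gen hF0m.ne_zero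
  have hdim : pb.dim = n := by
    rw [AdjoinRoot.powerBasis_dim, hF0, hf.natDegree_map, hfd]
  haveI : FiniteDimensional (RatFunc (ZMod p)) L := pb.finite
  have hy : (f.map (cEh (ZMod p) L)).eval pb.gen = 0 := by
    rw [hgen, eval_map]
    have h1 := AdjoinRoot.eval₂_root F0
    rw [hF0, eval₂_map] at h1
    exact h1
  have hmin : minpoly (RatFunc (ZMod p)) pb.gen = F0 := by
    rw [hgen, AdjoinRoot.minpoly_root hF0m.ne_zero, hF0m.leadingCoeff, inv_one, C_1, mul_one]
  haveI : Algebra.IsSeparable (RatFunc (ZMod p)) L := by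
    have h1 : IsSeparable (RatFunc (ZMod p)) (AdjoinRoot.root F0) := by
      unfold IsSeparable
      rw [← hgen, hmin]
      exact hsep
    have h2 := (IntermediateField.isSeparable_adjoin_simple_iff_isSeparable (RatFunc (ZMod p)) L).2 h1
    rw [IntermediateField.adjoin_root_eq_top] at h2
    exact Algebra.IsSeparable.of_algHom (RatFunc (ZMod p)) _
      (IntermediateField.topEquiv.symm : L ≃ₐ[RatFunc (ZMod p)] _).toAlgHom
  let em : ZMod p × ZMod p → k × k := Prod.map (algebraMap (ZMod p) k) (algebraMap (ZMod p) k)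
  have hem : Function.Injective em :=
    Prod.map_injective.2 ⟨(algebraMap (ZMod p) k).injective, (algebraMap (ZMod p) k).injective⟩
  have key := exp_LG (L := L) (k := k) hf hfd hfc hd1 hAB hD hδ hn hnp hirr' pb hy hdim hmin h hl ((ZG f).image em) (by
    rintro ⟨a, b⟩
    rw [Finset.mem_image]
    constructor
    · rintro ⟨⟨x, y⟩, hxy, hz⟩
      simp only [em, Prod.map_apply, Prod.mk.injEq] at hz
      obtain ⟨rfl, rfl⟩ := hz
      rw [mem_ZG] at hxy
      refine ⟨?_, ?_, ?_⟩
      · change _ ^ p = _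
        rw [← map_pow, ZMod.pow_card]
      · change _ ^ p = _
        rw [← map_pow, ZMod.pow_card]
      · change evalEval _ _ _ = 0
        rw [evalEval_map_map, hxy, map_zero]
    · rintro ⟨h1, h2, h3⟩
      obtain ⟨x, rfl⟩ := range_of_pow (p := p) (k := k) h1
      obtain ⟨y, rfl⟩ := range_of_pow (p := p) (k := k) h2
      refine ⟨(x, y), ?_, rfl⟩
      rw [mem_ZG]
      apply (algebraMap (ZMod p) k).injective
      rw [← evalEval_map_map, map_zero]
      exact h3)
  rw [Finset.sum_image (fun x _ y _ h => hem h)] at key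
  refine le_trans (le_of_eq ?_) key
  congr 1
  refine Finset.sum_congr rfl fun z _ => ?_
  symm
  apply wt_of
  simp only [em, Prod.map, Finset.range_one, Finset.sum_singleton, pow_zero, pow_one, map_add, map_mul]

theorem ZG_change {p : ℕ} [Fact p.Prime] {G : Type} [AddCommMonoid G] (F : (ZMod p)[X][X]) (c : ZMod p) {a : ZMod p} (ha : a ≠ 0)
    (g : ZMod p × ZMod p → G) : ∑ z ∈ ZG F, g z = ∑ z ∈ ZG (C (C a) * phi c F), g (z.1 + c * z.2, z.2) := by
  symm
  have hev : ∀ x y : ZMod p, evalEval x y (C (C a) * phi c F) = a * evalEval (x + c * y) y F := by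
    intro x y
    rw [evalEval_mul, phi_eval, evalEval_C, eval_C]
  refine Finset.sum_bij' (fun z _ => (z.1 + c * z.2, z.2)) (fun z _ => (z.1 - c * z.2, z.2)) ?_ ?_ ?_ ?_ ?_
  · rintro ⟨x, y⟩ hz
    rw [mem_ZG, hev] at hz
    rw [mem_ZG]
    exact (mul_eq_zero.1 hz).resolve_left ha
  · rintro ⟨x, y⟩ hz
    rw [mem_ZG] at hz
    rw [mem_ZG, hev]
    simp only [sub_add_cancel]
    rw [hz, mul_zero]
  · rintro ⟨x, y⟩ _
    simp
  · rintro ⟨x, y⟩ _
    simp
  · intro z _; rfl

/-- the data for a generic linear change -/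
theorem change_data {p m : ℕ} [Fact p.Prime] {F : (ZMod p)[X][X]} (hF : TD F m) {i : ℕ} (hi : i ≤ m)
    (htop : (F.coeff i).coeff (m - i) ≠ 0) (hm : 2 ≤ m) (hmp : m * m < p) (hirr : AbsIrr F) (h l : ZMod p)
    (hhl : h ≠ 0 ∨ l ≠ 0) : ∃ c a : ZMod p, l + h * c ≠ 0 ∧ a ≠ 0 ∧ (C (C a) * phi c F).Monic ∧
      (C (C a) * phi c F).natDegree = m ∧ (∀ i, ((C (C a) * phi c F).coeff i).natDegree ≤ m) ∧
      AbsIrr (C (C a) * phi c F) ∧ ∃ (A B : (ZMod p)[X][X]) (D : (ZMod p)[X]),
        A * (C (C a) * phi c F) + B * derivative (C (C a) * phi c F) = C D ∧ D ≠ 0 ∧ D.natDegree ≤ 2 * m * m := by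
  have hpp : p.Prime := Fact.out
  have hm1 : m + 1 < p := by nlinarith
  obtain ⟨c, hc, a, ha, h1, h2, h3⟩ := exists_monic hF hi htop (by rw [ZMod.card]; exact hm1) h l hhl
  have h4 : AbsIrr (C (C a) * phi c F) := by
    unfold AbsIrr at hirr ⊢
    rw [Polynomial.map_mul, phi_map, map_C, coe_mapRingHom, map_C]
    refine (irreducible_isUnit_mul ?_).2 (phi_irr _ hirr)
    exact isUnit_C.2 (isUnit_C.2 (IsUnit.mk0 _ ((_root_.map_ne_zero _).2 ha)))
  refine ⟨c, a, hc, ha, h1, h2, h3, h4, ?_⟩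
  have h5 : Irreducible (C (C a) * phi c F) := h1.irreducible_of_irreducible_map _ _ h4
  refine exists_AB h1 h2 (by omega) ?_ h3 h5
  rw [Ne, ZMod.natCast_eq_zero_iff]
  exact Nat.not_dvd_of_pos_of_lt (by omega) (by omega)

/-- **The exponential sums of the linear forms over the points of a plane curve.** -/
theorem exp_curve {p m : ℕ} [Fact p.Prime] {F : (ZMod p)[X][X]} (hF : TD F m) {i : ℕ} (hi : i ≤ m)
    (htop : (F.coeff i).coeff (m - i) ≠ 0) (hm : 2 ≤ m) (hmp : m * m < p) (hirr : AbsIrr F) (h l : ZMod p)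
    (hhl : h ≠ 0 ∨ l ≠ 0) :
    ‖∑ z ∈ ZG F, ZMod.stdAddChar (N := p) (h * z.1 + l * z.2)‖ ≤ EG m m (2 * m * m) * √(p : ℝ) := by
  obtain ⟨c, a, hc, ha, h1, h2, h3, h4, A, B, D, hAB, hD, hδ⟩ := change_data hF hi htop hm hmp hirr h l hhl
  have key := exp_auxG h1 h2 h3 (by omega) hAB hD hδ hm hmp h4 h hc
  refine le_trans (le_of_eq ?_) key
  rw [ZG_change F c ha]
  congr 1
  refine Finset.sum_congr rfl fun z _ => ?_
  congr 1
  ring

/-- **The number of points of a plane curve.** -/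
theorem card_curve {p m : ℕ} [Fact p.Prime] {F : (ZMod p)[X][X]} (hF : TD F m) {i : ℕ} (hi : i ≤ m)
    (htop : (F.coeff i).coeff (m - i) ≠ 0) (hm : 2 ≤ m) (hmp : m * m < p) (hirr : AbsIrr F) :
    |((ZG F).card : ℝ) - p| ≤ WC m m (2 * m * m) * √(p : ℝ) := by
  classical
  obtain ⟨c, a, hc, ha, h1, h2, h3, h4, A, B, D, hAB, hD, hδ⟩ := change_data hF hi htop hm hmp hirr 0 1 (Or.inr one_ne_zero)
  have key := weil (F := ZMod p) (AlgebraicClosure (ZMod p)) h1 (by rw [h2]; omega) hAB hD hδ h3 h4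
  rw [h2, Nat.card_zmod] at key
  have hset : {z : ZMod p × ZMod p | evalEval z.1 z.2 (C (C a) * phi c F) = 0} = ↑(ZG (C (C a) * phi c F)) := by
    ext z
    rw [Set.mem_setOf_eq, Finset.mem_coe, mem_ZG]
  have hcard : (ZG F).card = (ZG (C (C a) * phi c F)).card := by
    have := ZG_change F c ha (fun _ => (1 : ℕ))
    rwa [Finset.sum_const, Finset.sum_const, smul_eq_mul, smul_eq_mul, mul_one, mul_one] at this
  rw [hset, Set.ncard_coe_finset, ← hcard] at key
  exact key

end Run7.h914
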