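import Pool.Agent.Run7.h914.QuadRec

/-! Systems of equations with separated variables modulo `p`. -/

set_option autoImplicit false
set_option linter.all false

namespace Run7.h914

open Finset Filter Polynomial

section
variable {p : ℕ} [Fact p.Prime] {n k : ℕ}

theorem poly_sum {d : ℕ} (g : (ZMod p)[X]) (hg : g.natDegree ≤ d) (hnc : ∀ c : ZMod p, g ≠ C c)
    (hd : (d + 1) * (d + 1) < p) :
    ‖∑ y : ZMod p, ZMod.stdAddChar (N := p) (g.eval y)‖ ≤ 13 * (d + 1 : ℝ) ^ 4 * √(p : ℝ) := by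
  have hp : p.Prime := Fact.out
  have h1 := exp_rat (d := d) g 1 one_ne_zero hg (by rw [natDegree_one]; omega) (by
    intro c; rw [mul_one]; exact hnc c) hd
  have h2 : Finset.univ.filter (fun x : ZMod p => (1 : (ZMod p)[X]).eval x ≠ 0) = univ := by
    rw [Finset.filter_eq_self]
    intro x _
    rw [eval_one]
    exact one_ne_zero
  rw [h2] at h1
  simp only [eval_one, div_one] at h1
  refine h1.trans ?_
  have h4 : (EG (d + 1) (d + 1) (2 * (d + 1) * (d + 1)) : ℝ) ≤ 12 * (d + 1 : ℝ) ^ 4 := by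
    exact_mod_cast EG_le (m := d + 1) (by omega)
  have hd0 : (0 : ℝ) ≤ d := Nat.cast_nonneg d
  have h6 : (1 : ℝ) ≤ √(p : ℝ) := by
    rw [Real.one_le_sqrt]
    exact_mod_cast hp.one_lt.le
  have h7 : (d : ℝ) + 1 ≤ (d + 1 : ℝ) ^ 4 := by
    have : (1 : ℝ) ≤ (d + 1 : ℝ) ^ 3 := one_le_pow₀ (by linarith)
    nlinarith
  have h8 := mul_le_mul_of_nonneg_right h4 (by linarith : (0 : ℝ) ≤ √(p : ℝ))
  nlinarith

open scoped Classical in
/-- the solutions of the system -/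
noncomputable def SysS (f : Fin n → Fin k → (ZMod p)[X]) (b : Fin k → ZMod p) : Finset (Fin n → ZMod p) :=
  univ.filter (fun x => ∀ j, ∑ i, (f i j).eval (x i) = b j)

theorem arg_id (F : Fin n → Fin k → ZMod p) (t b : Fin k → ZMod p) (α x : Fin n → ZMod p) :
    ∑ j, (∑ i, F i j - b j) * t j + ∑ i, α i * x i =
      -∑ j, t j * b j + ∑ i, (∑ j, t j * F i j + α i * x i) := by
  have h1 : ∑ i, (∑ j, t j * F i j + α i * x i) = ∑ j, (∑ i, F i j) * t j + ∑ i, α i * x i := by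
    rw [Finset.sum_add_distrib, Finset.sum_comm]
    congr 1
    refine Finset.sum_congr rfl fun j _ => ?_
    rw [Finset.sum_mul]
    exact Finset.sum_congr rfl fun i _ => mul_comm _ _
  have h2 : ∑ j, (∑ i, F i j - b j) * t j = ∑ j, (∑ i, F i j) * t j - ∑ j, t j * b j := by
    rw [← Finset.sum_sub_distrib]
    refine Finset.sum_congr rfl fun j _ => ?_
    ring
  rw [h1, h2]
  ring

open scoped Classical in
theorem sys_one (F : Fin n → Fin k → ZMod p) (b : Fin k → ZMod p) (α x : Fin n → ZMod p) :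
    (p : ℂ) ^ k * (if (∀ j, ∑ i, F i j = b j) then ZMod.stdAddChar (N := p) (∑ i, α i * x i) else 0) =
      ∑ t : Fin k → ZMod p, ZMod.stdAddChar (N := p) (-∑ j, t j * b j) *
        ∏ i, ZMod.stdAddChar (N := p) (∑ j, t j * F i j + α i * x i) := by
  have h2 : (p : ℂ) ^ k * (if (∀ j, ∑ i, F i j = b j) then
      ZMod.stdAddChar (N := p) (∑ i, α i * x i) else 0) =
      (∑ t : Fin k → ZMod p, ZMod.stdAddChar (N := p) (∑ j, (∑ i, F i j - b j) * t j)) *
        ZMod.stdAddChar (N := p) (∑ i, α i * x i) := by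
    have h3 := vec_sum (fun j => ∑ i, F i j - b j)
    rw [h3]
    by_cases h4 : ∀ j, ∑ i, F i j = b j
    · have h5 : (fun j => ∑ i, F i j - b j) = (0 : Fin k → ZMod p) := funext fun j => sub_eq_zero.2 (h4 j)
      rw [if_pos h4, if_pos h5]
    · have h5 : (fun j => ∑ i, F i j - b j) ≠ (0 : Fin k → ZMod p) := by
        intro h
        exact h4 fun j => sub_eq_zero.1 (congrFun h j)
      rw [if_neg h4, if_neg h5, mul_zero, zero_mul]
  rw [h2, Finset.sum_mul]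
  refine Finset.sum_congr rfl fun t _ => ?_
  rw [← psi_sum, ← AddChar.map_add_eq_mul, ← AddChar.map_add_eq_mul, arg_id]

theorem sys_prod (G : Fin n → ZMod p → ZMod p) :
    ∑ x : Fin n → ZMod p, ∏ i, ZMod.stdAddChar (N := p) (G i (x i)) =
      ∏ i, ∑ y : ZMod p, ZMod.stdAddChar (N := p) (G i y) :=
  (Fintype.prod_sum (fun i y => ZMod.stdAddChar (N := p) (G i y))).symm

theorem sys_expand (f : Fin n → Fin k → (ZMod p)[X]) (b : Fin k → ZMod p) (α : Fin n → ZMod p) :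
    (p : ℂ) ^ k * ∑ x ∈ SysS f b, ZMod.stdAddChar (N := p) (∑ i, α i * x i) =
      ∑ t : Fin k → ZMod p, ZMod.stdAddChar (N := p) (-∑ j, t j * b j) *
        ∏ i, ∑ y : ZMod p, ZMod.stdAddChar (N := p) ((∑ j, C (t j) * f i j + C (α i) * X).eval y) := by
  have h1 : ∀ (t : Fin k → ZMod p) (i : Fin n) (y : ZMod p),
      (∑ j, C (t j) * f i j + C (α i) * X).eval y = ∑ j, t j * (f i j).eval y + α i * y := by
    intro t i y
    rw [eval_add, eval_finset_sum, eval_mul, eval_C, eval_X]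
    congr 1
    refine Finset.sum_congr rfl fun j _ => ?_
    rw [eval_mul, eval_C]
  simp_rw [h1]
  unfold SysS
  rw [Finset.sum_filter, Finset.mul_sum]
  have h2 : ∀ x : Fin n → ZMod p, _ := fun x => sys_one (fun i j => (f i j).eval (x i)) b α x
  rw [Finset.sum_congr rfl (fun x _ => h2 x), Finset.sum_comm]
  refine Finset.sum_congr rfl fun t _ => ?_
  rw [← Finset.mul_sum, sys_prod (fun i y => ∑ j, t j * (f i j).eval y + α i * y)]

theorem sys_sum {d : ℕ} {f : Fin n → Fin k → (ZMod p)[X]} (hf : ∀ i j, (f i j).natDegree ≤ d) (hd1 : 1 ≤ d)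
    (hind : ∀ i, ∀ (t : Fin k → ZMod p) (a c : ZMod p), ∑ j, C (t j) * f i j = C a * X + C c → t = 0)
    (hd : (d + 1) * (d + 1) < p) (b : Fin k → ZMod p) (α : Fin n → ZMod p) :
    ‖(p : ℂ) ^ k * ∑ x ∈ SysS f b, ZMod.stdAddChar (N := p) (∑ i, α i * x i) - (if α = 0 then (p : ℂ) ^ n else 0)‖ ≤
      (p : ℝ) ^ k * (13 * (d + 1 : ℝ) ^ 4 * √(p : ℝ)) ^ n := by
  classical
  rw [sys_expand, ← Finset.add_sum_erase _ _ (mem_univ (0 : Fin k → ZMod p))]
  have h0 : ZMod.stdAddChar (N := p) (-∑ j, (0 : Fin k → ZMod p) j * b j) *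
        ∏ i, ∑ y : ZMod p, ZMod.stdAddChar (N := p) ((∑ j, C ((0 : Fin k → ZMod p) j) * f i j + C (α i) * X).eval y) =
      (if α = 0 then (p : ℂ) ^ n else 0) := by
    simp only [Pi.zero_apply, zero_mul, Finset.sum_const_zero, neg_zero, AddChar.map_zero_eq_one, one_mul, C_0,
      zero_add, eval_mul, eval_C, eval_X, one_sum]
    split_ifs with h
    · subst h; simp
    · obtain ⟨j, hj⟩ : ∃ j, α j ≠ 0 := by
        by_contra hcon
        push Not at hcon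
        exact h (funext hcon)
      exact prod_eq_zero (mem_univ j) (by rw [if_neg hj])
  rw [h0, add_sub_cancel_left]
  refine (norm_sum_le _ _).trans ?_
  have h1 : ∀ t ∈ univ.erase (0 : Fin k → ZMod p), ‖ZMod.stdAddChar (N := p) (-∑ j, t j * b j) *
        ∏ i, ∑ y : ZMod p, ZMod.stdAddChar (N := p) ((∑ j, C (t j) * f i j + C (α i) * X).eval y)‖ ≤
      (13 * (d + 1 : ℝ) ^ 4 * √(p : ℝ)) ^ n := by
    intro t ht
    have ht0 : t ≠ 0 := (mem_erase.1 ht).1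
    rw [norm_mul, psi_norm, one_mul, norm_prod]
    refine (Finset.prod_le_prod (fun i _ => norm_nonneg _) (fun i _ => poly_sum (d := d) _ ?_ ?_ hd)).trans ?_
    · refine natDegree_add_le_of_degree_le ?_ ?_
      · exact natDegree_sum_le_of_forall_le _ _ fun j _ => (natDegree_C_mul_le _ _).trans (hf i j)
      · exact (natDegree_C_mul_le _ _).trans (natDegree_X_le.trans hd1)
    · intro c hc
      apply ht0
      refine hind i t (-α i) c ?_
      rw [C_neg]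
      linear_combination hc
    · rw [Finset.prod_const, Finset.card_univ, Fintype.card_fin]
  refine (Finset.sum_le_sum h1).trans ?_
  rw [Finset.sum_const, nsmul_eq_mul]
  refine mul_le_mul_of_nonneg_right ?_ (by positivity)
  have h2 : (univ.erase (0 : Fin k → ZMod p)).card ≤ p ^ k := by
    refine (card_erase_le).trans (le_of_eq ?_)
    simp [ZMod.card]
  exact_mod_cast h2

end

theorem rec_sys (n k E : ℕ) (hn : 2 * k < n) (δ : ℝ) (hδ : 0 < δ) (hδ1 : δ ≤ 1) :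
    ∃ κ : ℝ, 0 < κ ∧ ∃ p₀ : ℕ, ∀ (p : ℕ) [Fact p.Prime], p₀ ≤ p →
    ∀ (d : ℕ) (f : Fin n → Fin k → (ZMod p)[X]) (b : Fin k → ZMod p), (d : ℝ) ≤ (p : ℝ) ^ (δ / (50 * n)) →
    (∀ i j, (f i j).natDegree ≤ d) →
    (∀ i, ∀ (t : Fin k → ZMod p) (a c : ZMod p), ∑ j, C (t j) * f i j = C a * X + C c → t = 0) →
    ∀ (M : Fin n → ℤ) (L : Fin n → ℕ), (∀ j, (p : ℝ) ^ δ ≤ L j ∧ L j ≤ p) →
      (p : ℝ) ^ ((n : ℝ) / 2 + k + δ) ≤ ∏ j, (L j : ℝ) →
    (p : ℝ) ^ (-δ) * ((p : ℝ) ^ ((n : ℝ) - k) * ∏ j, ((L j : ℝ) / p)) ≤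
      (Set.ncard {z : Fin n → ℤ | (∀ j, M j < z j ∧ z j ≤ M j + L j) ∧
        (∀ j, ∑ i, (f i j).eval (z i : ZMod p) = b j) ∧ Good n E κ δ p z} : ℝ) := by
  classical
  have hn0 : 0 < n := by omega
  have hnr : (1 : ℝ) ≤ n := by exact_mod_cast hn0
  obtain ⟨κ, hκ, p₁, h⟩ := rec_pts n E δ hδ hδ1
  obtain ⟨p₂, h2⟩ := ev_large (δ / n) (by positivity) (by rw [div_le_one (by linarith)]; linarith)
  obtain ⟨p₃, h3⟩ := ev_const (1 / 4) 2 (by norm_num)
  refine ⟨κ, hκ, max p₁ (max p₂ p₃), ?_⟩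
  intro p _ hpp d f b hdp hf hind M L hL hV
  have hp : p.Prime := Fact.out
  have e1 : p₁ ≤ p := (le_max_left _ _).trans hpp
  have e2 : p₂ ≤ p := ((le_max_left _ _).trans (le_max_right _ _)).trans hpp
  have e3 : p₃ ≤ p := ((le_max_right _ _).trans (le_max_right _ _)).trans hpp
  have hp0 : (0 : ℝ) < p := by exact_mod_cast hp.pos
  have hp1 : (1 : ℝ) < p := by exact_mod_cast hp.one_lt
  -- we may suppose `1 ≤ d`
  have hδn : 0 < δ / (50 * n) := by positivity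
  obtain ⟨D, hD1, hdD, hDp⟩ : ∃ D : ℕ, 1 ≤ D ∧ d ≤ D ∧ (D : ℝ) ≤ (p : ℝ) ^ (δ / n / 50) := by
    have e : δ / n / 50 = δ / (50 * n) := by field_simp
    rw [e]
    rcases Nat.eq_zero_or_pos d with h0 | h0
    · refine ⟨1, le_refl _, by omega, ?_⟩
      rw [Nat.cast_one]
      exact Real.one_le_rpow hp1.le hδn.le
    · exact ⟨d, h0, le_refl _, hdp⟩
  obtain ⟨a1, a2, a3, a4⟩ := h2 p e2 D hDp
  have hf' : ∀ i j, (f i j).natDegree ≤ D := fun i j => (hf i j).trans hdD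
  set W : ℝ := 13 * (D + 1 : ℝ) ^ 4 with hW
  have hW0 : 0 ≤ W := by rw [hW]; positivity
  have hWn : W ^ n ≤ (p : ℝ) ^ (δ / 8) := by
    have h5 : W ≤ (p : ℝ) ^ (δ / n / 8) := by
      have : (0 : ℝ) ≤ (D + 1 : ℝ) ^ 4 := by positivity
      rw [hW]
      linarith
    refine (pow_le_pow_left₀ hW0 h5 n).trans (le_of_eq ?_)
    rw [← Real.rpow_natCast, ← Real.rpow_mul hp0.le]
    congr 1
    field_simp
  have hmo : ∀ x y : ℝ, x ≤ y → (p : ℝ) ^ x ≤ (p : ℝ) ^ y := fun x y h =>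
    Real.rpow_le_rpow_of_exponent_le hp1.le h
  have hkr : 2 * (k : ℝ) + 1 ≤ n := by exact_mod_cast hn
  have hbound : (W * √(p : ℝ)) ^ n = W ^ n * (p : ℝ) ^ ((n : ℝ) / 2) := by
    rw [mul_pow, sqrt_pow_rpow hp.pos]
  set S := SysS f b with hS
  have hpk : (0 : ℝ) < (p : ℝ) ^ k := by positivity
  have hcard : (p : ℝ) ^ ((n : ℝ) - k) / 2 ≤ S.card := by
    have h5 := sys_sum hf' hD1 hind a4 b 0
    rw [if_pos rfl, ← hW, hbound] at h5
    simp only [Pi.zero_apply, zero_mul, Finset.sum_const_zero, AddChar.map_zero_eq_one, Finset.sum_const, nsmul_eq_mul,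
      mul_one] at h5
    have h6 : (p : ℝ) ^ n - (p : ℝ) ^ k * S.card ≤ (p : ℝ) ^ k * (W ^ n * (p : ℝ) ^ ((n : ℝ) / 2)) := by
      refine le_trans ?_ h5
      rw [norm_sub_rev]
      have h7 : ((p : ℂ) ^ n - (p : ℂ) ^ k * (S.card : ℂ)) = (((p : ℝ) ^ n - (p : ℝ) ^ k * S.card : ℝ) : ℂ) := by
        push_cast; ring
      rw [← hS, h7, Complex.norm_real]
      exact le_abs_self _
    have h7 : (p : ℝ) ^ n = (p : ℝ) ^ k * (p : ℝ) ^ ((n : ℝ) - k) := by
      rw [← Real.rpow_natCast _ k, ← Real.rpow_add hp0, ← Real.rpow_natCast]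
      congr 1
      ring
    have h8 : (p : ℝ) ^ k * ((p : ℝ) ^ ((n : ℝ) - k) - S.card) ≤ (p : ℝ) ^ k * (W ^ n * (p : ℝ) ^ ((n : ℝ) / 2)) := by
      rw [mul_sub, ← h7]; exact h6
    have h9 := le_of_mul_le_mul_left h8 hpk
    have h10 : 2 * (W ^ n * (p : ℝ) ^ ((n : ℝ) / 2)) ≤ (p : ℝ) ^ ((n : ℝ) - k) := by
      have h11 : (p : ℝ) ^ ((1 : ℝ) / 4) * ((p : ℝ) ^ (δ / 8) * (p : ℝ) ^ ((n : ℝ) / 2)) ≤ (p : ℝ) ^ ((n : ℝ) - k) := by
        rw [← Real.rpow_add hp0, ← Real.rpow_add hp0]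
        exact hmo _ _ (by linarith)
      refine le_trans ?_ h11
      have h12 : (0 : ℝ) ≤ (p : ℝ) ^ ((n : ℝ) / 2) := Real.rpow_nonneg hp0.le _
      have h13 : (0 : ℝ) ≤ (p : ℝ) ^ (δ / 8) := Real.rpow_nonneg hp0.le _
      exact mul_le_mul (h3 p e3) (mul_le_mul_of_nonneg_right hWn h12) (by positivity) (Real.rpow_nonneg hp0.le _)
    linarith
  have key := h p e1 ((n : ℝ) - k) ((n : ℝ) / 2 - k) S hcard (by
    intro α hα
    have h5 := sys_sum hf' hD1 hind a4 b α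
    rw [if_neg hα, sub_zero, norm_mul, norm_pow, Complex.norm_natCast, ← hW, hbound] at h5
    have h7 := le_of_mul_le_mul_left h5 hpk
    have e : (n : ℝ) - k - ((n : ℝ) / 2 - k) = (n : ℝ) / 2 := by ring
    rw [e]
    exact h7.trans (mul_le_mul_of_nonneg_right hWn (Real.rpow_nonneg hp0.le _))) M L hL (by
      have e : (n : ℝ) - ((n : ℝ) / 2 - k) + δ = (n : ℝ) / 2 + k + δ := by ring
      rw [e]; exact hV)
  refine key.trans (le_of_eq ?_)
  congr 2
  ext z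
  simp only [Set.mem_setOf_eq, hS, SysS, mem_filter, mem_univ, true_and]

end Run7.h914
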