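import Pool.Agent.R410.PW.Weil
import Pool.Agent.W290.WA.Irr0

/-! Irreducibility of the Fermat curve and of its Artin-Schreier covers. -/

set_option autoImplicit false
set_option linter.all false
set_option linter.overlappingInstances false

open Module FF Pool.Agent.H525R3.FFp Pool.Agent.W132.AG Pool.Agent.W493.MX Pool.Agent.W343.BSD Polynomial
open Pool.Agent.R410.PW

namespace Run7.h914

section eis
variable {k : Type} [Field k] [IsAlgClosed k]

theorem irr_base {n : ℕ} (hn : 0 < n) (hnk : (n : k) ≠ 0) {a : k} (ha : a ≠ 0) :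
    Irreducible (X ^ n + C (C a * (X ^ n + 1)) : k[X][X]) := by
  obtain ⟨ζ, hζ⟩ := IsAlgClosed.exists_pow_nat_eq (-1 : k) hn
  have hζ0 : ζ ≠ 0 := by
    rintro rfl
    rw [zero_pow hn.ne'] at hζ
    have : (1 : k) = 0 := by linear_combination hζ
    exact one_ne_zero this
  have hmonic : (X ^ n + C (C a * (X ^ n + 1)) : k[X][X]).Monic := monic_X_pow_add_C _ hn.ne'
  have hdeg : (X ^ n + C (C a * (X ^ n + 1)) : k[X][X]).degree = n := degree_X_pow_add_C hn _
  have hmem : ∀ g : k[X], g ∈ Ideal.span {(X - C ζ : k[X])} ↔ g.eval ζ = 0 := by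
    intro g
    rw [Ideal.mem_span_singleton, dvd_iff_isRoot, IsRoot.def]
  refine irreducible_of_eisenstein_criterion (P := Ideal.span {X - C ζ}) ?_ ?_ ?_ ?_ ?_ hmonic.isPrimitive
  · exact (Ideal.span_singleton_prime (X_sub_C_ne_zero ζ)).2 (prime_X_sub_C ζ)
  · rw [hmonic.leadingCoeff, hmem]; simp
  · intro m hm
    rw [hdeg] at hm
    have hm' : m < n := by exact_mod_cast hm
    rw [hmem, coeff_add, coeff_X_pow, if_neg (by omega), zero_add, coeff_C]
    split_ifs
    · simp [hζ]
    · simp
  · rw [hdeg]; exact_mod_cast hn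
  · rw [coeff_add, coeff_X_pow, if_neg (by omega), zero_add, coeff_C_zero, pow_two, Ideal.span_singleton_mul_span_singleton,
      Ideal.mem_span_singleton]
    rintro ⟨q, hq⟩
    have h1 := congrArg (fun g : k[X] => (derivative g).eval ζ) hq
    simp only [derivative_mul, derivative_C, zero_mul, zero_add, derivative_add, derivative_X_pow, derivative_one, add_zero,
      eval_mul, eval_C, eval_pow, eval_X, eval_add, eval_sub, sub_self, mul_zero, map_natCast, eval_natCast] at h1
    exact mul_ne_zero ha (mul_ne_zero hnk (pow_ne_zero _ hζ0)) h1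

theorem irr_comp {K : Type*} [Field K] {q : K[X]} (hq : Irreducible q) (c : K) : Irreducible (q.comp (X - C c)) := by
  have h : q.comp (X - C c) = algEquivAevalXAddC (-c) q := by
    rw [algEquivAevalXAddC_apply, aeval_def, Polynomial.comp, map_neg, ← sub_eq_add_neg]
    rfl
  rw [h]
  exact (MulEquiv.irreducible_iff (algEquivAevalXAddC (-c))).2 hq

end eis

section pol
variable {F L : Type} [Field F] [PerfectField F] [Field L] [Algebra F L] [Algebra (RatFunc F) L]
  [IsScalarTower F (RatFunc F) L] [FiniteDimensional (RatFunc F) L] [Algebra.IsSeparable (RatFunc F) L]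
  [IsFF F L]

theorem polar_le_of_mem {D : Place F L →₀ ℤ} (hD : 0 ≤ D) {u : L} (hu : u ∈ LL D) : polar (k := F) u ≤ D := by
  intro P
  rw [polar_apply]
  have h0 := hD P
  simp only [Finsupp.coe_zero, Pi.zero_apply] at h0
  rcases hu with h | h
  · rw [h, P.ord_zero]; simpa using h0
  · have := h P
    omega

/-- the degree of the polar divisor of a linear form -/
theorem ddeg_polar_le {f : F[X][X]} {d : ℕ} (hf : f.Monic) (hd : ∀ i, (f.coeff i).natDegree ≤ d) (hd1 : 1 ≤ d)
    {y : L} (hy : (f.map (cEh F L)).eval y = 0) (h l : F) :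
    ddeg (polar (k := F) (algebraMap F L h * cEh F L X + algebraMap F L l * y)) ≤ d * finrank (RatFunc F) L := by
  have hX : cEh F L X ∈ LL (k := F) (d • polar (k := F) (cEh F L X)) := by
    right
    intro P
    rw [Finsupp.smul_apply, polar_apply, nsmul_eq_mul]
    have h1 : - P.ord (cEh F L X) ≤ max (- P.ord (cEh F L X)) 0 := le_max_left _ _
    have h2 : 0 ≤ max (- P.ord (cEh F L X)) 0 := le_max_right _ _
    have h3 : (1 : ℤ) ≤ d := by exact_mod_cast hd1
    nlinarith
  have hY : y ∈ LL (k := F) (d • polar (k := F) (cEh F L X)) := by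
    have := mem_LL_y hf hd hy (i := 1) (r := d) (by omega)
    rwa [pow_one] at this
  have hu : algebraMap F L h * cEh F L X + algebraMap F L l * y ∈ LL (k := F) (d • polar (k := F) (cEh F L X)) := by
    rw [← Algebra.smul_def, ← Algebra.smul_def]
    exact Submodule.add_mem _ (Submodule.smul_mem _ _ hX) (Submodule.smul_mem _ _ hY)
  have h1 := polar_le_of_mem (nsmul_nonneg (polar_nonneg _) d) hu
  have h2 := ddeg_mono h1
  rw [ddeg_nsmul, ddeg_polar_X] at h2
  exact h2

omit [FiniteDimensional (RatFunc F) L] [Algebra.IsSeparable (RatFunc F) L] [Algebra (RatFunc F) L]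
  [IsScalarTower F (RatFunc F) L] in
theorem alg_of_LL {u : L} (hu : u ∈ LL (k := F) (0 : Place F L →₀ ℤ)) : IsAlgebraic F u := by
  let S : Subalgebra F L :=
    { carrier := {g | g ∈ LL (k := F) (0 : Place F L →₀ ℤ)}
      mul_mem' := by
        intro a b ha hb
        by_cases ha0 : a = 0
        · left; rw [ha0, zero_mul]
        by_cases hb0 : b = 0
        · left; rw [hb0, mul_zero]
        right
        intro P
        have h1 := (Or.resolve_left ha ha0) P
        have h2 := (Or.resolve_left hb hb0) P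
        rw [P.ord_mul ha0 hb0]
        simp only [Finsupp.coe_zero, Pi.zero_apply] at h1 h2 ⊢
        omega
      add_mem' := fun {a b} ha hb => (LL (k := F) (0 : Place F L →₀ ℤ)).add_mem ha hb
      algebraMap_mem' := by
        intro c
        have h1 : (1 : L) ∈ LL (k := F) (0 : Place F L →₀ ℤ) := by
          right
          intro P
          rw [P.ord_one]; simp
        have := Submodule.smul_mem _ c h1
        rwa [Algebra.smul_def, mul_one] at this }
  have hfg : (Subalgebra.toSubmodule S).FG := by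
    have h1 : Subalgebra.toSubmodule S = LL (k := F) (0 : Place F L →₀ ℤ) := by
      ext x; rfl
    rw [h1]
    exact (Module.Finite.iff_fg (N := LL (k := F) (0 : Place F L →₀ ℤ))).1 (finDim_LL _)
  exact (IsIntegral.of_mem_of_fg S hfg u hu).isAlgebraic

/-- a function without poles is constant -/
theorem const_of_polar (hconst : ∀ a : L, IsAlgebraic F a → a ∈ (algebraMap F L).range) {u : L}
    (hu : ddeg (polar (k := F) u) ≤ 0) : ∃ c : F, algebraMap F L c = u := by
  have h0 : polar (k := F) u = 0 := by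
    by_contra hne
    obtain ⟨P, hP⟩ := Finsupp.ne_iff.1 hne
    have h1 := le_ddeg (polar_nonneg (k := F) u) P
    have h2 := polar_nonneg (k := F) u P
    have h3 : (0 : ℤ) < P.deg := by exact_mod_cast deg_pos P
    simp only [Finsupp.coe_zero, Pi.zero_apply] at h2 hP
    have h4 : 0 < polar u P := lt_of_le_of_ne h2 (Ne.symm hP)
    nlinarith
  by_cases hu0 : u = 0
  · exact ⟨0, by rw [map_zero, hu0]⟩
  have h1 : 0 ≤ divisor F u := by
    intro P
    have h2 := DFunLike.congr_fun h0 P
    rw [polar_apply] at h2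
    simp only [Finsupp.coe_zero, Pi.zero_apply] at h2 ⊢
    rw [divisor_apply]
    have := le_max_left (- P.ord u) 0
    omega
  have h2 : divisor F u = 0 := by
    by_contra hne
    obtain ⟨P, hP⟩ := Finsupp.ne_iff.1 hne
    have h4 := le_ddeg h1 P
    rw [ddeg_divisor] at h4
    have h5 : (0 : ℤ) ≤ divisor F u P := h1 P
    have h6 : (0 : ℤ) < P.deg := by exact_mod_cast deg_pos P
    have h7 : 0 < divisor F u P := lt_of_le_of_ne h5 (Ne.symm hP)
    nlinarith
  obtain ⟨c, hc⟩ := hconst u (alg_of_LL (by rw [mem_LL' hu0, add_zero]; exact h1))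
  exact ⟨c, hc⟩

theorem ddeg_polar_pos' (hconst : ∀ a : L, IsAlgebraic F a → a ∈ (algebraMap F L).range) {y : L}
    (hy : y ∉ (algebraMap (RatFunc F) L).range) (h : F) {l : F} (hl : l ≠ 0) :
    0 < ddeg (polar (k := F) (algebraMap F L h * cEh F L X + algebraMap F L l * y)) := by
  by_contra hc
  obtain ⟨c, hc⟩ := const_of_polar hconst (not_lt.1 hc)
  apply hy
  have hl' : algebraMap F L l ≠ 0 := (_root_.map_ne_zero _).2 hl
  have e1 : ∀ a : F, algebraMap F L a = algebraMap (RatFunc F) L (algebraMap F (RatFunc F) a) := fun a =>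
    IsScalarTower.algebraMap_apply F (RatFunc F) L a
  have e2 : cEh F L X = algebraMap (RatFunc F) L RatFunc.X := by
    unfold cEh
    rw [RingHom.comp_apply, RatFunc.algebraMap_X]
  refine ⟨(algebraMap F (RatFunc F) c - algebraMap F (RatFunc F) h * RatFunc.X) / algebraMap F (RatFunc F) l, ?_⟩
  rw [map_div₀, map_sub, map_mul, ← e1, ← e1, ← e1, ← e2, hc, div_eq_iff hl']
  ring

theorem polar_AS {p : ℕ} (hp : 1 < p) (b : L) : polar (k := F) (b ^ p - b) = p • polar (k := F) b := by
  ext P
  rw [Finsupp.smul_apply, polar_apply, polar_apply, nsmul_eq_mul]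
  have hp' : (1 : ℤ) < p := by exact_mod_cast hp
  by_cases hb : b = 0
  · rw [hb, zero_pow (by omega), sub_zero, P.ord_zero]; simp
  rcases lt_or_ge (P.ord b) 0 with h | h
  · have h1 := P.ord_add_eq (f := b ^ p) (g := -b) (pow_ne_zero _ hb) (neg_ne_zero.2 hb) (by
      rw [P.ord_pow, P.ord_neg]; nlinarith)
    rw [sub_eq_add_neg, h1.2, P.ord_pow, max_eq_left (by nlinarith), max_eq_left (by omega)]
    ring
  · rw [max_eq_right (a := - P.ord b) (by omega), mul_zero]
    by_cases h0 : b ^ p - b = 0
    · rw [h0, P.ord_zero]; simp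
    · have := P.ord_sub (pow_ne_zero p hb) hb h0
      rw [P.ord_pow] at this
      have h2 : 0 ≤ (p : ℤ) * P.ord b := by positivity
      have h3 : 0 ≤ P.ord (b ^ p - b) := (le_min h2 h).trans this
      exact max_eq_right (by omega)


end pol

section cover
variable {k : Type} [Field k] [IsAlgClosed k]

/-- the cover -/
noncomputable def gC (k : Type) [Field k] (p n : ℕ) (h l : k) : k[X][X] :=
  (X ^ p - X - C (C h * X)) ^ n + C (C (l ^ n) * (X ^ n + 1))

theorem AS_monic {R : Type*} [CommRing R] [Nontrivial R] {p : ℕ} (hp : 1 < p) (c : R) :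
    (X ^ p - X - C c : R[X]).Monic ∧ (X ^ p - X - C c : R[X]).natDegree = p := by
  have hW : (X ^ p - X - C c : R[X]) = X ^ p - (X + C c) := by ring
  rw [hW]
  constructor
  · apply monic_X_pow_sub
    rw [degree_X_add_C]
    exact_mod_cast hp
  · rw [natDegree_sub_eq_left_of_natDegree_lt, natDegree_X_pow]
    rw [natDegree_X_add_C, natDegree_X_pow]
    exact hp

theorem gC_monic {p n : ℕ} (hp : 1 < p) (hn : 0 < n) (h l : k) : (gC k p n h l).Monic ∧ (gC k p n h l).natDegree = p * n := by
  obtain ⟨hm, hd⟩ := AS_monic (R := k[X]) hp (C h * X)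
  have hm2 := hm.pow n
  have hd2 : ((X ^ p - X - C (C h * X) : k[X][X]) ^ n).natDegree = p * n := by rw [hm.natDegree_pow, hd, mul_comm]
  have hpn : 0 < p * n := by positivity
  unfold gC
  refine ⟨hm2.add_of_left ?_, ?_⟩
  · refine degree_C_le.trans_lt ?_
    rw [← natDegree_pos_iff_degree_pos, hd2]
    exact hpn
  · rw [natDegree_add_C, hd2]

/-- irreducibility of the Artin-Schreier extension -/
theorem irr_AS {p n : ℕ} [Fact p.Prime] [CharP k p] (hn : 2 ≤ n) (hnp : n * n < p) (h : k) {l : k} (hl : l ≠ 0)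
    (E : Type) [Field E] [Algebra (RatFunc k) E] (x : E)
    (hx : minpoly (RatFunc k) x = (((X ^ n + C (C (l ^ n) * (X ^ n + 1)) : k[X][X]).map (algebraMap k[X] (RatFunc k))).comp
      (X - C (algebraMap k[X] (RatFunc k) (C h * X))))) :
    Irreducible ((X ^ p - X : (RatFunc k)[X]).map (algebraMap (RatFunc k) (IntermediateField.adjoin (RatFunc k) {x})) -
      C (IntermediateField.AdjoinSimple.gen (RatFunc k) x)) := by
  classical
  have hpp : p.Prime := Fact.out
  have hn0 : 0 < n := by omega
  have hnk : (n : k) ≠ 0 := by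
    rw [Ne, CharP.cast_eq_zero_iff k p]
    apply Nat.not_dvd_of_pos_of_lt hn0
    nlinarith
  letI : Algebra k E := ((algebraMap (RatFunc k) E).comp (algebraMap k (RatFunc k))).toAlgebra
  haveI : IsScalarTower k (RatFunc k) E := IsScalarTower.of_algebraMap_eq fun c => rfl
  set b : RatFunc k := algebraMap k[X] (RatFunc k) (C h * X) with hb
  set c : RatFunc k := algebraMap k[X] (RatFunc k) (C (l ^ n) * (X ^ n + 1)) with hc
  have hx' : minpoly (RatFunc k) x = (X - C b) ^ n + C c := by
    rw [hx, Polynomial.map_add, Polynomial.map_pow, map_X, map_C, add_comp, X_pow_comp, C_comp]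
  have hmon : ((X - C b) ^ n + C c : (RatFunc k)[X]).Monic := by
    apply ((monic_X_sub_C b).pow n).add_of_left
    refine degree_C_le.trans_lt ?_
    rw [← natDegree_pos_iff_degree_pos, (monic_X_sub_C b).natDegree_pow, natDegree_X_sub_C, mul_one]
    exact hn0
  have hdeg : ((X - C b) ^ n + C c : (RatFunc k)[X]).natDegree = n := by
    rw [natDegree_add_C, (monic_X_sub_C b).natDegree_pow, natDegree_X_sub_C, mul_one]
  have hint : IsIntegral (RatFunc k) x := by
    by_contra h0
    have := minpoly.eq_zero h0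
    rw [hx'] at this
    exact hmon.ne_zero this
  have hc0 : c ≠ 0 := by
    rw [hc, Ne, map_eq_zero_iff _ (IsFractionRing.injective k[X] (RatFunc k)), mul_eq_zero, not_or]
    refine ⟨C_ne_zero.2 (pow_ne_zero _ hl), ?_⟩
    exact (monic_X_pow_add_C (1 : k) hn0.ne').ne_zero |> fun h => by simpa using h
  have hnK : (n : RatFunc k) ≠ 0 := by
    rw [← map_natCast (algebraMap k (RatFunc k)) n]
    exact (_root_.map_ne_zero _).2 hnk
  have hsep : IsSeparable (RatFunc k) x := by
    unfold IsSeparable
    rw [hx', Polynomial.separable_def']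
    refine ⟨C (c⁻¹), - C ((n : RatFunc k)⁻¹ * c⁻¹) * (X - C b), ?_⟩
    have h1 : derivative ((X - C b) ^ n + C c : (RatFunc k)[X]) = C (n : RatFunc k) * (X - C b) ^ (n - 1) := by
      rw [derivative_add, derivative_C, add_zero, derivative_X_sub_C_pow]
    have h2 : (X - C b : (RatFunc k)[X]) ^ n = (X - C b) * (X - C b) ^ (n - 1) := by
      rw [← pow_succ']; congr 1; omega
    rw [h1, h2]
    have h3 : C ((n : RatFunc k)⁻¹ * c⁻¹) * C (n : RatFunc k) = C (c⁻¹) := by
      rw [← C_mul]; congr 1; field_simp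
    have h4 : C (c⁻¹) * C c = 1 := by rw [← C_mul, inv_mul_cancel₀ hc0, C_1]
    linear_combination h4 - ((X - C b) * (X - C b) ^ (n - 1)) * h3
  let L := IntermediateField.adjoin (RatFunc k) {x}
  haveI : FiniteDimensional (RatFunc k) L := IntermediateField.adjoin.finiteDimensional hint
  haveI : Algebra.IsSeparable (RatFunc k) L := (IntermediateField.isSeparable_adjoin_simple_iff_isSeparable (RatFunc k) E).2 hsep
  haveI : IsFF k (RatFunc k) := isFF_ratFunc k
  haveI : IsScalarTower k (RatFunc k) L := IsScalarTower.of_algebraMap_eq fun c => rfl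
  haveI : IsFF k L := isFF_of_ext (F := RatFunc k)
  let gn : L := IntermediateField.AdjoinSimple.gen (RatFunc k) x
  have hfin : finrank (RatFunc k) L = n := by
    rw [IntermediateField.adjoin.finrank hint, hx', hdeg]
  have hgen : aeval gn (minpoly (RatFunc k) x) = 0 := by
    have h1 := IntermediateField.minpoly_gen (RatFunc k) x
    rw [← h1]
    exact minpoly.aeval _ _
  -- the second coordinate
  have hlL : algebraMap k L l ≠ 0 := (_root_.map_ne_zero _).2 hl
  have hbL : algebraMap (RatFunc k) L b = algebraMap k L h * cEh k L X := by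
    rw [hb]
    change cEh k L (C h * X) = _
    rw [map_mul, cEh_C]
  have hcL : algebraMap (RatFunc k) L c = (algebraMap k L l) ^ n * (cEh k L (X ^ n + 1)) := by
    rw [hc]
    change cEh k L (C (l ^ n) * (X ^ n + 1)) = _
    rw [map_mul, cEh_C, map_pow]
  set z : L := (gn - algebraMap k L h * cEh k L X) / algebraMap k L l with hz
  have hgz : gn = algebraMap k L h * cEh k L X + algebraMap k L l * z := by
    rw [hz, mul_div_cancel₀ _ hlL]; ring
  have hzeq : z ^ n + cEh k L (X ^ n + 1) = 0 := by
    rw [hx', aeval_def, eval₂_add, eval₂_pow, eval₂_sub, eval₂_X, eval₂_C, eval₂_C, hbL, hcL] at hgen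
    have h1 : gn - algebraMap k L h * cEh k L X = algebraMap k L l * z := by rw [hgz]; ring
    rw [h1, mul_pow, ← mul_add] at hgen
    exact (mul_eq_zero.1 hgen).resolve_left (pow_ne_zero _ hlL)
  let f : k[X][X] := X ^ n + C (X ^ n + 1)
  have hf : f.Monic := monic_X_pow_add_C _ hn0.ne'
  have hfd : ∀ i, (f.coeff i).natDegree ≤ n := by
    intro i
    simp only [f, coeff_add, coeff_X_pow, coeff_C]
    have h1 : (X ^ n + 1 : k[X]).natDegree ≤ n := by
      rw [← C_1, natDegree_X_pow_add_C]
    split_ifs
    · refine (natDegree_add_le _ _).trans ?_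
      rw [natDegree_one]
      exact max_le (Nat.zero_le _) h1
    · rw [add_zero, natDegree_one]; exact Nat.zero_le _
    · rw [zero_add]; exact h1
    · rw [add_zero, natDegree_zero]; exact Nat.zero_le _
  have hy : (f.map (cEh k L)).eval z = 0 := by
    simp only [f, Polynomial.map_add, Polynomial.map_pow, map_X, map_C, eval_add, eval_pow, eval_X, eval_C]
    exact hzeq
  have h1 := ddeg_polar_le hf hfd (by omega) hy h l
  rw [← hgz, hfin] at h1
  have hzr : z ∉ (algebraMap (RatFunc k) L).range := by
    rintro ⟨r, hr⟩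
    have h2 : gn = algebraMap (RatFunc k) L (b + algebraMap k (RatFunc k) l * r) := by
      rw [map_add, hbL, map_mul, ← IsScalarTower.algebraMap_apply k (RatFunc k) L, hr]
      exact hgz
    have h3 : minpoly (RatFunc k) gn = X - C (b + algebraMap k (RatFunc k) l * r) := by
      rw [h2]
      exact minpoly.eq_X_sub_C L _
    have h4 : minpoly (RatFunc k) gn = minpoly (RatFunc k) x := IntermediateField.minpoly_gen (RatFunc k) x
    have h5 := congrArg natDegree h3
    rw [h4, hx', hdeg, natDegree_X_sub_C] at h5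
    omega
  have h2 := ddeg_polar_pos' (F := k) (L := L) (fun a ha => by
    have h2 := IsAlgClosed.degree_eq_one_of_irreducible k (minpoly.irreducible ha.isIntegral)
    obtain ⟨c, hc⟩ := minpoly.mem_range_of_degree_eq_one k a h2
    exact ⟨c, hc⟩) hzr h hl
  rw [← hgz] at h2
  haveI : CharP L p := charP_of_injective_algebraMap (algebraMap k L).injective p
  have hno : ∀ v : L, v ^ p - v ≠ gn := by
    intro v hv
    have h3 := polar_AS (F := k) hpp.one_lt v
    rw [hv] at h3
    rw [h3, ddeg_nsmul] at h1 h2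
    have h4 : 0 < ddeg (polar (k := k) v) := by
      by_contra h5
      have : (p : ℤ) * ddeg (polar (k := k) v) ≤ 0 := mul_nonpos_of_nonneg_of_nonpos (by positivity) (by omega)
      omega
    have h5 : (p : ℤ) * 1 ≤ p * ddeg (polar (k := k) v) := mul_le_mul_of_nonneg_left (by omega) (by positivity)
    have h6 : ((n * n : ℕ) : ℤ) < p := by exact_mod_cast hnp
    push_cast at h6
    omega
  have h3 := Pool.Agent.W290.WA.irr p L gn hno
  rw [Polynomial.map_sub, Polynomial.map_pow, map_X]
  exact h3

/-- the cover is irreducible -/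
theorem gC_irr {p n : ℕ} [Fact p.Prime] [CharP k p] (hn : 2 ≤ n) (hnp : n * n < p) (h : k) {l : k} (hl : l ≠ 0) :
    Irreducible (gC k p n h l) := by
  have hpp : p.Prime := Fact.out
  have hn0 : 0 < n := by omega
  have hnk : (n : k) ≠ 0 := by
    rw [Ne, CharP.cast_eq_zero_iff k p]
    apply Nat.not_dvd_of_pos_of_lt hn0
    nlinarith
  obtain ⟨hgm, hgd⟩ := gC_monic (k := k) hpp.one_lt hn0 h l
  rw [hgm.irreducible_iff_irreducible_map_fraction_map (K := RatFunc k)]
  set b : RatFunc k := algebraMap k[X] (RatFunc k) (C h * X) with hb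
  have hG : (X ^ n + C (C (l ^ n) * (X ^ n + 1)) : k[X][X]).Monic := monic_X_pow_add_C _ hn0.ne'
  have hGi := irr_base hn0 hnk (pow_ne_zero n hl)
  rw [hG.irreducible_iff_irreducible_map_fraction_map (K := RatFunc k)] at hGi
  have hmap : (gC k p n h l).map (algebraMap k[X] (RatFunc k)) =
      (((X ^ n + C (C (l ^ n) * (X ^ n + 1)) : k[X][X]).map (algebraMap k[X] (RatFunc k))).comp (X - C b)).comp (X ^ p - X) := by
    unfold gC
    simp only [Polynomial.map_add, Polynomial.map_pow, Polynomial.map_sub, map_X, map_C, add_comp, X_pow_comp, C_comp,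
      pow_comp, sub_comp, X_comp]
    rfl
  rw [hmap]
  refine irreducible_comp ?_ ?_ (irr_comp hGi b) ?_
  · exact (hG.map _).comp_X_sub_C b
  · have h1 : (X ^ p - X : (RatFunc k)[X]) = X ^ p - X - C 0 := by rw [C_0, sub_zero]
    rw [h1]
    exact (AS_monic hpp.one_lt 0).1
  · intro E _ _ x hx
    exact irr_AS hn hnp h hl E x hx

end cover

end Run7.h914
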