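import Pool.Agent.Run7.h914.Exp
import Pool.Agent.Run7.h914.Box

/-! Equidistribution of the values of `n ^ k + m ^ k + 1`. -/

set_option autoImplicit false
set_option linter.all false

open Finset Pool.Agent.R410.PW

namespace Run7.h914

/-- the local densities -/
noncomputable def gF (k p : ℕ) : ℝ := (Nat.card {z : ZMod p × ZMod p // z.1 ^ k + z.2 ^ k + 1 = 0} : ℝ) / (p : ℝ) ^ 2

/-- the constant -/
noncomputable def MC (k : ℕ) : ℝ := (EC k : ℝ) + WC k k k + 1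

theorem MC_ge (k : ℕ) : 1 ≤ MC k := by
  unfold MC
  have h1 : (0 : ℝ) ≤ EC k := Nat.cast_nonneg _
  have h2 : (0 : ℝ) ≤ WC k k k := Nat.cast_nonneg _
  linarith

theorem gF_eq {p : ℕ} [NeZero p] (k : ℕ) : gF k p = ((ZF p k).card : ℝ) / (p : ℝ) ^ 2 := by
  unfold gF ZF
  rw [Nat.card_eq_fintype_card, Fintype.card_subtype]

/-- the values -/
def FV (W k : ℕ) (s : (ℕ × ℕ) × (ℕ × ℕ)) : ℕ := (W * (s.1.1 + s.1.2)) ^ k + (W * (s.2.1 + s.2.2)) ^ k + 1

/-- the solutions modulo `p` -/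
noncomputable def VW (W k p : ℕ) [NeZero p] : Finset (ZMod p × ZMod p) :=
  Finset.univ.filter fun z => ((W : ZMod p) * z.1) ^ k + ((W : ZMod p) * z.2) ^ k + 1 = 0

theorem VW_sum {W k p : ℕ} [Fact p.Prime] (hW : ¬ p ∣ W) (h l : ZMod p) :
    ∑ z ∈ VW W k p, ZMod.stdAddChar (N := p) (h * z.1 + l * z.2) =
      ∑ z ∈ ZF p k, ZMod.stdAddChar (N := p) (h * (W : ZMod p)⁻¹ * z.1 + l * (W : ZMod p)⁻¹ * z.2) := by
  have hW0 : (W : ZMod p) ≠ 0 := by rw [Ne, ZMod.natCast_eq_zero_iff]; exact hW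
  refine sum_bij' (fun z _ => ((W : ZMod p) * z.1, (W : ZMod p) * z.2))
    (fun z _ => ((W : ZMod p)⁻¹ * z.1, (W : ZMod p)⁻¹ * z.2)) ?_ ?_ ?_ ?_ ?_
  · intro z hz
    rw [VW, mem_filter] at hz
    rw [ZF, mem_filter]
    exact ⟨mem_univ _, hz.2⟩
  · intro z hz
    rw [ZF, mem_filter] at hz
    rw [VW, mem_filter]
    refine ⟨mem_univ _, ?_⟩
    simp only
    rw [mul_inv_cancel_left₀ hW0, mul_inv_cancel_left₀ hW0]
    exact hz.2
  · intro z _
    simp only
    rw [inv_mul_cancel_left₀ hW0, inv_mul_cancel_left₀ hW0]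
  · intro z _
    simp only
    rw [mul_inv_cancel_left₀ hW0, mul_inv_cancel_left₀ hW0]
  · intro z _
    simp only
    congr 1
    rw [mul_assoc h, mul_assoc l, inv_mul_cancel_left₀ hW0, inv_mul_cancel_left₀ hW0]

theorem VW_card {W k p : ℕ} [Fact p.Prime] (hW : ¬ p ∣ W) : (VW W k p).card = (ZF p k).card := by
  have h1 := VW_sum (k := k) hW 0 0
  simp only [zero_mul, add_zero, AddChar.map_zero_eq_one, sum_const, nsmul_eq_mul, mul_one] at h1
  exact_mod_cast h1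

open Classical in
/-- **Equidistribution of the values modulo squarefree numbers.** -/
theorem equiF {k : ℕ} (hk : 2 ≤ k) (W : ℕ) (T : Finset ℕ) (hT : ∀ p ∈ T, p.Prime ∧ k * k < p ∧ ¬ p ∣ W) (N : ℕ) :
    |(((Q4 N).filter (fun s => ∀ p ∈ T, p ∣ FV W k s)).card : ℝ) - (N : ℝ) ^ 4 * ∏ p ∈ T, gF k p| ≤
      (2 * MC k) ^ T.card * (2 * (N : ℝ) ^ 3 / √((∏ p ∈ T, p : ℕ) : ℝ) + (N : ℝ) ^ 2 * √((∏ p ∈ T, p : ℕ) : ℝ)) := by
  let q : T → ℕ := fun i => i.1
  haveI hfact : ∀ i : T, Fact (q i).Prime := fun i => ⟨(hT i.1 i.2).1⟩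
  haveI : ∀ i : T, NeZero (q i) := fun i => ⟨(hT i.1 i.2).1.ne_zero⟩
  have hco : Pairwise (Function.onFun Nat.Coprime q) := by
    intro i j hij
    exact (Nat.coprime_primes (hT i.1 i.2).1 (hT j.1 j.2).1).2 (fun h => hij (Subtype.ext h))
  have hEC : (EC k : ℝ) ≤ MC k := by
    unfold MC
    have h2 : (0 : ℝ) ≤ WC k k k := Nat.cast_nonneg _
    linarith
  have key := equi q (fun i => VW W k (q i)) hco (MC_ge k) (by
    intro i h l hhl
    have hW := (hT i.1 i.2).2.2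
    have hW0 : ((W : ZMod (q i)))⁻¹ ≠ 0 := by
      apply inv_ne_zero
      rw [Ne, ZMod.natCast_eq_zero_iff]; exact hW
    rw [VW_sum hW]
    refine (exp_bound hk (hT i.1 i.2).2.1 _ _ ?_).trans ?_
    · rcases hhl with h0 | h0
      · left; exact mul_ne_zero h0 hW0
      · right; exact mul_ne_zero h0 hW0
    · exact mul_le_mul_of_nonneg_right hEC (Real.sqrt_nonneg _)) (by
    intro i
    have hW := (hT i.1 i.2).2.2
    rw [VW_card hW]
    have h1 := (abs_le.1 (card_ZF (p := q i) hk (hT i.1 i.2).2.1)).2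
    have hq1 : (1 : ℝ) ≤ q i := by exact_mod_cast (hT i.1 i.2).1.one_lt.le
    have h2 : √(q i : ℝ) ≤ q i := by
      rw [Real.sqrt_le_left (by linarith)]
      nlinarith
    have h3 : (WC k k k : ℝ) * √(q i : ℝ) ≤ WC k k k * q i := mul_le_mul_of_nonneg_left h2 (Nat.cast_nonneg _)
    have h4 : (0 : ℝ) ≤ EC k := Nat.cast_nonneg _
    unfold MC
    nlinarith) N
  have e1 : ((Q4 N).filter (fun s => ∀ i : T, (((s.1.1 + s.1.2 : ℕ) : ZMod (q i)), ((s.2.1 + s.2.2 : ℕ) : ZMod (q i))) ∈ VW W k (q i))) =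
      (Q4 N).filter (fun s => ∀ p ∈ T, p ∣ FV W k s) := by
    apply filter_congr
    intro s _
    constructor
    · intro h p hp
      have h1 := h ⟨p, hp⟩
      rw [VW, mem_filter] at h1
      have h2 := h1.2
      simp only at h2
      rw [← ZMod.natCast_eq_zero_iff]
      unfold FV
      push_cast at h2 ⊢
      exact h2
    · intro h i
      have h1 := h i.1 i.2
      rw [← ZMod.natCast_eq_zero_iff] at h1
      rw [VW, mem_filter]
      refine ⟨mem_univ _, ?_⟩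
      unfold FV at h1
      simp only
      push_cast at h1 ⊢
      exact h1
  have e2 : ∏ i : T, ((VW W k (q i)).card : ℝ) / (q i : ℝ) ^ 2 = ∏ p ∈ T, gF k p := by
    rw [← prod_coe_sort T (fun p => gF k p)]
    refine prod_congr rfl fun i _ => ?_
    rw [VW_card (hT i.1 i.2).2.2, ← gF_eq]
  have e3 : ∏ i : T, q i = ∏ p ∈ T, p := prod_coe_sort T (fun p => p)
  rw [e1, e2, e3, Fintype.card_coe] at key
  exact key

end Run7.h914
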