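import Pool.Agent.Run7.h914.Van
import Pool.Agent.W343.BSD.Euler
import Pool.Agent.H341R2.RootBound

/-! The logarithmic derivative of the L-function. -/

set_option autoImplicit false
set_option linter.all false

open PowerSeries Pool.Agent.H707R3 Pool.Agent.W343.BSD Pool.Agent.H962R3.Cnt

namespace Run7.h914

/-- the Euler operator -/
noncomputable def thC (f : PowerSeries ℂ) : PowerSeries ℂ := X * d⁄dX ℂ f

theorem coeff_thC (f : PowerSeries ℂ) (n : ℕ) : coeff n (thC f) = n * coeff n f := by
  unfold thC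
  rcases n with _ | n
  · rw [coeff_zero_X_mul]; simp
  · rw [coeff_succ_X_mul, coeff_derivative]
    push_cast
    ring

theorem thC_mul (f g : PowerSeries ℂ) : thC (f * g) = thC f * g + f * thC g := by
  unfold thC
  rw [Derivation.leibniz, smul_eq_mul, smul_eq_mul]
  ring

/-- the logarithmic derivative of one factor -/
noncomputable def GC (a : ℂ) (d : ℕ) : PowerSeries ℂ :=
  PowerSeries.mk fun m => if m ≠ 0 ∧ d ∣ m then (d : ℂ) * a ^ (m / d) else 0

theorem thC_geom (a : ℂ) {d : ℕ} (hd : d ≠ 0) : thC (geom a d) = geom a d * GC a d := by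
  have h1 := one_sub_mul_geom a hd
  have h2 : (1 - C a * X ^ d) * GC a d = C (d * a) * X ^ d := by
    ext m
    rw [sub_mul, one_mul, map_sub, mul_assoc, coeff_C_mul, coeff_X_pow_mul', coeff_C_mul, coeff_X_pow]
    unfold GC
    rw [coeff_mk]
    by_cases hm : m = 0
    · subst hm
      have : ¬ d ≤ 0 := by omega
      simp [this, Ne.symm hd]
    by_cases hdm : d ∣ m
    · obtain ⟨j, rfl⟩ := hdm
      have hj : j ≠ 0 := by rintro rfl; simp at hm
      obtain ⟨j, rfl⟩ := Nat.exists_eq_succ_of_ne_zero hj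
      have hle : d ≤ d * (j + 1) := Nat.le_mul_of_pos_right _ (Nat.succ_pos j)
      have hsub : d * (j + 1) - d = d * j := by rw [mul_add, mul_one, Nat.add_sub_cancel]
      rw [if_pos ⟨hm, dvd_mul_right _ _⟩, if_pos hle, coeff_mk, Nat.succ_eq_add_one, hsub,
        Nat.mul_div_cancel_left _ (Nat.pos_of_ne_zero hd)]
      by_cases hj0 : j = 0
      · subst hj0
        simp
      · rw [if_pos ⟨Nat.mul_ne_zero hd hj0, dvd_mul_right _ _⟩, Nat.mul_div_cancel_left _ (Nat.pos_of_ne_zero hd), if_neg]
        · rw [pow_succ]; ring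
        · intro h
          have : d * (j + 1) = d * 1 := by rw [h, mul_one]
          have := Nat.eq_of_mul_eq_mul_left (Nat.pos_of_ne_zero hd) this
          omega
    · rw [if_neg (fun h => hdm h.2), if_neg (show ¬ m = d by rintro rfl; exact hdm dvd_rfl)]
      split_ifs with h
      · rw [coeff_mk, if_neg]
        · simp
        · rintro ⟨-, h3⟩
          rw [Nat.dvd_sub_iff_left h dvd_rfl] at h3
          exact hdm h3
      · simp
  have h3 : thC ((1 - C a * X ^ d) * geom a d) = 0 := by
    rw [h1]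
    ext n
    rw [coeff_thC, coeff_one, map_zero]
    split_ifs with h
    · rw [h]; simp
    · simp
  rw [thC_mul] at h3
  have h4 : thC (1 - C a * X ^ d) = - (C (d * a) * X ^ d) := by
    ext n
    rw [coeff_thC, map_sub, map_neg, coeff_C_mul, coeff_C_mul, coeff_X_pow, coeff_one]
    by_cases hn : n = 0
    · subst hn
      simp [Ne.symm hd]
    · rw [if_neg hn]
      by_cases hnd : n = d
      · subst hnd; simp
      · rw [if_neg hnd]; simp
  rw [h4, ← h2] at h3
  have h5 : (1 - C a * X ^ d) * (thC (geom a d) - geom a d * GC a d) = 0 := by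
    linear_combination h3
  have h6 : (1 - C a * X ^ d : PowerSeries ℂ) ≠ 0 := by
    intro h0
    rw [h0, zero_mul] at h1
    exact zero_ne_one h1
  exact sub_eq_zero.1 ((mul_eq_zero.1 h5).resolve_left h6)

theorem thC_prod {ι : Type} (a : ι → ℂ) (d : ι → ℕ) (hd : ∀ v, d v ≠ 0) (s : Finset ι) :
    thC (∏ v ∈ s, geom (a v) (d v)) = (∏ v ∈ s, geom (a v) (d v)) * ∑ v ∈ s, GC (a v) (d v) := by
  classical
  induction s using Finset.induction_on with
  | empty =>
    rw [Finset.prod_empty, Finset.sum_empty, mul_zero]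
    ext n
    rw [coeff_thC, coeff_one, map_zero]
    split_ifs with h
    · rw [h]; simp
    · simp
  | insert b s hb ih =>
    rw [Finset.prod_insert hb, Finset.sum_insert hb, thC_mul, ih, thC_geom _ (hd b)]
    ring

section
variable {ι : Type} (a : ι → ℂ) (d : ι → ℕ) (hd : ∀ v, d v ≠ 0) (hfin : ∀ k, {v | d v ≤ k}.Finite)

open Classical in
/-- the power sums -/
noncomputable def SC (m : ℕ) : ℂ := ∑ v ∈ (hfin m).toFinset.filter (fun v => d v ∣ m), (d v : ℂ) * a v ^ (m / d v)

/-- the coefficients -/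
noncomputable def cC (m : ℕ) : ℂ := ∑ D ∈ (eff_finite d hd hfin m).toFinset, Val a D

theorem cC_eq (n m : ℕ) (h : n ≤ m) : cC a d hd hfin n = coeff n (∏ v ∈ (hfin m).toFinset, geom (a v) (d v)) := by
  classical
  have hmod : ∀ v, (X : PowerSeries ℂ) ^ d v ∣ geom (a v) (d v) - 1 := by
    intro v
    rw [X_pow_dvd_iff]
    intro j hj
    rw [map_sub, coeff_geom, coeff_one]
    by_cases hj0 : j = 0
    · subst hj0; simp
    · rw [if_neg hj0, if_neg, sub_zero]
      intro h
      have := Nat.le_of_dvd (Nat.pos_of_ne_zero hj0) h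
      omega
  have h1 := eulerProd_mod hfin hmod m (hfin m).toFinset (fun i hi => by
    rw [Set.Finite.mem_toFinset]; exact hi)
  rw [X_pow_dvd_iff] at h1
  have h2 := h1 n (by omega)
  rw [map_sub, sub_eq_zero, coeff_eulerProd hfin, coeff_prod_geom d hd hfin] at h2
  exact h2

theorem cC_zero : cC a d hd hfin 0 = 1 := by
  rw [cC_eq a d hd hfin 0 0 le_rfl]
  have h1 : (hfin 0).toFinset = ∅ := by
    ext v
    rw [Set.Finite.mem_toFinset]
    have := hd v
    simp only [Set.mem_setOf_eq, Finset.notMem_empty, iff_false]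
    omega
  rw [h1, Finset.prod_empty]
  simp

theorem cC_log (n : ℕ) : (n : ℂ) * cC a d hd hfin n =
    ∑ m ∈ Finset.Icc 1 n, cC a d hd hfin (n - m) * SC a d hfin m := by
  classical
  rw [cC_eq a d hd hfin n n le_rfl, ← coeff_thC, thC_prod a d hd, coeff_mul,
    Finset.Nat.sum_antidiagonal_eq_sum_range_succ_mk, ← Finset.sum_range_reflect]
  have h4 : (Finset.range (n + 1)).filter (fun m => m ≠ 0) = Finset.Icc 1 n := by
    ext m
    simp only [Finset.mem_filter, Finset.mem_range, Finset.mem_Icc]
    omega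
  rw [← h4, Finset.sum_filter]
  apply Finset.sum_congr rfl
  intro m hm
  rw [Finset.mem_range] at hm
  have e1 : n.succ - 1 - m = n - m := by omega
  have e2 : n - (n - m) = m := by omega
  rw [e1, e2, ← cC_eq a d hd hfin (n - m) n (by omega), map_sum]
  by_cases h0 : m = 0
  · rw [if_neg (by simpa using h0)]
    have : ∑ v ∈ (hfin n).toFinset, coeff m (GC (a v) (d v)) = 0 := by
      refine Finset.sum_eq_zero fun v _ => ?_
      unfold GC
      rw [coeff_mk, if_neg]
      exact fun h => h.1 h0
    rw [this, mul_zero]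
  · rw [if_pos h0]
    congr 1
    unfold SC
    rw [Finset.sum_filter]
    have h3 : (hfin m).toFinset ⊆ (hfin n).toFinset := by
      intro v hv
      rw [Set.Finite.mem_toFinset] at hv ⊢
      have : d v ≤ m := hv
      change d v ≤ n
      omega
    rw [← Finset.sum_subset h3]
    · refine Finset.sum_congr rfl fun v _ => ?_
      unfold GC
      rw [coeff_mk]
      simp only [ne_eq, h0, not_false_eq_true, true_and]
    · intro v _ hv
      unfold GC
      rw [coeff_mk, if_neg]
      rintro ⟨h4, h5⟩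
      apply hv
      rw [Set.Finite.mem_toFinset]
      exact Nat.le_of_dvd (Nat.pos_of_ne_zero h4) h5

end

/-! ### polynomials with a logarithmic derivative -/

open Polynomial in
/-- the logarithmic derivative identity -/
def LD (a : ℂ[X]) (S : ℕ → ℂ) : Prop :=
  ∀ n : ℕ, (n : ℂ) * a.coeff n = ∑ m ∈ Finset.Icc 1 n, a.coeff (n - m) * S m

/-- the power series of the power sums -/
noncomputable def SSp (S : ℕ → ℂ) : PowerSeries ℂ := PowerSeries.mk fun m => if m = 0 then 0 else S m

open Polynomial in
theorem ld_iff (a : ℂ[X]) (S : ℕ → ℂ) :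
    LD a S ↔ thC (a : PowerSeries ℂ) = (a : PowerSeries ℂ) * SSp S := by
  have h2 : ∀ n : ℕ, PowerSeries.coeff n ((a : PowerSeries ℂ) * SSp S) =
      ∑ m ∈ Finset.Icc 1 n, a.coeff (n - m) * S m := by
    intro n
    rw [PowerSeries.coeff_mul, Finset.Nat.sum_antidiagonal_eq_sum_range_succ_mk]
    have h3 : ∑ k ∈ Finset.range n.succ, PowerSeries.coeff k (a : PowerSeries ℂ) *
        PowerSeries.coeff (n - k) (SSp S) =
        ∑ m ∈ Finset.range (n + 1), a.coeff (n - m) * (if m = 0 then 0 else S m) := by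
      rw [← Finset.sum_range_reflect]
      apply Finset.sum_congr rfl
      intro m hm
      rw [Finset.mem_range] at hm
      have e1 : n.succ - 1 - m = n - m := by omega
      have e2 : n - (n - m) = m := by omega
      rw [e1, e2, Polynomial.coeff_coe, SSp, PowerSeries.coeff_mk]
    rw [h3]
    have h4 : (Finset.range (n + 1)).filter (fun m => m ≠ 0) = Finset.Icc 1 n := by
      ext m
      simp only [Finset.mem_filter, Finset.mem_range, Finset.mem_Icc]
      omega
    rw [← h4, Finset.sum_filter]
    apply Finset.sum_congr rfl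
    intro m _
    by_cases h0 : m = 0
    · simp [h0]
    · simp [h0]
  constructor
  · intro h
    ext n
    rw [coeff_thC, h2, Polynomial.coeff_coe]
    exact h n
  · intro h n
    rw [← h2, ← h, coeff_thC, Polynomial.coeff_coe]

open Polynomial in
theorem ld_one : LD 1 (fun _ => 0) := by
  intro n
  rw [Polynomial.coeff_one]
  rcases Nat.eq_zero_or_pos n with h | h
  · simp [h]
  · rw [if_neg (by omega)]
    simp

open Polynomial in
theorem ld_mul {a b : ℂ[X]} {S T : ℕ → ℂ} (ha : LD a S) (hb : LD b T) :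
    LD (a * b) (fun m => S m + T m) := by
  rw [ld_iff] at ha hb ⊢
  have h1 : SSp (fun m => S m + T m) = SSp S + SSp T := by
    ext n
    rw [map_add]
    unfold SSp
    simp only [PowerSeries.coeff_mk]
    split_ifs <;> simp
  rw [h1, Polynomial.coe_mul, thC_mul, ha, hb]
  ring

open Polynomial in
theorem ld_prod {J : Type*} (s : Finset J) (L : J → ℂ[X]) (S : J → ℕ → ℂ) (h : ∀ j ∈ s, LD (L j) (S j)) :
    LD (∏ j ∈ s, L j) (fun m => ∑ j ∈ s, S j m) := by
  classical
  induction s using Finset.induction_on with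
  | empty =>
    simp only [Finset.prod_empty, Finset.sum_empty]
    exact ld_one
  | insert z s hz ih =>
    rw [Finset.prod_insert hz]
    have h := ld_mul (h z (Finset.mem_insert_self _ _)) (ih fun j hj => h j (Finset.mem_insert_of_mem hj))
    have e : (fun m => ∑ j ∈ insert z s, S j m) = fun m => S z m + ∑ j ∈ s, S j m := by
      funext m
      rw [Finset.sum_insert hz]
    rw [e]
    exact h

open Polynomial in
/-- the first coefficient of a polynomial with large roots -/
theorem coeff_one_le (a : ℂ[X]) (ha0 : a.coeff 0 = 1) (r : ℝ) (hr : 0 < r)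
    (hroot : ∀ z : ℂ, a.eval z = 0 → 1 ≤ r * ‖z‖) (d : ℕ) (hd : a.natDegree ≤ d) : ‖a.coeff 1‖ ≤ d * r := by
  have ha : a ≠ 0 := by
    rintro rfl
    simp at ha0
  have h0 : a.eval 0 = 1 := by rw [← coeff_zero_eq_eval_zero, ha0]
  have h1 := (IsAlgClosed.splits a).eval_derivative_div_eval_of_ne_zero (x := 0)
    (by rw [h0]; exact one_ne_zero)
  have h2 : a.derivative.eval 0 = a.coeff 1 := by
    rw [← coeff_zero_eq_eval_zero, Polynomial.coeff_derivative]
    simp
  rw [h0, div_one, h2] at h1
  rw [h1]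
  refine (Multiset.le_sum_of_subadditive norm norm_zero.le (fun x y => norm_add_le x y) _).trans ?_
  have h3 : ((a.roots.map fun z => 1 / (0 - z)).map norm).sum ≤ (a.roots.map fun _ => r).sum := by
    rw [Multiset.map_map]
    apply Multiset.sum_map_le_sum_map
    intro z hz
    rw [mem_roots ha] at hz
    have h4 := hroot z hz
    have hz0 : 0 < ‖z‖ := by
      rcases (norm_nonneg z).eq_or_lt with h | h
      · rw [← h, mul_zero] at h4
        linarith
      · exact h
    simp only [Function.comp, zero_sub, norm_div, norm_one, norm_neg]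
    rw [div_le_iff₀ hz0]
    exact h4
  refine h3.trans ?_
  rw [Multiset.map_const', Multiset.sum_replicate, nsmul_eq_mul]
  refine mul_le_mul_of_nonneg_right ?_ hr.le
  exact_mod_cast (card_roots' a).trans hd

open Polynomial in
/-- A product of polynomials with small power sums: the first power sum of every factor is small. -/
theorem first_bound {J : Type*} (s : Finset J) (c : J → ℕ → ℂ) (S : J → ℕ → ℂ) (M : ℕ)
    (hc0 : ∀ j ∈ s, c j 0 = 1) (hcM : ∀ j ∈ s, ∀ m, M < m → c j m = 0)
    (hlog : ∀ j ∈ s, ∀ n : ℕ, (n : ℂ) * c j n = ∑ m ∈ Finset.Icc 1 n, c j (n - m) * S j m)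
    (r K : ℝ) (hr : 0 < r) (hK : 0 ≤ K) (hS : ∀ m, 1 ≤ m → ‖∑ j ∈ s, S j m‖ ≤ K * r ^ m) :
    ∀ j ∈ s, ‖S j 1‖ ≤ M * r := by
  classical
  let L : J → ℂ[X] := fun j => ∑ m ∈ Finset.range (M + 1), monomial m (c j m)
  have hcoeff : ∀ j ∈ s, ∀ m, (L j).coeff m = c j m := by
    intro j hj m
    simp only [L, finset_sum_coeff, Polynomial.coeff_monomial]
    rw [Finset.sum_ite_eq' (Finset.range (M + 1)) m]
    split_ifs with h
    · rfl
    · rw [Finset.mem_range, not_lt] at h
      exact (hcM j hj m (by omega)).symm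
  have hLD : ∀ j ∈ s, LD (L j) (S j) := by
    intro j hj n
    rw [hcoeff j hj, hlog j hj]
    exact Finset.sum_congr rfl fun m _ => by rw [hcoeff j hj]
  have hprod := ld_prod s L S hLD
  have hdeg : ∀ j, (L j).natDegree ≤ M := by
    intro j
    apply natDegree_sum_le_of_forall_le
    intro m hm
    rw [Finset.mem_range] at hm
    exact (natDegree_monomial_le _).trans (by omega)
  have hroots : ∀ z : ℂ, (∏ j ∈ s, L j).eval z = 0 → 1 ≤ r * ‖z‖ := by
    intro z hz
    refine Pool.Agent.H341R2.Sharp.root_norm (∏ j ∈ s, L j) ?_ (fun m => ∑ j ∈ s, S j m) r K hr hK hS hprod z hz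
    rw [coeff_zero_eq_eval_zero, eval_prod]
    apply Finset.prod_eq_one
    intro j hj
    rw [← coeff_zero_eq_eval_zero, hcoeff j hj, hc0 j hj]
  intro j hj
  have h1 := coeff_one_le (L j) (by rw [hcoeff j hj, hc0 j hj]) r hr (fun z hz => hroots z (by
    rw [eval_prod]
    exact Finset.prod_eq_zero hj hz)) M (hdeg j)
  have h2 := hlog j hj 1
  simp only [Nat.cast_one, one_mul, Finset.Icc_self, Finset.sum_singleton, Nat.sub_self, hc0 j hj] at h2
  rw [hcoeff j hj, h2] at h1
  exact h1

end Run7.h914
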