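import Pool.Agent.Run7.h914.GFin

/-! Exponential sums of rational functions. -/

set_option autoImplicit false
set_option linter.all false

open Polynomial

namespace Run7.h914

theorem EG_mono {n n' d d' δ δ' : ℕ} (hn : n ≤ n') (hd : d ≤ d') (hδ : δ ≤ δ') : EG n d δ ≤ EG n' d' δ' := by
  unfold EG
  gcongr

theorem exists_coprime {K : Type} [Field K] (N Q : K[X]) (hQ : Q ≠ 0) :
    ∃ g N' Q' : K[X], N = g * N' ∧ Q = g * Q' ∧ IsCoprime N' Q' := by
  classical
  obtain ⟨N', hN⟩ := EuclideanDomain.gcd_dvd_left N Q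
  obtain ⟨Q', hQ'⟩ := EuclideanDomain.gcd_dvd_right N Q
  have hab := EuclideanDomain.gcd_eq_gcd_ab N Q
  set g := EuclideanDomain.gcd N Q with hg
  have hg0 : g ≠ 0 := by
    intro h
    rw [h, zero_mul] at hQ'
    exact hQ hQ'
  refine ⟨g, N', Q', hN, hQ', EuclideanDomain.gcdA N Q, EuclideanDomain.gcdB N Q, ?_⟩
  apply mul_left_cancel₀ hg0
  rw [mul_one]
  generalize EuclideanDomain.gcdA N Q = u at *
  generalize EuclideanDomain.gcdB N Q = v at *
  calc g * (u * N' + v * Q') = (g * N') * u + (g * Q') * v := by ring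
    _ = N * u + Q * v := by rw [← hN, ← hQ']
    _ = g := hab.symm

section
variable {p : ℕ} [Fact p.Prime]

/-- the plane curve `Q y = N` -/
noncomputable def lin (N Q : (ZMod p)[X]) : (ZMod p)[X][X] := C Q * X + C (-N)

theorem lin_eval (N Q : (ZMod p)[X]) (x y : ZMod p) : evalEval x y (lin N Q) = Q.eval x * y - N.eval x := by
  unfold lin
  rw [evalEval_add, evalEval_mul, evalEval_C, evalEval_C, evalEval_X, eval_neg, sub_eq_add_neg]

theorem lin_coeff (N Q : (ZMod p)[X]) (i : ℕ) : (lin N Q).coeff i = if i = 0 then -N else if i = 1 then Q else 0 := by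
  unfold lin
  rw [coeff_add, coeff_C_mul, coeff_X, coeff_C]
  rcases i with _ | _ | i
  · simp
  · simp
  · simp

theorem lin_TD (N Q : (ZMod p)[X]) : TD (lin N Q) (max (Q.natDegree + 1) N.natDegree) := by
  intro i j hij
  rw [lin_coeff]
  split_ifs with h h
  · subst h
    rw [coeff_neg, coeff_eq_zero_of_natDegree_lt (by have := le_max_right (Q.natDegree + 1) N.natDegree; omega), neg_zero]
  · subst h
    exact coeff_eq_zero_of_natDegree_lt (by have := le_max_left (Q.natDegree + 1) N.natDegree; omega)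
  · simp

theorem lin_top {N Q : (ZMod p)[X]} (hQ : Q ≠ 0) : ∃ i ≤ max (Q.natDegree + 1) N.natDegree,
    ((lin N Q).coeff i).coeff (max (Q.natDegree + 1) N.natDegree - i) ≠ 0 := by
  rcases le_or_gt N.natDegree (Q.natDegree + 1) with h | h
  · rw [max_eq_left h]
    refine ⟨1, by omega, ?_⟩
    rw [lin_coeff, if_neg one_ne_zero, if_pos rfl, Nat.add_sub_cancel]
    exact (leadingCoeff_ne_zero.2 hQ)
  · rw [max_eq_right h.le]
    refine ⟨0, Nat.zero_le _, ?_⟩
    rw [lin_coeff, if_pos rfl, Nat.sub_zero, coeff_neg, neg_ne_zero]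
    apply leadingCoeff_ne_zero.2
    rintro rfl
    simp at h

theorem lin_irr {N Q : (ZMod p)[X]} (hQ : Q ≠ 0) (hco : IsCoprime N Q) : AbsIrr (lin N Q) := by
  unfold AbsIrr lin
  rw [Polynomial.map_add, Polynomial.map_mul, map_C, map_C, map_X, coe_mapRingHom, Polynomial.map_neg]
  refine irreducible_C_mul_X_add_C ((Polynomial.map_ne_zero_iff (algebraMap (ZMod p) (AlgebraicClosure (ZMod p))).injective).2 hQ) ?_
  have h1 := hco.symm.map (mapRingHom (algebraMap (ZMod p) (AlgebraicClosure (ZMod p))))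
  rw [coe_mapRingHom] at h1
  exact (IsCoprime.neg_right h1).isRelPrime

theorem lin_sum {N Q : (ZMod p)[X]} (hco : IsCoprime N Q) (g : ZMod p → ℂ) :
    ∑ z ∈ ZG (lin N Q), g z.2 = ∑ x ∈ Finset.univ.filter (fun x => Q.eval x ≠ 0), g (N.eval x / Q.eval x) := by
  classical
  have key : ∀ x y : ZMod p, evalEval x y (lin N Q) = 0 ↔ Q.eval x ≠ 0 ∧ y = N.eval x / Q.eval x := by
    intro x y
    rw [lin_eval, sub_eq_zero]
    constructor
    · intro h
      have hQ : Q.eval x ≠ 0 := by
        intro h0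
        rw [h0, zero_mul] at h
        obtain ⟨a, b, hab⟩ := hco
        have := congrArg (eval x) hab
        rw [eval_add, eval_mul, eval_mul, h0, ← h, mul_zero, mul_zero, add_zero, eval_one] at this
        exact zero_ne_one this
      exact ⟨hQ, by rw [eq_div_iff hQ, mul_comm]; exact h⟩
    · rintro ⟨h, rfl⟩
      rw [mul_div_cancel₀ _ h]
  refine Finset.sum_bij' (fun z _ => z.1) (fun x _ => (x, N.eval x / Q.eval x)) ?_ ?_ ?_ ?_ ?_
  · intro z hz
    rw [mem_ZG, key] at hz
    rw [Finset.mem_filter]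
    exact ⟨Finset.mem_univ _, hz.1⟩
  · intro x hx
    rw [Finset.mem_filter] at hx
    rw [mem_ZG, key]
    exact ⟨hx.2, rfl⟩
  · intro z hz
    rw [mem_ZG, key] at hz
    exact Prod.ext rfl hz.2.symm
  · intro x _; rfl
  · intro z hz
    rw [mem_ZG, key] at hz
    rw [hz.2]

theorem card_roots_filter (g : (ZMod p)[X]) (hg : g ≠ 0) :
    (Finset.univ.filter (fun x => g.eval x = 0)).card ≤ g.natDegree := by
  classical
  refine le_trans (Finset.card_le_card (t := g.roots.toFinset) ?_) ((Multiset.toFinset_card_le _).trans (card_roots' g))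
  intro x hx
  rw [Finset.mem_filter] at hx
  rw [Multiset.mem_toFinset, mem_roots hg]
  exact hx.2

/-- **The exponential sums of rational functions.** -/
theorem exp_rat {d : ℕ} (N Q : (ZMod p)[X]) (hQ : Q ≠ 0) (hN : N.natDegree ≤ d) (hQd : Q.natDegree ≤ d)
    (hnc : ∀ c : ZMod p, N ≠ C c * Q) (hd : (d + 1) * (d + 1) < p) :
    ‖∑ x ∈ Finset.univ.filter (fun x => Q.eval x ≠ 0), ZMod.stdAddChar (N := p) (N.eval x / Q.eval x)‖ ≤
      EG (d + 1) (d + 1) (2 * (d + 1) * (d + 1)) * √(p : ℝ) + d := by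
  classical
  obtain ⟨g, N', Q', hgN, hgQ, hco⟩ := exists_coprime N Q hQ
  have hg0 : g ≠ 0 := by rintro rfl; apply hQ; rw [hgQ, zero_mul]
  have hQ'0 : Q' ≠ 0 := by rintro rfl; apply hQ; rw [hgQ, mul_zero]
  have hN0 : N ≠ 0 := by have := hnc 0; rwa [C_0, zero_mul] at this
  have hN'0 : N' ≠ 0 := by rintro rfl; apply hN0; rw [hgN, mul_zero]
  have hdQ : g.natDegree + Q'.natDegree ≤ d := by rw [← natDegree_mul hg0 hQ'0, ← hgQ]; exact hQd
  have hdN : g.natDegree + N'.natDegree ≤ d := by rw [← natDegree_mul hg0 hN'0, ← hgN]; exact hN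
  -- the sum for the reduced fraction
  have hmain : ‖∑ x ∈ Finset.univ.filter (fun x => Q'.eval x ≠ 0), ZMod.stdAddChar (N := p) (N'.eval x / Q'.eval x)‖ ≤
      EG (d + 1) (d + 1) (2 * (d + 1) * (d + 1)) * √(p : ℝ) := by
    by_cases hm : 2 ≤ max (Q'.natDegree + 1) N'.natDegree
    · obtain ⟨i, hi, htop⟩ := lin_top (N := N') hQ'0
      have hmd : max (Q'.natDegree + 1) N'.natDegree ≤ d + 1 := max_le (by omega) (by omega)
      have h1 := exp_curve (lin_TD N' Q') hi htop hm (lt_of_le_of_lt (Nat.mul_le_mul hmd hmd) hd)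
        (lin_irr hQ'0 hco) 0 1 (Or.inr one_ne_zero)
      have h2 := lin_sum hco (fun y => ZMod.stdAddChar (N := p) y)
      rw [← h2]
      have h3 : ∀ z ∈ ZG (lin N' Q'), ZMod.stdAddChar (N := p) z.2 = ZMod.stdAddChar (N := p) (0 * z.1 + 1 * z.2) := by
        intro z _
        rw [zero_mul, zero_add, one_mul]
      rw [Finset.sum_congr rfl h3]
      refine h1.trans ?_
      refine mul_le_mul_of_nonneg_right ?_ (Real.sqrt_nonneg _)
      have h4 : EG (max (Q'.natDegree + 1) N'.natDegree) (max (Q'.natDegree + 1) N'.natDegree)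
          (2 * (max (Q'.natDegree + 1) N'.natDegree) * (max (Q'.natDegree + 1) N'.natDegree)) ≤
          EG (d + 1) (d + 1) (2 * (d + 1) * (d + 1)) :=
        EG_mono hmd hmd (Nat.mul_le_mul (Nat.mul_le_mul_left _ hmd) hmd)
      exact_mod_cast h4
    · have hQ1 : Q'.natDegree = 0 := by
        have := le_max_left (Q'.natDegree + 1) N'.natDegree
        omega
      have hN1 : N'.natDegree ≤ 1 := by
        have := le_max_right (Q'.natDegree + 1) N'.natDegree
        omega
      rw [natDegree_eq_zero] at hQ1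
      obtain ⟨q, hq⟩ := hQ1
      have hq0 : q ≠ 0 := by rintro rfl; apply hQ'0; rw [← hq, C_0]
      have hNe := eq_X_add_C_of_natDegree_le_one hN1
      set a := N'.coeff 1 with ha
      set b := N'.coeff 0 with hb
      have ha0 : a ≠ 0 := by
        intro h0
        rw [h0, C_0, zero_mul, zero_add] at hNe
        apply hnc (b / q)
        rw [hgN, hgQ, hNe, ← hq]
        have : (C b : (ZMod p)[X]) = C (b / q) * C q := by rw [← C_mul, div_mul_cancel₀ _ hq0]
        rw [this]; ring
      have h1 : ∑ x ∈ Finset.univ.filter (fun x => Q'.eval x ≠ 0), ZMod.stdAddChar (N := p) (N'.eval x / Q'.eval x) = 0 := by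
        have h2 : Finset.univ.filter (fun x => Q'.eval x ≠ 0) = (Finset.univ : Finset (ZMod p)) := by
          rw [Finset.filter_eq_self]
          intro x _
          rw [← hq, eval_C]; exact hq0
        rw [h2]
        have h3 : ∀ x : ZMod p, ZMod.stdAddChar (N := p) (N'.eval x / Q'.eval x) =
            ZMod.stdAddChar (N := p) (b / q) * ZMod.stdAddChar (N := p) (x * (a / q)) := by
          intro x
          rw [← AddChar.map_add_eq_mul]
          congr 1
          rw [hNe, ← hq]
          simp only [eval_add, eval_mul, eval_C, eval_X]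
          field_simp
          ring
        rw [Finset.sum_congr rfl fun x _ => h3 x, ← Finset.mul_sum, AddChar.sum_mulShift (a / q) (ZMod.isPrimitive_stdAddChar p),
          if_neg (div_ne_zero ha0 hq0)]
        simp
      rw [h1, norm_zero]
      positivity
  -- the common zeros
  have hsplit : ∑ x ∈ Finset.univ.filter (fun x => Q'.eval x ≠ 0), ZMod.stdAddChar (N := p) (N'.eval x / Q'.eval x) =
      ∑ x ∈ Finset.univ.filter (fun x => Q.eval x ≠ 0), ZMod.stdAddChar (N := p) (N.eval x / Q.eval x) +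
      ∑ x ∈ Finset.univ.filter (fun x => Q'.eval x ≠ 0 ∧ g.eval x = 0), ZMod.stdAddChar (N := p) (N'.eval x / Q'.eval x) := by
    rw [← Finset.sum_filter_add_sum_filter_not (Finset.univ.filter (fun x => Q'.eval x ≠ 0)) (fun x => g.eval x ≠ 0),
      Finset.filter_filter, Finset.filter_filter]
    congr 1
    · refine Finset.sum_congr ?_ ?_
      · ext x
        simp only [Finset.mem_filter, Finset.mem_univ, true_and]
        rw [hgQ, eval_mul, mul_ne_zero_iff, and_comm]
      · intro x hx
        rw [Finset.mem_filter, hgQ, eval_mul, mul_ne_zero_iff] at hx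
        rw [hgN, hgQ, eval_mul, eval_mul, mul_div_mul_left _ _ hx.2.1]
    · refine Finset.sum_congr ?_ fun _ _ => rfl
      ext x
      simp only [Finset.mem_filter, Finset.mem_univ, true_and, not_not]
  have hsmall : ‖∑ x ∈ Finset.univ.filter (fun x => Q'.eval x ≠ 0 ∧ g.eval x = 0),
      ZMod.stdAddChar (N := p) (N'.eval x / Q'.eval x)‖ ≤ d := by
    refine (norm_sum_le _ _).trans ?_
    rw [Finset.sum_congr rfl fun x _ => AddChar.norm_apply (ZMod.stdAddChar (N := p)) _, Finset.sum_const, nsmul_eq_mul, mul_one]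
    have h1 : (Finset.univ.filter (fun x => Q'.eval x ≠ 0 ∧ g.eval x = 0)).card ≤ g.natDegree :=
      (Finset.card_le_card (fun x hx => by
        rw [Finset.mem_filter] at hx ⊢
        exact ⟨hx.1, hx.2.2⟩)).trans (card_roots_filter g hg0)
    have h2 : (Finset.univ.filter (fun x => Q'.eval x ≠ 0 ∧ g.eval x = 0)).card ≤ d := by omega
    exact_mod_cast h2
  have h5 := eq_sub_of_add_eq hsplit.symm
  rw [h5]
  refine (norm_sub_le _ _).trans ?_
  linarith

end

end Run7.h914
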