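import Pool.Agent.Run7.h914.Quad

/-! Record gaps on quadrics modulo `p`. -/

set_option autoImplicit false
set_option linter.all false

namespace Run7.h914

open Finset Filter Matrix
open Pool.Agent.W147.PS (ff)

theorem ev_const (δ c : ℝ) (hδ : 0 < δ) : ∃ p₁ : ℕ, ∀ p : ℕ, p₁ ≤ p → c ≤ (p : ℝ) ^ δ := by
  obtain ⟨x₀, hx₀⟩ := eventually_atTop.mp ((tendsto_rpow_atTop hδ).eventually_ge_atTop c)
  obtain ⟨p₂, hp₂⟩ := exists_nat_ge x₀
  exact ⟨p₂, fun p hp => hx₀ p (hp₂.trans (by exact_mod_cast hp))⟩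

theorem sqrt_pow_rpow {p : ℕ} (hp : 0 < p) (k : ℕ) : √(p : ℝ) ^ k = (p : ℝ) ^ ((k : ℝ) / 2) := by
  have hp0 : (0 : ℝ) ≤ p := Nat.cast_nonneg p
  rw [Real.sqrt_eq_rpow, ← Real.rpow_natCast, ← Real.rpow_mul hp0]
  congr 1
  ring

theorem rec_quad (n E : ℕ) (hn : 2 ≤ n) (δ : ℝ) (hδ : 0 < δ) (hδ1 : δ ≤ 1) :
    ∃ κ : ℝ, 0 < κ ∧ ∃ p₀ : ℕ, ∀ (p : ℕ) [Fact p.Prime], p₀ ≤ p →
    ∀ (A : Matrix (Fin n) (Fin n) (ZMod p)) (c : Fin n → ZMod p) (b : ZMod p), A.IsSymm → A.det ≠ 0 → b ≠ 0 →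
    ∀ (M : Fin n → ℤ) (L : Fin n → ℕ), (∀ j, (p : ℝ) ^ δ ≤ L j ∧ L j ≤ p) →
      (p : ℝ) ^ (((n : ℝ) + 1) / 2 + δ) ≤ ∏ j, (L j : ℝ) →
    (p : ℝ) ^ (-δ) * ((p : ℝ) ^ ((n : ℝ) - 1) * ∏ j, ((L j : ℝ) / p)) ≤
      (Set.ncard {z : Fin n → ℤ | (∀ j, M j < z j ∧ z j ≤ M j + L j) ∧
        qf A ((fun j => (z j : ZMod p)) - c) = b ∧ Good n E κ δ p z} : ℝ) := by
  classical
  obtain ⟨κ, hκ, p₁, h⟩ := rec_pts n E δ hδ hδ1
  obtain ⟨p₂, h2⟩ := ev_const (δ / 8) 7504 (by positivity)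
  obtain ⟨p₃, h3⟩ := ev_const (1 / 2) 15008 (by norm_num)
  refine ⟨κ, hκ, max p₁ (max p₂ (max p₃ 26)), ?_⟩
  intro p _ hpp A c b hA hd hb M L hL hV
  have hp : p.Prime := Fact.out
  have e1 : p₁ ≤ p := (le_max_left _ _).trans hpp
  have e2 : p₂ ≤ p := ((le_max_left _ _).trans (le_max_right _ _)).trans hpp
  have e3 : p₃ ≤ p := ((le_max_left _ _).trans ((le_max_right _ _).trans (le_max_right _ _))).trans hpp
  have e4 : 25 < p := lt_of_lt_of_le (by norm_num) (((le_max_right _ _).trans ((le_max_right _ _).trans (le_max_right _ _))).trans hpp)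
  have hp0 : (0 : ℝ) < p := by exact_mod_cast hp.pos
  have hp1 : (1 : ℝ) < p := by exact_mod_cast hp.one_lt
  set S : Finset (Fin n → ZMod p) := univ.filter (fun x => qf A (x - c) = b) with hS
  have hnr : (2 : ℝ) ≤ n := by exact_mod_cast hn
  have hpow : √(p : ℝ) ^ (n + 1) = p * (p : ℝ) ^ (((n : ℝ) - 1) / 2) := by
    rw [sqrt_pow_rpow hp.pos]
    nth_rewrite 2 [← Real.rpow_one (p : ℝ)]
    rw [← Real.rpow_add hp0]
    congr 1
    push_cast
    ring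
  have hcard : (p : ℝ) ^ ((n : ℝ) - 1) / 2 ≤ S.card := by
    have h5 := quad_sum hA hd e4 hb c 0
    rw [if_pos rfl] at h5
    simp only [Pi.zero_apply, zero_mul, Finset.sum_const_zero, AddChar.map_zero_eq_one, Finset.sum_const, nsmul_eq_mul,
      mul_one] at h5
    have h6 : (p : ℝ) ^ n - p * S.card ≤ 7504 * √(p : ℝ) ^ (n + 1) := by
      refine le_trans ?_ h5
      rw [norm_sub_rev]
      have h7 : ((p : ℂ) ^ n - (p : ℂ) * (S.card : ℂ)) = (((p : ℝ) ^ n - p * S.card : ℝ) : ℂ) := by push_cast; ring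
      rw [h7, Complex.norm_real]
      exact le_abs_self _
    rw [hpow] at h6
    have h7 : (p : ℝ) ^ n = p * (p : ℝ) ^ ((n : ℝ) - 1) := by
      nth_rewrite 2 [← Real.rpow_one (p : ℝ)]
      rw [← Real.rpow_add hp0, ← Real.rpow_natCast]
      congr 1
      ring
    have h8 : (p : ℝ) ^ ((n : ℝ) - 1) = (p : ℝ) ^ (((n : ℝ) - 1) / 2) * (p : ℝ) ^ (((n : ℝ) - 1) / 2) := by
      rw [← Real.rpow_add hp0]
      congr 1
      ring
    have h9 : (15008 : ℝ) ≤ (p : ℝ) ^ (((n : ℝ) - 1) / 2) := by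
      refine (h3 p e3).trans (Real.rpow_le_rpow_of_exponent_le hp1.le ?_)
      linarith
    have h10 : (p : ℝ) * ((p : ℝ) ^ ((n : ℝ) - 1) - S.card) ≤ p * (7504 * (p : ℝ) ^ (((n : ℝ) - 1) / 2)) := by
      rw [h7] at h6
      linarith
    have h11 := le_of_mul_le_mul_left h10 hp0
    have h12 : (0 : ℝ) < (p : ℝ) ^ (((n : ℝ) - 1) / 2) := Real.rpow_pos_of_pos hp0 _
    have h13 : 15008 * (p : ℝ) ^ (((n : ℝ) - 1) / 2) ≤ (p : ℝ) ^ ((n : ℝ) - 1) := by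
      rw [h8]
      exact mul_le_mul_of_nonneg_right h9 h12.le
    linarith
  have key := h p e1 ((n : ℝ) - 1) (((n : ℝ) - 1) / 2) S hcard (by
    intro α hα
    have h5 := quad_sum hA hd e4 hb c α
    rw [if_neg hα, sub_zero, norm_mul, Complex.norm_natCast, hpow] at h5
    have h6 : (p : ℝ) * ‖∑ x ∈ S, (ZMod.stdAddChar (∑ j, α j * x j) : ℂ)‖ ≤ p * (7504 * (p : ℝ) ^ (((n : ℝ) - 1) / 2)) := by
      linarith
    have h7 := le_of_mul_le_mul_left h6 hp0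
    have e : (n : ℝ) - 1 - ((n : ℝ) - 1) / 2 = ((n : ℝ) - 1) / 2 := by ring
    rw [e]
    exact h7.trans (mul_le_mul_of_nonneg_right (h2 p e2) (Real.rpow_nonneg hp0.le _))) M L hL (by
      have e : (n : ℝ) - ((n : ℝ) - 1) / 2 + δ = ((n : ℝ) + 1) / 2 + δ := by ring
      rw [e]; exact hV)
  refine key.trans (le_of_eq ?_)
  congr 2
  ext z
  simp only [Set.mem_setOf_eq, hS, mem_filter, mem_univ, true_and]

open scoped Classical in
/-- graphs of quadratic polynomials -/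
theorem parab_sum {p : ℕ} [Fact p.Prime] {n : ℕ} {A : Matrix (Fin n) (Fin n) (ZMod p)} (hA : A.IsSymm) (hd : A.det ≠ 0)
    (hp : p ≠ 2) (l : Fin n → ZMod p) (c : ZMod p) (α : Fin (n + 1) → ZMod p) (hα : α ≠ 0) :
    ‖∑ x ∈ univ.image (fun x : Fin n → ZMod p => (Fin.cons (qf A x + l ⬝ᵥ x + c) x : Fin (n + 1) → ZMod p)),
      ZMod.stdAddChar (N := p) (∑ j, α j * x j)‖ ≤ √(p : ℝ) ^ n := by
  have hinj : Function.Injective (fun x : Fin n → ZMod p => (Fin.cons (qf A x + l ⬝ᵥ x + c) x : Fin (n + 1) → ZMod p)) := by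
    intro x y h
    have := congrArg Fin.tail h
    simpa [Fin.tail_cons] using this
  rw [Finset.sum_image (fun x _ y _ h => hinj h)]
  have h1 : ∀ x : Fin n → ZMod p, ∑ j, α j * (Fin.cons (qf A x + l ⬝ᵥ x + c) x : Fin (n + 1) → ZMod p) j =
      α 0 * c + (α 0 * qf A x + ∑ j, (α j.succ + α 0 * l j) * x j) := by
    intro x
    rw [Fin.sum_univ_succ, Fin.cons_zero]
    simp only [Fin.cons_succ, dotProduct, add_mul, Finset.sum_add_distrib, mul_assoc, ← Finset.mul_sum]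
    ring
  simp_rw [h1, AddChar.map_add_eq_mul (ZMod.stdAddChar (N := p)) (α 0 * c), ← Finset.mul_sum]
  rw [norm_mul, psi_norm, one_mul]
  by_cases h0 : α 0 = 0
  · simp_rw [h0, zero_mul, add_zero, zero_add]
    rw [vec_sum, if_neg]
    · rw [norm_zero]; positivity
    · intro h
      apply hα
      funext j
      rcases Fin.eq_zero_or_eq_succ j with h2 | ⟨i, h2⟩
      · rw [h2, h0]; rfl
      · rw [h2]; exact congrFun h i
  · have h2 := complete_sq hA hd hp h0 (fun j => α j.succ + α 0 * l j)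
    rw [h2, norm_mul, psi_norm, one_mul, GS_norm hA hd hp h0]

theorem rec_parab (n E : ℕ) (δ : ℝ) (hδ : 0 < δ) (hδ1 : δ ≤ 1) :
    ∃ κ : ℝ, 0 < κ ∧ ∃ p₀ : ℕ, ∀ (p : ℕ) [Fact p.Prime], p₀ ≤ p →
    ∀ (A : Matrix (Fin n) (Fin n) (ZMod p)) (l : Fin n → ZMod p) (c : ZMod p), A.IsSymm → A.det ≠ 0 →
    ∀ (M : Fin (n + 1) → ℤ) (L : Fin (n + 1) → ℕ), (∀ j, (p : ℝ) ^ δ ≤ L j ∧ L j ≤ p) →
      (p : ℝ) ^ ((n : ℝ) / 2 + 1 + δ) ≤ ∏ j, (L j : ℝ) →
    (p : ℝ) ^ (-δ) * ((p : ℝ) ^ (n : ℝ) * ∏ j, ((L j : ℝ) / p)) ≤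
      (Set.ncard {z : Fin (n + 1) → ℤ | (∀ j, M j < z j ∧ z j ≤ M j + L j) ∧
        (z 0 : ZMod p) = qf A (fun j => (z j.succ : ZMod p)) + l ⬝ᵥ (fun j => (z j.succ : ZMod p)) + c ∧
        Good (n + 1) E κ δ p z} : ℝ) := by
  classical
  obtain ⟨κ, hκ, p₁, h⟩ := rec_pts (n + 1) E δ hδ hδ1
  obtain ⟨p₂, h2⟩ := ev_const (δ / 8) 1 (by positivity)
  refine ⟨κ, hκ, max p₁ (max p₂ 3), ?_⟩
  intro p _ hpp A l c hA hd M L hL hV
  have hp : p.Prime := Fact.out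
  have e1 : p₁ ≤ p := (le_max_left _ _).trans hpp
  have e2 : p₂ ≤ p := ((le_max_left _ _).trans (le_max_right _ _)).trans hpp
  have e4 : p ≠ 2 := by
    have : 3 ≤ p := ((le_max_right _ _).trans (le_max_right _ _)).trans hpp
    omega
  have hp0 : (0 : ℝ) < p := by exact_mod_cast hp.pos
  set g : (Fin n → ZMod p) → (Fin (n + 1) → ZMod p) := fun x => (Fin.cons (qf A x + l ⬝ᵥ x + c) x : Fin (n + 1) → ZMod p) with hg
  have hinj : Function.Injective g := by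
    intro x y h
    have := congrArg Fin.tail h
    simpa [hg, Fin.tail_cons] using this
  set S : Finset (Fin (n + 1) → ZMod p) := univ.image g with hS
  have hcard : (S.card : ℝ) = (p : ℝ) ^ (n : ℝ) := by
    rw [hS, card_image_of_injective _ hinj, Finset.card_univ, Real.rpow_natCast]
    simp [ZMod.card]
  have hn0 : (0 : ℝ) < (p : ℝ) ^ (n : ℝ) := Real.rpow_pos_of_pos hp0 _
  have key := h p e1 (n : ℝ) ((n : ℝ) / 2) S (by rw [hcard]; linarith) (by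
    intro α hα
    have h5 := parab_sum hA hd e4 l c α hα
    rw [sqrt_pow_rpow hp.pos] at h5
    have e : (n : ℝ) - (n : ℝ) / 2 = (n : ℝ) / 2 := by ring
    rw [e]
    refine h5.trans ?_
    have h6 : (0 : ℝ) ≤ (p : ℝ) ^ ((n : ℝ) / 2) := Real.rpow_nonneg hp0.le _
    have h7 := mul_le_mul_of_nonneg_right (h2 p e2) h6
    linarith) M L hL (by
      have e : ((n + 1 : ℕ) : ℝ) - (n : ℝ) / 2 + δ = (n : ℝ) / 2 + 1 + δ := by push_cast; ring
      rw [e]; exact hV)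
  refine key.trans (le_of_eq ?_)
  congr 2
  ext z
  simp only [Set.mem_setOf_eq, hS, mem_image, mem_univ, true_and]
  have hiff : (∃ a, g a = fun j => (z j : ZMod p)) ↔
      (z 0 : ZMod p) = qf A (fun j => (z j.succ : ZMod p)) + l ⬝ᵥ (fun j => (z j.succ : ZMod p)) + c := by
    constructor
    · rintro ⟨a, ha⟩
      have h8 : a = fun j : Fin n => (z j.succ : ZMod p) := by
        funext j
        have := congrFun ha j.succ
        simpa [hg] using this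
      have h9 := congrFun ha 0
      simp only [hg, Fin.cons_zero] at h9
      rw [h8] at h9
      exact h9.symm
    · intro h8
      refine ⟨fun j => (z j.succ : ZMod p), ?_⟩
      funext j
      rcases Fin.eq_zero_or_eq_succ j with h9 | ⟨i, h9⟩
      · rw [h9, hg]; simp only [Fin.cons_zero]; exact h8.symm
      · rw [h9, hg]; simp only [Fin.cons_succ]
  rw [hiff]

end Run7.h914
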