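import Pool.Agent.Run7.h914.SLn
import Pool.Agent.Run7.h914.QuadRec

/-! Matrices with given determinant: general linear forms, counting, record gaps. -/

set_option autoImplicit false
set_option linter.all false

namespace Run7.h914

open Finset Matrix
open Pool.Agent.W147.PS (ff)

section
variable {p : ℕ} [Fact p.Prime]

open scoped Classical in
/-- the sums for all matrices -/
noncomputable def TA {n : ℕ} (A : Matrix (Fin n) (Fin n) (ZMod p)) (d : ZMod p) : ℂ :=
  ∑ X ∈ univ.filter (fun X : Matrix (Fin n) (Fin n) (ZMod p) => X.det = d),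
    ZMod.stdAddChar (N := p) (∑ i, ∑ j, A i j * X i j)

theorem pair_trace {n : ℕ} (A X : Matrix (Fin n) (Fin n) (ZMod p)) : ∑ i, ∑ j, A i j * X i j = trace (Aᵀ * X) := by
  rw [Finset.sum_comm]
  simp only [trace, diag_apply, mul_apply, transpose_apply]

theorem TA_diag {n : ℕ} (A : Matrix (Fin n) (Fin n) (ZMod p)) :
    ∃ D : Fin n → ZMod p, (A ≠ 0 → D ≠ 0) ∧ ∀ d, TA A d = TT n D d := by
  classical
  obtain ⟨L, L', D, h⟩ := Matrix.Pivot.exists_list_transvec_mul_mul_list_transvec_eq_diagonal Aᵀ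
  set U := (L.map TransvectionStruct.toMatrix).prod with hU
  set V := (L'.map TransvectionStruct.toMatrix).prod with hV
  have hUd : U.det = 1 := TransvectionStruct.det_toMatrix_prod L
  have hVd : V.det = 1 := TransvectionStruct.det_toMatrix_prod L'
  have hUu : IsUnit U.det := by rw [hUd]; exact isUnit_one
  have hVu : IsUnit V.det := by rw [hVd]; exact isUnit_one
  refine ⟨D, ?_, ?_⟩
  · intro hA hD
    apply hA
    rw [hD] at h
    have h0 : diagonal (0 : Fin n → ZMod p) = 0 := diagonal_zero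
    rw [h0] at h
    have h1 : Aᵀ = U⁻¹ * (U * Aᵀ * V) * V⁻¹ := by
      rw [Matrix.mul_assoc U Aᵀ V, ← Matrix.mul_assoc U⁻¹ U, Matrix.nonsing_inv_mul _ hUu, Matrix.one_mul,
        Matrix.mul_assoc, Matrix.mul_nonsing_inv _ hVu, Matrix.mul_one]
    rw [h, Matrix.mul_zero, Matrix.zero_mul] at h1
    rw [← transpose_transpose A, h1, transpose_zero]
  · intro d
    unfold TA TT
    let e : Matrix (Fin n) (Fin n) (ZMod p) ≃ Matrix (Fin n) (Fin n) (ZMod p) :=
      { toFun := fun X => V * X * U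
        invFun := fun X => V⁻¹ * X * U⁻¹
        left_inv := fun X => by
          show V⁻¹ * (V * X * U) * U⁻¹ = X
          rw [Matrix.mul_assoc V X U, ← Matrix.mul_assoc V⁻¹ V, Matrix.nonsing_inv_mul _ hVu, Matrix.one_mul,
            Matrix.mul_assoc, Matrix.mul_nonsing_inv _ hUu, Matrix.mul_one]
        right_inv := fun X => by
          show V * (V⁻¹ * X * U⁻¹) * U = X
          rw [Matrix.mul_assoc V⁻¹ X U⁻¹, ← Matrix.mul_assoc V V⁻¹, Matrix.mul_nonsing_inv _ hVu, Matrix.one_mul,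
            Matrix.mul_assoc, Matrix.nonsing_inv_mul _ hUu, Matrix.mul_one] }
    rw [Finset.sum_filter, Finset.sum_filter]
    refine (Fintype.sum_equiv e _ _ (fun X => ?_)).symm
    have h1 : (e X).det = X.det := by
      show (V * X * U).det = X.det
      rw [det_mul, det_mul, hUd, hVd, one_mul, mul_one]
    rw [h1]
    have h2 : ∑ i, ∑ j, A i j * (e X) i j = ∑ i, D i * X i i := by
      rw [pair_trace]
      show trace (Aᵀ * (V * X * U)) = _
      have h3 : trace (Aᵀ * (V * X * U)) = trace (U * Aᵀ * V * X) := by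
        rw [← Matrix.mul_assoc, Matrix.trace_mul_comm, ← Matrix.mul_assoc, ← Matrix.mul_assoc]
      rw [h3, h]
      simp only [trace, diag_apply, diagonal_mul]
    rw [h2]

theorem TA_bound1 {n : ℕ} (A : Matrix (Fin (n + 1)) (Fin (n + 1)) (ZMod p)) (hA : A ≠ 0) (d : ZMod p) :
    ‖TA A d‖ ≤ (p : ℝ) ^ (n * n + n) := by
  obtain ⟨D, h1, h2⟩ := TA_diag A
  rw [h2]
  exact TT_bound1 D (h1 hA) d

theorem TA_bound2 {n : ℕ} (A : Matrix (Fin (n + 3)) (Fin (n + 3)) (ZMod p)) (hA : A ≠ 0) {d : ZMod p} (hd : d ≠ 0) :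
    ‖TA A d‖ ≤ 2 * (p : ℝ) ^ ((n + 2) * (n + 2) + (n + 2) - 1) := by
  obtain ⟨D, h1, h2⟩ := TA_diag A
  rw [h2]
  exact TT_bound2 D (h1 hA) hd

open scoped Classical in
/-- the number of the nonsingular matrices -/
theorem card_nonsing (n : ℕ) : (univ.filter (fun X : Matrix (Fin n) (Fin n) (ZMod p) => X.det ≠ 0)).card =
    ∏ i : Fin n, (p ^ n - p ^ (i : ℕ)) := by
  have h := Matrix.card_GL_field (𝔽 := ZMod p) n
  rw [ZMod.card] at h
  rw [← h, Nat.card_eq_fintype_card, ← Finset.card_univ]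
  symm
  refine Finset.card_bij (fun g _ => (g : Matrix (Fin n) (Fin n) (ZMod p))) ?_ ?_ ?_
  · intro g _
    rw [mem_filter]
    refine ⟨mem_univ _, ?_⟩
    have := (Matrix.isUnit_iff_isUnit_det _).1 g.isUnit
    exact this.ne_zero
  · intro g _ g' _ hgg
    exact Units.ext hgg
  · intro X hX
    exact ⟨Matrix.GeneralLinearGroup.mkOfDetNeZero X (mem_filter.1 hX).2, mem_univ _, rfl⟩

open scoped Classical in
theorem card_det_ne (n : ℕ) {d d' : ZMod p} (hd : d ≠ 0) (hd' : d' ≠ 0) :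
    (univ.filter (fun X : Matrix (Fin (n + 1)) (Fin (n + 1)) (ZMod p) => X.det = d)).card ≤
    (univ.filter (fun X : Matrix (Fin (n + 1)) (Fin (n + 1)) (ZMod p) => X.det = d')).card := by
  set c : ZMod p := d' / d with hc
  have hc0 : c ≠ 0 := div_ne_zero hd' hd
  set E : Matrix (Fin (n + 1)) (Fin (n + 1)) (ZMod p) := diagonal (Function.update 1 0 c) with hE
  have hdE : E.det = c := by
    rw [hE, det_diagonal, Fin.prod_univ_succ, Function.update_self]
    have : ∀ i : Fin n, Function.update (1 : Fin (n + 1) → ZMod p) 0 c i.succ = 1 := fun i => by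
      rw [Function.update_of_ne (Fin.succ_ne_zero i)]; rfl
    simp [this]
  have hEu : IsUnit E.det := by rw [hdE]; exact isUnit_iff_ne_zero.2 hc0
  refine Finset.card_le_card_of_injOn (fun X => E * X) ?_ ?_
  · intro X hX
    rw [Finset.mem_coe, mem_filter] at hX ⊢
    refine ⟨mem_univ _, ?_⟩
    rw [det_mul, hdE, hX.2, hc, div_mul_cancel₀ _ hd]
  · intro X _ Y _ h
    have h1 := congrArg (fun M => E⁻¹ * M) h
    simpa only [← Matrix.mul_assoc, Matrix.nonsing_inv_mul _ hEu, Matrix.one_mul] using h1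

theorem bern (n : ℕ) (hp : 2 * n ≤ p) : (p : ℝ) ^ (n * n) / 2 ≤ ∏ i : Fin n, ((p : ℝ) ^ n - (p : ℝ) ^ (i : ℕ)) := by
  have hpp : p.Prime := Fact.out
  have hp0 : (0 : ℝ) < p := by exact_mod_cast hpp.pos
  have hp1 : (1 : ℝ) ≤ p := by exact_mod_cast hpp.one_lt.le
  have h1 : ∀ i : Fin n, (p : ℝ) ^ n * (1 - 1 / p) ≤ (p : ℝ) ^ n - (p : ℝ) ^ (i : ℕ) := by
    intro i
    have h2 : (p : ℝ) ^ (i : ℕ) ≤ (p : ℝ) ^ (n - 1) := pow_le_pow_right₀ hp1 (by have := i.2; omega)
    have h3 : (p : ℝ) ^ n * (1 / p) = (p : ℝ) ^ (n - 1) := by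
      have hn : n = (n - 1) + 1 := by have := i.2; omega
      nth_rewrite 1 [hn]
      rw [pow_succ]
      field_simp
    rw [mul_sub, mul_one, h3]
    linarith
  have h4 : (0 : ℝ) ≤ 1 - 1 / p := by
    rw [sub_nonneg, div_le_one hp0]; exact hp1
  have h5 : ∏ i : Fin n, ((p : ℝ) ^ n * (1 - 1 / p)) ≤ ∏ i : Fin n, ((p : ℝ) ^ n - (p : ℝ) ^ (i : ℕ)) :=
    Finset.prod_le_prod (fun i _ => by positivity) (fun i _ => h1 i)
  refine le_trans ?_ h5
  rw [Finset.prod_const, Finset.card_univ, Fintype.card_fin, mul_pow, ← pow_mul]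
  have h6 : 1 + (n : ℝ) * (-(1 / p)) ≤ (1 + (-(1 / p : ℝ))) ^ n := by
    apply one_add_mul_le_pow
    have : 1 / (p : ℝ) ≤ 1 := by rw [div_le_one hp0]; exact hp1
    linarith
  have h7 : (n : ℝ) * (1 / p) ≤ 1 / 2 := by
    rw [mul_one_div, div_le_div_iff₀ hp0 (by norm_num)]
    have : (2 * n : ℝ) ≤ p := by exact_mod_cast hp
    linarith
  have h8 : (1 : ℝ) / 2 ≤ (1 - 1 / p) ^ n := by
    have : (1 + (-(1 / p : ℝ))) = 1 - 1 / p := by ring
    rw [this] at h6
    linarith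
  have h9 : (0 : ℝ) ≤ (p : ℝ) ^ (n * n) := by positivity
  have := mul_le_mul_of_nonneg_left h8 h9
  linarith

theorem prod_cast (n : ℕ) : ((∏ i : Fin n, (p ^ n - p ^ (i : ℕ)) : ℕ) : ℝ) = ∏ i : Fin n, ((p : ℝ) ^ n - (p : ℝ) ^ (i : ℕ)) := by
  have hpp : p.Prime := Fact.out
  rw [Nat.cast_prod]
  refine Finset.prod_congr rfl fun i _ => ?_
  rw [Nat.cast_sub (Nat.pow_le_pow_right hpp.pos i.2.le)]
  push_cast
  rfl

open scoped Classical in
/-- many matrices with given nonzero determinant -/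
theorem card_det_lower (n : ℕ) (hp : 2 * (n + 1) ≤ p) {d : ZMod p} (hd : d ≠ 0) :
    (p : ℝ) ^ ((n + 1) * (n + 1) - 1) / 2 ≤
      (univ.filter (fun X : Matrix (Fin (n + 1)) (Fin (n + 1)) (ZMod p) => X.det = d)).card := by
  have hpp : p.Prime := Fact.out
  have hp0 : (0 : ℝ) < p := by exact_mod_cast hpp.pos
  have h1 : (univ.filter (fun X : Matrix (Fin (n + 1)) (Fin (n + 1)) (ZMod p) => X.det ≠ 0)).card =
      ∑ μ ∈ univ.filter (fun μ : ZMod p => μ ≠ 0),
        (univ.filter (fun X : Matrix (Fin (n + 1)) (Fin (n + 1)) (ZMod p) => X.det = μ)).card := by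
    rw [Finset.card_eq_sum_card_fiberwise (t := univ.filter (fun μ : ZMod p => μ ≠ 0))
      (f := fun X : Matrix (Fin (n + 1)) (Fin (n + 1)) (ZMod p) => X.det)]
    · refine Finset.sum_congr rfl fun μ hμ => ?_
      congr 1
      rw [Finset.filter_filter]
      ext X
      simp only [mem_filter, mem_univ, true_and]
      constructor
      · exact fun h => h.2
      · intro h
        exact ⟨by rw [h]; exact (mem_filter.1 hμ).2, h⟩
    · intro X hX
      rw [Finset.mem_coe, mem_filter] at hX ⊢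
      exact ⟨mem_univ _, hX.2⟩
  set N := (univ.filter (fun X : Matrix (Fin (n + 1)) (Fin (n + 1)) (ZMod p) => X.det = d)).card with hN
  have h2 : (univ.filter (fun X : Matrix (Fin (n + 1)) (Fin (n + 1)) (ZMod p) => X.det ≠ 0)).card ≤ p * N := by
    rw [h1]
    refine (Finset.sum_le_sum (g := fun _ => N) (fun μ hμ => card_det_ne n (mem_filter.1 hμ).2 hd)).trans ?_
    rw [Finset.sum_const, smul_eq_mul]
    refine Nat.mul_le_mul_right _ ((card_filter_le _ _).trans ?_)
    rw [Finset.card_univ, ZMod.card]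
  have h3 : (p : ℝ) ^ ((n + 1) * (n + 1)) / 2 ≤ p * N := by
    refine (bern (p := p) (n + 1) hp).trans ?_
    rw [← prod_cast, ← card_nonsing]
    exact_mod_cast h2
  have h4 : (p : ℝ) ^ ((n + 1) * (n + 1)) = p * (p : ℝ) ^ ((n + 1) * (n + 1) - 1) := by
    rw [← pow_succ']
    have : 1 ≤ (n + 1) * (n + 1) := Nat.mul_pos (by omega) (by omega)
    have h5 : (n + 1) * (n + 1) - 1 + 1 = (n + 1) * (n + 1) := by omega
    rw [h5]
  rw [h4, mul_div_assoc] at h3
  exact le_of_mul_le_mul_left h3 hp0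

open scoped Classical in
/-- many singular matrices -/
theorem card_sing_lower (n : ℕ) :
    (p : ℝ) ^ ((n + 1) * (n + 1) - 1) / 2 ≤
      (univ.filter (fun X : Matrix (Fin (n + 1)) (Fin (n + 1)) (ZMod p) => X.det = 0)).card := by
  have hpp : p.Prime := Fact.out
  have hp0 : (0 : ℝ) < p := by exact_mod_cast hpp.pos
  have hp1 : (1 : ℝ) ≤ p := by exact_mod_cast hpp.one_lt.le
  have h1 := Finset.card_filter_add_card_filter_not (s := (univ : Finset (Matrix (Fin (n + 1)) (Fin (n + 1)) (ZMod p))))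
    (fun X => X.det = 0)
  rw [Finset.card_univ, card_mat] at h1
  have h2 : ((univ.filter (fun X : Matrix (Fin (n + 1)) (Fin (n + 1)) (ZMod p) => ¬ X.det = 0)).card : ℝ) ≤
      (p : ℝ) ^ ((n + 1) * (n + 1)) - (p : ℝ) ^ ((n + 1) * (n + 1) - 1) := by
    have h3 := card_nonsing (p := p) (n + 1)
    have h4 : (univ.filter (fun X : Matrix (Fin (n + 1)) (Fin (n + 1)) (ZMod p) => ¬ X.det = 0)).card =
        ∏ i : Fin (n + 1), (p ^ (n + 1) - p ^ (i : ℕ)) := h3
    rw [h4, prod_cast, Fin.prod_univ_castSucc]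
    have h5 : ∏ i : Fin n, ((p : ℝ) ^ (n + 1) - (p : ℝ) ^ ((i.castSucc : Fin (n + 1)) : ℕ)) ≤ ((p : ℝ) ^ (n + 1)) ^ n := by
      refine (Finset.prod_le_prod (fun i _ => ?_) (fun i _ => ?_)).trans (le_of_eq (by
        rw [Finset.prod_const, Finset.card_univ, Fintype.card_fin] :
          ∏ i : Fin n, ((p : ℝ) ^ (n + 1)) = ((p : ℝ) ^ (n + 1)) ^ n))
      · rw [sub_nonneg]
        exact pow_le_pow_right₀ hp1 (i.castSucc).2.le
      · have : (0 : ℝ) ≤ (p : ℝ) ^ ((i.castSucc : Fin (n + 1)) : ℕ) := by positivity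
        linarith
    have h6 : (0 : ℝ) ≤ (p : ℝ) ^ (n + 1) - (p : ℝ) ^ ((Fin.last n : Fin (n + 1)) : ℕ) := by
      rw [sub_nonneg]
      exact pow_le_pow_right₀ hp1 (Fin.last n).2.le
    refine (mul_le_mul_of_nonneg_right h5 h6).trans (le_of_eq ?_)
    rw [mul_sub, ← pow_mul, ← pow_add, ← pow_add, Fin.val_last]
    have e1 : (n + 1) * n + (n + 1) = (n + 1) * (n + 1) := by ring
    have e2 : (n + 1) * n + n = (n + 1) * (n + 1) - 1 := by
      have : (n + 1) * (n + 1) = (n + 1) * n + n + 1 := by ring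
      omega
    rw [e1, e2]
  have h3 : ((univ.filter (fun X : Matrix (Fin (n + 1)) (Fin (n + 1)) (ZMod p) => X.det = 0)).card : ℝ) +
      ((univ.filter (fun X : Matrix (Fin (n + 1)) (Fin (n + 1)) (ZMod p) => ¬ X.det = 0)).card : ℝ) =
      (p : ℝ) ^ ((n + 1) * (n + 1)) := by exact_mod_cast h1
  have h4 : (0 : ℝ) ≤ (p : ℝ) ^ ((n + 1) * (n + 1) - 1) := by positivity
  linarith

end

end Run7.h914
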