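import Pool.Agent.Run7.h914.Rix
import Pool.Agent.Run7.h914.SLn2

/-! Record gaps at the entries of matrices with given determinant. -/

set_option autoImplicit false
set_option linter.all false

namespace Run7.h914

open Finset Matrix
open Pool.Agent.W147.PS (ff)

section
variable {p : ℕ} [Fact p.Prime]

open scoped Classical in
/-- the matrices of determinant `d` as functions on the pairs -/
noncomputable def SD (n : ℕ) (d : ZMod p) : Finset (Fin n × Fin n → ZMod p) :=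
  univ.filter (fun x => (Matrix.of (fun i j => x (i, j))).det = d)

def curE (n : ℕ) : (Fin n × Fin n → ZMod p) ≃ Matrix (Fin n) (Fin n) (ZMod p) where
  toFun x := Matrix.of (fun i j => x (i, j))
  invFun X := fun q => X q.1 q.2
  left_inv x := rfl
  right_inv X := rfl

open scoped Classical in
theorem SD_card (n : ℕ) (d : ZMod p) : (SD n d).card =
    (univ.filter (fun X : Matrix (Fin n) (Fin n) (ZMod p) => X.det = d)).card := by
  unfold SD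
  refine Finset.card_bij (fun x _ => curE n x) ?_ ?_ ?_
  · intro x hx
    exact mem_filter.2 ⟨mem_univ _, (mem_filter.1 hx).2⟩
  · intro x _ y _ h
    exact (curE n).injective h
  · intro X hX
    exact ⟨(curE n).symm X, mem_filter.2 ⟨mem_univ _, (mem_filter.1 hX).2⟩, rfl⟩

theorem SD_sum (n : ℕ) (d : ZMod p) (α : Fin n × Fin n → ZMod p) :
    ∑ x ∈ SD n d, ZMod.stdAddChar (N := p) (∑ q, α q * x q) = TA (Matrix.of (fun i j => α (i, j))) d := by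
  classical
  unfold SD TA
  rw [Finset.sum_filter, Finset.sum_filter]
  refine Fintype.sum_equiv (curE n) _ _ (fun x => ?_)
  rw [Fintype.sum_prod_type]
  rfl

end

theorem pow_as_rpow (x : ℝ) (k : ℕ) (y : ℝ) (h : y = k) : x ^ y = x ^ k := by rw [h, Real.rpow_natCast]

theorem rec_mat (n E : ℕ) (δ : ℝ) (hδ : 0 < δ) (hδ1 : δ ≤ 1) :
    ∃ κ : ℝ, 0 < κ ∧ ∃ p₀ : ℕ, ∀ (p : ℕ) [Fact p.Prime], p₀ ≤ p → ∀ (d : ZMod p), d ≠ 0 →
    ∀ (M : Fin (n + 3) × Fin (n + 3) → ℤ) (L : Fin (n + 3) × Fin (n + 3) → ℕ), (∀ j, (p : ℝ) ^ δ ≤ L j ∧ L j ≤ p) →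
      (p : ℝ) ^ ((((n + 3 : ℕ) : ℝ) ^ 2 - ((n + 3 : ℕ) : ℝ)) + δ) ≤ ∏ j, (L j : ℝ) →
    (p : ℝ) ^ (-δ) * ((p : ℝ) ^ (((n + 3 : ℕ) : ℝ) ^ 2 - 1) * ∏ j, ((L j : ℝ) / p)) ≤
      (Set.ncard {z : Fin (n + 3) × Fin (n + 3) → ℤ | (∀ j, M j < z j ∧ z j ≤ M j + L j) ∧
        (Matrix.of (fun i j => (z (i, j) : ZMod p))).det = d ∧ GoodI E κ δ p z} : ℝ) := by
  classical
  obtain ⟨κ, hκ, p₁, h⟩ := rec_ix (Fin (n + 3) × Fin (n + 3)) E δ hδ hδ1
  obtain ⟨p₂, h2⟩ := ev_const (δ / 8) 2 (by positivity)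
  refine ⟨κ, hκ, max p₁ (max p₂ (2 * (n + 3))), ?_⟩
  intro p _ hpp d hd M L hL hV
  have hp : p.Prime := Fact.out
  have e1 : p₁ ≤ p := (le_max_left _ _).trans hpp
  have e2 : p₂ ≤ p := ((le_max_left _ _).trans (le_max_right _ _)).trans hpp
  have e3 : 2 * (n + 2 + 1) ≤ p := ((le_max_right _ _).trans (le_max_right _ _)).trans hpp
  have hp0 : (0 : ℝ) < p := by exact_mod_cast hp.pos
  have hmul : 1 ≤ (n + 2) * (n + 2) := Nat.mul_pos (by omega) (by omega)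
  have hmul3 : 1 ≤ (n + 2 + 1) * (n + 2 + 1) := Nat.mul_pos (by omega) (by omega)
  have hs : (p : ℝ) ^ (((n + 3 : ℕ) : ℝ) ^ 2 - 1) = (p : ℝ) ^ ((n + 2 + 1) * (n + 2 + 1) - 1) := by
    apply pow_as_rpow
    rw [Nat.cast_sub hmul3]
    push_cast
    ring
  have hse : (p : ℝ) ^ ((n + 2) * (n + 2) + (n + 2) - 1) =
      (p : ℝ) ^ ((((n + 3 : ℕ) : ℝ) ^ 2 - 1) - ((n + 3 : ℕ) : ℝ)) := by
    symm
    apply pow_as_rpow
    rw [Nat.cast_sub (by omega)]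
    push_cast
    ring
  have key := h p e1 (((n + 3 : ℕ) : ℝ) ^ 2 - 1) ((n + 3 : ℕ) : ℝ) (SD (n + 3) d) (by
    rw [SD_card, hs]
    exact card_det_lower (p := p) (n + 2) e3 hd) (by
    intro α hα
    have h3 : Matrix.of (fun i j => α (i, j)) ≠ 0 := by
      intro h0
      apply hα
      funext q
      have := congrFun (congrFun h0 q.1) q.2
      exact this
    have h4 := TA_bound2 _ h3 hd
    rw [← SD_sum, hse] at h4
    refine h4.trans ?_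
    exact mul_le_mul_of_nonneg_right (h2 p e2) (Real.rpow_nonneg hp0.le _)) M L hL (by
      have e : (Fintype.card (Fin (n + 3) × Fin (n + 3)) : ℝ) - ((n + 3 : ℕ) : ℝ) + δ =
          (((n + 3 : ℕ) : ℝ) ^ 2 - ((n + 3 : ℕ) : ℝ)) + δ := by
        rw [Fintype.card_prod, Fintype.card_fin]
        push_cast
        ring
      rw [e]; exact hV)
  refine key.trans (le_of_eq ?_)
  congr 2
  ext z
  simp only [Set.mem_setOf_eq, SD, mem_filter, mem_univ, true_and]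

theorem rec_sing (n E : ℕ) (δ : ℝ) (hδ : 0 < δ) (hδ1 : δ ≤ 1) :
    ∃ κ : ℝ, 0 < κ ∧ ∃ p₀ : ℕ, ∀ (p : ℕ) [Fact p.Prime], p₀ ≤ p →
    ∀ (M : Fin (n + 1) × Fin (n + 1) → ℤ) (L : Fin (n + 1) × Fin (n + 1) → ℕ), (∀ j, (p : ℝ) ^ δ ≤ L j ∧ L j ≤ p) →
      (p : ℝ) ^ ((((n + 1 : ℕ) : ℝ) ^ 2 - ((n + 1 : ℕ) : ℝ) + 1) + δ) ≤ ∏ j, (L j : ℝ) →
    (p : ℝ) ^ (-δ) * ((p : ℝ) ^ (((n + 1 : ℕ) : ℝ) ^ 2 - 1) * ∏ j, ((L j : ℝ) / p)) ≤
      (Set.ncard {z : Fin (n + 1) × Fin (n + 1) → ℤ | (∀ j, M j < z j ∧ z j ≤ M j + L j) ∧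
        (Matrix.of (fun i j => (z (i, j) : ZMod p))).det = 0 ∧ GoodI E κ δ p z} : ℝ) := by
  classical
  obtain ⟨κ, hκ, p₁, h⟩ := rec_ix (Fin (n + 1) × Fin (n + 1)) E δ hδ hδ1
  obtain ⟨p₂, h2⟩ := ev_const (δ / 8) 1 (by positivity)
  refine ⟨κ, hκ, max p₁ p₂, ?_⟩
  intro p _ hpp M L hL hV
  have hp : p.Prime := Fact.out
  have e1 : p₁ ≤ p := (le_max_left _ _).trans hpp
  have e2 : p₂ ≤ p := (le_max_right _ _).trans hpp
  have hp0 : (0 : ℝ) < p := by exact_mod_cast hp.pos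
  have hmul3 : 1 ≤ (n + 1) * (n + 1) := Nat.mul_pos (by omega) (by omega)
  have hs : (p : ℝ) ^ (((n + 1 : ℕ) : ℝ) ^ 2 - 1) = (p : ℝ) ^ ((n + 1) * (n + 1) - 1) := by
    apply pow_as_rpow
    rw [Nat.cast_sub hmul3]
    push_cast
    ring
  have hse : (p : ℝ) ^ (n * n + n) =
      (p : ℝ) ^ ((((n + 1 : ℕ) : ℝ) ^ 2 - 1) - (((n + 1 : ℕ) : ℝ) - 1)) := by
    symm
    apply pow_as_rpow
    push_cast
    ring
  have key := h p e1 (((n + 1 : ℕ) : ℝ) ^ 2 - 1) (((n + 1 : ℕ) : ℝ) - 1) (SD (n + 1) 0) (by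
    rw [SD_card, hs]
    exact card_sing_lower (p := p) n) (by
    intro α hα
    have h3 : Matrix.of (fun i j => α (i, j)) ≠ 0 := by
      intro h0
      apply hα
      funext q
      have := congrFun (congrFun h0 q.1) q.2
      exact this
    have h4 := TA_bound1 _ h3 (0 : ZMod p)
    rw [← SD_sum, hse] at h4
    refine h4.trans ?_
    have h5 : (0 : ℝ) ≤ (p : ℝ) ^ ((((n + 1 : ℕ) : ℝ) ^ 2 - 1) - (((n + 1 : ℕ) : ℝ) - 1)) := Real.rpow_nonneg hp0.le _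
    have h6 := mul_le_mul_of_nonneg_right (h2 p e2) h5
    rw [one_mul] at h6
    exact h6) M L hL (by
      have e : (Fintype.card (Fin (n + 1) × Fin (n + 1)) : ℝ) - (((n + 1 : ℕ) : ℝ) - 1) + δ =
          (((n + 1 : ℕ) : ℝ) ^ 2 - ((n + 1 : ℕ) : ℝ) + 1) + δ := by
        rw [Fintype.card_prod, Fintype.card_fin]
        push_cast
        ring
      rw [e]; exact hV)
  refine key.trans (le_of_eq ?_)
  congr 2
  ext z
  simp only [Set.mem_setOf_eq, SD, mem_filter, mem_univ, true_and]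

end Run7.h914
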