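import Pool.Agent.W378.DC.MP
import Pool.Agent.Helper112.Lp.Kmt

/-! Densities close to `1 / p`: Mertens' formula and product. -/

set_option autoImplicit false
set_option linter.all false

open Finset Filter

namespace Run7.h914

open Pool.Agent.W23.DC

/-- densities with `|g p - 1 / p| ≤ M / (p √p)` for the primes `p > w` -/
structure GD (g : ℕ → ℝ) (M : ℝ) (w : ℕ) : Prop where
  M0 : 0 ≤ M
  wM : 4 * M ≤ w
  nn : ∀ p : ℕ, p.Prime → w < p → 0 ≤ g p
  cl : ∀ p : ℕ, p.Prime → w < p → |g p - 1 / (p : ℝ)| ≤ M / ((p : ℝ) * √(p : ℝ))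

theorem GD.le {g : ℕ → ℝ} {M : ℝ} {w : ℕ} (H : GD g M w) {p : ℕ} (hp : p.Prime) (hw : w < p) :
    g p ≤ ((⌈M⌉₊ + 1 : ℕ) : ℝ) / ((p : ℝ) - 1) := by
  have h1 := (abs_le.1 (H.cl p hp hw)).2
  have hp2 : (2 : ℝ) ≤ p := by exact_mod_cast hp.two_le
  have h2 : (1 : ℝ) ≤ √(p : ℝ) := by rw [Real.one_le_sqrt]; linarith
  have h3 : M / ((p : ℝ) * √(p : ℝ)) ≤ M / ((p : ℝ) - 1) := by
    apply div_le_div_of_nonneg_left H.M0 (by linarith)
    nlinarith
  have h4 : 1 / (p : ℝ) ≤ 1 / ((p : ℝ) - 1) := one_div_le_one_div_of_le (by linarith) (by linarith)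
  have h5 : M / ((p : ℝ) - 1) ≤ (⌈M⌉₊ : ℝ) / ((p : ℝ) - 1) :=
    div_le_div_of_nonneg_right (Nat.le_ceil M) (by linarith)
  push_cast
  rw [add_div]
  linarith

theorem GD.mer {g : ℕ → ℝ} {M : ℝ} {w : ℕ} (H : GD g M w) (ε₁ η : ℝ) (hε : 0 < ε₁) (hε1 : ε₁ ≤ 1) (hη : 0 < η) :
    ∃ Y0 : ℕ, ∀ Y : ℕ, Y0 ≤ Y → ∀ a b : ℝ, ε₁ ≤ a → a ≤ b → b ≤ 1 →
      |∑ p ∈ pr Y a b, g p - Real.log (b / a)| ≤ η := by
  obtain ⟨Y1, hY1⟩ := Pool.Agent.W378.DC.MP ε₁ (min (η / 2) 1) hε (lt_min (by linarith) one_pos)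
  have hB : 0 < Real.log (1 / ε₁) + 1 := by
    have : 0 ≤ Real.log (1 / ε₁) := Real.log_nonneg (by rw [le_div_iff₀ hε]; linarith)
    linarith
  have hev : ∀ᶠ Y : ℕ in atTop, max ((w : ℝ) + 1) ((M + 1) * (Real.log (1 / ε₁) + 1) / (η / 2)) ≤ (Y : ℝ) ^ (ε₁ / 2) :=
    ((tendsto_rpow_atTop (by linarith)).comp tendsto_natCast_atTop_atTop).eventually_ge_atTop _
  obtain ⟨Y2, hY2⟩ := eventually_atTop.1 (hev.and (eventually_ge_atTop 2))
  refine ⟨max Y1 Y2, fun Y hY a b ha hab hb => ?_⟩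
  have e1 := hY1 Y ((le_max_left _ _).trans hY) a b ha hab hb
  obtain ⟨e2, hY22⟩ := hY2 Y ((le_max_right _ _).trans hY)
  have hYr : (2 : ℝ) ≤ Y := by exact_mod_cast hY22
  have hlY : 0 < Real.log Y := Real.log_pos (by linarith)
  have e3 := (le_max_left _ _).trans e2
  have e4 := (le_max_right _ _).trans e2
  set z : ℝ := (Y : ℝ) ^ (ε₁ / 2) with hz
  have hz0 : 0 < z := by rw [hz]; positivity
  have hw0 : (0 : ℝ) ≤ w := Nat.cast_nonneg w
  have hzz : z * z = (Y : ℝ) ^ ε₁ := by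
    rw [hz, ← Real.rpow_add (by linarith)]
    congr 1; ring
  have hmem : ∀ p ∈ pr Y a b, p.Prime ∧ w < p ∧ z * z ≤ (p : ℝ) := by
    intro p hp
    unfold pr at hp
    rw [mem_filter] at hp
    obtain ⟨-, hpp, h1, -⟩ := hp
    have hp0 : (0 : ℝ) < p := by exact_mod_cast hpp.pos
    have h2 : (Y : ℝ) ^ ε₁ ≤ p := by
      unfold tt at h1
      have h3 : ε₁ * Real.log Y ≤ Real.log p := by
        have := ha.trans h1
        rwa [le_div_iff₀ hlY] at this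
      rw [← Real.log_le_log_iff (by positivity) hp0, Real.log_rpow (by linarith)]
      exact h3
    refine ⟨hpp, ?_, by rw [hzz]; exact h2⟩
    have h4 : (w : ℝ) < p := by
      have : (w : ℝ) + 1 ≤ z * z := by nlinarith
      rw [← hzz] at h2
      linarith
    exact_mod_cast h4
  have hterm : ∀ p ∈ pr Y a b, |g p - 1 / ((p : ℝ) - 1)| ≤ (M + 1) / z * (1 / ((p : ℝ) - 1)) := by
    intro p hp
    obtain ⟨hpp, hwp, hzp⟩ := hmem p hp
    have hp2 : (2 : ℝ) ≤ p := by exact_mod_cast hpp.two_le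
    have hp0 : (0 : ℝ) < p := by linarith
    have h1 := H.cl p hpp hwp
    have hsq : z ≤ √(p : ℝ) := by
      rw [Real.le_sqrt (by linarith) (by linarith), sq]; exact hzp
    have h2 : M / ((p : ℝ) * √(p : ℝ)) ≤ M / z * (1 / ((p : ℝ) - 1)) := by
      rw [div_mul_div_comm, mul_one]
      apply div_le_div_of_nonneg_left H.M0 (by nlinarith)
      nlinarith
    have h3 : |1 / (p : ℝ) - 1 / ((p : ℝ) - 1)| ≤ 1 / z * (1 / ((p : ℝ) - 1)) := by
      have h4 : 1 / (p : ℝ) - 1 / ((p : ℝ) - 1) = - (1 / (p : ℝ) * (1 / ((p : ℝ) - 1))) := by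
        have : (p : ℝ) - 1 ≠ 0 := by linarith
        field_simp
        ring
      have h5 : (0 : ℝ) ≤ 1 / ((p : ℝ) - 1) := div_nonneg zero_le_one (by linarith)
      rw [h4, abs_neg, abs_of_nonneg (mul_nonneg (by positivity) h5)]
      apply mul_le_mul_of_nonneg_right _ h5
      apply one_div_le_one_div_of_le hz0
      have hz1 : 1 ≤ z := by linarith
      nlinarith
    calc |g p - 1 / ((p : ℝ) - 1)| = |(g p - 1 / (p : ℝ)) + (1 / (p : ℝ) - 1 / ((p : ℝ) - 1))| := by congr 1; ring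
      _ ≤ |g p - 1 / (p : ℝ)| + |1 / (p : ℝ) - 1 / ((p : ℝ) - 1)| := abs_add_le _ _
      _ ≤ M / z * (1 / ((p : ℝ) - 1)) + 1 / z * (1 / ((p : ℝ) - 1)) := by linarith
      _ = (M + 1) / z * (1 / ((p : ℝ) - 1)) := by ring
  have hsum : |∑ p ∈ pr Y a b, g p - ∑ p ∈ pr Y a b, 1 / ((p : ℝ) - 1)| ≤ η / 2 := by
    rw [← sum_sub_distrib]
    refine (abs_sum_le_sum_abs _ _).trans ((sum_le_sum hterm).trans ?_)
    rw [← mul_sum]
    have h6 : ∑ p ∈ pr Y a b, 1 / ((p : ℝ) - 1) ≤ Real.log (1 / ε₁) + 1 := by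
      have h7 := (abs_le.1 e1).2
      have h8 : min (η / 2) 1 ≤ 1 := min_le_right _ _
      have h9 : Real.log (b / a) ≤ Real.log (1 / ε₁) := by
        apply Real.log_le_log (div_pos (by linarith) (by linarith))
        exact div_le_div₀ (by norm_num) hb hε ha
      linarith
    have h10 : (M + 1) / z * (Real.log (1 / ε₁) + 1) ≤ η / 2 := by
      rw [div_mul_eq_mul_div, div_le_iff₀ hz0]
      rw [div_le_iff₀ (by linarith)] at e4
      linarith
    refine le_trans ?_ h10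
    exact mul_le_mul_of_nonneg_left h6 (div_nonneg (by linarith [H.M0]) hz0.le)
  have h11 : min (η / 2) 1 ≤ η / 2 := min_le_left _ _
  calc |∑ p ∈ pr Y a b, g p - Real.log (b / a)| =
      |(∑ p ∈ pr Y a b, g p - ∑ p ∈ pr Y a b, 1 / ((p : ℝ) - 1)) + (∑ p ∈ pr Y a b, 1 / ((p : ℝ) - 1) - Real.log (b / a))| := by
        congr 1; ring
    _ ≤ |∑ p ∈ pr Y a b, g p - ∑ p ∈ pr Y a b, 1 / ((p : ℝ) - 1)| + |∑ p ∈ pr Y a b, 1 / ((p : ℝ) - 1) - Real.log (b / a)| := abs_add_le _ _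
    _ ≤ η := by linarith

theorem GD.prod {g : ℕ → ℝ} {M : ℝ} {w : ℕ} (H : GD g M w) :
    ∃ c : ℝ, 0 < c ∧ ∀ (J : ℕ) (Q : Finset ℕ), (∀ p ∈ Q, p.Prime ∧ w < p ∧ p < 2 ^ 2 ^ J) →
      c / 2 ^ J ≤ ∏ p ∈ Q, (1 - g p) := by
  classical
  obtain ⟨c, C, hc, -, hcC⟩ := Pool.Agent.Helper112.LP.mertens_prod
  have hM0 := H.M0
  have hs : Summable (fun n : ℕ => 1 / ((n : ℝ) * √(n : ℝ))) := by
    have h1 := Real.summable_one_div_nat_rpow.2 (show (1 : ℝ) < 3 / 2 by norm_num)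
    refine h1.congr ?_
    intro n
    rcases Nat.eq_zero_or_pos n with h | h
    · subst h
      norm_num
    · have hn : (0 : ℝ) < n := by exact_mod_cast h
      rw [Real.sqrt_eq_rpow, show (3 / 2 : ℝ) = 1 + 1 / 2 by norm_num, Real.rpow_add hn, Real.rpow_one]
  set Z : ℝ := ∑' n : ℕ, 1 / ((n : ℝ) * √(n : ℝ)) with hZ
  refine ⟨c * Real.exp (-(4 * M * Z)), by positivity, ?_⟩
  intro J Q hQ
  have hsub : Q ⊆ (range (2 ^ 2 ^ J)).filter Nat.Prime := by
    intro p hp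
    rw [mem_filter, mem_range]
    exact ⟨(hQ p hp).2.2, (hQ p hp).1⟩
  have h1 : c / 2 ^ J ≤ ∏ p ∈ Q, (1 - (1 : ℝ) / p) := by
    refine (hcC J).1.trans ?_
    rw [← prod_sdiff hsub]
    have hfac : ∀ p ∈ (range (2 ^ 2 ^ J)).filter Nat.Prime, 0 ≤ 1 - (1 : ℝ) / p ∧ 1 - (1 : ℝ) / p ≤ 1 := by
      intro p hp
      rw [mem_filter] at hp
      have h2 : (2 : ℝ) ≤ p := by exact_mod_cast hp.2.two_le
      constructor
      · have : 1 / (p : ℝ) ≤ 1 := by rw [div_le_one (by linarith)]; linarith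
        linarith
      · have : 0 ≤ 1 / (p : ℝ) := by positivity
        linarith
    have h5 : ∏ p ∈ (range (2 ^ 2 ^ J)).filter Nat.Prime \ Q, (1 - (1 : ℝ) / p) ≤ 1 :=
      prod_le_one (fun p hp => (hfac p (mem_sdiff.1 hp).1).1) (fun p hp => (hfac p (mem_sdiff.1 hp).1).2)
    have h6 : 0 ≤ ∏ p ∈ Q, (1 - (1 : ℝ) / p) := prod_nonneg fun p hp => (hfac p (hsub hp)).1
    nlinarith
  have h2 : ∏ p ∈ Q, (1 - (1 : ℝ) / p) * Real.exp (-(4 * M * (1 / ((p : ℝ) * √(p : ℝ))))) ≤ ∏ p ∈ Q, (1 - g p) := by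
    apply Finset.prod_le_prod
    · intro p hp
      have h2 : (2 : ℝ) ≤ p := by exact_mod_cast (hQ p hp).1.two_le
      have : 1 / (p : ℝ) ≤ 1 := by rw [div_le_one (by linarith)]; linarith
      apply mul_nonneg _ (Real.exp_pos _).le
      linarith
    · intro p hp
      obtain ⟨hpp, hwp, -⟩ := hQ p hp
      have hp2 : (2 : ℝ) ≤ p := by exact_mod_cast hpp.two_le
      have hsq : (1 : ℝ) ≤ √(p : ℝ) := by rw [Real.one_le_sqrt]; linarith
      have h3 := (abs_le.1 (H.cl p hpp hwp)).2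
      have hwp' : (w : ℝ) < p := by exact_mod_cast hwp
      have hwM := H.wM
      have hps : (p : ℝ) ≤ p * √(p : ℝ) := by nlinarith
      have hps0 : 0 < (p : ℝ) * √(p : ℝ) := by linarith
      set x : ℝ := 2 * M * (1 / ((p : ℝ) * √(p : ℝ))) with hx
      have hx0 : 0 ≤ x := by rw [hx]; positivity
      have hx1 : x ≤ 1 / 2 := by
        rw [hx, mul_one_div, div_le_iff₀ hps0]
        linarith
      have h4 : Real.exp (-(4 * M * (1 / ((p : ℝ) * √(p : ℝ))))) ≤ 1 - x := by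
        have h5 := Real.one_sub_inv_le_log_of_pos (show 0 < 1 - x by linarith)
        have h6 : -(2 * x) ≤ 1 - (1 - x)⁻¹ := by
          have h7 : (1 - x)⁻¹ ≤ 1 + 2 * x := by
            rw [inv_le_iff_one_le_mul₀ (by linarith)]
            nlinarith
          linarith
        rw [← Real.le_log_iff_exp_le (by linarith)]
        have : -(4 * M * (1 / ((p : ℝ) * √(p : ℝ)))) = -(2 * x) := by rw [hx]; ring
        linarith
      have hp1 : 1 / (p : ℝ) ≤ 1 / 2 := one_div_le_one_div_of_le (by norm_num) hp2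
      have h8 : (1 - 1 / (p : ℝ)) * (1 - x) ≤ 1 - g p := by
        have h9 : M / ((p : ℝ) * √(p : ℝ)) = x / 2 := by rw [hx]; ring
        rw [h9] at h3
        have h10 : (1 - 1 / (p : ℝ)) * x ≥ x / 2 := by nlinarith
        nlinarith
      refine le_trans ?_ h8
      apply mul_le_mul_of_nonneg_left h4
      linarith
  refine le_trans ?_ h2
  rw [prod_mul_distrib, ← Real.exp_sum]
  have h3 : Real.exp (-(4 * M * Z)) ≤ Real.exp (∑ p ∈ Q, -(4 * M * (1 / ((p : ℝ) * √(p : ℝ))))) := by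
    apply Real.exp_le_exp.2
    rw [sum_neg_distrib, neg_le_neg_iff, ← mul_sum]
    apply mul_le_mul_of_nonneg_left _ (by positivity)
    exact hs.sum_le_tsum Q (fun n _ => by positivity)
  calc c * Real.exp (-(4 * M * Z)) / 2 ^ J = c / 2 ^ J * Real.exp (-(4 * M * Z)) := by ring
    _ ≤ _ := mul_le_mul h1 h3 (Real.exp_pos _).le (le_trans (by positivity) h1)

end Run7.h914
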