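import Pool.Agent.Run7.h914.QuadRec

/-! Record gaps on sets with many linear symmetries modulo `p`. -/

set_option autoImplicit false
set_option linter.all false

namespace Run7.h914

open Finset Filter Matrix
open Pool.Agent.W147.PS (ff)

section
variable {p : ℕ} [Fact p.Prime] {r : ℕ}

/-- the exponential sum over a set -/
noncomputable def TS (S : Finset (Fin r → ZMod p)) (α : Fin r → ZMod p) : ℂ :=
  ∑ x ∈ S, ZMod.stdAddChar (N := p) (∑ j, α j * x j)

theorem parseval (S : Finset (Fin r → ZMod p)) : ∑ α, ‖TS S α‖ ^ 2 = (p : ℝ) ^ r * S.card := by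
  classical
  have h1 : ∑ α, TS S α * (starRingEnd ℂ) (TS S α) = (p : ℂ) ^ r * S.card := by
    unfold TS
    have h2 : ∀ α : Fin r → ZMod p, (∑ x ∈ S, ZMod.stdAddChar (N := p) (∑ j, α j * x j)) *
        (starRingEnd ℂ) (∑ x ∈ S, ZMod.stdAddChar (N := p) (∑ j, α j * x j)) =
        ∑ x ∈ S, ∑ y ∈ S, ZMod.stdAddChar (N := p) (∑ j, (x j - y j) * α j) := by
      intro α
      rw [map_sum, Finset.sum_mul_sum]
      refine Finset.sum_congr rfl fun x _ => Finset.sum_congr rfl fun y _ => ?_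
      rw [← AddChar.map_neg_eq_conj, ← AddChar.map_add_eq_mul, ← sub_eq_add_neg, ← Finset.sum_sub_distrib]
      congr 1
      refine Finset.sum_congr rfl fun j _ => ?_
      ring
    rw [Finset.sum_congr rfl fun α _ => h2 α, Finset.sum_comm]
    have h3 : ∀ x ∈ S, ∑ α : Fin r → ZMod p, ∑ y ∈ S, ZMod.stdAddChar (N := p) (∑ j, (x j - y j) * α j) = (p : ℂ) ^ r := by
      intro x hx
      rw [Finset.sum_comm]
      have h4 : ∀ y : Fin r → ZMod p, ∑ α : Fin r → ZMod p, ZMod.stdAddChar (N := p) (∑ j, (x j - y j) * α j) =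
          if y = x then (p : ℂ) ^ r else 0 := by
        intro y
        have h5 := vec_sum (p := p) (fun j => x j - y j)
        rw [h5]
        have h6 : ((fun j => x j - y j) = 0) ↔ y = x := by
          constructor
          · intro h
            funext j
            have := congrFun h j
            exact (sub_eq_zero.1 this).symm
          · rintro rfl
            funext j
            exact sub_self _
        simp only [h6]
      rw [Finset.sum_congr rfl fun y _ => h4 y, Finset.sum_ite_eq' S x, if_pos hx]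
    rw [Finset.sum_congr rfl h3, Finset.sum_const, nsmul_eq_mul]
    ring
  have h2 : ((∑ α, ‖TS S α‖ ^ 2 : ℝ) : ℂ) = ((p : ℝ) ^ r * S.card : ℝ) := by
    push_cast
    rw [← h1]
    refine Finset.sum_congr rfl fun α _ => ?_
    rw [Complex.mul_conj, Complex.normSq_eq_norm_sq]
    push_cast
    rfl
  exact_mod_cast h2

/-- if the sums agree at `K` places they are small -/
theorem TS_small (S : Finset (Fin r → ZMod p)) (α : Fin r → ZMod p) (O : Finset (Fin r → ZMod p))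
    (hO : ∀ β ∈ O, TS S β = TS S α) : (O.card : ℝ) * ‖TS S α‖ ^ 2 ≤ (p : ℝ) ^ r * S.card := by
  rw [← parseval, ← nsmul_eq_mul, ← Finset.sum_const]
  have h1 : ∑ β ∈ O, ‖TS S α‖ ^ 2 = ∑ β ∈ O, ‖TS S β‖ ^ 2 := Finset.sum_congr rfl fun β hβ => by rw [hO β hβ]
  rw [h1]
  exact Finset.sum_le_sum_of_subset_of_nonneg (subset_univ O) (fun β _ _ => by positivity)

/-- symmetries do not change the sums -/
theorem TS_symm (S : Finset (Fin r → ZMod p)) (g : (Fin r → ZMod p) → (Fin r → ZMod p)) (hg : Function.Injective g)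
    (hgS : ∀ x ∈ S, g x ∈ S) (α β : Fin r → ZMod p) (h : ∀ x, ∑ j, β j * x j = ∑ j, α j * g x j) :
    TS S β = TS S α := by
  classical
  unfold TS
  have h1 : S.image g = S := by
    apply Finset.eq_of_subset_of_card_le
    · intro y hy
      obtain ⟨x, hx, rfl⟩ := Finset.mem_image.1 hy
      exact hgS x hx
    · rw [Finset.card_image_of_injective _ hg]
  nth_rewrite 2 [← h1]
  rw [Finset.sum_image (fun x _ y _ hxy => hg hxy)]
  exact Finset.sum_congr rfl fun x _ => by rw [h x]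

end

theorem le_of_sq_le_sq_aux {a b : ℝ} (hb : 0 ≤ b) (h : a ^ 2 ≤ b ^ 2) : a ≤ b := by
  by_contra hcon
  push Not at hcon
  nlinarith

theorem rec_symm (r E : ℕ) (δ : ℝ) (hδ : 0 < δ) (hδ1 : δ ≤ 1) :
    ∃ κ : ℝ, 0 < κ ∧ ∃ p₀ : ℕ, ∀ (p : ℕ) [Fact p.Prime], p₀ ≤ p →
    ∀ (S : Finset (Fin r → ZMod p)) (K : ℕ),
    (∀ α : Fin r → ZMod p, α ≠ 0 → (K : ℝ) * ‖TS S α‖ ^ 2 ≤ (p : ℝ) ^ r * S.card) →
    ∀ (M : Fin r → ℤ) (L : Fin r → ℕ), (∀ j, (p : ℝ) ^ δ ≤ L j ∧ L j ≤ p) →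
      (p : ℝ) ^ (3 * (r : ℝ) + 2 * δ) ≤ (∏ j, (L j : ℝ)) ^ 2 * (S.card * K) →
    (p : ℝ) ^ (-δ) * (S.card * ∏ j, ((L j : ℝ) / p)) ≤
      (Set.ncard {z : Fin r → ℤ | (∀ j, M j < z j ∧ z j ≤ M j + L j) ∧ (fun j => (z j : ZMod p)) ∈ S ∧
        Good r E κ δ p z} : ℝ) := by
  obtain ⟨κ, hκ, p₁, h⟩ := rec_pts r E δ hδ hδ1
  obtain ⟨p₂, h2⟩ := ev_const (δ / 8) 1 (by positivity)
  refine ⟨κ, hκ, max p₁ p₂, ?_⟩
  intro p _ hpp S K hK M L hL hV
  have hp : p.Prime := Fact.out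
  have e1 : p₁ ≤ p := (le_max_left _ _).trans hpp
  have e2 : p₂ ≤ p := (le_max_right _ _).trans hpp
  have hp0 : (0 : ℝ) < p := by exact_mod_cast hp.pos
  have hp1 : (1 : ℝ) < p := by exact_mod_cast hp.one_lt
  have hpos : (0 : ℝ) < (∏ j, (L j : ℝ)) ^ 2 * (S.card * K) := lt_of_lt_of_le (Real.rpow_pos_of_pos hp0 _) hV
  have hV0 : (0 : ℝ) ≤ ∏ j, (L j : ℝ) := Finset.prod_nonneg fun j _ => Nat.cast_nonneg _
  have hS0 : (0 : ℝ) < S.card := by
    rcases (Nat.cast_nonneg (α := ℝ) S.card).lt_or_eq with h3 | h3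
    · exact h3
    · rw [← h3] at hpos
      simp at hpos
  have hK0 : (0 : ℝ) < K := by
    rcases (Nat.cast_nonneg (α := ℝ) K).lt_or_eq with h3 | h3
    · exact h3
    · rw [← h3] at hpos
      simp at hpos
  set B : ℝ := √((p : ℝ) ^ r * S.card / K) with hB
  have hB0 : 0 < B := Real.sqrt_pos.2 (by positivity)
  set s : ℝ := Real.logb p S.card with hs
  have hps : (p : ℝ) ^ s = S.card := Real.rpow_logb hp0 hp1.ne' hS0
  set ε : ℝ := s - Real.logb p B with hε
  have hse : (p : ℝ) ^ (s - ε) = B := by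
    have : s - ε = Real.logb p B := by rw [hε]; ring
    rw [this]
    exact Real.rpow_logb hp0 hp1.ne' hB0
  have key := h p e1 s ε S (by rw [hps]; linarith) (by
    intro α hα
    have h3 := hK α hα
    have h4 : ‖TS S α‖ ≤ B := by
      apply Real.le_sqrt_of_sq_le
      rw [le_div_iff₀ hK0, mul_comm]
      exact h3
    rw [hse]
    have h5 := mul_le_mul_of_nonneg_right (h2 p e2) hB0.le
    rw [one_mul] at h5
    exact h4.trans h5) M L hL (by
      have h6 : (p : ℝ) ^ ((r : ℝ) - ε + δ) = (p : ℝ) ^ ((r : ℝ) + δ) * (B / S.card) := by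
        have h7 : (r : ℝ) - ε + δ = ((r : ℝ) + δ) + ((s - ε) - s) := by ring
        rw [h7, Real.rpow_add hp0, Real.rpow_sub hp0, hse, hps]
      rw [h6]
      refine le_of_sq_le_sq_aux hV0 ?_
      rw [mul_pow, div_pow, hB, Real.sq_sqrt (by positivity)]
      have h8 : ((p : ℝ) ^ ((r : ℝ) + δ)) ^ 2 * ((p : ℝ) ^ r * S.card / K / (S.card : ℝ) ^ 2) =
          (p : ℝ) ^ (3 * (r : ℝ) + 2 * δ) / (S.card * K) := by
        rw [← Real.rpow_natCast _ 2, ← Real.rpow_mul hp0.le, ← Real.rpow_natCast _ r]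
        have h9 : (p : ℝ) ^ (3 * (r : ℝ) + 2 * δ) = (p : ℝ) ^ (((r : ℝ) + δ) * (2 : ℕ)) * (p : ℝ) ^ (r : ℝ) := by
          rw [← Real.rpow_add hp0]
          congr 1
          push_cast
          ring
        rw [h9]
        field_simp
      rw [h8, div_le_iff₀ (by positivity)]
      exact hV)
  rw [hps] at key
  exact key

end Run7.h914
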