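import Pool.Agent.Run7.h914.Orb

/-! Record gaps at the coordinates of unions of cosets of multiplicative subgroups of finite fields. -/

set_option autoImplicit false
set_option linter.all false

namespace Run7.h914

open Finset Filter
open Pool.Agent.W147.PS (ff)

section
variable {p : ℕ} [Fact p.Prime] {r : ℕ} {K : Type} [Field K] [Fintype K] [Algebra (ZMod p) K]

open scoped Classical in
theorem field_bound (b : Module.Basis (Fin r) (ZMod p) K) (H : Subgroup Kˣ) (S₀ : Finset K)
    (hS : ∀ h ∈ H, ∀ x ∈ S₀, (h : K) * x ∈ S₀) (α : Fin r → ZMod p) (hα : α ≠ 0) :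
    (Nat.card H : ℝ) * ‖TS (S₀.image b.equivFun) α‖ ^ 2 ≤ (p : ℝ) ^ r * (S₀.image b.equivFun).card := by
  set e := b.equivFun with he
  -- the functionals
  set lam : K → ZMod p := fun y => ∑ j, α j * e y j with hlam
  have hadd : ∀ y z, lam (y - z) = lam y - lam z := by
    intro y z
    simp only [hlam, map_sub, Pi.sub_apply, mul_sub, Finset.sum_sub_distrib]
  set β : H → (Fin r → ZMod p) := fun h j => lam ((h : Kˣ) * b j) with hβ
  have hβx : ∀ (h : H) (x : Fin r → ZMod p), ∑ j, β h j * x j = ∑ j, α j * e (((h : Kˣ) : K) * e.symm x) j := by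
    intro h x
    have h1 : e.symm x = ∑ i, x i • b i := by rw [he, Module.Basis.equivFun_symm_apply]
    have h2 : ((h : Kˣ) : K) * e.symm x = ∑ i, x i • (((h : Kˣ) : K) * b i) := by
      rw [h1, Finset.mul_sum]
      refine Finset.sum_congr rfl fun i _ => ?_
      rw [mul_smul_comm]
    rw [h2, map_sum]
    simp only [map_smul, Finset.sum_apply, Pi.smul_apply, smul_eq_mul, Finset.mul_sum, hβ, hlam, Finset.sum_mul]
    rw [Finset.sum_comm]
    refine Finset.sum_congr rfl fun j _ => Finset.sum_congr rfl fun i _ => ?_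
    ring
  have hinj : Function.Injective β := by
    intro h h' hh
    by_contra hne
    apply hα
    have h1 : (((h : Kˣ) : K) - ((h' : Kˣ) : K)) ≠ 0 := by
      intro h0
      apply hne
      apply Subtype.ext
      exact Units.ext (sub_eq_zero.1 h0)
    have h2 : ∀ y : K, lam y = 0 := by
      intro y
      have h3 : y = ((h : Kˣ) : K) * e.symm (e (y / (((h : Kˣ) : K) - ((h' : Kˣ) : K)))) -
          ((h' : Kˣ) : K) * e.symm (e (y / (((h : Kˣ) : K) - ((h' : Kˣ) : K)))) := by
        rw [LinearEquiv.symm_apply_apply]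
        field_simp
      rw [h3, hadd]
      have h4 := hβx h (e (y / (((h : Kˣ) : K) - ((h' : Kˣ) : K))))
      have h5 := hβx h' (e (y / (((h : Kˣ) : K) - ((h' : Kˣ) : K))))
      rw [hh] at h4
      have h6 := h4.symm.trans h5
      show (∑ j, α j * e _ j) - (∑ j, α j * e _ j) = 0
      rw [h6, sub_self]
    funext j
    have h3 := h2 (b j)
    simp only [hlam, he, Module.Basis.equivFun_self, Pi.single_apply, mul_ite, mul_one, mul_zero] at h3
    rw [Finset.sum_ite_eq] at h3
    simpa using h3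
  haveI : Fintype H := Fintype.ofFinite H
  have h7 := TS_small (S₀.image e) α (univ.image β) (by
    intro γ hγ
    obtain ⟨h, -, rfl⟩ := Finset.mem_image.1 hγ
    refine TS_symm (S₀.image e) (fun x => e (((h : Kˣ) : K) * e.symm x)) ?_ ?_ α (β h) (hβx h)
    · intro x y hxy
      have h8 := e.injective hxy
      exact e.symm.injective (mul_left_cancel₀ (Units.ne_zero _) h8)
    · intro x hx
      obtain ⟨y, hy, rfl⟩ := Finset.mem_image.1 hx
      simp only [LinearEquiv.symm_apply_apply]
      exact Finset.mem_image_of_mem _ (hS h h.2 y hy))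
  rw [Finset.card_image_of_injective _ hinj, Finset.card_univ] at h7
  rw [Nat.card_eq_fintype_card]
  exact h7

/-- the number of the elements of norm one -/
theorem card_norm_one (b : Module.Basis (Fin r) (ZMod p) K) (hr : 1 ≤ r) :
    p ^ (r - 1) ≤ Nat.card (Units.map (Algebra.norm (ZMod p) : K →* ZMod p)).ker := by
  classical
  have hp : p.Prime := Fact.out
  haveI : Module.Finite (ZMod p) K := Module.Finite.of_basis b
  have hcard : Fintype.card K = p ^ r := by
    rw [Module.card_fintype b, ZMod.card, Fintype.card_fin]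
  set f := Units.map (Algebra.norm (ZMod p) : K →* ZMod p) with hf
  have hsurj : Function.Surjective f := FiniteField.unitsMap_norm_surjective (ZMod p) K
  have h1 : Nat.card f.ker * f.ker.index = Nat.card Kˣ := Subgroup.card_mul_index f.ker
  have h2 : f.ker.index = p - 1 := by
    rw [Subgroup.index_ker, MonoidHom.range_eq_top.2 hsurj, Subgroup.card_top, Nat.card_eq_fintype_card,
      ZMod.card_units_eq_totient, Nat.totient_prime hp]
  have h3 : Nat.card Kˣ = p ^ r - 1 := by
    rw [Nat.card_eq_fintype_card, Fintype.card_units, hcard]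
  rw [h2, h3] at h1
  set N := Nat.card f.ker
  by_contra hcon
  push Not at hcon
  have h4 : N * (p - 1) ≤ (p ^ (r - 1) - 1) * (p - 1) := Nat.mul_le_mul_right _ (by omega)
  have h5 : p ^ r = p ^ (r - 1) * p := by
    rw [← pow_succ]
    congr 1
    omega
  have h6 : 1 ≤ p ^ (r - 1) := Nat.one_le_pow _ _ hp.pos
  obtain ⟨q, hq⟩ : ∃ q, p = q + 1 := ⟨p - 1, by have := hp.pos; omega⟩
  obtain ⟨A, hA⟩ : ∃ A, p ^ (r - 1) = A + 1 := ⟨p ^ (r - 1) - 1, by omega⟩
  rw [h1, h5, hA] at h4
  have h7 : p - 1 = q := by omega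
  rw [h7] at h4
  have h8 : (A + 1) * p = (A + 1) * q + (A + 1) := by rw [hq]; ring
  rw [h8] at h4
  have h9 : (A + 1 - 1) * q = A * q := by rw [Nat.add_sub_cancel]
  rw [h9] at h4
  have h10 : (A + 1) * q = A * q + q := by ring
  rw [h10] at h4
  have h11 := hp.one_lt
  omega

open scoped Classical in
/-- the number of the elements of given norm -/
theorem card_norm (b : Module.Basis (Fin r) (ZMod p) K) (hr : 1 ≤ r) (c : ZMod p) (hc : c ≠ 0) :
    p ^ (r - 1) ≤ (univ.filter (fun x : K => Algebra.norm (ZMod p) x = c)).card := by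
  haveI : Module.Finite (ZMod p) K := Module.Finite.of_basis b
  refine (card_norm_one b hr).trans ?_
  obtain ⟨x₀, hx₀⟩ := FiniteField.norm_surjective (ZMod p) K c
  have hx0 : x₀ ≠ 0 := by
    rintro rfl
    rw [Algebra.norm_zero] at hx₀
    exact hc hx₀.symm
  rw [← Set.ncard_coe_finset, ← Nat.card_coe_set_eq]
  haveI : Finite ↥((univ.filter (fun x : K => Algebra.norm (ZMod p) x = c) : Finset K) : Set K) := Subtype.finite
  refine Nat.card_le_card_of_injective (fun u => ⟨((u : Kˣ) : K) * x₀, ?_⟩) ?_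
  · rw [Finset.mem_coe, Finset.mem_filter]
    refine ⟨mem_univ _, ?_⟩
    have h1 : Algebra.norm (ZMod p) ((u : Kˣ) : K) = 1 := by
      have := u.2
      rw [MonoidHom.mem_ker] at this
      have h2 := congrArg Units.val this
      simpa using h2
    rw [map_mul, h1, one_mul, hx₀]
  · intro u v huv
    have h1 := congrArg Subtype.val huv
    have h2 := mul_right_cancel₀ hx0 h1
    exact Subtype.ext (Units.ext h2)

end

open scoped Classical in
theorem rec_cosets (r E : ℕ) (δ : ℝ) (hδ : 0 < δ) (hδ1 : δ ≤ 1) :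
    ∃ κ : ℝ, 0 < κ ∧ ∃ p₀ : ℕ, ∀ (p : ℕ) [Fact p.Prime], p₀ ≤ p →
    ∀ (K : Type) [Field K] [Fintype K] [Algebra (ZMod p) K] (b : Module.Basis (Fin r) (ZMod p) K)
      (H : Subgroup Kˣ) (S : Finset K), (∀ h ∈ H, ∀ x ∈ S, (h : K) * x ∈ S) →
    ∀ (M : Fin r → ℤ) (L : Fin r → ℕ), (∀ j, (p : ℝ) ^ δ ≤ L j ∧ L j ≤ p) →
      (p : ℝ) ^ (3 * (r : ℝ) + 2 * δ) ≤ (∏ j, (L j : ℝ)) ^ 2 * (S.card * Nat.card H) →
    (p : ℝ) ^ (-δ) * (S.card * ∏ j, ((L j : ℝ) / p)) ≤
      (Set.ncard {z : Fin r → ℤ | (∀ j, M j < z j ∧ z j ≤ M j + L j) ∧ ∑ j, (z j : ZMod p) • b j ∈ S ∧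
        Good r E κ δ p z} : ℝ) := by
  obtain ⟨κ, hκ, p₀, h⟩ := rec_symm r E δ hδ hδ1
  refine ⟨κ, hκ, p₀, ?_⟩
  intro p _ hpp K _ _ _ b H S hS M L hL hV
  have hc : (S.image b.equivFun).card = S.card := Finset.card_image_of_injective _ b.equivFun.injective
  have key := h p hpp (S.image b.equivFun) (Nat.card H) (fun α hα => field_bound b H S hS α hα) M L hL (by
    rw [hc]; exact hV)
  rw [hc] at key
  refine key.trans (le_of_eq ?_)
  congr 2
  ext z
  simp only [Set.mem_setOf_eq]
  have h1 : (fun j => (z j : ZMod p)) ∈ S.image b.equivFun ↔ ∑ j, (z j : ZMod p) • b j ∈ S := by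
    rw [← Module.Basis.equivFun_symm_apply b (fun j => (z j : ZMod p))]
    constructor
    · intro h2
      obtain ⟨x, hx, hx2⟩ := Finset.mem_image.1 h2
      rw [← hx2, LinearEquiv.symm_apply_apply]
      exact hx
    · intro h2
      exact Finset.mem_image.2 ⟨_, h2, LinearEquiv.apply_symm_apply _ _⟩
  rw [h1]

end Run7.h914
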