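import Pool.Agent.Run7.h914.Irr
import Pool.Agent.Run7.h914.Log

/-! Sums over the points of a plane curve and sums over places. -/

set_option autoImplicit false
set_option linter.all false
set_option linter.overlappingInstances false

open Module FF Pool.Agent.H525R3.FFp Pool.Agent.W132.AG Pool.Agent.W493.MX Pool.Agent.W343.BSD Polynomial
open IsDedekindDomain Pool.Agent.R410.PW

namespace Run7.h914

section
variable {F L k : Type} [Field F] [Finite F] [Field L] [Algebra F L] [Algebra (RatFunc F) L]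
  [IsScalarTower F (RatFunc F) L] [FiniteDimensional (RatFunc F) L] [Algebra.IsSeparable (RatFunc F) L]
  [IsFF F L] [Field k] [IsAlgClosed k] [Algebra F k] [Algebra.IsAlgebraic F k] [Algebra F[X] L]
  [IsScalarTower F[X] (RatFunc F) L] [IsScalarTower F F[X] L]

/-- the weight of a point over an extension of degree `m` -/
noncomputable def wt {F k : Type} [Field F] [Field k] [Algebra F k] (ψ : AddChar F ℂ) (m : ℕ) (z : k) : ℂ :=
  ψ (Function.invFun (algebraMap F k) (∑ i ∈ Finset.range m, z ^ (Nat.card F ^ i)))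

theorem wt_of {F k : Type} [Field F] [Field k] [Algebra F k] (ψ : AddChar F ℂ) (m : ℕ) {z : k} {a : F}
    (h : ∑ i ∈ Finset.range m, z ^ (Nat.card F ^ i) = algebraMap F k a) : wt ψ m z = ψ a := by
  unfold wt
  rw [h, Function.leftInverse_invFun (algebraMap F k).injective a]

theorem trace_sum (w : Place F L) {m : ℕ} (hm : w.deg ∣ m) (ζ : w.RF) :
    ∑ i ∈ Finset.range m, ζ ^ (Nat.card F ^ i) = algebraMap F w.RF ((m / w.deg) • Algebra.trace F w.RF ζ) := by
  classical
  haveI : Finite w.RF := Module.finite_of_finite F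
  haveI := Fintype.ofFinite F
  haveI := Fintype.ofFinite w.RF
  obtain ⟨j, rfl⟩ := hm
  have hd := deg_pos w
  rw [Nat.mul_div_cancel_left _ hd]
  have hfix : ∀ (z : w.RF) (i : ℕ), z ^ (Nat.card F ^ (w.deg * i)) = z := fun z i =>
    (dvd_iff_fix w (w.deg * i)).2 (dvd_mul_right _ _) z
  induction j with
  | zero => simp
  | succ j ih =>
    rw [Nat.mul_succ, Finset.sum_range_add, ih, add_smul, one_smul, map_add]
    congr 1
    rw [FiniteField.algebraMap_trace_eq_sum_pow]
    have h1 : ∀ i, ζ ^ Nat.card F ^ (w.deg * j + i) = ζ ^ Nat.card F ^ i := by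
      intro i
      rw [pow_add, pow_mul, hfix]
    rw [Finset.sum_congr rfl fun i _ => h1 i]
    simp only [Nat.card_eq_fintype_card]
    rfl

theorem wt_place (ψ : AddChar F ℂ) (w : Place F L) {m : ℕ} (hm : w.deg ∣ m) (φ : w.RF →ₐ[F] k) (ζ : w.RF) :
    wt ψ m (φ ζ) = ψ (Algebra.trace F w.RF ζ) ^ (m / w.deg) := by
  have h1 : ∑ i ∈ Finset.range m, (φ ζ) ^ (Nat.card F ^ i) = algebraMap F k ((m / w.deg) • Algebra.trace F w.RF ζ) := by
    have h2 := congrArg φ (trace_sum w hm ζ)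
    rw [map_sum, φ.commutes] at h2
    rw [← h2]
    exact Finset.sum_congr rfl fun i _ => (map_pow φ ζ _).symm
  rw [wt_of ψ m h1, AddChar.map_nsmul_eq_pow]

theorem good_sum {f A B : F[X][X]} {D : F[X]} (hf : f.Monic) (hAB : A * f + B * derivative f = C D)
    {y : L} (hy : (f.map (cEh F L)).eval y = 0)
    (hmin : minpoly (RatFunc F) y = f.map (algebraMap F[X] (RatFunc F)))
    (hfin : finrank (RatFunc F) L = f.natDegree) {m : ℕ} (hm : 1 ≤ m) (Wm : Finset (Place F L))
    (hWm : ∀ w, w ∈ Wm ↔ Gd D w ∧ w.deg ∣ m) (Z : Finset (k × k))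
    (hZ : ∀ z, z ∈ Z ↔ z ∈ Pt (f.map (mapRingHom (algebraMap F k))) (Nat.card F ^ m) ∧ aeval z.1 D ≠ 0)
    (G : k × k → ℂ) (Gw : Place F L → ℂ)
    (hG : ∀ w ∈ Wm, ∀ φ : w.RF →ₐ[F] k, G (φ (w.red (cEh F L X)), φ (w.red y)) = Gw w) :
    ∑ z ∈ Z, G z = ∑ w ∈ Wm, (w.deg : ℂ) * Gw w := by
  classical
  haveI hfinA : ∀ w : Place F L, Finite (w.RF →ₐ[F] k) := fun w => Finite.algHom F w.RF k
  haveI : ∀ w : Place F L, Fintype (w.RF →ₐ[F] k) := fun w => Fintype.ofFinite _
  obtain ⟨fr, hfr⟩ := exists_frob F k m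
  set fk := f.map (mapRingHom (algebraMap F k)) with hfk
  let S : Finset (Σ w : Place F L, (w.RF →ₐ[F] k)) := Wm.sigma (fun w => Finset.univ)
  let pt : (Σ w : Place F L, (w.RF →ₐ[F] k)) → k × k := fun t => (px t, t.2 (t.1.red y))
  have hgood : ∀ t : (Σ w : Place F L, (w.RF →ₐ[F] k)), t.1.Reg (cEh F L X) →
      aeval (px t) D = t.2 (aeval (t.1.red (cEh F L X)) D) := by
    intro t ht
    rw [← Polynomial.aeval_algHom_apply]
    rfl
  have hSsum : ∑ t ∈ S, G (pt t) = ∑ w ∈ Wm, (w.deg : ℂ) * Gw w := by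
    rw [Finset.sum_sigma]
    refine Finset.sum_congr rfl fun w hw => ?_
    have hG' : ∀ φ : w.RF →ₐ[F] k, G (pt ⟨w, φ⟩) = Gw w := fun φ => hG w hw φ
    rw [Finset.sum_congr rfl fun φ _ => hG' φ, Finset.sum_const, Finset.card_univ, nsmul_eq_mul,
      ← Nat.card_eq_fintype_card, AlgHom.natCard_of_splits F w.RF k (fun x => IsAlgClosed.splits _)]
    rfl
  have hinj : Set.InjOn pt S := by
    rintro t ht t' ht' h
    simp only [S, Finset.coe_sigma, Finset.mem_coe, Finset.coe_univ] at ht ht'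
    have h1 : t.1 ∈ Wm := ht.1
    have h1' : t'.1 ∈ Wm := ht'.1
    rw [hWm] at h1 h1'
    simp only [pt, Prod.mk.injEq] at h
    refine inj_point hf hAB hy hmin hfin (px t) ?_ ⟨h1.1.1, rfl⟩ ⟨h1'.1.1, h.1.symm⟩ h.2
    rw [hgood t h1.1.1]
    exact (_root_.map_ne_zero t.2).2 h1.1.2
  rw [← hSsum, ← Finset.sum_image (f := G) hinj]
  congr 1
  ext ⟨c, b⟩
  rw [hZ]
  simp only [Finset.mem_image, S, Finset.mem_sigma,
      Finset.mem_univ, and_true, pt, Prod.mk.injEq]
  constructor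
  · rintro ⟨⟨h1, h2, h3⟩, h4⟩
    obtain ⟨t, ht, htb⟩ := exists_point hf hy hmin c b h3
    have htc : px t = c := ht.2
    let t' : (Σ w : Place F L, (w.RF →ₐ[F] k)) := ⟨t.1, fr.comp t.2⟩
    have ht' : t' ∈ Tc (F := F) L c := by
      refine ⟨ht.1, ?_⟩
      change fr (px t) = c
      rw [htc, hfr]
      exact h1
    have heq : t = t' := by
      refine inj_point hf hAB hy hmin hfin c h4 ht ht' ?_
      change t.2 (t.1.red y) = fr (t.2 (t.1.red y))
      rw [htb, hfr]
      exact h2.symm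
    have hφ : t.2 = fr.comp t.2 := by
      rw [Sigma.ext_iff] at heq
      exact eq_of_heq heq.2
    refine ⟨t, ?_, htc, htb⟩
    rw [hWm]
    refine ⟨⟨ht.1, ?_⟩, ?_⟩
    · intro h0
      apply h4
      change aeval c D = 0
      rw [← htc, hgood t ht.1, h0, map_zero]
    · rw [← dvd_iff_fix]
      intro z
      apply (t.2 : t.1.RF →+* k).injective
      change t.2 _ = t.2 _
      have h5 := DFunLike.congr_fun hφ z
      rw [AlgHom.comp_apply, hfr] at h5
      rw [map_pow, ← h5]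
  · rintro ⟨t, ht, rfl, rfl⟩
    rw [hWm] at ht
    obtain ⟨⟨h1, h2⟩, h3⟩ := ht
    have h4 := (dvd_iff_fix t.1 m).2 h3
    refine ⟨⟨?_, ?_, curve_eq hf hy h1 t.2⟩, ?_⟩
    · change (t.2 _) ^ _ = t.2 _
      rw [← map_pow, h4]
    · change (t.2 _) ^ _ = t.2 _
      rw [← map_pow, h4]
    · change aeval (px t) D ≠ 0
      rw [hgood t h1]
      exact (_root_.map_ne_zero t.2).2 h2

/-- the linear form -/
noncomputable def uf (F : Type) {L : Type} [Field F] [Field L] [Algebra F L] [Algebra (RatFunc F) L] (h l : F) (y : L) : L :=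
  algebraMap F L h * cEh F L X + algebraMap F L l * y

theorem red_uf {f : F[X][X]} (hf : f.Monic) {y : L} (hy : (f.map (cEh F L)).eval y = 0) (h l : F) {w : Place F L}
    (hw : w.Reg (cEh F L X)) : w.Reg (uf F h l y) ∧
      w.red (uf F h l y) = algebraMap F w.RF h * w.red (cEh F L X) + algebraMap F w.RF l * w.red y := by
  have hyr := reg_y hf hy hw
  have h1 := w.reg_mul (w.reg_const h) hw
  have h2 := w.reg_mul (w.reg_const l) hyr
  unfold uf
  refine ⟨w.reg_add h1 h2, ?_⟩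
  rw [w.red_add h1 h2, w.red_mul (w.reg_const h) hw, w.red_mul (w.reg_const l) hyr]
  rfl

theorem norm_wt {F k : Type} [Field F] [Finite F] [Field k] [Algebra F k] (ψ : AddChar F ℂ) (m : ℕ) (z : k) : ‖wt ψ m z‖ = 1 := by
  haveI := Fintype.ofFinite F
  exact AddChar.norm_apply ψ _

theorem compare_sum {f A B : F[X][X]} {D : F[X]} (hf : f.Monic) (hAB : A * f + B * derivative f = C D)
    (hD : D ≠ 0) {δ : ℕ} (hδ : D.natDegree ≤ δ) {y : L} (hy : (f.map (cEh F L)).eval y = 0)
    (hmin : minpoly (RatFunc F) y = f.map (algebraMap F[X] (RatFunc F)))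
    (hfin : finrank (RatFunc F) L = f.natDegree) (ψ : AddChar F ℂ) (h l : F) {m : ℕ} (hm : 1 ≤ m)
    {p e : ℕ} [Fact p.Prime] [CharP k p] (he : 0 < e) (hq : Nat.card F = p ^ e)
    (Z : Finset (k × k)) (hZ : ∀ z, z ∈ Z ↔ z ∈ Pt (f.map (mapRingHom (algebraMap F k))) (Nat.card F ^ m)) :
    ‖SC (aG ψ (uf F h l y)) (dG F (uf F h l y)) (fun n => fin_Gp (uf F h l y) n) m -
      ∑ z ∈ Z, wt ψ m (algebraMap F k h * z.1 + algebraMap F k l * z.2)‖ ≤
      (δ * f.natDegree + (f.natDegree + δ * f.natDegree) : ℕ) := by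
  classical
  set u := uf F h l y with hu
  have hQ : Nat.card F ^ m = p ^ (e * m) := by rw [hq, ← pow_mul]
  have hN : e * m ≠ 0 := Nat.mul_ne_zero (by omega) (by omega)
  set W := (Pool.Agent.H107R3.ZT.places_finite (k := F) (F := L) m).toFinset.filter (fun v => v.deg ∣ m) with hW
  have hWmem : ∀ w : Place F L, w ∈ W ↔ w.deg ∣ m := by
    intro w
    rw [hW, Finset.mem_filter, Set.Finite.mem_toFinset]
    exact ⟨fun h => h.2, fun h => ⟨Nat.le_of_dvd (by omega) h, h⟩⟩
  let Gw : Place F L → ℂ := fun w => ψ (tP u w) ^ (m / w.deg)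
  -- the sum over places
  have e1 : SC (aG ψ u) (dG F u) (fun n => fin_Gp u n) m = ∑ w ∈ W.filter (fun w => 0 ≤ w.ord u), (w.deg : ℂ) * Gw w := by
    unfold SC
    refine Finset.sum_bij (fun v _ => v.1) ?_ ?_ ?_ ?_
    · intro v hv
      rw [Finset.mem_filter, Set.Finite.mem_toFinset] at hv
      rw [Finset.mem_filter, hWmem]
      exact ⟨hv.2, v.2⟩
    · intro v _ v' _ h
      exact Subtype.ext h
    · intro w hw
      rw [Finset.mem_filter, hWmem] at hw
      refine ⟨⟨w, hw.2⟩, ?_, rfl⟩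
      rw [Finset.mem_filter, Set.Finite.mem_toFinset]
      exact ⟨Nat.le_of_dvd (by omega) hw.1, hw.1⟩
    · intro v _
      rfl
  have hGd : ∀ w : Place F L, Gd D w → 0 ≤ w.ord u := by
    intro w hw
    rcases (red_uf hf hy h l hw.1).1 with h1 | h1
    · rw [hu, h1, w.ord_zero]
    · exact h1
  have e2 : ∑ w ∈ W.filter (fun w => 0 ≤ w.ord u), (w.deg : ℂ) * Gw w =
      ∑ w ∈ W.filter (fun w => Gd D w), (w.deg : ℂ) * Gw w +
      ∑ w ∈ (W.filter (fun w => 0 ≤ w.ord u)).filter (fun w => ¬ Gd D w), (w.deg : ℂ) * Gw w := by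
    rw [← Finset.sum_filter_add_sum_filter_not (W.filter (fun w => 0 ≤ w.ord u)) (fun w => Gd D w)]
    congr 1
    apply Finset.sum_congr _ (fun _ _ => rfl)
    ext w
    simp only [Finset.mem_filter]
    constructor
    · rintro ⟨⟨h1, h2⟩, h3⟩; exact ⟨h1, h3⟩
    · rintro ⟨h1, h3⟩; exact ⟨⟨h1, hGd w h3⟩, h3⟩
  -- the good points
  have e3 := good_sum (k := k) hf hAB hy hmin hfin hm (W.filter (fun w => Gd D w)) (by
      intro w
      rw [Finset.mem_filter, hWmem]
      tauto) (Z.filter (fun z => aeval z.1 D ≠ 0)) (by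
      intro z
      rw [Finset.mem_filter, hZ]) (fun z => wt ψ m (algebraMap F k h * z.1 + algebraMap F k l * z.2)) Gw (by
      intro w hw φ
      rw [Finset.mem_filter, hWmem] at hw
      have h1 := (red_uf hf hy h l hw.2.1).2
      have h2 : algebraMap F k h * φ (w.red (cEh F L X)) + algebraMap F k l * φ (w.red y) = φ (w.red u) := by
        rw [hu, h1, map_add, map_mul, map_mul, φ.commutes, φ.commutes]
      simp only
      rw [h2, wt_place ψ w hw.1]
      rfl)
  have e4 := Finset.sum_filter_add_sum_filter_not Z (fun z => aeval z.1 D ≠ 0)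
    (fun z => wt ψ m (algebraMap F k h * z.1 + algebraMap F k l * z.2))
  -- the bad places
  have b1 : ‖∑ w ∈ (W.filter (fun w => 0 ≤ w.ord u)).filter (fun w => ¬ Gd D w), (w.deg : ℂ) * Gw w‖ ≤
      (f.natDegree + δ * f.natDegree : ℕ) := by
    refine (norm_sum_le _ _).trans ?_
    have h1 : ∀ w ∈ (W.filter (fun w => 0 ≤ w.ord u)).filter (fun w => ¬ Gd D w), ‖(w.deg : ℂ) * Gw w‖ ≤ (w.deg : ℝ) := by
      intro w _
      haveI := Fintype.ofFinite F
      rw [norm_mul, norm_pow, AddChar.norm_apply, one_pow, mul_one, Complex.norm_natCast]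
    refine (Finset.sum_le_sum h1).trans ?_
    have h2 := bad_places hD hδ ((W.filter (fun w => 0 ≤ w.ord u)).filter (fun w => ¬ Gd D w))
      (fun w hw => (Finset.mem_filter.1 hw).2)
    rw [hfin] at h2
    exact_mod_cast h2
  -- the bad points
  have b2 : ‖∑ z ∈ Z.filter (fun z => ¬ aeval z.1 D ≠ 0), wt ψ m (algebraMap F k h * z.1 + algebraMap F k l * z.2)‖ ≤
      (δ * f.natDegree : ℕ) := by
    refine (norm_sum_le _ _).trans ?_
    rw [Finset.sum_congr rfl fun z _ => norm_wt ψ m _, Finset.sum_const, nsmul_eq_mul, mul_one]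
    have h1 := bad_points (k := k) hf hD hδ (p := p) hN
    rw [← hQ] at h1
    have h2 : Pt (f.map (mapRingHom (algebraMap F k))) (Nat.card F ^ m) = ↑Z := by
      ext z; rw [Finset.mem_coe, hZ]
    have h3 : {z ∈ Pt (f.map (mapRingHom (algebraMap F k))) (Nat.card F ^ m) | aeval z.1 D ≠ 0} =
        ↑(Z.filter (fun z => aeval z.1 D ≠ 0)) := by
      ext z
      rw [Finset.coe_filter, Set.mem_setOf_eq, Set.mem_setOf_eq, hZ]
    rw [h3, h2, Set.ncard_coe_finset, Set.ncard_coe_finset] at h1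
    have h4 := Finset.card_filter_add_card_filter_not (s := Z) (fun z => aeval z.1 D ≠ 0)
    have h5 : (Z.filter (fun z => ¬ aeval z.1 D ≠ 0)).card ≤ δ * f.natDegree := by omega
    exact_mod_cast h5
  rw [e1, e2, ← e4, e3]
  have e5 : ∀ a b c : ℂ, a + b - (a + c) = b - c := fun a b c => by ring
  rw [e5]
  refine (norm_sub_le _ _).trans ?_
  push_cast at b1 b2 ⊢
  linarith

end

end Run7.h914
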