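import Pool.Agent.Run7.h914.Rgen
import Pool.Agent.Run7.h914.Crv

/-! Exponential sums over quadrics modulo `p`. -/

set_option autoImplicit false
set_option linter.all false

namespace Run7.h914

open Finset Polynomial Matrix

section
variable {p : ℕ} [Fact p.Prime] {n : ℕ}

theorem psi_sum {ι : Type*} (s : Finset ι) (g : ι → ZMod p) : (ZMod.stdAddChar (N := p)) (∑ i ∈ s, g i) = ∏ i ∈ s, (ZMod.stdAddChar (N := p)) (g i) := by
  classical
  induction s using Finset.induction_on with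
  | empty => rw [Finset.sum_empty, Finset.prod_empty, AddChar.map_zero_eq_one]
  | insert a s ha ih => rw [Finset.sum_insert ha, Finset.prod_insert ha, AddChar.map_add_eq_mul, ih]

theorem psi_norm (a : ZMod p) : ‖(ZMod.stdAddChar (N := p)) a‖ = 1 := AddChar.norm_apply (ZMod.stdAddChar (N := p)) a

/-- orthogonality in one variable -/
theorem one_sum (c : ZMod p) : ∑ y : ZMod p, (ZMod.stdAddChar (N := p)) (c * y) = if c = 0 then (p : ℂ) else 0 := by
  have h := AddChar.sum_mulShift c (ZMod.isPrimitive_stdAddChar p)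
  simp_rw [mul_comm _ c] at h
  rw [h, ZMod.card]
  split_ifs <;> simp

/-- orthogonality for vectors -/
theorem vec_sum (c : Fin n → ZMod p) :
    ∑ y : Fin n → ZMod p, (ZMod.stdAddChar (N := p)) (∑ j, c j * y j) = if c = 0 then (p : ℂ) ^ n else 0 := by
  classical
  have h1 : ∀ y : Fin n → ZMod p, (ZMod.stdAddChar (N := p)) (∑ j, c j * y j) = ∏ j, (ZMod.stdAddChar (N := p)) (c j * y j) := fun y =>
    psi_sum _ _
  simp_rw [h1]
  have h2 : ∑ y : Fin n → ZMod p, ∏ j, (ZMod.stdAddChar (N := p)) (c j * y j) = ∏ j, ∑ y : ZMod p, (ZMod.stdAddChar (N := p)) (c j * y) :=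
    (Fintype.prod_sum (fun j y => (ZMod.stdAddChar (N := p)) (c j * y))).symm
  rw [h2]
  simp_rw [one_sum]
  split_ifs with h
  · subst h
    simp
  · obtain ⟨j, hj⟩ : ∃ j, c j ≠ 0 := by
      by_contra hcon
      push Not at hcon
      exact h (funext hcon)
    exact prod_eq_zero (mem_univ j) (by rw [if_neg hj])

/-- the quadratic form -/
def qf (A : Matrix (Fin n) (Fin n) (ZMod p)) (x : Fin n → ZMod p) : ZMod p := x ⬝ᵥ A *ᵥ x

theorem qf_add {A : Matrix (Fin n) (Fin n) (ZMod p)} (hA : A.IsSymm) (x y : Fin n → ZMod p) :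
    qf A (x + y) = qf A x + qf A y + 2 * ((A *ᵥ y) ⬝ᵥ x) := by
  unfold qf
  rw [mulVec_add, add_dotProduct, dotProduct_add, dotProduct_add]
  have h1 : y ⬝ᵥ A *ᵥ x = x ⬝ᵥ A *ᵥ y := by
    rw [dotProduct_mulVec, ← mulVec_transpose, hA.eq, dotProduct_comm]
  rw [h1, dotProduct_comm (A *ᵥ y) x]
  ring

theorem qf_smul (A : Matrix (Fin n) (Fin n) (ZMod p)) (s : ZMod p) (x : Fin n → ZMod p) :
    qf A (s • x) = s ^ 2 * qf A x := by
  unfold qf
  rw [mulVec_smul, smul_dotProduct, dotProduct_smul, smul_eq_mul, smul_eq_mul]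
  ring

/-- the Gauss sum -/
noncomputable def GS (A : Matrix (Fin n) (Fin n) (ZMod p)) (t : ZMod p) : ℂ :=
  ∑ x : Fin n → ZMod p, ZMod.stdAddChar (N := p) (t * qf A x)

theorem GS_sq (A : Matrix (Fin n) (Fin n) (ZMod p)) (t : ZMod p) {s : ZMod p} (hs : s ≠ 0) :
    GS A (t * s ^ 2) = GS A t := by
  unfold GS
  have h1 : ∀ x : Fin n → ZMod p, (ZMod.stdAddChar (N := p)) (t * s ^ 2 * qf A x) = (ZMod.stdAddChar (N := p)) (t * qf A (s • x)) := by
    intro x
    rw [qf_smul]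
    congr 1
    ring
  simp_rw [h1]
  exact Fintype.sum_equiv (MulAction.toPerm (Units.mk0 s hs)) _ _ (fun x => rfl)

theorem two_ne (hp2 : p ≠ 2) : (2 : ZMod p) ≠ 0 := by
  have hp : p.Prime := Fact.out
  intro h
  have h1 : ((2 : ℕ) : ZMod p) = 0 := by exact_mod_cast h
  rw [ZMod.natCast_eq_zero_iff] at h1
  exact hp2 ((Nat.prime_dvd_prime_iff_eq hp Nat.prime_two).1 h1)

theorem GS_norm {A : Matrix (Fin n) (Fin n) (ZMod p)} (hA : A.IsSymm) (hd : A.det ≠ 0) (hp2 : p ≠ 2)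
    {t : ZMod p} (ht : t ≠ 0) : ‖GS A t‖ = √(p : ℝ) ^ n := by
  have h1 : GS A t * (starRingEnd ℂ) (GS A t) = (p : ℂ) ^ n := by
    unfold GS
    rw [map_sum, Finset.sum_mul_sum]
    have h2 : ∀ x y : Fin n → ZMod p, (ZMod.stdAddChar (N := p)) (t * qf A x) * (starRingEnd ℂ) ((ZMod.stdAddChar (N := p)) (t * qf A y)) =
        (ZMod.stdAddChar (N := p)) (t * (qf A x - qf A y)) := by
      intro x y
      rw [← AddChar.map_neg_eq_conj, ← AddChar.map_add_eq_mul]
      congr 1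
      ring
    simp_rw [h2]
    rw [Finset.sum_comm]
    have h3 : ∀ y : Fin n → ZMod p, ∑ x : Fin n → ZMod p, (ZMod.stdAddChar (N := p)) (t * (qf A x - qf A y)) =
        ∑ z : Fin n → ZMod p, (ZMod.stdAddChar (N := p)) (t * (qf A (y + z) - qf A y)) := by
      intro y
      exact (Fintype.sum_equiv (Equiv.addLeft y) _ _ (fun z => rfl)).symm
    simp_rw [h3]
    rw [Finset.sum_comm]
    have h4 : ∀ z : Fin n → ZMod p, ∑ y : Fin n → ZMod p, (ZMod.stdAddChar (N := p)) (t * (qf A (y + z) - qf A y)) =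
        (ZMod.stdAddChar (N := p)) (t * qf A z) * ∑ y : Fin n → ZMod p, (ZMod.stdAddChar (N := p)) (∑ j, ((2 * t) • (A *ᵥ z)) j * y j) := by
      intro z
      rw [Finset.mul_sum]
      refine Finset.sum_congr rfl fun y _ => ?_
      rw [← AddChar.map_add_eq_mul]
      congr 1
      rw [qf_add hA]
      have : ∑ j, ((2 * t) • (A *ᵥ z)) j * y j = ((2 * t) • (A *ᵥ z)) ⬝ᵥ y := rfl
      rw [this, smul_dotProduct, smul_eq_mul]
      ring
    simp_rw [h4, vec_sum]
    have h5 : ∀ z : Fin n → ZMod p, (2 * t) • (A *ᵥ z) = 0 ↔ z = 0 := by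
      intro z
      constructor
      · intro h
        have h6 : (2 * t) ≠ 0 := mul_ne_zero (two_ne hp2) ht
        have h7 := (smul_eq_zero.1 h).resolve_left h6
        exact Matrix.eq_zero_of_mulVec_eq_zero hd h7
      · rintro rfl
        rw [mulVec_zero, smul_zero]
    simp_rw [h5]
    rw [Finset.sum_eq_single 0]
    · rw [if_pos rfl]
      have : qf A (0 : Fin n → ZMod p) = 0 := by unfold qf; simp
      rw [this, mul_zero, AddChar.map_zero_eq_one, one_mul]
    · intro z _ hz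
      rw [if_neg hz, mul_zero]
    · intro h; exact absurd (mem_univ _) h
  rw [Complex.mul_conj, Complex.normSq_eq_norm_sq] at h1
  have h2 : ‖GS A t‖ ^ 2 = (√(p : ℝ) ^ n) ^ 2 := by
    rw [← pow_mul, mul_comm n 2, pow_mul, Real.sq_sqrt (Nat.cast_nonneg p)]
    exact_mod_cast h1
  exact (pow_left_inj₀ (norm_nonneg _) (by positivity) (by norm_num)).1 h2

/-- the value of the dual form -/
noncomputable def qd (A : Matrix (Fin n) (Fin n) (ZMod p)) (α : Fin n → ZMod p) : ZMod p := α ⬝ᵥ A⁻¹ *ᵥ α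

theorem complete_sq {A : Matrix (Fin n) (Fin n) (ZMod p)} (hA : A.IsSymm) (hd : A.det ≠ 0) (hp2 : p ≠ 2)
    {t : ZMod p} (ht : t ≠ 0) (α : Fin n → ZMod p) :
    ∑ x : Fin n → ZMod p, (ZMod.stdAddChar (N := p)) (t * qf A x + ∑ j, α j * x j) = (ZMod.stdAddChar (N := p)) (-(qd A α / (4 * t))) * GS A t := by
  have h2 := two_ne hp2
  have h4 : (4 : ZMod p) ≠ 0 := by
    have : (4 : ZMod p) = 2 * 2 := by norm_num
    rw [this]; exact mul_ne_zero h2 h2
  set β : Fin n → ZMod p := (2 * t)⁻¹ • (A⁻¹ *ᵥ α) with hβ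
  have hAβ : A *ᵥ β = (2 * t)⁻¹ • α := by
    rw [hβ, mulVec_smul, mulVec_mulVec, Matrix.mul_nonsing_inv _ (isUnit_iff_ne_zero.2 hd), one_mulVec]
  have hqβ : t * qf A β = qd A α / (4 * t) := by
    unfold qf qd
    rw [hAβ, hβ, smul_dotProduct, dotProduct_smul, smul_eq_mul, smul_eq_mul, dotProduct_comm (A⁻¹ *ᵥ α) α]
    field_simp
    ring
  have h1 : ∀ x : Fin n → ZMod p, (ZMod.stdAddChar (N := p)) (t * qf A x + ∑ j, α j * x j) =
      (ZMod.stdAddChar (N := p)) (-(qd A α / (4 * t))) * (ZMod.stdAddChar (N := p)) (t * qf A (x + β)) := by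
    intro x
    rw [← AddChar.map_add_eq_mul]
    congr 1
    rw [qf_add hA, hAβ, smul_dotProduct, smul_eq_mul]
    have h3 : ∑ j, α j * x j = α ⬝ᵥ x := rfl
    rw [h3]
    have h5 : t * (qf A x + qf A β + 2 * ((2 * t)⁻¹ * (α ⬝ᵥ x))) = t * qf A x + t * qf A β + α ⬝ᵥ x := by
      field_simp
    rw [h5, hqβ]
    ring
  simp_rw [h1]
  rw [← Finset.mul_sum]
  congr 1
  unfold GS
  exact Fintype.sum_equiv (Equiv.addRight β) _ _ (fun x => rfl)

/-- the Kloosterman and Salie type sums -/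
theorem klo {b t c : ZMod p} (hb : b ≠ 0) (ht : t ≠ 0) (hp : 25 < p) :
    ‖∑ s ∈ univ.filter (fun s : ZMod p => s ≠ 0), (ZMod.stdAddChar (N := p)) (-(t * s ^ 2 * b) - c / (4 * (t * s ^ 2)))‖ ≤ 7504 * √(p : ℝ) := by
  have hp' : p.Prime := Fact.out
  have hp2 : p ≠ 2 := by omega
  have h2 := two_ne hp2
  have h4 : (4 : ZMod p) ≠ 0 := by
    have : (4 : ZMod p) = 2 * 2 := by norm_num
    rw [this]; exact mul_ne_zero h2 h2
  set N : (ZMod p)[X] := C (-(t * b)) * X ^ 4 + C (-(c / (4 * t))) with hN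
  set Q : (ZMod p)[X] := X ^ 2 with hQ
  have hQ0 : Q ≠ 0 := pow_ne_zero _ X_ne_zero
  have hNd : N.natDegree ≤ 4 := by
    rw [hN]
    refine natDegree_add_le_of_degree_le ((natDegree_C_mul_le _ _).trans (natDegree_X_pow_le 4)) ?_
    rw [natDegree_C]; omega
  have hQd : Q.natDegree ≤ 4 := by
    rw [hQ, natDegree_X_pow]; omega
  have h1 := exp_rat (d := 4) N Q hQ0 hNd hQd (by
    intro c' h
    have h3 := congrArg (fun f => f.coeff 4) h
    simp only [hN, hQ, coeff_add, coeff_C_mul, coeff_X_pow, coeff_C] at h3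
    norm_num at h3
    exact (mul_ne_zero ht hb) (by rcases h3 with h3 | h3 <;> simp [h3])) (by omega)
  have h3 : (EG (4 + 1) (4 + 1) (2 * (4 + 1) * (4 + 1)) : ℝ) ≤ 7500 := by
    have := EG_le (m := 5) (by omega)
    have h5 : EG (4 + 1) (4 + 1) (2 * (4 + 1) * (4 + 1)) ≤ 7500 := by
      refine this.trans (by norm_num)
    exact_mod_cast h5
  have h5 : ∑ s ∈ univ.filter (fun s : ZMod p => s ≠ 0), (ZMod.stdAddChar (N := p)) (-(t * s ^ 2 * b) - c / (4 * (t * s ^ 2))) =
      ∑ x ∈ Finset.univ.filter (fun x => Q.eval x ≠ 0), ZMod.stdAddChar (N := p) (N.eval x / Q.eval x) := by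
    refine Finset.sum_congr ?_ ?_
    · ext x
      simp only [mem_filter, mem_univ, true_and, hQ, eval_pow, eval_X]
      exact (not_iff_not.2 (pow_eq_zero_iff (by norm_num : (2 : ℕ) ≠ 0))).symm
    · intro x hx
      have hx0 : x ≠ 0 := by
        rintro rfl
        have := (mem_filter.1 hx).2
        simp [hQ] at this
      congr 1
      simp only [hN, hQ, eval_add, eval_mul, eval_C, eval_pow, eval_X]
      field_simp
      ring
  rw [h5]
  refine h1.trans ?_
  have h6 : (1 : ℝ) ≤ √(p : ℝ) := by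
    rw [Real.one_le_sqrt]
    exact_mod_cast hp'.one_lt.le
  have h7 : (0 : ℝ) ≤ √(p : ℝ) := by linarith
  have h8 := mul_le_mul_of_nonneg_right h3 h7
  push_cast
  push_cast at h8
  linarith

/-- the sum over the nonzero multipliers -/
theorem kl_sum {A : Matrix (Fin n) (Fin n) (ZMod p)} (hA : A.IsSymm) (hd : A.det ≠ 0) (hp : 25 < p)
    {b : ZMod p} (hb : b ≠ 0) (α : Fin n → ZMod p) :
    ‖∑ t ∈ univ.filter (fun t : ZMod p => t ≠ 0), (ZMod.stdAddChar (N := p)) (-(t * b)) * ∑ x : Fin n → ZMod p, (ZMod.stdAddChar (N := p)) (t * qf A x + ∑ j, α j * x j)‖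
      ≤ 7504 * √(p : ℝ) ^ (n + 1) := by
  classical
  have hp' : p.Prime := Fact.out
  have hp2 : p ≠ 2 := by omega
  set U : Finset (ZMod p) := univ.filter (fun t : ZMod p => t ≠ 0) with hU
  have hUc : (U.card : ℝ) = p - 1 := by
    have h1 : U = univ.erase 0 := by
      ext x; simp [hU]
    rw [h1, card_erase_of_mem (mem_univ _), Finset.card_univ, ZMod.card, Nat.cast_sub hp'.one_lt.le, Nat.cast_one]
  have hU0 : (0 : ℝ) < U.card := by
    rw [hUc]
    have : (1 : ℝ) < p := by exact_mod_cast hp'.one_lt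
    linarith
  set H : ZMod p → ℂ := fun t => (ZMod.stdAddChar (N := p)) (-(t * b) - qd A α / (4 * t)) * GS A t with hH
  have h1 : ∀ t ∈ U, (ZMod.stdAddChar (N := p)) (-(t * b)) * ∑ x : Fin n → ZMod p, (ZMod.stdAddChar (N := p)) (t * qf A x + ∑ j, α j * x j) = H t := by
    intro t ht
    have ht0 : t ≠ 0 := (mem_filter.1 ht).2
    rw [complete_sq hA hd hp2 ht0 α, hH, ← mul_assoc, ← AddChar.map_add_eq_mul, ← sub_eq_add_neg]
  rw [Finset.sum_congr rfl h1]
  have h2 : ∀ s ∈ U, ∑ t ∈ U, H t = ∑ t ∈ U, H (t * s ^ 2) := by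
    intro s hs
    have hs0 : s ≠ 0 := (mem_filter.1 hs).2
    refine (Finset.sum_bij (fun t _ => t * s ^ 2) ?_ ?_ ?_ ?_).symm
    · intro t ht
      rw [hU, mem_filter] at ht ⊢
      exact ⟨mem_univ _, mul_ne_zero ht.2 (pow_ne_zero _ hs0)⟩
    · intro t ht t' ht' h
      exact mul_right_cancel₀ (pow_ne_zero _ hs0) h
    · intro t ht
      rw [hU, mem_filter] at ht
      refine ⟨t / s ^ 2, ?_, ?_⟩
      · rw [hU, mem_filter]
        exact ⟨mem_univ _, div_ne_zero ht.2 (pow_ne_zero _ hs0)⟩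
      · rw [div_mul_cancel₀ _ (pow_ne_zero _ hs0)]
    · intro t ht
      rfl
  have h3 : (U.card : ℂ) * ∑ t ∈ U, H t = ∑ t ∈ U, GS A t * ∑ s ∈ U, (ZMod.stdAddChar (N := p)) (-(t * s ^ 2 * b) - qd A α / (4 * (t * s ^ 2))) := by
    rw [← nsmul_eq_mul, ← Finset.sum_const, Finset.sum_congr rfl h2, Finset.sum_comm]
    refine Finset.sum_congr rfl fun t ht => ?_
    rw [Finset.mul_sum]
    refine Finset.sum_congr rfl fun s hs => ?_
    have hs0 : s ≠ 0 := (mem_filter.1 hs).2
    rw [hH]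
    simp only
    rw [GS_sq A t hs0]
    ring
  have h4 : ‖(U.card : ℂ) * ∑ t ∈ U, H t‖ ≤ U.card * (7504 * √(p : ℝ) ^ (n + 1)) := by
    rw [h3]
    refine (norm_sum_le _ _).trans ?_
    rw [← nsmul_eq_mul, ← Finset.sum_const]
    refine Finset.sum_le_sum fun t ht => ?_
    have ht0 : t ≠ 0 := (mem_filter.1 ht).2
    rw [norm_mul, GS_norm hA hd hp2 ht0]
    have h5 := klo (b := b) (t := t) (c := qd A α) hb ht0 hp
    have h6 := mul_le_mul_of_nonneg_left h5 (by positivity : (0 : ℝ) ≤ √(p : ℝ) ^ n)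
    refine h6.trans (le_of_eq ?_)
    rw [pow_succ]; ring
  rw [norm_mul, Complex.norm_natCast] at h4
  exact le_of_mul_le_mul_left h4 hU0

open scoped Classical in
/-- the exponential sums over quadrics -/
theorem quad_sum {A : Matrix (Fin n) (Fin n) (ZMod p)} (hA : A.IsSymm) (hd : A.det ≠ 0) (hp : 25 < p)
    {b : ZMod p} (hb : b ≠ 0) (c α : Fin n → ZMod p) :
    ‖(p : ℂ) * ∑ x ∈ univ.filter (fun x : Fin n → ZMod p => qf A (x - c) = b), (ZMod.stdAddChar (N := p)) (∑ j, α j * x j) -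
      (if α = 0 then (p : ℂ) ^ n else 0)‖ ≤ 7504 * √(p : ℝ) ^ (n + 1) := by
  have h0 : ∀ x : Fin n → ZMod p, (if qf A x = b then (p : ℂ) else 0) = ∑ t : ZMod p, (ZMod.stdAddChar (N := p)) (t * (qf A x - b)) := by
    intro x
    have h := one_sum (p := p) (qf A x - b)
    simp_rw [mul_comm (qf A x - b)] at h
    rw [h]
    simp only [sub_eq_zero]
  -- the centre
  have h1 : ∑ x ∈ univ.filter (fun x : Fin n → ZMod p => qf A (x - c) = b), (ZMod.stdAddChar (N := p)) (∑ j, α j * x j) =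
      (ZMod.stdAddChar (N := p)) (∑ j, α j * c j) * ∑ x ∈ univ.filter (fun x : Fin n → ZMod p => qf A x = b), (ZMod.stdAddChar (N := p)) (∑ j, α j * x j) := by
    rw [Finset.sum_filter, Finset.sum_filter, Finset.mul_sum]
    refine (Fintype.sum_equiv (Equiv.addRight c) _ _ (fun x => ?_)).symm
    simp only [Equiv.coe_addRight, add_sub_cancel_right]
    split_ifs
    · rw [← AddChar.map_add_eq_mul]
      congr 1
      rw [← Finset.sum_add_distrib]
      refine Finset.sum_congr rfl fun j _ => ?_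
      simp only [Pi.add_apply]
      ring
    · rw [mul_zero]
  have h2 : (p : ℂ) * ∑ x ∈ univ.filter (fun x : Fin n → ZMod p => qf A x = b), (ZMod.stdAddChar (N := p)) (∑ j, α j * x j) =
      (if α = 0 then (p : ℂ) ^ n else 0) +
      ∑ t ∈ univ.filter (fun t : ZMod p => t ≠ 0), (ZMod.stdAddChar (N := p)) (-(t * b)) * ∑ x : Fin n → ZMod p, (ZMod.stdAddChar (N := p)) (t * qf A x + ∑ j, α j * x j) := by
    rw [Finset.sum_filter, Finset.mul_sum]
    have h3 : ∀ x : Fin n → ZMod p, (p : ℂ) * (if qf A x = b then (ZMod.stdAddChar (N := p)) (∑ j, α j * x j) else 0) =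
        ∑ t : ZMod p, (ZMod.stdAddChar (N := p)) (-(t * b)) * (ZMod.stdAddChar (N := p)) (t * qf A x + ∑ j, α j * x j) := by
      intro x
      have h4 : (p : ℂ) * (if qf A x = b then (ZMod.stdAddChar (N := p)) (∑ j, α j * x j) else 0) =
          (if qf A x = b then (p : ℂ) else 0) * (ZMod.stdAddChar (N := p)) (∑ j, α j * x j) := by
        split_ifs
        · rfl
        · rw [mul_zero, zero_mul]
      rw [h4, h0, Finset.sum_mul]
      refine Finset.sum_congr rfl fun t _ => ?_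
      rw [← AddChar.map_add_eq_mul, ← AddChar.map_add_eq_mul]
      congr 1
      ring
    simp_rw [h3]
    rw [Finset.sum_comm]
    simp_rw [← Finset.mul_sum]
    rw [← Finset.sum_filter_add_sum_filter_not univ (fun t : ZMod p => t ≠ 0), add_comm]
    congr 1
    have h5 : univ.filter (fun t : ZMod p => ¬ t ≠ 0) = {0} := by
      ext t; simp
    rw [h5, Finset.sum_singleton]
    simp only [zero_mul, neg_zero, AddChar.map_zero_eq_one, one_mul, zero_add]
    exact vec_sum α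
  rw [h1, mul_left_comm, h2]
  by_cases hα : α = 0
  · rw [if_pos hα, hα]
    simp only [Pi.zero_apply, zero_mul, Finset.sum_const_zero, AddChar.map_zero_eq_one, one_mul, add_sub_cancel_left]
    have := kl_sum hA hd hp hb (0 : Fin n → ZMod p)
    simpa using this
  · rw [if_neg hα, zero_add, sub_zero, norm_mul, psi_norm, one_mul]
    exact kl_sum hA hd hp hb α

end

end Run7.h914
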