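import Pool.Agent.Run7.h914.Sv

/-! A weighted linear sieve. -/

set_option autoImplicit false
set_option linter.all false

open Finset Filter

namespace Run7.h914

open Pool.Agent.W23.DC Pool.Agent.Y882

/-- the primes in `(w, Y]` -/
def PS (w Y : ℕ) : Finset ℕ := (Icc 1 Y).filter (fun p => p.Prime ∧ w < p)

open Classical in
/-- the moduli -/
noncomputable def TS (w Y : ℕ) (σ : ℝ) : Finset (Finset ℕ) :=
  (PS w Y).powerset.filter (fun T => ((∏ p ∈ T, p : ℕ) : ℝ) ≤ (Y : ℝ) ^ (1 + σ))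

/-- the sum of the errors -/
noncomputable def RS {α : Type} (g : ℕ → ℝ) (A : Finset α) (F : α → ℕ) (X : ℝ) (w Y : ℕ) (σ : ℝ) : ℝ :=
  ∑ T ∈ TS w Y σ, |NA A F T - X * ∏ p ∈ T, g p|

theorem sum_inj_le {ι κ : Type} (S : Finset ι) (T : Finset κ) (φ : ι → κ) (h : ∀ i ∈ S, φ i ∈ T)
    (hinj : Set.InjOn φ S) (r : κ → ℝ) (hr : ∀ k ∈ T, 0 ≤ r k) : ∑ i ∈ S, r (φ i) ≤ ∑ k ∈ T, r k := by
  classical
  rw [← sum_image hinj]
  exact sum_le_sum_of_subset_of_nonneg (image_subset_iff.2 h) (fun k hk _ => hr k hk)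

theorem q_main {A0 : ℝ} {F f : ℝ → ℝ} (H : SF A0 F f) {e η' t v MMv : ℝ} (he : 0 < e) (hη : 0 ≤ η')
    (ht : 1 / 5 ≤ t) (htv : t < v) (hv1 : v < 1) (hv0 : 2 / 5 ≤ v)
    (hM : MMv ≤ e / (min (1 / 5) (1 - t)) * F ((1 - t) / (min (1 / 5) (1 - t))) + η') :
    (1 - t / v) * MMv ≤ e * (A0 * qf t) + η' := by
  have hA := H.pos
  have hτ : 0 < 1 - t := by linarith
  have h1 : 0 ≤ 1 - t / v := by
    have : t / v ≤ 1 := by rw [div_le_one (by linarith)]; linarith
    linarith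
  have h2 : 1 - t / v ≤ 1 - t := by
    have : t ≤ t / v := by
      rw [le_div_iff₀ (by linarith)]
      nlinarith
    linarith
  have h3 : e / (min (1 / 5) (1 - t)) * F ((1 - t) / (min (1 / 5) (1 - t))) ≤ e * (A0 * qf t) / (1 - t) := by
    rcases le_total (1 - t) (1 / 5) with h | h
    · rw [min_eq_right h, div_self hτ.ne', H.F3 1 le_rfl (by norm_num), div_one, div_mul_eq_mul_div]
      apply div_le_div_of_nonneg_right _ hτ.le
      have := qf_one t
      apply mul_le_mul_of_nonneg_left _ he.le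
      nlinarith
    · rw [min_eq_left h]
      have h4 := F_le H (s := (1 - t) / (1 / 5)) (by rw [le_div_iff₀ (by norm_num)]; linarith)
        (by rw [div_le_iff₀ (by norm_num)]; linarith)
      have h5 : (1 - t) / (1 / 5) - 3 = 2 - 5 * t := by ring
      rw [h5] at h4
      have h6 : (1 + (max 0 (2 - 5 * t)) ^ 2 / 4) = qf t := rfl
      rw [h6] at h4
      rw [le_div_iff₀ hτ]
      calc e / (1 / 5) * F ((1 - t) / (1 / 5)) * (1 - t) = e * ((1 - t) / (1 / 5) * F ((1 - t) / (1 / 5))) := by ring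
        _ ≤ e * (A0 * qf t) := mul_le_mul_of_nonneg_left h4 he.le
  have h7 : MMv ≤ e * (A0 * qf t) / (1 - t) + η' := by linarith
  have h8 : 0 ≤ e * (A0 * qf t) / (1 - t) := by
    have := qf_one t
    positivity
  calc (1 - t / v) * MMv ≤ (1 - t / v) * (e * (A0 * qf t) / (1 - t) + η') := mul_le_mul_of_nonneg_left h7 h1
    _ = (1 - t / v) * (e * (A0 * qf t) / (1 - t)) + (1 - t / v) * η' := by ring
    _ ≤ (1 - t) * (e * (A0 * qf t) / (1 - t)) + 1 * η' := by
        apply add_le_add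
        · exact mul_le_mul_of_nonneg_right h2 h8
        · exact mul_le_mul_of_nonneg_right (by linarith) hη
    _ = e * (A0 * qf t) + η' := by
        rw [mul_div_cancel₀ _ hτ.ne', one_mul]

open Classical in
theorem ws_sum {Y w K : ℕ} (hY : 2 ≤ Y) {ε₁ v σ B : ℝ} (hε : 0 < ε₁) (hε5 : ε₁ ≤ 1 / 5) (hv : 2 / 5 ≤ v) (hv1 : v < 1)
    (hB : 0 ≤ B) (hσ : 0 ≤ σ)
    (hw : ∀ p : ℕ, p.Prime → ε₁ ≤ tt Y p → w < p) (cU cL : Finset ℕ → ℝ)
    (P1 P2 P3 : Finset ℕ) (hP1 : P1 = (PS w Y).filter (fun p => tt Y p < ε₁)) (hP2 : P2 = pr Y ε₁ (1 / 5))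
    (hP3 : P3 = pr Y (1 / 5) v)
    (g1 : ∀ T, |cU T| ≤ 1 ∧ |cL T| ≤ B)
    (g2 : ∀ T ⊆ P1, (cU T ≠ 0 ∨ cL T ≠ 0) → ((∏ p ∈ T, p : ℕ) : ℝ) ≤ (Y : ℝ) ^ σ)
    (g3 : ∀ N : ℕ, VV P1 cL (fun p => if p ∣ N then 1 else 0) ≤ (if ∀ p ∈ P1, ¬ p ∣ N then 1 else 0) ∧
      (if ∀ p ∈ P1, ¬ p ∣ N then 1 else 0) ≤ VV P1 cU (fun p => if p ∣ N then 1 else 0))
    (yU yL : Finset ℕ → ℝ) (hyU : yU = lc P2 (tt Y) K true 1 (1 / 5)) (hyL : yL = lc P2 (tt Y) K false 1 (1 / 5))
    (uq : ℕ → Finset ℕ → ℝ) (huq : ∀ q, uq q = lc P2 (tt Y) K true (1 - tt Y q) (min (1 / 5) (1 - tt Y q)))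
    {α : Type} (A : Finset α) (G : α → ℕ) (X : ℝ) (g : ℕ → ℝ)
    (hG : ∀ a ∈ A, ∀ p : ℕ, p.Prime → p ≤ w → ¬ p ∣ G a) :
    X * (VV P1 cL g * VV P2 yU g + VV P1 cU g * VV P2 yL g - VV P1 cU g * VV P2 yU g) -
      X * (25 / 31 * ∑ q ∈ P3, (1 - tt Y q / v) * (g q * (VV P1 cU g * VV P2 (uq q) g))) - (B + 3) * RS g A G X w Y σ ≤
      ((A.filter (fun a => (∀ p : ℕ, p.Prime → p ∣ G a → (Y : ℝ) ^ (1 / 5 : ℝ) ≤ p) ∧
        ∑ p ∈ (pr Y (1 / 5) v).filter (fun p => p ∣ G a), (1 - tt Y p / v) < 31 / 25)).card : ℝ) := by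
  have hYr : (2 : ℝ) ≤ Y := by exact_mod_cast hY
  have hY1r : (1 : ℝ) ≤ Y := by linarith
  have hlY : 0 < Real.log Y := Real.log_pos (by linarith)
  have m1 : ∀ p ∈ P1, ((1 ≤ p ∧ p ≤ Y) ∧ p.Prime ∧ w < p) ∧ tt Y p < ε₁ := by
    intro p hp
    rw [hP1, mem_filter] at hp
    unfold PS at hp
    rw [mem_filter, mem_Icc] at hp
    exact hp
  have m2 : ∀ p ∈ P2, (1 ≤ p ∧ p ≤ Y) ∧ p.Prime ∧ ε₁ ≤ tt Y p ∧ tt Y p < 1 / 5 := by
    intro p hp
    rw [hP2, mem_pr] at hp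
    exact hp
  have m3 : ∀ p ∈ P3, (1 ≤ p ∧ p ≤ Y) ∧ p.Prime ∧ 1 / 5 ≤ tt Y p ∧ tt Y p < v := by
    intro p hp
    rw [hP3, mem_pr] at hp
    exact hp
  have hd : Disjoint P1 P2 := by
    rw [disjoint_left]
    intro p h1 h2
    linarith [(m1 p h1).2, (m2 p h2).2.2.1]
  set P : Finset ℕ := P1 ∪ P2 with hP
  have hPP3 : ∀ p ∈ P3, p ∉ P := by
    intro p h3 h
    rw [hP, mem_union] at h
    rcases h with h | h
    · linarith [(m1 p h).2, (m3 p h3).2.2.1]
    · linarith [(m2 p h).2.2.2, (m3 p h3).2.2.1]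
  have hPPS : P ⊆ PS w Y := by
    intro p hp
    unfold PS
    rw [mem_filter, mem_Icc]
    rw [hP, mem_union] at hp
    rcases hp with h | h
    · exact ⟨(m1 p h).1.1, (m1 p h).1.2⟩
    · exact ⟨(m2 p h).1, (m2 p h).2.1, hw p (m2 p h).2.1 (m2 p h).2.2.1⟩
  have hP3S : P3 ⊆ PS w Y := by
    intro p h
    unfold PS
    rw [mem_filter, mem_Icc]
    exact ⟨(m3 p h).1, (m3 p h).2.1, hw p (m3 p h).2.1 (hε5.trans (m3 p h).2.2.1)⟩
  have hsiz : Siz P2 (tt Y) := by rw [hP2]; exact Siz_pr hY hε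
  set rg : α → ℝ := fun a => if ∀ p ∈ P, ¬ p ∣ G a then 1 else 0 with hrg
  have hrg0 : ∀ a, 0 ≤ rg a := fun a => by simp only [hrg]; split_ifs <;> norm_num
  have hrgxy : ∀ a, rg a = (if ∀ p ∈ P1, ¬ p ∣ G a then (1 : ℝ) else 0) * (if ∀ p ∈ P2, ¬ p ∣ G a then (1 : ℝ) else 0) := by
    intro a
    simp only [hrg]
    by_cases h1 : ∀ p ∈ P1, ¬ p ∣ G a
    · by_cases h2 : ∀ p ∈ P2, ¬ p ∣ G a
      · rw [if_pos h1, if_pos h2, if_pos, mul_one]
        intro p hp
        rw [hP, mem_union] at hp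
        exact hp.elim (h1 p) (h2 p)
      · rw [if_neg h2, if_neg, mul_zero]
        intro h
        exact h2 fun p hp => h p (by rw [hP]; exact mem_union_right _ hp)
    · rw [if_neg h1, if_neg, zero_mul]
      intro h
      exact h1 fun p hp => h p (by rw [hP]; exact mem_union_left _ hp)
  -- the weights
  set c0 : Finset ℕ → ℝ := fun T => PWt P1 P2 cL yU T + PWt P1 P2 cU yL T - PWt P1 P2 cU yU T with hc0
  have hVc0 : ∀ h : ℕ → ℝ, VV P c0 h = VV P1 cL h * VV P2 yU h + VV P1 cU h * VV P2 yL h - VV P1 cU h * VV P2 yU h := by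
    intro h
    rw [hc0, VV_sub, VV_add, hP, PWt_VV hd, PWt_VV hd, PWt_VV hd]
  set cq : ℕ → Finset ℕ → ℝ := fun q => PWt P1 P2 cU (uq q) with hcq
  have hVcq : ∀ q h, VV P (cq q) h = VV P1 cU h * VV P2 (uq q) h := fun q h => by rw [hcq, hP, PWt_VV hd]
  have hq0 : ∀ q ∈ P3, 0 < 1 - tt Y q := fun q hq => by linarith [(m3 q hq).2.2.2]
  -- pointwise inequalities
  have s1 : ∀ a, VV P c0 (fun p => if p ∣ G a then 1 else 0) ≤ rg a := by
    intro a
    rw [hVc0, hrgxy]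
    obtain ⟨h1, h2⟩ := g3 (G a)
    have h34 := lc_ind P2 (tt Y) hsiz K 1 (1 / 5) (by norm_num) (by norm_num) (fun p hp => (m2 p hp).2.2.2) (G a)
    rw [← hyU, ← hyL] at h34
    refine comp_low ?_ h1 h2 h34.1 h34.2 ?_
    · split_ifs <;> norm_num
    · split_ifs <;> norm_num
  have s2 : ∀ q ∈ P3, ∀ a, rg a ≤ VV P (cq q) (fun p => if p ∣ G a then 1 else 0) := by
    intro q hq a
    rw [hVcq, hrgxy]
    obtain ⟨h1, h2⟩ := g3 (G a)
    have h3 := lc_up P2 (tt Y) hsiz K (1 - tt Y q) (min (1 / 5) (1 - tt Y q)) (hq0 q hq).le (G a)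
    rw [← huq] at h3
    refine mul_le_mul h2 h3 ?_ (le_trans ?_ h2)
    · split_ifs <;> norm_num
    · split_ifs <;> norm_num
  -- the count
  have s3 : ∑ a ∈ A, rg a * (1 - 25 / 31 * ∑ q ∈ P3.filter (fun q => q ∣ G a), (1 - tt Y q / v)) ≤
      ((A.filter (fun a => (∀ p : ℕ, p.Prime → p ∣ G a → (Y : ℝ) ^ (1 / 5 : ℝ) ≤ p) ∧
        ∑ p ∈ (pr Y (1 / 5) v).filter (fun p => p ∣ G a), (1 - tt Y p / v) < 31 / 25)).card : ℝ) := by
    rw [← sum_boole]
    apply sum_le_sum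
    intro a ha
    have hs0 : 0 ≤ ∑ q ∈ P3.filter (fun q => q ∣ G a), (1 - tt Y q / v) := by
      apply sum_nonneg
      intro q hq
      have h1 := (m3 q (mem_filter.1 hq).1).2.2.2
      have : tt Y q / v ≤ 1 := by rw [div_le_one (by linarith)]; linarith
      linarith
    by_cases hr : ∀ p ∈ P, ¬ p ∣ G a
    · have hr1 : rg a = 1 := by simp only [hrg]; rw [if_pos hr]
      rw [hr1, one_mul]
      by_cases hs : ∑ q ∈ P3.filter (fun q => q ∣ G a), (1 - tt Y q / v) < 31 / 25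
      · rw [if_pos]
        · linarith
        · refine ⟨?_, by rw [← hP3]; exact hs⟩
          intro p hp hpa
          by_contra hlt
          push Not at hlt
          have hp0 : (0 : ℝ) < p := by exact_mod_cast hp.pos
          have hpY : (p : ℝ) ≤ Y := by
            refine hlt.le.trans ?_
            calc (Y : ℝ) ^ (1 / 5 : ℝ) ≤ (Y : ℝ) ^ (1 : ℝ) := Real.rpow_le_rpow_of_exponent_le hY1r (by norm_num)
              _ = Y := Real.rpow_one _
          have hpY' : p ≤ Y := by exact_mod_cast hpY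
          have hwp : w < p := by
            by_contra hc
            exact hG a ha p hp (by omega) hpa
          have htp : tt Y p < 1 / 5 := by
            unfold tt
            rw [div_lt_iff₀ hlY, ← Real.log_rpow (by linarith)]
            exact Real.log_lt_log hp0 hlt
          apply hr p _ hpa
          rw [hP, mem_union]
          rcases lt_or_ge (tt Y p) ε₁ with h | h
          · left
            rw [hP1, mem_filter]
            unfold PS
            rw [mem_filter, mem_Icc]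
            exact ⟨⟨⟨hp.pos, hpY'⟩, hp, hwp⟩, h⟩
          · right
            rw [hP2, mem_pr]
            exact ⟨⟨hp.pos, hpY'⟩, hp, h, htp⟩
      · push Not at hs
        have h1 : 1 - 25 / 31 * ∑ q ∈ P3.filter (fun q => q ∣ G a), (1 - tt Y q / v) ≤ 0 := by linarith
        refine h1.trans ?_
        split_ifs <;> norm_num
    · have hr1 : rg a = 0 := by simp only [hrg]; rw [if_neg hr]
      rw [hr1, zero_mul]
      split_ifs <;> norm_num
  refine le_trans ?_ s3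
  -- lower bound for the weighted sum
  have s4 : ∑ a ∈ A, VV P c0 (fun p => if p ∣ G a then 1 else 0) -
      25 / 31 * ∑ q ∈ P3, (1 - tt Y q / v) * ∑ a ∈ A, (if q ∣ G a then (1 : ℝ) else 0) * VV P (cq q) (fun p => if p ∣ G a then 1 else 0) ≤
      ∑ a ∈ A, rg a * (1 - 25 / 31 * ∑ q ∈ P3.filter (fun q => q ∣ G a), (1 - tt Y q / v)) := by
    have h1 : ∑ a ∈ A, rg a * (1 - 25 / 31 * ∑ q ∈ P3.filter (fun q => q ∣ G a), (1 - tt Y q / v)) =
        ∑ a ∈ A, rg a - 25 / 31 * ∑ q ∈ P3, (1 - tt Y q / v) * ∑ a ∈ A, (if q ∣ G a then (1 : ℝ) else 0) * rg a := by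
      have h2 : ∀ a ∈ A, rg a * (1 - 25 / 31 * ∑ q ∈ P3.filter (fun q => q ∣ G a), (1 - tt Y q / v)) =
          rg a - 25 / 31 * ∑ q ∈ P3, (1 - tt Y q / v) * ((if q ∣ G a then (1 : ℝ) else 0) * rg a) := by
        intro a _
        rw [sum_filter, mul_sub, mul_one]
        congr 1
        rw [mul_left_comm]
        congr 1
        rw [mul_sum]
        apply sum_congr rfl
        intro q _
        split_ifs <;> ring
      rw [sum_congr rfl h2, sum_sub_distrib, ← mul_sum, sum_comm]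
      simp_rw [mul_sum]
    rw [h1]
    apply sub_le_sub
    · exact sum_le_sum fun a _ => s1 a
    · apply mul_le_mul_of_nonneg_left _ (by norm_num)
      apply sum_le_sum
      intro q hq
      have h1 : 0 ≤ 1 - tt Y q / v := by
        have h1 := (m3 q hq).2.2.2
        have : tt Y q / v ≤ 1 := by rw [div_le_one (by linarith)]; linarith
        linarith
      apply mul_le_mul_of_nonneg_left _ h1
      apply sum_le_sum
      intro a _
      apply mul_le_mul_of_nonneg_left (s2 q hq a)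
      split_ifs <;> norm_num
  refine le_trans ?_ s4
  -- the errors
  set R : Finset ℕ → ℝ := fun T => |NA A G T - X * ∏ p ∈ T, g p| with hR
  have hR0 : ∀ T, 0 ≤ R T := fun T => abs_nonneg _
  have hRS : RS g A G X w Y σ = ∑ T ∈ TS w Y σ, R T := rfl
  have hRS0 : 0 ≤ RS g A G X w Y σ := by rw [hRS]; exact sum_nonneg fun T _ => hR0 T
  have e1 : X * VV P c0 g - (B + 2) * RS g A G X w Y σ ≤ ∑ a ∈ A, VV P c0 (fun p => if p ∣ G a then 1 else 0) := by
    rw [sum_VV]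
    have h1 := VV_err P c0 g X (NA A G) (fun T => ∏ p ∈ T, g p) 1 (fun T _ => by rw [one_mul])
    rw [one_mul] at h1
    have h2 : ∑ T ∈ P.powerset, |c0 T| * |NA A G T - X * ∏ p ∈ T, g p| ≤ (B + 2) * RS g A G X w Y σ := by
      rw [hRS, mul_sum]
      have h3 : ∑ T ∈ P.powerset, |c0 T| * R T = ∑ T ∈ P.powerset.filter (fun T => c0 T ≠ 0), |c0 T| * R T := by
        rw [sum_filter]
        apply sum_congr rfl
        intro T _
        split_ifs with h4
        · rfl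
        · push Not at h4
          rw [h4, abs_zero, zero_mul]
      show ∑ T ∈ P.powerset, |c0 T| * R T ≤ _
      rw [h3]
      have h5 : ∀ T, |c0 T| ≤ B + 2 := by
        intro T
        have k1 : |yU (T ∩ P2)| ≤ 1 := by
          rw [hyU]; exact lc_le _ _ hsiz K true 1 (1 / 5) (by norm_num) (fun h => by simp at h) _
        have k2 : |yL (T ∩ P2)| ≤ 1 := by
          rw [hyL]; exact lc_le _ _ hsiz K false 1 (1 / 5) (by norm_num) (fun _ => by norm_num) _
        have k3 := g1 (T ∩ P1)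
        simp only [hc0, PWt]
        have j1 : |cL (T ∩ P1) * yU (T ∩ P2)| ≤ B * 1 := by
          rw [abs_mul]; exact mul_le_mul k3.2 k1 (abs_nonneg _) hB
        have j2 : |cU (T ∩ P1) * yL (T ∩ P2)| ≤ 1 * 1 := by
          rw [abs_mul]; exact mul_le_mul k3.1 k2 (abs_nonneg _) zero_le_one
        have j3 : |cU (T ∩ P1) * yU (T ∩ P2)| ≤ 1 * 1 := by
          rw [abs_mul]; exact mul_le_mul k3.1 k1 (abs_nonneg _) zero_le_one
        calc _ ≤ |cL (T ∩ P1) * yU (T ∩ P2) + cU (T ∩ P1) * yL (T ∩ P2)| + |cU (T ∩ P1) * yU (T ∩ P2)| := abs_sub _ _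
          _ ≤ |cL (T ∩ P1) * yU (T ∩ P2)| + |cU (T ∩ P1) * yL (T ∩ P2)| + |cU (T ∩ P1) * yU (T ∩ P2)| := by
              have := abs_add_le (cL (T ∩ P1) * yU (T ∩ P2)) (cU (T ∩ P1) * yL (T ∩ P2))
              linarith
          _ ≤ B + 2 := by linarith
      refine (sum_le_sum fun T _ => mul_le_mul_of_nonneg_right (h5 T) (hR0 T)).trans ?_
      apply sum_le_sum_of_subset_of_nonneg
      · intro T hT
        rw [mem_filter, mem_powerset] at hT
        obtain ⟨hTP, hne⟩ := hT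
        unfold TS
        rw [mem_filter, mem_powerset]
        refine ⟨hTP.trans hPPS, ?_⟩
        have hne1 : (cU (T ∩ P1) ≠ 0 ∨ cL (T ∩ P1) ≠ 0) := by
          by_contra hc
          push Not at hc
          apply hne
          simp only [hc0, PWt, hc.1, hc.2]
          ring
        have hne2 : ((∏ p ∈ T ∩ P2, p : ℕ) : ℝ) ≤ (Y : ℝ) ^ (1 : ℝ) := by
          have hsub : T ∩ P2 ⊆ pr Y ε₁ (1 / 5) := by rw [← hP2]; exact inter_subset_right
          by_cases hu : yU (T ∩ P2) = 0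
          · have hl : yL (T ∩ P2) ≠ 0 := by
              intro hl
              apply hne
              simp only [hc0, PWt, hu, hl]
              ring
            rw [hyL, hP2] at hl
            rw [hP2] at hsub ⊢
            exact lc_supp hY hε K false 1 (1 / 5) (by norm_num) (fun _ => by norm_num) hsub hl
          · rw [hyU, hP2] at hu
            rw [hP2] at hsub ⊢
            exact lc_supp hY hε K true 1 (1 / 5) (by norm_num) (fun h => by simp at h) hsub hu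
        have h6 := g2 _ inter_subset_right hne1
        rw [PWt_prod hd hTP]
        push_cast at h6 hne2 ⊢
        calc (∏ p ∈ T ∩ P1, (p : ℝ)) * ∏ p ∈ T ∩ P2, (p : ℝ) ≤ (Y : ℝ) ^ σ * (Y : ℝ) ^ (1 : ℝ) := by
              apply mul_le_mul h6 hne2 _ (by positivity)
              exact Finset.prod_nonneg fun p _ => Nat.cast_nonneg p
          _ = (Y : ℝ) ^ (1 + σ) := by
              rw [← Real.rpow_add (by linarith)]
              congr 1; ring
      · intro T _ _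
        exact mul_nonneg (by linarith) (hR0 T)
    have h7 := (abs_le.1 (h1.trans h2)).1
    linarith
  have e2 : ∑ q ∈ P3, (1 - tt Y q / v) * ∑ a ∈ A, (if q ∣ G a then (1 : ℝ) else 0) * VV P (cq q) (fun p => if p ∣ G a then 1 else 0) ≤
      ∑ q ∈ P3, (1 - tt Y q / v) * (X * (g q * VV P (cq q) g)) + RS g A G X w Y σ := by
    have h1 : ∀ q ∈ P3, (1 - tt Y q / v) * ∑ a ∈ A, (if q ∣ G a then (1 : ℝ) else 0) * VV P (cq q) (fun p => if p ∣ G a then 1 else 0) ≤
        (1 - tt Y q / v) * (X * (g q * VV P (cq q) g)) + ∑ T ∈ P.powerset.filter (fun T => cq q T ≠ 0), R (insert q T) := by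
      intro q hq
      have h0 : 0 ≤ 1 - tt Y q / v ∧ 1 - tt Y q / v ≤ 1 := by
        have h1 := (m3 q hq).2.2.2
        have : tt Y q / v ≤ 1 := by rw [div_le_one (by linarith)]; linarith
        have : 0 ≤ tt Y q / v := div_nonneg (tt_nonneg hY q) (by linarith)
        constructor <;> linarith
      rw [sum_VV2]
      have h2 := VV_err P (cq q) g X (fun T => NA A G (insert q T)) (fun T => ∏ p ∈ insert q T, g p) (g q) (by
        intro T hT
        rw [prod_insert]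
        intro hqT
        exact hPP3 q hq (mem_powerset.1 hT hqT))
      have h3 : ∑ T ∈ P.powerset, |cq q T| * |NA A G (insert q T) - X * ∏ p ∈ insert q T, g p| ≤
          ∑ T ∈ P.powerset.filter (fun T => cq q T ≠ 0), R (insert q T) := by
        rw [sum_filter]
        apply sum_le_sum
        intro T _
        split_ifs with h4
        · have h5 : |cq q T| ≤ 1 := by
            have k1 : |uq q (T ∩ P2)| ≤ 1 := by
              rw [huq]; exact lc_le _ _ hsiz K true _ _ (hq0 q hq).le (fun h => by simp at h) _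
            have k3 := g1 (T ∩ P1)
            simp only [hcq, PWt]
            rw [abs_mul]
            calc _ ≤ (1 : ℝ) * 1 := mul_le_mul k3.1 k1 (abs_nonneg _) zero_le_one
              _ = 1 := one_mul 1
          calc |cq q T| * |NA A G (insert q T) - X * ∏ p ∈ insert q T, g p| ≤ 1 * R (insert q T) :=
                mul_le_mul_of_nonneg_right h5 (abs_nonneg _)
            _ = _ := one_mul _
        · push Not at h4
          rw [h4, abs_zero, zero_mul]
      have h4 := (abs_le.1 (h2.trans h3)).2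
      have h5 : 0 ≤ ∑ T ∈ P.powerset.filter (fun T => cq q T ≠ 0), R (insert q T) := sum_nonneg fun T _ => hR0 _
      calc (1 - tt Y q / v) * ∑ T ∈ P.powerset, cq q T * NA A G (insert q T) ≤
          (1 - tt Y q / v) * (X * (g q * VV P (cq q) g) + ∑ T ∈ P.powerset.filter (fun T => cq q T ≠ 0), R (insert q T)) := by
            apply mul_le_mul_of_nonneg_left _ h0.1
            linarith
        _ ≤ _ := by
            rw [mul_add]
            have := mul_le_mul_of_nonneg_right h0.2 h5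
            linarith
    refine (sum_le_sum h1).trans ?_
    rw [sum_add_distrib]
    apply add_le_add le_rfl
    rw [sum_sigma', hRS]
    apply sum_inj_le (S := P3.sigma fun q => P.powerset.filter (fun T => cq q T ≠ 0)) (T := TS w Y σ)
      (φ := fun x : (_ : ℕ) × Finset ℕ => insert x.1 x.2) (r := R)
    · rintro ⟨q, T⟩ hx
      rw [mem_sigma, mem_filter, mem_powerset] at hx
      obtain ⟨hq, hTP, hne⟩ := hx
      simp only at hq hTP hne ⊢
      unfold TS
      rw [mem_filter, mem_powerset]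
      refine ⟨insert_subset (hP3S hq) (hTP.trans hPPS), ?_⟩
      rw [prod_insert (fun h => hPP3 q hq (hTP h)), PWt_prod hd hTP]
      have hne1 : cU (T ∩ P1) ≠ 0 := by
        intro hc
        apply hne
        simp only [hcq, PWt, hc]
        ring
      have hne2 : uq q (T ∩ P2) ≠ 0 := by
        intro hc
        apply hne
        simp only [hcq, PWt, hc]
        ring
      have h6 := g2 _ inter_subset_right (Or.inl hne1)
      have h7 : ((∏ p ∈ T ∩ P2, p : ℕ) : ℝ) ≤ (Y : ℝ) ^ (1 - tt Y q) := by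
        have hsub : T ∩ P2 ⊆ pr Y ε₁ (1 / 5) := by rw [← hP2]; exact inter_subset_right
        rw [huq, hP2] at hne2
        rw [hP2] at hsub ⊢
        exact lc_supp hY hε K true _ _ (hq0 q hq).le (fun h => by simp at h) hsub hne2
      have h8 : (q : ℝ) = (Y : ℝ) ^ (tt Y q) := by
        have hq0 : (0 : ℝ) < q := by exact_mod_cast (m3 q hq).2.1.pos
        unfold tt
        rw [Real.rpow_def_of_pos (by linarith), mul_div_cancel₀ _ hlY.ne', Real.exp_log hq0]
      push_cast at h6 h7 ⊢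
      calc (q : ℝ) * ((∏ p ∈ T ∩ P1, (p : ℝ)) * ∏ p ∈ T ∩ P2, (p : ℝ)) ≤
          (Y : ℝ) ^ (tt Y q) * ((Y : ℝ) ^ σ * (Y : ℝ) ^ (1 - tt Y q)) := by
            apply mul_le_mul h8.le _ _ (by positivity)
            · apply mul_le_mul h6 h7 _ (by positivity)
              exact Finset.prod_nonneg fun p _ => Nat.cast_nonneg p
            · exact mul_nonneg (Finset.prod_nonneg fun p _ => Nat.cast_nonneg p) (Finset.prod_nonneg fun p _ => Nat.cast_nonneg p)
        _ = (Y : ℝ) ^ (1 + σ) := by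
            rw [← Real.rpow_add (by linarith), ← Real.rpow_add (by linarith)]
            congr 1; ring
    · rintro ⟨q, T⟩ hx ⟨q', T'⟩ hx' heq
      rw [mem_coe, mem_sigma, mem_filter, mem_powerset] at hx hx'
      obtain ⟨hq, hTP, hne⟩ := hx
      obtain ⟨hq', hTP', hne'⟩ := hx'
      simp only at hq hTP hne hq' hTP' hne' heq
      have h1 : q ∈ insert q' T' := heq ▸ mem_insert_self q T
      rw [mem_insert] at h1
      have h2 : q = q' := h1.resolve_right (fun h => hPP3 q hq (hTP' h))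
      subst h2
      have h3 : T = T' := by
        have h4 : q ∉ T := fun h => hPP3 q hq (hTP h)
        have h5 : q ∉ T' := fun h => hPP3 q hq (hTP' h)
        rw [← erase_insert h4, ← erase_insert h5, heq]
      rw [h3]
    · intro T _
      exact hR0 T
  rw [hVc0] at e1
  have e3 : ∑ q ∈ P3, (1 - tt Y q / v) * (X * (g q * VV P (cq q) g)) =
      X * ∑ q ∈ P3, (1 - tt Y q / v) * (g q * (VV P1 cU g * VV P2 (uq q) g)) := by
    rw [mul_sum]
    apply sum_congr rfl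
    intro q _
    rw [hVcq]
    ring
  rw [e3] at e2
  linarith

theorem num1 {β δ δ₁ D I F5 L : ℝ} (hβ0 : 0 < β) (hβ1 : β ≤ 1) (hδ0 : 0 < δ) (hδ1 : δ ≤ 1) (hδD : δ ≤ D / 56)
    (hδ₁0 : 0 < δ₁) (hδ₁1 : δ₁ ≤ 1) (hδ₁D : δ₁ ≤ D / 16) (hD : D = L - 25 / 31 * I) (hI0 : 0 < I)
    (hb2 : β * (2 * F5 + 2 + I) ≤ D / 4) :
    D / 2 ≤ (L - δ) - 2 * β * (F5 + δ) - 25 / 31 * (1 + β) * (I + δ₁ + 3 * δ) := by
  have h3 : β * δ ≤ β := by nlinarith
  have h4 : β * (δ₁ + 3 * δ) ≤ δ₁ + 3 * δ := by nlinarith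
  have h5 : 25 / 31 * (1 + β) * (I + δ₁ + 3 * δ) = 25 / 31 * I + 25 / 31 * (β * I) + 25 / 31 * (δ₁ + 3 * δ) + 25 / 31 * (β * (δ₁ + 3 * δ)) := by ring
  have h6 : 0 ≤ β * I := by positivity
  have h7 : β * (2 * F5 + 2 + I) = 2 * (β * F5) + 2 * β + β * I := by ring
  have h8 : 2 * β * (F5 + δ) = 2 * (β * F5) + 2 * (β * δ) := by ring
  rw [h5, h8]
  linarith

theorem num2 {J l e t : ℝ} (h6 : J ≤ t) (h7 : t * 0.69 ≤ 2 * e * l) (h8 : e * l ≤ 1 / 5 * l) (h9 : 1 ≤ l) :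
    J + 4 ≤ 6 * l := by
  linarith

theorem exJ' (ε : ℝ) (hε : 0 < ε) : ∃ Y0 : ℕ, ∀ Y : ℕ, Y0 ≤ Y → ∃ J : ℕ,
    (Y : ℝ) ^ ε ≤ 2 ^ 2 ^ J ∧ (2 : ℝ) ^ 2 ^ J ≤ (Y : ℝ) ^ (2 * ε) := by
  have h2 : ∀ᶠ Y : ℕ in atTop, (3 : ℝ) ≤ (Y : ℝ) ^ ε :=
    tendsto_natCast_atTop_atTop.eventually ((tendsto_rpow_atTop hε).eventually_ge_atTop 3)
  obtain ⟨Y0, hY0⟩ := eventually_atTop.1 h2
  refine ⟨Y0, fun Y hY => ?_⟩
  have h3 := hY0 Y hY
  classical
  have hex : ∃ J : ℕ, (Y : ℝ) ^ ε ≤ 2 ^ 2 ^ J := by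
    obtain ⟨m, hm⟩ := pow_unbounded_of_one_lt ((Y : ℝ) ^ ε) (show (1 : ℝ) < 2 by norm_num)
    refine ⟨m, hm.le.trans ?_⟩
    apply pow_le_pow_right₀ (by norm_num)
    exact Nat.lt_two_pow_self.le
  refine ⟨Nat.find hex, Nat.find_spec hex, ?_⟩
  have hJ0 : Nat.find hex ≠ 0 := by
    intro h
    have h4 := Nat.find_spec hex
    rw [h] at h4
    norm_num at h4
    linarith
  obtain ⟨J', hJ'⟩ := Nat.exists_eq_succ_of_ne_zero hJ0
  have h5 := Nat.find_min hex (show J' < Nat.find hex by omega)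
  push Not at h5
  rw [hJ', Nat.succ_eq_add_one, pow_succ 2 J', pow_mul]
  calc ((2 : ℝ) ^ 2 ^ J') ^ 2 ≤ ((Y : ℝ) ^ ε) ^ 2 := pow_le_pow_left₀ (by positivity) h5.le 2
    _ = (Y : ℝ) ^ (2 * ε) := by
        rw [← Real.rpow_natCast, ← Real.rpow_mul (by positivity)]
        congr 1
        push_cast
        ring

open Classical in
theorem wsieve : ∃ C : ℕ, ∀ (g : ℕ → ℝ) (M : ℝ) (w : ℕ), GD g M w → C * (⌈M⌉₊ + 2) ≤ w →
    ∀ σ v : ℝ, 0 < σ → 2 / 5 ≤ v → v < 1 → ∃ c : ℝ, 0 < c ∧ ∃ Y0 : ℕ, ∀ Y : ℕ, Y0 ≤ Y →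
    ∀ (α : Type) (A : Finset α) (G : α → ℕ) (X : ℝ), 0 ≤ X →
      (∀ a ∈ A, ∀ p : ℕ, p.Prime → p ≤ w → ¬ p ∣ G a) →
      RS g A G X w Y σ ≤ X / Real.log Y ^ 3 →
      c * X / Real.log Y ≤ ((A.filter (fun a => (∀ p : ℕ, p.Prime → p ∣ G a → (Y : ℝ) ^ (1 / 5 : ℝ) ≤ p) ∧
        ∑ p ∈ (pr Y (1 / 5) v).filter (fun p => p ∣ G a), (1 - tt Y p / v) < 31 / 25)).card : ℝ) := by
  obtain ⟨C, hC1, HF⟩ := flw
  refine ⟨C, fun g M w hg hCw σ v hσ hv hv1 => ?_⟩
  obtain ⟨A0, F, f, hSF⟩ := Pool.Agent.W366.DC.SFX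
  have hA := hSF.pos
  set κ : ℕ := ⌈M⌉₊ + 1 with hκ
  have hlog2 : 0.69 < Real.log 2 := by linarith [Real.log_two_gt_d9]
  have hlog25 : 0.69 < Real.log 5 := lt_trans hlog2 (Real.log_lt_log (by norm_num) (by norm_num))
  set L : ℝ := A0 * Real.log 4 with hL
  set I : ℝ := A0 * (Real.log 2 + Real.log 5 - 5 / 8) with hI
  have hI0 : 0 < I := mul_pos hA (by linarith)
  set D : ℝ := L - 25 / 31 * I with hD
  have hD0 : 0 < D := by
    have h1 := mul_lt_mul_of_pos_left num hA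
    rw [hD, hL, hI]
    linarith
  set F5 : ℝ := 5 * F 5 with hF5
  have hF50 : 5 ≤ F5 := by
    have := hSF.F1 5 (by norm_num)
    rw [hF5]; linarith
  obtain ⟨b, hb1, hb2⟩ : ∃ b : ℕ, C * (κ + 1) ≤ b ∧ (1 / 2 : ℝ) ^ b * (2 * F5 + 2 + I) ≤ D / 4 := by
    obtain ⟨m, hm⟩ := exists_pow_lt_of_lt_one (show 0 < D / 4 / (2 * F5 + 2 + I) by positivity)
      (show (1 / 2 : ℝ) < 1 by norm_num)
    refine ⟨max m (C * (κ + 1)), le_max_right _ _, ?_⟩
    have h6 : (1 / 2 : ℝ) ^ (max m (C * (κ + 1))) ≤ (1 / 2) ^ m :=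
      pow_le_pow_of_le_one (by norm_num) (by norm_num) (le_max_left _ _)
    have h7 := h6.trans hm.le
    rwa [le_div_iff₀ (by positivity)] at h7
  set β : ℝ := (1 / 2 : ℝ) ^ b with hβ
  have hβ0 : 0 < β := by rw [hβ]; positivity
  have hβ1 : β ≤ 1 := pow_le_one₀ (by norm_num) (by norm_num)
  have hCb : (1 : ℝ) ≤ C * b := by
    have h1 : 1 ≤ C * (κ + 1) := Nat.mul_pos hC1 (by omega)
    have : 1 ≤ C * b := Nat.mul_pos hC1 (by omega)
    exact_mod_cast this
  set ε₁ : ℝ := min (1 / 5) (min (1 - v) (σ / (2 * (C * b)))) with hε₁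
  have hε0 : 0 < ε₁ := lt_min (by norm_num) (lt_min (by linarith) (div_pos hσ (by linarith)))
  have hε5 : ε₁ ≤ 1 / 5 := min_le_left _ _
  have hεv : ε₁ ≤ 1 - v := (min_le_right _ _).trans (min_le_left _ _)
  have hεb : 2 * ε₁ * (C * b) ≤ σ := by
    have h6 : ε₁ ≤ σ / (2 * (C * b)) := (min_le_right _ _).trans (min_le_right _ _)
    rw [le_div_iff₀ (by linarith)] at h6
    linarith
  set δ : ℝ := min 1 (D / 56) with hδ
  have hδ0 : 0 < δ := lt_min one_pos (by linarith)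
  have hδ1 : δ ≤ 1 := min_le_left _ _
  have hδD : δ ≤ D / 56 := min_le_right _ _
  set δ₁ : ℝ := min 1 (D / 16) with hδ₁
  have hδ₁0 : 0 < δ₁ := lt_min one_pos (by linarith)
  have hδ₁1 : δ₁ ≤ 1 := min_le_left _ _
  have hδ₁D : δ₁ ≤ D / 16 := min_le_right _ _
  obtain ⟨K, hK⟩ := exists_nat_ge (1 / ε₁)
  have hK1 : 1 ≤ (K + 2) * ε₁ := by
    rw [div_le_iff₀ hε0] at hK
    have : (K + 2 : ℝ) * ε₁ = K * ε₁ + 2 * ε₁ := by ring
    linarith
  obtain ⟨η₁, hη₁, HMT⟩ := Pool.Agent.W505.DC.MT Pool.Agent.W505.DC.MI A0 F f hSF ε₁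
    (ε₁ * δ) K hε0 (by linarith) (by positivity)
  obtain ⟨η₂, hη₂, HMI⟩ := Pool.Agent.W505.DC.MI (1 / 5) (δ₁ / 6 / (3 * A0)) (δ₁ / 6) (5 / 4 * A0) (by norm_num)
    (by norm_num) (by positivity) (by positivity) (by positivity)
  obtain ⟨Y1, hM⟩ := hg.mer ε₁ (min η₁ (min η₂ 1)) hε0 (by linarith) (lt_min hη₁ (lt_min hη₂ one_pos))
  obtain ⟨c1, hc1, HP⟩ := hg.prod
  obtain ⟨Y2, hJ⟩ := exJ' ε₁ hε0
  have ev1 : ∀ᶠ Y : ℕ in atTop, (w : ℝ) + 1 ≤ (Y : ℝ) ^ ε₁ :=
    tendsto_natCast_atTop_atTop.eventually ((tendsto_rpow_atTop hε0).eventually_ge_atTop _)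
  have ev2 : ∀ᶠ Y : ℕ in atTop, max 1 (48 / (c1 * Real.log 2 * D)) ≤ Real.log (Y : ℝ) :=
    tendsto_natCast_atTop_atTop.eventually (Real.tendsto_log_atTop.eventually_ge_atTop _)
  obtain ⟨Y3, hY3⟩ := eventually_atTop.1 (ev1.and (ev2.and (eventually_ge_atTop 3)))
  refine ⟨c1 * Real.log 2 * D / 8, by positivity, max Y1 (max Y2 Y3), ?_⟩
  intro Y hY α A G X hX hG hRS
  have hYY1 : Y1 ≤ Y := (le_max_left _ _).trans hY
  have hYY2 : Y2 ≤ Y := ((le_max_left _ _).trans (le_max_right _ _)).trans hY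
  obtain ⟨e1, e2, e4⟩ := hY3 Y (((le_max_right _ _).trans (le_max_right _ _)).trans hY)
  obtain ⟨J, hJ1, hJ2⟩ := hJ Y hYY2
  have hYr : (3 : ℝ) ≤ Y := by exact_mod_cast e4
  have hY1r : (1 : ℝ) ≤ Y := by linarith
  have hY2 : 2 ≤ Y := by omega
  have hlY1 : 1 ≤ Real.log Y := (le_max_left _ _).trans e2
  have hlYD := (le_max_right _ _).trans e2
  have hlY : 0 < Real.log Y := by linarith
  -- size of J
  have hJlog : (2 : ℝ) ^ J * Real.log 2 ≤ 2 * ε₁ * Real.log Y := by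
    have h6 := Real.log_le_log (by positivity) hJ2
    rw [Real.log_rpow (by linarith), Real.log_pow] at h6
    push_cast at h6
    exact h6
  have hJc : (J : ℝ) + 4 ≤ 6 * Real.log Y := by
    have h6 : (J : ℝ) ≤ 2 ^ J := by exact_mod_cast Nat.lt_two_pow_self.le
    have h7 : (2 : ℝ) ^ J * 0.69 ≤ 2 * ε₁ * Real.log Y := by
      refine le_trans ?_ hJlog
      apply mul_le_mul_of_nonneg_left hlog2.le (by positivity)
    have h8 : ε₁ * Real.log Y ≤ 1 / 5 * Real.log Y := mul_le_mul_of_nonneg_right hε5 hlY.le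
    exact num2 h6 h7 h8 hlY1
  have hlow : ∀ p : ℕ, p.Prime → ε₁ ≤ tt Y p → (Y : ℝ) ^ ε₁ ≤ p := by
    intro p hp h
    have hp0 : (0 : ℝ) < p := by exact_mod_cast hp.pos
    unfold tt at h
    rw [le_div_iff₀ hlY] at h
    rw [← Real.log_le_log_iff (by positivity) hp0, Real.log_rpow (by linarith)]
    exact h
  have hw : ∀ p : ℕ, p.Prime → ε₁ ≤ tt Y p → w < p := by
    intro p hp h
    have h1 := hlow p hp h
    have : (w : ℝ) < p := by linarith
    exact_mod_cast this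
  set P1 : Finset ℕ := (PS w Y).filter (fun p => tt Y p < ε₁) with hP1
  set P2 : Finset ℕ := pr Y ε₁ (1 / 5) with hP2
  set P3 : Finset ℕ := pr Y (1 / 5) v with hP3
  have m1 : ∀ p ∈ P1, p.Prime ∧ w < p ∧ p < 2 ^ 2 ^ J := by
    intro p hp
    rw [hP1, mem_filter] at hp
    obtain ⟨h1, h2⟩ := hp
    unfold PS at h1
    rw [mem_filter, mem_Icc] at h1
    refine ⟨h1.2.1, h1.2.2, ?_⟩
    have hp0 : (0 : ℝ) < p := by exact_mod_cast h1.2.1.pos
    unfold tt at h2
    rw [div_lt_iff₀ hlY, ← Real.log_rpow (by linarith), Real.log_lt_log_iff hp0 (by positivity)] at h2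
    have h3 := h2.trans_le hJ1
    exact_mod_cast h3
  have m2 : ∀ p ∈ P2, p.Prime ∧ w < p := by
    intro p hp
    rw [hP2, mem_pr] at hp
    exact ⟨hp.2.1, hw p hp.2.1 hp.2.2.1⟩
  have m3 : ∀ p ∈ P3, (p.Prime ∧ w < p) ∧ 1 / 5 ≤ tt Y p ∧ tt Y p < v := by
    intro p hp
    rw [hP3, mem_pr] at hp
    exact ⟨⟨hp.2.1, hw p hp.2.1 (hε5.trans hp.2.2.1)⟩, hp.2.2⟩
  obtain ⟨cU, cL, g1, g2, g3, g4⟩ := HF κ b J w P1 hb1 hCw (fun p hp => ⟨(m1 p hp).1, (m1 p hp).2.1, (m1 p hp).2.2.le⟩)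
  obtain ⟨a1, a2, a3, a4⟩ := g4 g (fun p hp => ⟨hg.nn p (m1 p hp).1 (m1 p hp).2.1, hg.le (m1 p hp).1 (m1 p hp).2.1⟩)
  have hV1 := HP J P1 m1
  set V1 : ℝ := ∏ p ∈ P1, (1 - g p) with hV1def
  have hV10 : 0 < V1 := lt_of_lt_of_le (by positivity) hV1
  set yU : Finset ℕ → ℝ := lc P2 (tt Y) K true 1 (1 / 5) with hyU
  set yL : Finset ℕ → ℝ := lc P2 (tt Y) K false 1 (1 / 5) with hyL
  set uq : ℕ → Finset ℕ → ℝ := fun q => lc P2 (tt Y) K true (1 - tt Y q) (min (1 / 5) (1 - tt Y q)) with huq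
  have key := ws_sum (K := K) hY2 hε0 hε5 hv hv1 (B := (J : ℝ) + 1) (by positivity) hσ.le hw cU cL P1 P2 P3 hP1 hP2 hP3 g1 (by
      intro T hT hne
      have h1 := g2 T hT hne
      have h2 : ((∏ p ∈ T, p : ℕ) : ℝ) ≤ ((2 : ℝ) ^ 2 ^ J) ^ (C * b) := by exact_mod_cast h1
      refine h2.trans ?_
      calc ((2 : ℝ) ^ 2 ^ J) ^ (C * b) ≤ ((Y : ℝ) ^ (2 * ε₁)) ^ (C * b) := pow_le_pow_left₀ (by positivity) hJ2 _
        _ = (Y : ℝ) ^ (2 * ε₁ * (C * b)) := by
            rw [← Real.rpow_natCast, ← Real.rpow_mul (by linarith)]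
            push_cast
            rfl
        _ ≤ (Y : ℝ) ^ σ := Real.rpow_le_rpow_of_exponent_le hY1r hεb) g3 yU yL hyU hyL uq (fun q => rfl) A G X g hG
  -- Mertens
  have hMer2 : Mer P2 (tt Y) g ε₁ (1 / 5) η₁ := by
    refine Mer_pr rfl (fun a b h1 h2 h3 => ?_) (by norm_num)
    exact (hM Y hYY1 a b h1 h2 h3).trans (min_le_left _ _)
  have hMer3 : Mer P3 (tt Y) g (1 / 5) v η₂ := by
    refine Mer_pr rfl (fun a b h1 h2 h3 => ?_) hv1.le
    exact (hM Y hYY1 a b (hε5.trans h1) h2 h3).trans ((min_le_right _ _).trans (min_le_left _ _))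
  have hsiz : Siz P2 (tt Y) := Siz_pr hY2 hε0
  have hMT := HMT P2 (tt Y) g (1 / 5) (by norm_num) (fun p hp => hg.nn p (m2 p hp).1 (m2 p hp).2)
    (fun p hp => (mem_pr.1 hp).2.2.1) hMer2 K le_rfl
  have h15 := hMT 1 (1 / 5) hK1 hε5 le_rfl (by norm_num) le_rfl
  have c4 : ε₁ * (L - δ) ≤ VV P2 yL g := by
    rw [hyL, lc_V P2 (tt Y) hsiz K false 1 (1 / 5) (by norm_num) (fun _ => by norm_num)]
    refine le_trans ?_ (h15.2 (by norm_num))
    have h1 := f5 hSF
    rw [show (1 : ℝ) / (1 / 5) = 5 by norm_num]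
    have h2 : ε₁ / (1 / 5) * f 5 = ε₁ * (5 * f 5) := by ring
    rw [h2, mul_sub]
    have h3 := mul_le_mul_of_nonneg_left h1 hε0.le
    rw [← hL] at h3
    linarith
  have c5 : VV P2 yU g ≤ ε₁ * (F5 + δ) := by
    rw [hyU, lc_V P2 (tt Y) hsiz K true 1 (1 / 5) (by norm_num) (fun h => by simp at h)]
    refine h15.1.trans (le_of_eq ?_)
    rw [show (1 : ℝ) / (1 / 5) = 5 by norm_num, hF5]
    ring
  have hLδ : 0 ≤ L - δ := by
    have : D ≤ L := by rw [hD]; linarith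
    linarith
  have mm := comp_main hV10.le hε0.le hβ0.le a1 a3 a4 a2 c4 c5 (by linarith) hLδ
  -- the sum over q
  have hqs : ∑ q ∈ P3, (1 - tt Y q / v) * (g q * (VV P1 cU g * VV P2 (uq q) g)) ≤
      (1 + β) * V1 * ε₁ * (I + δ₁ + 3 * δ) := by
    have h1 : ∀ q ∈ P3, (1 - tt Y q / v) * (g q * (VV P1 cU g * VV P2 (uq q) g)) ≤
        (1 + β) * V1 * ε₁ * (g q * (A0 * qf (tt Y q)) + g q * δ) := by
      intro q hq
      obtain ⟨⟨q1, q2⟩, q3, q4⟩ := m3 q hq
      have hτ : 0 < 1 - tt Y q := by linarith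
      have hM0 : VV P2 (uq q) g ≤ ε₁ / (min (1 / 5) (1 - tt Y q)) * F ((1 - tt Y q) / (min (1 / 5) (1 - tt Y q))) + ε₁ * δ := by
        simp only [huq]
        rw [lc_V P2 (tt Y) hsiz K true _ _ hτ.le (fun h => by simp at h)]
        refine (hMT (1 - tt Y q) (min (1 / 5) (1 - tt Y q)) ?_ ?_ (min_le_left _ _) (min_le_right _ _) ?_).1
        · linarith [tt_nonneg hY2 q]
        · exact le_min hε5 (by linarith)
        · linarith [tt_nonneg hY2 q]
      have h2 := q_main hSF hε0 (by positivity) q3 q4 hv1 hv hM0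
      have h3 := hg.nn q q1 q2
      have hU0 : 0 ≤ VV P1 cU g := hV10.le.trans a3
      have hqf := qf_one (tt Y q)
      have h4 : VV P1 cU g * ((1 - tt Y q / v) * VV P2 (uq q) g) ≤ ((1 + β) * V1) * (ε₁ * (A0 * qf (tt Y q)) + ε₁ * δ) := by
        refine (mul_le_mul_of_nonneg_left h2 hU0).trans ?_
        apply mul_le_mul_of_nonneg_right a4
        positivity
      calc (1 - tt Y q / v) * (g q * (VV P1 cU g * VV P2 (uq q) g)) =
          g q * (VV P1 cU g * ((1 - tt Y q / v) * VV P2 (uq q) g)) := by ring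
        _ ≤ g q * (((1 + β) * V1) * (ε₁ * (A0 * qf (tt Y q)) + ε₁ * δ)) := mul_le_mul_of_nonneg_left h4 h3
        _ = _ := by ring
    refine (sum_le_sum h1).trans ?_
    rw [← mul_sum]
    apply mul_le_mul_of_nonneg_left _ (by positivity)
    rw [sum_add_distrib]
    have hfil : P3.filter (fun p => 1 / 5 ≤ tt Y p ∧ tt Y p < v) = P3 := by
      apply filter_true_of_mem
      intro p hp
      exact (m3 p hp).2
    have hmi := HMI P3 (tt Y) g v hv1.le (fun p hp => hg.nn p (m3 p hp).1.1 (m3 p hp).1.2) hMer3 (1 / 5) v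
      (fun x => A0 * qf x) le_rfl (by linarith) le_rfl (continuous_const.mul qf_cont).continuousOn (by
        intro x hx
        have h1 := qf_one x
        have h2 := qf_le x hx.1
        rw [abs_of_nonneg (by positivity)]
        have h3 := mul_le_mul_of_nonneg_left h2 hA.le
        linarith) (by
        intro x hx y hy hxy
        rw [← mul_sub, abs_mul, abs_of_pos hA]
        have h1 := qf_lip x y hx.1 hy.1
        calc A0 * |qf x - qf y| ≤ A0 * (3 * |x - y|) := mul_le_mul_of_nonneg_left h1 hA.le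
          _ ≤ A0 * (3 * (δ₁ / 6 / (3 * A0))) := by gcongr
          _ = δ₁ / 6 := by field_simp)
    rw [hfil] at hmi
    have hint : ∫ x in (1 / 5 : ℝ)..v, A0 * qf x / x ≤ I := by
      have h1 : ∫ x in (1 / 5 : ℝ)..v, A0 * qf x / x = A0 * ∫ x in (1 / 5 : ℝ)..v, qf x / x := by
        rw [← intervalIntegral.integral_const_mul]
        congr 1
        funext x
        ring
      rw [h1, hI]
      exact mul_le_mul_of_nonneg_left (qf_int v hv hv1.le) hA.le
    have hlog5 : Real.log 5 ≤ 1.63 := by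
      have h3 : Real.log ((5 : ℝ) ^ 3) ≤ Real.log ((2 : ℝ) ^ 7) := Real.log_le_log (by norm_num) (by norm_num)
      rw [Real.log_pow, Real.log_pow] at h3
      push_cast at h3
      linarith [Real.log_two_lt_d9]
    have hmi2 : δ₁ / 6 * (2 * Real.log (1 / (1 / 5)) + 2) ≤ δ₁ := by
      rw [show (1 : ℝ) / (1 / 5) = 5 by norm_num]
      have h1 : δ₁ / 6 * (2 * Real.log 5 + 2) ≤ δ₁ / 6 * 6 := mul_le_mul_of_nonneg_left (by linarith) (by linarith)
      linarith
    have h5 : ∑ q ∈ P3, g q * (A0 * qf (tt Y q)) ≤ I + δ₁ := by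
      have := (abs_le.1 (hmi.trans hmi2)).2
      linarith
    have h6 : ∑ q ∈ P3, g q ≤ 3 := by
      have h7 := (abs_le.1 ((hM Y hYY1 (1 / 5) v hε5 (by linarith) hv1.le).trans ((min_le_right _ _).trans (min_le_right _ _)))).2
      have h8 : Real.log (v / (1 / 5)) ≤ Real.log 5 := by
        apply Real.log_le_log
        · apply div_pos (by linarith) (by norm_num)
        · rw [div_le_iff₀ (by norm_num)]; linarith
      linarith
    rw [← sum_mul]
    have h9 := mul_le_mul_of_nonneg_right h6 hδ0.le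
    linarith
  -- conclusion
  have hmain : V1 * ε₁ * (D / 2) ≤ (VV P1 cL g * VV P2 yU g + VV P1 cU g * VV P2 yL g - VV P1 cU g * VV P2 yU g) -
      25 / 31 * ∑ q ∈ P3, (1 - tt Y q / v) * (g q * (VV P1 cU g * VV P2 (uq q) g)) := by
    have h1 : V1 * ε₁ * (D / 2) ≤ V1 * ε₁ * ((L - δ) - 2 * β * (F5 + δ)) - 25 / 31 * ((1 + β) * V1 * ε₁ * (I + δ₁ + 3 * δ)) := by
      have h2 : V1 * ε₁ * ((L - δ) - 2 * β * (F5 + δ)) - 25 / 31 * ((1 + β) * V1 * ε₁ * (I + δ₁ + 3 * δ)) =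
          V1 * ε₁ * ((L - δ) - 2 * β * (F5 + δ) - 25 / 31 * (1 + β) * (I + δ₁ + 3 * δ)) := by ring
      rw [h2]
      apply mul_le_mul_of_nonneg_left _ (by positivity)
      exact num1 hβ0 hβ1 hδ0 hδ1 hδD hδ₁0 hδ₁1 hδ₁D hD hI0 hb2
    linarith
  have hVε : c1 * Real.log 2 / (2 * Real.log Y) ≤ V1 * ε₁ := by
    have h6 : Real.log 2 / (2 * Real.log Y) ≤ ε₁ / 2 ^ J := by
      rw [div_le_div_iff₀ (by positivity) (by positivity)]
      linarith
    calc c1 * Real.log 2 / (2 * Real.log Y) = c1 * (Real.log 2 / (2 * Real.log Y)) := by ring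
      _ ≤ c1 * (ε₁ / 2 ^ J) := mul_le_mul_of_nonneg_left h6 hc1.le
      _ = c1 / 2 ^ J * ε₁ := by ring
      _ ≤ V1 * ε₁ := mul_le_mul_of_nonneg_right hV1 hε0.le
  have hRS0 : 0 ≤ RS g A G X w Y σ := by
    unfold RS
    exact sum_nonneg fun T _ => abs_nonneg _
  have herr : ((J : ℝ) + 1 + 3) * RS g A G X w Y σ ≤ c1 * Real.log 2 * D / 8 * X / Real.log Y := by
    calc ((J : ℝ) + 1 + 3) * RS g A G X w Y σ ≤ (6 * Real.log Y) * (X / Real.log Y ^ 3) := by
          apply mul_le_mul (by linarith) hRS hRS0 (by positivity)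
      _ = 6 / Real.log Y * X / Real.log Y := by
          field_simp
      _ ≤ c1 * Real.log 2 * D / 8 * X / Real.log Y := by
          apply div_le_div_of_nonneg_right _ hlY.le
          apply mul_le_mul_of_nonneg_right _ hX
          rw [div_le_iff₀ hlY]
          rw [div_le_iff₀ (by positivity)] at hlYD
          linarith
  have hfin : c1 * Real.log 2 * D / 4 * X / Real.log Y ≤ X * ((VV P1 cL g * VV P2 yU g + VV P1 cU g * VV P2 yL g - VV P1 cU g * VV P2 yU g) -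
      25 / 31 * ∑ q ∈ P3, (1 - tt Y q / v) * (g q * (VV P1 cU g * VV P2 (uq q) g))) := by
    calc c1 * Real.log 2 * D / 4 * X / Real.log Y = X * (c1 * Real.log 2 / (2 * Real.log Y) * (D / 2)) := by
          field_simp
          ring
      _ ≤ X * (V1 * ε₁ * (D / 2)) := by
          apply mul_le_mul_of_nonneg_left _ hX
          apply mul_le_mul_of_nonneg_right hVε (by positivity)
      _ ≤ _ := mul_le_mul_of_nonneg_left hmain hX
  refine le_trans ?_ key
  have e5 : c1 * Real.log 2 * D / 8 * X / Real.log Y + c1 * Real.log 2 * D / 8 * X / Real.log Y = c1 * Real.log 2 * D / 4 * X / Real.log Y := by ring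
  rw [← mul_sub]
  linarith

end Run7.h914
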