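import Pool.Agent.Run7.h914.Loc
import Pool.Agent.Run7.h914.Ws

/-! The remainder for the values of `n ^ k + m ^ k + 1`. -/

set_option autoImplicit false
set_option linter.all false

open Finset Filter Pool.Agent.R410.PW

namespace Run7.h914

theorem gF_GD {k : ℕ} (hk : 2 ≤ k) {w : ℕ} (h1 : k * k ≤ w) (h2 : 4 * MC k ≤ w) : GD (gF k) (MC k) w := by
  refine ⟨by linarith [MC_ge k], h2, ?_, ?_⟩
  · intro p _ _
    unfold gF
    positivity
  · intro p hp hw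
    haveI : Fact p.Prime := ⟨hp⟩
    haveI : NeZero p := ⟨hp.ne_zero⟩
    rw [gF_eq]
    have h3 := card_ZF (p := p) hk (by omega)
    have hp0 : (0 : ℝ) < p := by exact_mod_cast hp.pos
    have hs0 : 0 < √(p : ℝ) := Real.sqrt_pos.2 hp0
    have hss : √(p : ℝ) * √(p : ℝ) = p := Real.mul_self_sqrt hp0.le
    have h4 : ((ZF p k).card : ℝ) / (p : ℝ) ^ 2 - 1 / p = (((ZF p k).card : ℝ) - p) / (p : ℝ) ^ 2 := by
      field_simp
    rw [h4, abs_div, abs_of_pos (show (0 : ℝ) < (p : ℝ) ^ 2 by positivity), div_le_div_iff₀ (by positivity) (by positivity)]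
    have h5 : (WC k k k : ℝ) ≤ MC k := by
      unfold MC
      have : (0 : ℝ) ≤ EC k := Nat.cast_nonneg _
      linarith
    calc |((ZF p k).card : ℝ) - p| * ((p : ℝ) * √(p : ℝ)) ≤ ((WC k k k : ℝ) * √(p : ℝ)) * ((p : ℝ) * √(p : ℝ)) := by
          apply mul_le_mul_of_nonneg_right h3 (by positivity)
      _ = (WC k k k : ℝ) * (p : ℝ) * (√(p : ℝ) * √(p : ℝ)) := by ring
      _ = (WC k k k : ℝ) * (p : ℝ) ^ 2 := by rw [hss]; ring
      _ ≤ MC k * (p : ℝ) ^ 2 := mul_le_mul_of_nonneg_right h5 (by positivity)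

theorem sum_inv_sqrt (n : ℕ) : ∑ q ∈ Icc 1 n, 1 / √(q : ℝ) ≤ 2 * √(n : ℝ) := by
  induction n with
  | zero => simp
  | succ n ih =>
    rw [sum_Icc_succ_top (by omega)]
    have h1 : 1 / √((n + 1 : ℕ) : ℝ) ≤ 2 * (√((n + 1 : ℕ) : ℝ) - √(n : ℝ)) := by
      have hp : (0 : ℝ) < ((n + 1 : ℕ) : ℝ) := by positivity
      have hs : 0 < √((n + 1 : ℕ) : ℝ) := Real.sqrt_pos.2 hp
      rw [div_le_iff₀ hs]
      have e1 : √((n + 1 : ℕ) : ℝ) * √((n + 1 : ℕ) : ℝ) = n + 1 := by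
        rw [Real.mul_self_sqrt hp.le]; push_cast; ring
      have e2 : √(n : ℝ) * √(n : ℝ) = n := Real.mul_self_sqrt (Nat.cast_nonneg n)
      nlinarith [sq_nonneg (√((n + 1 : ℕ) : ℝ) - √(n : ℝ))]
    linarith

theorem sum_sqrt (n : ℕ) : ∑ q ∈ Icc 1 n, √(q : ℝ) ≤ n * √(n : ℝ) := by
  calc ∑ q ∈ Icc 1 n, √(q : ℝ) ≤ ∑ q ∈ Icc 1 n, √(n : ℝ) := by
        apply sum_le_sum
        intro q hq
        apply Real.sqrt_le_sqrt
        exact_mod_cast (mem_Icc.1 hq).2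
    _ = n * √(n : ℝ) := by rw [sum_const, nsmul_eq_mul, Nat.card_Icc]; simp

theorem pow_card_le {B ε : ℝ} (hB : 1 ≤ B) (hε : 0 < ε) : ∃ C : ℝ, 0 < C ∧ ∀ T : Finset ℕ, (∀ p ∈ T, p.Prime) →
    B ^ T.card ≤ C * ((∏ p ∈ T, p : ℕ) : ℝ) ^ ε := by
  classical
  have hev : ∀ᶠ x : ℕ in atTop, B ≤ (x : ℝ) ^ ε :=
    tendsto_natCast_atTop_atTop.eventually ((tendsto_rpow_atTop hε).eventually_ge_atTop _)
  obtain ⟨L0, hL0⟩ := eventually_atTop.1 hev
  refine ⟨B ^ L0, by positivity, fun T hT => ?_⟩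
  have h1 : B ^ T.card ≤ ∏ p ∈ T, ((if p < L0 then B else 1) * (p : ℝ) ^ ε) := by
    rw [← prod_const]
    apply Finset.prod_le_prod
    · intro p _; linarith
    · intro p hp
      have hp1 : (1 : ℝ) ≤ p := by exact_mod_cast (hT p hp).one_lt.le
      have hp2 : (1 : ℝ) ≤ (p : ℝ) ^ ε := Real.one_le_rpow hp1 hε.le
      split_ifs with h
      · nlinarith
      · rw [one_mul]; exact hL0 p (by omega)
  refine h1.trans ?_
  rw [prod_mul_distrib]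
  have h2 : ∏ p ∈ T, (if p < L0 then B else 1) ≤ B ^ L0 := by
    rw [prod_ite, prod_const, prod_const_one, mul_one]
    apply pow_le_pow_right₀ hB
    calc (T.filter (fun p => p < L0)).card ≤ (range L0).card := by
          apply card_le_card
          intro p hp
          exact mem_range.2 (mem_filter.1 hp).2
      _ = L0 := card_range _
  have h3 : ∏ p ∈ T, (p : ℝ) ^ ε = ((∏ p ∈ T, p : ℕ) : ℝ) ^ ε := by
    push_cast
    rw [Real.finset_prod_rpow]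
    intro p _
    exact Nat.cast_nonneg p
  rw [h3]
  exact mul_le_mul_of_nonneg_right h2 (by positivity)

theorem log_cube (c s : ℝ) (hs : 0 < s) : ∀ᶠ N : ℕ in atTop, c * Real.log (N : ℝ) ^ 3 ≤ (N : ℝ) ^ s := by
  have h1 : (fun x : ℝ => c * Real.log x ^ 3) =o[atTop] fun x => x ^ s := by
    apply Asymptotics.IsLittleO.const_mul_left
    have h2 := isLittleO_log_rpow_rpow_atTop 3 hs
    refine h2.congr_left ?_
    intro x
    norm_cast
  have h3 := h1.bound (show (0 : ℝ) < 1 by norm_num)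
  have h4 : ∀ᶠ x : ℝ in atTop, c * Real.log x ^ 3 ≤ x ^ s := by
    filter_upwards [h3, eventually_gt_atTop 0] with x hx hx0
    rw [one_mul, Real.norm_eq_abs, Real.norm_eq_abs, abs_of_pos (Real.rpow_pos_of_pos hx0 s)] at hx
    exact (le_abs_self _).trans hx
  exact tendsto_natCast_atTop_atTop.eventually h4

/-- **The total remainder.** -/
theorem RS_bound {k : ℕ} (hk : 2 ≤ k) {w : ℕ} (hw : k * k ≤ w) {ρ : ℝ} (hρ : 0 < ρ) (hρ1 : ρ ≤ 1 / 3) :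
    ∃ N0 : ℕ, ∀ N : ℕ, N0 ≤ N → ∀ (Y : ℕ) (σ : ℝ), 3 ≤ Y → 0 < σ → (Y : ℝ) ^ (1 + σ) ≤ (N : ℝ) ^ (4 / 3 - ρ) →
      RS (gF k) (Q4 N) (FV (w.factorial) k) ((N : ℝ) ^ 4) w Y σ ≤ (N : ℝ) ^ 4 / Real.log Y ^ 3 := by
  have hB1 := MC_ge k
  obtain ⟨C, hC, HC⟩ := pow_card_le (B := 2 * MC k) (ε := ρ / 8) (by linarith) (by linarith)
  obtain ⟨N1, hN1⟩ := eventually_atTop.1 ((log_cube (40 * C) (ρ / 3) (by linarith)).and (eventually_ge_atTop 2))
  refine ⟨N1, fun N hN Y σ hY hσ hYN => ?_⟩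
  obtain ⟨e1, hN2⟩ := hN1 N hN
  have hNr : (2 : ℝ) ≤ N := by exact_mod_cast hN2
  have hYr : (3 : ℝ) ≤ Y := by exact_mod_cast hY
  have hN0 : (0 : ℝ) < N := by linarith
  have hN1r : (1 : ℝ) ≤ N := by linarith
  set D : ℝ := (N : ℝ) ^ (4 / 3 - ρ) with hD
  have hD0 : 0 < D := by rw [hD]; positivity
  have hTS : ∀ T ∈ TS w Y σ, (∀ p ∈ T, p.Prime ∧ w < p) ∧ ((∏ p ∈ T, p : ℕ) : ℝ) ≤ D := by
    intro T hT
    unfold TS at hT
    rw [mem_filter, mem_powerset] at hT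
    refine ⟨fun p hp => ?_, hT.2.trans hYN⟩
    have := hT.1 hp
    unfold PS at this
    rw [mem_filter] at this
    exact this.2
  have hprod1 : ∀ T ∈ TS w Y σ, 1 ≤ ∏ p ∈ T, p := by
    intro T hT
    exact Finset.prod_pos fun p hp => ((hTS T hT).1 p hp).1.pos
  set h : ℕ → ℝ := fun q => 2 * (N : ℝ) ^ 3 * (1 / √(q : ℝ)) + (N : ℝ) ^ 2 * √(q : ℝ) with hh
  have hh0 : ∀ q, 0 ≤ h q := by
    intro q
    simp only [hh]
    positivity
  have hterm : ∀ T ∈ TS w Y σ, |NA (Q4 N) (FV w.factorial k) T - (N : ℝ) ^ 4 * ∏ p ∈ T, gF k p| ≤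
      C * D ^ (ρ / 8) * h (∏ p ∈ T, p) := by
    intro T hT
    have h1 := equiF hk w.factorial T (fun p hp => by
      obtain ⟨h2, h3⟩ := (hTS T hT).1 p hp
      refine ⟨h2, by omega, ?_⟩
      rw [h2.dvd_factorial]
      omega) N
    unfold NA
    refine h1.trans ?_
    have h2 := HC T (fun p hp => ((hTS T hT).1 p hp).1)
    have h3 : ((∏ p ∈ T, p : ℕ) : ℝ) ^ (ρ / 8) ≤ D ^ (ρ / 8) :=
      Real.rpow_le_rpow (Nat.cast_nonneg _) (hTS T hT).2 (by linarith)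
    have h4 : 2 * (N : ℝ) ^ 3 / √((∏ p ∈ T, p : ℕ) : ℝ) + (N : ℝ) ^ 2 * √((∏ p ∈ T, p : ℕ) : ℝ) = h (∏ p ∈ T, p) := by
      simp only [hh]
      ring
    rw [h4]
    apply mul_le_mul_of_nonneg_right _ (hh0 _)
    exact h2.trans (mul_le_mul_of_nonneg_left h3 hC.le)
  unfold RS
  refine (sum_le_sum hterm).trans ?_
  rw [← mul_sum]
  have hsum : ∑ T ∈ TS w Y σ, h (∏ p ∈ T, p) ≤ 5 * (N : ℝ) ^ (4 - ρ / 2) := by
    have h1 : ∑ T ∈ TS w Y σ, h (∏ p ∈ T, p) ≤ ∑ q ∈ Icc 1 ⌊D⌋₊, h q := by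
      apply sum_inj_le (TS w Y σ) (Icc 1 ⌊D⌋₊) (fun T => ∏ p ∈ T, p)
      · intro T hT
        rw [mem_Icc]
        exact ⟨hprod1 T hT, Nat.le_floor (hTS T hT).2⟩
      · intro T hT T' hT' heq
        simp only at heq
        have h2 := Nat.primeFactors_prod (s := T) (fun p hp => ((hTS T hT).1 p hp).1)
        have h3 := Nat.primeFactors_prod (s := T') (fun p hp => ((hTS T' hT').1 p hp).1)
        rw [← h2, ← h3, heq]
      · intro q _
        exact hh0 q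
    refine h1.trans ?_
    have hfl : ((⌊D⌋₊ : ℕ) : ℝ) ≤ D := Nat.floor_le hD0.le
    have hsq : √((⌊D⌋₊ : ℕ) : ℝ) ≤ √D := Real.sqrt_le_sqrt hfl
    have h2 : ∑ q ∈ Icc 1 ⌊D⌋₊, h q ≤ 2 * (N : ℝ) ^ 3 * (2 * √D) + (N : ℝ) ^ 2 * (D * √D) := by
      simp only [hh]
      rw [sum_add_distrib, ← mul_sum, ← mul_sum]
      apply add_le_add
      · apply mul_le_mul_of_nonneg_left _ (by positivity)
        exact (sum_inv_sqrt _).trans (by linarith)
      · apply mul_le_mul_of_nonneg_left _ (by positivity)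
        exact (sum_sqrt _).trans (mul_le_mul hfl hsq (Real.sqrt_nonneg _) hD0.le)
    refine h2.trans ?_
    have hsD : √D = (N : ℝ) ^ (2 / 3 - ρ / 2) := by
      rw [Real.sqrt_eq_rpow, hD, ← Real.rpow_mul hN0.le]
      congr 1; ring
    have h3 : 2 * (N : ℝ) ^ 3 * (2 * √D) ≤ 4 * (N : ℝ) ^ (4 - ρ / 2) := by
      rw [hsD]
      have : (N : ℝ) ^ 3 * (N : ℝ) ^ (2 / 3 - ρ / 2) ≤ (N : ℝ) ^ (4 - ρ / 2) := by
        rw [← Real.rpow_natCast, ← Real.rpow_add hN0]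
        apply Real.rpow_le_rpow_of_exponent_le hN1r
        push_cast
        linarith
      nlinarith
    have h4 : (N : ℝ) ^ 2 * (D * √D) ≤ (N : ℝ) ^ (4 - ρ / 2) := by
      rw [hsD, hD, ← Real.rpow_natCast, ← Real.rpow_add hN0, ← Real.rpow_add hN0]
      apply Real.rpow_le_rpow_of_exponent_le hN1r
      push_cast
      linarith
    linarith
  have hDe : D ^ (ρ / 8) ≤ (N : ℝ) ^ (ρ / 6) := by
    rw [hD, ← Real.rpow_mul hN0.le]
    apply Real.rpow_le_rpow_of_exponent_le hN1r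
    nlinarith
  have hlogY : Real.log Y ≤ 2 * Real.log N := by
    have h1 : (Y : ℝ) ≤ (N : ℝ) ^ (2 : ℝ) := by
      calc (Y : ℝ) = (Y : ℝ) ^ (1 : ℝ) := (Real.rpow_one _).symm
        _ ≤ (Y : ℝ) ^ (1 + σ) := Real.rpow_le_rpow_of_exponent_le (by linarith) (by linarith)
        _ ≤ (N : ℝ) ^ (4 / 3 - ρ) := hYN
        _ ≤ (N : ℝ) ^ (2 : ℝ) := Real.rpow_le_rpow_of_exponent_le hN1r (by linarith)
    have h2 := Real.log_le_log (by linarith) h1
    rwa [Real.log_rpow hN0] at h2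
  have hlY : 0 < Real.log Y := Real.log_pos (by linarith)
  rw [le_div_iff₀ (by positivity)]
  have h5 : Real.log Y ^ 3 ≤ 8 * Real.log N ^ 3 := by
    calc Real.log Y ^ 3 ≤ (2 * Real.log N) ^ 3 := pow_le_pow_left₀ hlY.le hlogY 3
      _ = 8 * Real.log N ^ 3 := by ring
  calc C * D ^ (ρ / 8) * (∑ T ∈ TS w Y σ, h (∏ p ∈ T, p)) * Real.log Y ^ 3 ≤
      C * (N : ℝ) ^ (ρ / 6) * (5 * (N : ℝ) ^ (4 - ρ / 2)) * (8 * Real.log N ^ 3) := by
        apply mul_le_mul _ h5 (by positivity) (by positivity)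
        apply mul_le_mul _ hsum (sum_nonneg fun T _ => hh0 _) (by positivity)
        exact mul_le_mul_of_nonneg_left hDe hC.le
    _ = (40 * C * Real.log N ^ 3) * ((N : ℝ) ^ (ρ / 6) * (N : ℝ) ^ (4 - ρ / 2)) := by ring
    _ ≤ (N : ℝ) ^ (ρ / 3) * ((N : ℝ) ^ (ρ / 6) * (N : ℝ) ^ (4 - ρ / 2)) := by
        apply mul_le_mul_of_nonneg_right e1 (by positivity)
    _ = (N : ℝ) ^ 4 := by
        rw [← Real.rpow_add hN0, ← Real.rpow_add hN0, ← Real.rpow_natCast]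
        congr 1
        push_cast
        ring

end Run7.h914
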