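import Mathlib

/-! Linear algebra: additivity of the trace, projections. -/

set_option autoImplicit false

open Module

namespace Run7.h914

section
variable {k V Q : Type*} [Field k] [AddCommGroup V] [Module k V] [AddCommGroup Q] [Module k Q]

/-- additivity of the trace -/
theorem trace_add_of_surj [FiniteDimensional k V] [FiniteDimensional k Q] (T : V →ₗ[k] V) (φ : V →ₗ[k] Q)
    (hφ : Function.Surjective φ) (S : Q →ₗ[k] Q) (h : ∀ x, φ (T x) = S (φ x))
    (hT : ∀ x ∈ LinearMap.ker φ, T x ∈ LinearMap.ker φ) :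
    LinearMap.trace k V T = LinearMap.trace k (LinearMap.ker φ) (T.restrict hT) + LinearMap.trace k Q S := by
  obtain ⟨σ, hσ⟩ := φ.exists_rightInverse_of_surjective (LinearMap.range_eq_top.2 hφ)
  have hσ' : ∀ q, φ (σ q) = q := fun q => LinearMap.congr_fun hσ q
  -- the projection on the kernel
  let ρ : V →ₗ[k] LinearMap.ker φ := LinearMap.codRestrict _ (LinearMap.id - σ ∘ₗ φ) (by
    intro x
    rw [LinearMap.mem_ker, LinearMap.sub_apply, map_sub, LinearMap.id_apply, LinearMap.comp_apply, hσ', sub_self])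
  let ι : LinearMap.ker φ →ₗ[k] V := (LinearMap.ker φ).subtype
  have e1 : T = (T ∘ₗ σ) ∘ₗ φ + (T ∘ₗ ι) ∘ₗ ρ := by
    ext x
    simp only [ρ, ι, LinearMap.add_apply, LinearMap.comp_apply, Submodule.subtype_apply, LinearMap.codRestrict_apply,
      LinearMap.sub_apply, LinearMap.id_apply, map_sub]
    abel
  have e2 : LinearMap.trace k V ((T ∘ₗ σ) ∘ₗ φ) = LinearMap.trace k Q S := by
    rw [LinearMap.trace_comp_comm']
    congr 1
    ext q
    simp only [LinearMap.comp_apply, h, hσ']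
  have e3 : LinearMap.trace k V ((T ∘ₗ ι) ∘ₗ ρ) = LinearMap.trace k (LinearMap.ker φ) (T.restrict hT) := by
    rw [LinearMap.trace_comp_comm']
    congr 1
    ext x
    have h1 : φ (T x) = 0 := hT x.1 x.2
    simp only [ρ, ι, LinearMap.comp_apply, Submodule.subtype_apply, LinearMap.codRestrict_apply, LinearMap.sub_apply,
      LinearMap.id_apply, LinearMap.coe_restrict_apply, h1, map_zero, sub_zero]
  calc LinearMap.trace k V T = LinearMap.trace k V ((T ∘ₗ σ) ∘ₗ φ + (T ∘ₗ ι) ∘ₗ ρ) := by rw [← e1]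
    _ = _ := by rw [map_add, e2, e3]; ring

/-- additivity of the trace, for submodules -/
theorem trace_sub {W : Submodule k V} [FiniteDimensional k W] [FiniteDimensional k Q] {U1 U2 : Submodule k W}
    (h21 : U2 ≤ U1) (T : W →ₗ[k] W)
    (hT1 : ∀ x ∈ U1, T x ∈ U1) (hT2 : ∀ x ∈ U2, T x ∈ U2) (φ : U1 →ₗ[k] Q) (hφ : Function.Surjective φ)
    (hker : ∀ x : U1, φ x = 0 ↔ x.1 ∈ U2) (S : Q →ₗ[k] Q) (h : ∀ x : U1, φ (T.restrict hT1 x) = S (φ x)) :
    LinearMap.trace k U1 (T.restrict hT1) = LinearMap.trace k U2 (T.restrict hT2) + LinearMap.trace k Q S := by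
  have hk : ∀ x ∈ LinearMap.ker φ, T.restrict hT1 x ∈ LinearMap.ker φ := by
    intro x hx
    rw [LinearMap.mem_ker, hker] at hx ⊢
    exact hT2 _ hx
  rw [trace_add_of_surj (T.restrict hT1) φ hφ S h hk]
  congr 1
  -- identify the kernel with U2
  have hke : LinearMap.ker φ = U2.comap U1.subtype := by
    ext x
    rw [LinearMap.mem_ker, hker]
    rfl
  let e0 : U2.comap U1.subtype ≃ₗ[k] U2 := Submodule.comapSubtypeEquivOfLe h21
  let e : LinearMap.ker φ ≃ₗ[k] U2 := (LinearEquiv.ofEq _ _ hke).trans e0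
  refine (LinearMap.trace_conj' (R := k) (M := ↥(LinearMap.ker φ)) (N := ↥U2)
    ((T.restrict hT1).restrict hk) e).symm.trans ?_
  congr 1

end

section
variable {k K : Type*} [Field k] [AddCommGroup K] [Module k K]

/-- projection onto a submodule -/
theorem exists_proj (W Y V : Submodule k K) (hWV : W ≤ V) (hd : Disjoint W Y) (hs : W ⊔ Y = V) :
    ∃ π : V →ₗ[k] W, (∀ w (hw : w ∈ W), π ⟨w, hWV hw⟩ = ⟨w, hw⟩) ∧ (∀ v : V, (v : K) - (π v : K) ∈ Y) ∧
      ∀ v : V, (v : K) ∈ Y → π v = 0 := by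
  have hYV : Y ≤ V := by rw [← hs]; exact le_sup_right
  have hc : IsCompl (W.comap V.subtype) (Y.comap V.subtype) := by
    constructor
    · rw [Submodule.disjoint_def] at hd ⊢
      intro x hx hy
      apply Subtype.ext
      exact hd x.1 hx hy
    · rw [codisjoint_iff, eq_top_iff]
      rintro ⟨x, hx⟩ -
      have hx' := hx
      rw [← hs, Submodule.mem_sup] at hx'
      obtain ⟨w, hw, y, hy, rfl⟩ := hx'
      rw [Submodule.mem_sup]
      exact ⟨⟨w, hWV hw⟩, hw, ⟨y, hYV hy⟩, hy, rfl⟩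
  let π0 := Submodule.projectionOnto _ _ hc
  let e : W.comap V.subtype ≃ₗ[k] W := Submodule.comapSubtypeEquivOfLe hWV
  have he : ∀ y : W.comap V.subtype, ((e y : W) : K) = ((y : V) : K) := fun y => rfl
  refine ⟨e.toLinearMap ∘ₗ π0, ?_, ?_, ?_⟩
  · intro w hw
    apply Subtype.ext
    change ((e (π0 ⟨w, hWV hw⟩) : W) : K) = w
    rw [he]
    have : π0 ⟨w, hWV hw⟩ = ⟨⟨w, hWV hw⟩, hw⟩ :=
      Submodule.projectionOnto_apply_left hc ⟨⟨w, hWV hw⟩, hw⟩
    rw [this]
  · intro v
    change (v : K) - ((e (π0 v) : W) : K) ∈ Y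
    rw [he]
    have h1 : v - (π0 v : V) ∈ Y.comap V.subtype := by
      rw [← Submodule.ker_projectionOnto hc, LinearMap.mem_ker, map_sub]
      have : π0 (π0 v : V) = π0 v := Submodule.projectionOnto_apply_left hc (π0 v)
      change π0 v - π0 (π0 v : V) = 0
      rw [this, sub_self]
    exact h1
  · intro v hv
    change e (π0 v) = 0
    have : π0 v = 0 := Submodule.projectionOnto_apply_right hc ⟨v, hv⟩
    rw [this, map_zero]

/-- an endomorphism with square zero has trace zero -/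
theorem trace_eq_zero_of_sq {V : Type*} [AddCommGroup V] [Module k V] [FiniteDimensional k V] (E : V →ₗ[k] V)
    (h : ∀ x, E (E x) = 0) : LinearMap.trace k V E = 0 := by
  have h1 : IsNilpotent E := ⟨2, by
    ext x
    rw [pow_two]
    exact h x⟩
  exact (LinearMap.isNilpotent_trace_of_isNilpotent h1).eq_zero

end

end Run7.h914
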