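import Pool.Agent.H525R3.FFp.Riemann
import Pool.Agent.Run7.h914.Tr

/-! A reciprocity law for function fields: the sum of the traces of the values of `u` at the zeros of a
function `f` equals the one at the poles, if `f` is close to `1` at the poles of `u`. -/

set_option autoImplicit false
set_option linter.all false
set_option linter.overlappingInstances false

open Module FF Pool.Agent.H525R3.FFp

namespace Run7.h914

variable {k K : Type*} [Field k] [Field K] [Algebra k K]

/-- the trace of the value of `u` at a place (zero at the poles of `u`) -/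
noncomputable def tP (u : K) (P : Place k K) : k := Algebra.trace k P.RF (P.red u)

/-- the sum of the traces of the values of `u` over a divisor -/
noncomputable def tD (u : K) (D : Place k K →₀ ℤ) : k := D.sum fun P n => n • tP u P

theorem tD_zero (u : K) : tD (k := k) u 0 = 0 := by simp [tD]

theorem tD_add (u : K) (D E : Place k K →₀ ℤ) : tD u (D + E) = tD u D + tD u E := by
  unfold tD
  rw [Finsupp.sum_add_index']
  · intro; simp
  · intro P a b; rw [add_smul]

theorem tD_neg (u : K) (D : Place k K →₀ ℤ) : tD u (-D) = - tD u D := by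
  have := tD_add u D (-D)
  rw [add_neg_cancel, tD_zero] at this
  exact (neg_eq_of_add_eq_zero_right this.symm).symm

theorem tD_sub (u : K) (D E : Place k K →₀ ℤ) : tD u (D - E) = tD u D - tD u E := by
  rw [sub_eq_add_neg, tD_add, tD_neg]; ring

theorem tD_single (u : K) (P : Place k K) (n : ℤ) : tD u (Finsupp.single P n) = n • tP u P := by
  unfold tD; rw [Finsupp.sum_single_index]; simp

variable [PerfectField k] [IsFF k K]

/-- the part of `W` in the Riemann-Roch space of `D` -/
def UU (W : Submodule k K) (D : Place k K →₀ ℤ) : Submodule k W := (LL D).comap W.subtype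

theorem mem_UU {W : Submodule k K} {D : Place k K →₀ ℤ} {x : W} : x ∈ UU W D ↔ (x : K) ∈ LL D := Iff.rfl

theorem mul_LL {u g : K} (hu : u ≠ 0) {D : Place k K →₀ ℤ} (hg : g ∈ LL D) : u * g ∈ LL (D + polar u) := by
  by_cases hg0 : g = 0
  · rw [hg0, mul_zero]; exact Submodule.zero_mem _
  rw [mem_LL] at hg ⊢
  right
  intro P
  have h1 := hg.resolve_left hg0 P
  rw [P.ord_mul hu hg0, Finsupp.add_apply, polar_apply]
  have := le_max_left (-P.ord u) 0
  omega

/-- the step -/
theorem step {u : K} (hu : u ≠ 0) {B A E : Place k K →₀ ℤ} {W V : Submodule k K} {N : ℕ}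
    (hW : W = LL (N • B)) (hV : V = LL ((N + 1) • B)) (hWV : W ≤ V) (hB : B = polar u)
    (π : V →ₗ[k] W) (hπY : ∀ v : V, (v : K) - (π v : K) ∈ LL ((N + 1) • B - A))
    (T : W →ₗ[k] W) (hT : ∀ (w : W) (h : u * (w : K) ∈ V), T w = π ⟨u * w, h⟩)
    (P : Place k K) (hP : 0 ≤ P.ord u) (hE : E + Finsupp.single P 1 ≤ A) (hE0 : 0 ≤ E) (hEE : (N : ℕ) • B - E ≤ N • B)
    (hdim : (finrank k (LL ((N : ℕ) • B - (E + Finsupp.single P 1))) : ℤ) + P.deg ≤ finrank k (LL ((N : ℕ) • B - E)))
    (h1 : ∀ x ∈ UU W ((N : ℕ) • B - E), T x ∈ UU W ((N : ℕ) • B - E))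
    (h2 : ∀ x ∈ UU W ((N : ℕ) • B - (E + Finsupp.single P 1)), T x ∈ UU W ((N : ℕ) • B - (E + Finsupp.single P 1))) :
    LinearMap.trace k _ (T.restrict h1) = LinearMap.trace k _ (T.restrict h2) + tP u P := by
  classical
  obtain ⟨t, ht0, ht⟩ := P.surj
  have hfW : FiniteDimensional k W := by rw [hW]; infer_instance
  have hBP : B P = 0 := by rw [hB, polar_apply, max_eq_right (by omega)]
  have hreg : ∀ f : UU W ((N : ℕ) • B - E), P.Reg (((f : W) : K) * t ^ (- E P)) := by
    rintro ⟨f, hf⟩
    rw [mem_UU] at hf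
    by_cases hf0 : (f : K) = 0
    · left; simp [hf0]
    · right
      have h1 := (hf.resolve_left hf0) P
      rw [P.ord_mul hf0 (zpow_ne_zero _ ht0), P.ord_zpow, ht]
      simp only [Finsupp.sub_apply, Finsupp.smul_apply, hBP, smul_zero] at h1
      omega
  let φ : UU W ((N : ℕ) • B - E) →ₗ[k] P.RF :=
    { toFun := fun f => P.red (((f : W) : K) * t ^ (- E P))
      map_add' := by
        intro f g
        rw [← P.red_add (hreg f) (hreg g), ← add_mul]; rfl
      map_smul' := by
        intro c f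
        rw [RingHom.id_apply, Algebra.smul_def c (P.red _), Place.algebraMap_RF,
          ← P.red_mul (P.reg_const c) (hreg f), ← mul_assoc, ← Algebra.smul_def]; rfl }
  have hker : ∀ x : UU W ((N : ℕ) • B - E), φ x = 0 ↔ x.1 ∈ UU W ((N : ℕ) • B - (E + Finsupp.single P 1)) := by
    intro f
    change P.red (((f : W) : K) * t ^ (- E P)) = 0 ↔ ((f : W) : K) ∈ LL _
    rw [P.red_eq_zero_iff (hreg f)]
    by_cases hf0 : ((f : W) : K) = 0
    · simp [hf0]
    · rw [P.ord_mul hf0 (zpow_ne_zero _ ht0), P.ord_zpow, ht]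
      have h1 : ((f : W) : K) * t ^ (- E P) ≠ 0 := mul_ne_zero hf0 (zpow_ne_zero _ ht0)
      simp only [h1, false_or]
      rw [mem_LL]
      simp only [hf0, false_or]
      have hf2 : ((f : W) : K) ∈ LL ((N : ℕ) • B - E) := f.2
      constructor
      · intro h2 Q
        by_cases hQ : Q = P
        · subst hQ
          simp only [Finsupp.sub_apply, Finsupp.smul_apply, hBP, smul_zero, Finsupp.add_apply, Finsupp.single_eq_same]
          omega
        · have := (hf2.resolve_left hf0) Q
          simp only [Finsupp.sub_apply, Finsupp.smul_apply, Finsupp.add_apply, Finsupp.single_eq_of_ne hQ] at this ⊢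
          omega
      · intro h2
        have := h2 P
        simp only [Finsupp.sub_apply, Finsupp.smul_apply, hBP, smul_zero, Finsupp.add_apply, Finsupp.single_eq_same] at this
        omega
  have h21 : UU W ((N : ℕ) • B - (E + Finsupp.single P 1)) ≤ UU W ((N : ℕ) • B - E) := by
    intro x hx
    rw [mem_UU] at hx ⊢
    refine LL_mono ?_ hx
    rw [← sub_sub]
    exact sub_le_self _ (by
      intro Q
      rw [Finsupp.coe_zero, Pi.zero_apply]
      by_cases hQ : Q = P
      · subst hQ; simp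
      · rw [Finsupp.single_eq_of_ne hQ])
  -- dimensions
  have hle1 : LL ((N : ℕ) • B - E) ≤ W := by rw [hW]; exact LL_mono hEE
  have hd1 : finrank k (UU W ((N : ℕ) • B - E)) = finrank k (LL ((N : ℕ) • B - E)) :=
    (Submodule.comapSubtypeEquivOfLe hle1).finrank_eq
  have hle2 : LL ((N : ℕ) • B - (E + Finsupp.single P 1)) ≤ W := by
    refine le_trans ?_ hle1
    apply LL_mono
    rw [← sub_sub]
    exact sub_le_self _ (by
      intro Q
      rw [Finsupp.coe_zero, Pi.zero_apply]
      by_cases hQ : Q = P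
      · subst hQ; simp
      · rw [Finsupp.single_eq_of_ne hQ])
  have hd2 : finrank k (UU W ((N : ℕ) • B - (E + Finsupp.single P 1))) =
      finrank k (LL ((N : ℕ) • B - (E + Finsupp.single P 1))) :=
    (Submodule.comapSubtypeEquivOfLe hle2).finrank_eq
  have hkerd : finrank k (LinearMap.ker φ) = finrank k (UU W ((N : ℕ) • B - (E + Finsupp.single P 1))) := by
    have hke : LinearMap.ker φ = (UU W ((N : ℕ) • B - (E + Finsupp.single P 1))).comap
        (UU W ((N : ℕ) • B - E)).subtype := by
      ext x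
      rw [LinearMap.mem_ker, hker]
      rfl
    rw [hke]
    exact (Submodule.comapSubtypeEquivOfLe h21).finrank_eq
  have hsurj : Function.Surjective φ := by
    rw [← LinearMap.range_eq_top]
    apply Submodule.eq_top_of_finrank_eq
    have h3 := LinearMap.finrank_range_add_finrank_ker (K := k) (V := ↥(UU W ((N : ℕ) • B - E))) (V₂ := P.RF) φ
    have h4 : finrank k (LinearMap.range φ) ≤ finrank k P.RF := Submodule.finrank_le _
    rw [hkerd, hd2, hd1] at h3
    have h5 : P.deg = finrank k P.RF := rfl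
    omega
  have key := trace_sub (Q := P.RF) h21 T h1 h2 φ hsurj hker (Algebra.lmul k P.RF (P.red u)) ?_
  · rw [key]
    congr 1
  · intro x
    change P.red (((T x.1 : W) : K) * t ^ (- E P)) = P.red u * P.red (((x : W) : K) * t ^ (- E P))
    have hxV : u * ((x : W) : K) ∈ V := by
      rw [hV, add_smul, one_smul]
      have h3 : ((x : W) : K) ∈ LL (N • B) := by rw [← hW]; exact x.1.2
      have := mul_LL hu h3
      rwa [← hB] at this
    have e1 := hT x.1 hxV
    have hy := hπY ⟨u * x.1, hxV⟩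
    set y : K := u * ((x : W) : K) - (π ⟨u * x.1, hxV⟩ : K) with hydef
    have e2 : ((T x.1 : W) : K) = u * ((x : W) : K) - y := by rw [e1, hydef]; ring
    have hureg : P.Reg u := Or.inr hP
    have hyreg : P.Reg (y * t ^ (- E P)) ∧ P.red (y * t ^ (- E P)) = 0 := by
      by_cases hy0 : y = 0
      · rw [hy0, zero_mul]
        exact ⟨P.reg_zero, P.red_zero⟩
      have h3 := (hy.resolve_left hy0) P
      have h4 := hE P
      simp only [Finsupp.sub_apply, Finsupp.smul_apply, hBP, smul_zero, Finsupp.add_apply, Finsupp.single_eq_same] at h3 h4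
      have h5 : 0 < P.ord (y * t ^ (- E P)) := by
        rw [P.ord_mul hy0 (zpow_ne_zero _ ht0), P.ord_zpow, ht]
        omega
      have h6 : P.Reg (y * t ^ (- E P)) := Or.inr h5.le
      exact ⟨h6, (P.red_eq_zero_iff h6).2 (Or.inr h5)⟩
    rw [e2, sub_mul, P.red_sub ?_ hyreg.1, hyreg.2, sub_zero, mul_assoc, P.red_mul hureg (hreg x)]
    rw [mul_assoc]
    exact P.reg_mul hureg (hreg x)


theorem restrict_congr {V : Type*} [AddCommGroup V] [Module k V] (T : V →ₗ[k] V) {U U' : Submodule k V}
    (h : U = U') (h1 : ∀ x ∈ U, T x ∈ U) (h2 : ∀ x ∈ U', T x ∈ U') :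
    LinearMap.trace k U (T.restrict h1) = LinearMap.trace k U' (T.restrict h2) := by
  subst h; rfl

theorem nd_nonneg (F : Place k K →₀ ℕ) : (0 : Place k K →₀ ℤ) ≤ nd F := by
  intro P
  simp [nd]

theorem chain {u : K} (hu : u ≠ 0) {A : Place k K →₀ ℤ} {W V : Submodule k K} {N : ℕ}
    (hW : W = LL (N • polar u)) (hV : V = LL ((N + 1) • polar u)) (hWV : W ≤ V)
    (π : V →ₗ[k] W) (hπY : ∀ v : V, (v : K) - (π v : K) ∈ LL ((N + 1) • polar u - A))
    (T : W →ₗ[k] W) (hT : ∀ (w : W) (h : u * (w : K) ∈ V), T w = π ⟨u * w, h⟩)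
    (hA : ∀ P : Place k K, P.ord u < 0 → A P = 0)
    (hell : ∀ E : Place k K →₀ ℤ, 0 ≤ E → E ≤ A →
      ell ((N : ℕ) • polar u - E) = ell ((N : ℕ) • polar (k := k) u) - ddeg E)
    (hinv : ∀ E : Place k K →₀ ℤ, 0 ≤ E → E ≤ A → ∀ x ∈ UU W ((N : ℕ) • polar u - E), T x ∈ UU W ((N : ℕ) • polar u - E)) :
    ∀ n : ℕ, ∀ F : Place k K →₀ ℕ, (F.sum fun _ => id) = n → ∀ hF : nd F ≤ A,
      LinearMap.trace k W T = LinearMap.trace k _ (T.restrict (hinv (nd F) (nd_nonneg F) hF)) + tD u (nd F) := by
  classical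
  intro n
  induction n with
  | zero =>
    intro F hF hFA
    have hF0 : F = 0 := by
      ext P
      rw [Finsupp.sum, Finset.sum_eq_zero_iff] at hF
      by_cases hP : P ∈ F.support
      · exact hF P hP
      · exact Finsupp.notMem_support_iff.1 hP
    subst hF0
    have h1 : UU W ((N : ℕ) • polar u - nd (0 : Place k K →₀ ℕ)) = ⊤ := by
      rw [map_zero, sub_zero, eq_top_iff]
      intro x _
      rw [mem_UU, ← hW]
      exact x.2
    rw [restrict_congr T h1 _ (fun _ _ => Submodule.mem_top), map_zero, tD_zero, add_zero]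
    have := LinearMap.trace_conj' (R := k) (M := ↥(⊤ : Submodule k W)) (N := W) (T.restrict (p := ⊤) (q := ⊤) (fun _ _ => Submodule.mem_top)) Submodule.topEquiv
    rw [← this]
    congr 1
  | succ n ih =>
    intro F hF hFA
    have hne : F ≠ 0 := by
      rintro rfl
      simp at hF
    obtain ⟨P, hP⟩ := Finsupp.ne_iff.1 hne
    rw [Finsupp.zero_apply] at hP
    have hPle : Finsupp.single P 1 ≤ F := by
      intro Q
      by_cases hQ : Q = P
      · subst hQ; rw [Finsupp.single_eq_same]; omega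
      · rw [Finsupp.single_eq_of_ne hQ]; exact Nat.zero_le _
    obtain ⟨F', rfl⟩ : ∃ F', F = F' + Finsupp.single P 1 := ⟨F - Finsupp.single P 1, (tsub_add_cancel_of_le hPle).symm⟩
    have hF' : (F'.sum fun _ => id) = n := by
      rw [Finsupp.sum_add_index' (by intro; rfl) (by intros; rfl), Finsupp.sum_single_index rfl] at hF
      simpa using hF
    have hnd : nd (F' + Finsupp.single P 1) = nd F' + Finsupp.single P 1 := by
      rw [map_add, nd_single]; rfl
    have hFA' : nd F' + Finsupp.single P 1 ≤ A := by rw [← hnd]; exact hFA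
    have hF'A : nd F' ≤ A := by
      refine le_trans ?_ hFA'
      intro Q
      rw [Finsupp.add_apply]
      have : (0 : ℤ) ≤ Finsupp.single P 1 Q := by
        by_cases hQ : Q = P
        · subst hQ; simp
        · rw [Finsupp.single_eq_of_ne hQ]
      omega
    have hP0 : 0 ≤ P.ord u := by
      by_contra hc
      have h1 := hA P (by omega)
      have h2 := hFA' P
      have h3 := nd_nonneg F' P
      rw [h1, Finsupp.add_apply, Finsupp.single_eq_same] at h2
      simp only [Finsupp.coe_zero, Pi.zero_apply] at h3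
      omega
    rw [ih F' hF' hF'A]
    have hst := step hu hW hV hWV rfl π hπY T hT P hP0 hFA' (nd_nonneg F') (sub_le_self _ (nd_nonneg F')) (by
      have h1 := hell (nd F') (nd_nonneg F') hF'A
      have h2 := hell (nd F' + Finsupp.single P 1) (by rw [← hnd]; exact nd_nonneg _) hFA'
      rw [ddeg_add, ddeg_single] at h2
      unfold ell at h1 h2
      omega) (hinv (nd F') (nd_nonneg F') hF'A) (hinv (nd F' + Finsupp.single P 1) (by rw [← hnd]; exact nd_nonneg _) hFA')
    rw [hst, restrict_congr T (by rw [hnd]) (hinv (nd F' + Finsupp.single P 1) (by rw [← hnd]; exact nd_nonneg _) hFA')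
      (hinv (nd (F' + Finsupp.single P 1)) (nd_nonneg _) hFA)]
    have hte : tD u (nd (F' + Finsupp.single P 1)) = tD u (nd F') + tP u P := by
      rw [hnd, tD_add, tD_single, one_smul]
    rw [hte]; ring


theorem fmul_LL {f g : K} (hf : f ≠ 0) {D E : Place k K →₀ ℤ} (h : D = E + divisor k f) (hg : g ∈ LL D) :
    f * g ∈ LL E := by
  subst h
  exact ((mulEquiv E hf) ⟨g, hg⟩).2

/-- Reciprocity. -/
theorem rec_trace {u f : K} (hu : u ≠ 0) (hf : f ≠ 0)
    (hfu : ∀ P : Place k K, P.ord u < 0 → f = 1 ∨ 2 * (- P.ord u) ≤ P.ord (f - 1))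
    (hpos : 0 < ddeg (polar (k := k) u)) : tD u (divisor k f) = 0 := by
  classical
  set B := polar (k := k) u with hBdef
  set A := polar (k := k) f⁻¹ with hAdef
  set C := polar (k := k) f with hCdef
  have hfAC : divisor k f = A - C := by
    ext P
    rw [Finsupp.sub_apply, hAdef, hCdef, polar_apply, polar_apply, divisor_apply, P.ord_inv]
    omega
  have hA0 : 0 ≤ A := polar_nonneg _
  have hC0 : 0 ≤ C := polar_nonneg _
  have hB0 : 0 ≤ B := polar_nonneg _
  have hordf : ∀ P : Place k K, P.ord u < 0 → P.ord f = 0 := by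
    intro P hP
    rcases hfu P hP with h | h
    · rw [h, P.ord_one]
    · have h1 : f - 1 ≠ 0 := by
        intro h0; rw [h0, P.ord_zero] at h; omega
      have h2 : f = 1 + (f - 1) := by ring
      rw [h2]
      have h3 : (1 : K) + (f - 1) ≠ 0 := by rw [← h2]; exact hf
      have := P.ord_add_eq (f := 1) (g := f - 1) one_ne_zero h1 (by rw [P.ord_one]; omega)
      rw [this.2, P.ord_one]
  have hAP : ∀ P : Place k K, P.ord u < 0 → A P = 0 := by
    intro P hP
    rw [hAdef, polar_apply, P.ord_inv, hordf P hP]; simp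
  have hCP : ∀ P : Place k K, P.ord u < 0 → C P = 0 := by
    intro P hP
    rw [hCdef, polar_apply, hordf P hP]; simp
  have hdAC : ddeg A = ddeg C := by
    have := ddeg_divisor (k := k) f
    rw [hfAC, ddeg_sub] at this
    omega
  obtain ⟨γ, N0, -, hRR⟩ := riemann k K
  -- N
  obtain ⟨N, hN1, hN⟩ : ∃ N : ℕ, 1 ≤ N ∧ N0 + ddeg A ≤ N * ddeg B := by
    refine ⟨(N0 + ddeg A).toNat + 1, by omega, ?_⟩
    have h1 : (((N0 + ddeg A).toNat + 1 : ℕ) : ℤ) * 1 ≤ (((N0 + ddeg A).toNat + 1 : ℕ) : ℤ) * ddeg B :=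
      mul_le_mul_of_nonneg_left (by omega) (by positivity)
    push_cast at h1 ⊢
    omega
  have hdB : ∀ m : ℕ, ddeg (m • B) = m * ddeg B := fun m => ddeg_nsmul m B
  have hellN : ∀ (m : ℕ) (E : Place k K →₀ ℤ), N ≤ m → ddeg E ≤ ddeg A → ell (m • B - E) = m * ddeg B - ddeg E - γ := by
    intro m E hm hE
    have h1 : (N : ℤ) * ddeg B ≤ m * ddeg B := by
      apply mul_le_mul_of_nonneg_right _ hpos.le
      exact_mod_cast hm
    rw [hRR _ (by rw [ddeg_sub, hdB]; omega), ddeg_sub, hdB]
  have hell0 : ∀ (m : ℕ), N ≤ m → ell (m • B) = m * ddeg B - γ := by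
    intro m hm
    have := hellN m 0 hm (by rw [ddeg_zero]; exact ddeg_nonneg hA0)
    rw [sub_zero, ddeg_zero, sub_zero] at this
    exact this
  let W : Submodule k K := LL (N • B)
  let V : Submodule k K := LL ((N + 1) • B)
  have hWV : W ≤ V := LL_mono (by rw [add_smul]; simpa using hB0)
  -- intersections
  have hinter : ∀ (E : Place k K →₀ ℤ), 0 ≤ E → (∀ P : Place k K, P.ord u < 0 → E P = 0) → ∀ x : K, x ∈ LL (N • B) →
      x ∈ LL ((N + 1) • B - E) → x ∈ LL (N • B - E) := by
    intro E hE hEP x h1 h2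
    by_cases hx : x = 0
    · rw [hx]; exact Submodule.zero_mem _
    right
    intro P
    have h3 := (h1.resolve_left hx) P
    have h4 := (h2.resolve_left hx) P
    rcases lt_or_ge (P.ord u) 0 with hP | hP
    · rw [Finsupp.sub_apply, hEP P hP]; omega
    · have h5 : B P = 0 := by rw [hBdef, polar_apply, max_eq_right (by omega)]
      simp only [Finsupp.sub_apply, Finsupp.smul_apply, h5, smul_zero] at h4 ⊢
      omega
  have hsubm : ∀ (m : ℕ) (E : Place k K →₀ ℤ), 0 ≤ E → LL (m • B - E) ≤ LL (m • B) :=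
    fun m E hE => LL_mono (sub_le_self _ hE)
  -- complements
  have hcompl : ∀ (E : Place k K →₀ ℤ) (Y : Submodule k K), 0 ≤ E → (∀ P : Place k K, P.ord u < 0 → E P = 0) →
      ddeg E = ddeg A → Disjoint (LL (N • B - E)) Y → LL (N • B - E) ⊔ Y = LL ((N + 1) • B - E) →
      Disjoint W Y ∧ W ⊔ Y = V := by
    intro E Y hE hEP hdE hd hs
    have hYle : Y ≤ LL ((N + 1) • B - E) := by rw [← hs]; exact le_sup_right
    have hdis : Disjoint W Y := by
      rw [Submodule.disjoint_def] at hd ⊢
      intro x hx hy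
      exact hd x (hinter E hE hEP x hx (hYle hy)) hy
    refine ⟨hdis, ?_⟩
    have hfY : FiniteDimensional k Y := Submodule.finiteDimensional_of_le hYle
    have hle : W ⊔ Y ≤ V := sup_le hWV (hYle.trans (hsubm _ _ hE))
    apply Submodule.eq_of_le_of_finrank_eq hle
    have h1 := Submodule.finrank_sup_add_finrank_inf_eq W Y
    rw [hdis.eq_bot, finrank_bot, add_zero] at h1
    have h2 := Submodule.finrank_sup_add_finrank_inf_eq (LL (N • B - E)) Y
    rw [hd.eq_bot, finrank_bot, add_zero, hs] at h2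
    have h3 := hellN N E le_rfl hdE.le
    have h4 := hellN (N + 1) E (by omega) hdE.le
    have h5 := hell0 N le_rfl
    have h6 := hell0 (N + 1) (by omega)
    unfold ell at h3 h4 h5 h6
    push_cast at h4 h6
    have h7 : finrank k W = finrank k (LL (N • B)) := rfl
    have h8 : finrank k V = finrank k (LL ((N + 1) • B)) := rfl
    rw [h8, h1, h7]
    have : ((finrank k (LL (N • B)) + finrank k Y : ℕ) : ℤ) = (finrank k (LL ((N + 1) • B)) : ℕ) := by
      push_cast
      have h2' : (finrank k (LL ((N + 1) • B - E)) : ℤ) = finrank k (LL (N • B - E)) + finrank k Y := by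
        exact_mod_cast h2
      linarith
    exact_mod_cast this
  obtain ⟨Z, hZ⟩ := Submodule.exists_isCompl (LL (N • B - A))
  have hSS : LL (N • B - A) ≤ LL ((N + 1) • B - A) := by
    apply LL_mono
    rw [add_smul, one_smul]
    intro P
    have := hB0 P
    simp only [Finsupp.coe_zero, Pi.zero_apply, Finsupp.sub_apply, Finsupp.add_apply] at this ⊢
    omega
  let YA : Submodule k K := Z ⊓ LL ((N + 1) • B - A)
  have hYAd : Disjoint (LL (N • B - A)) YA := hZ.disjoint.mono_right inf_le_left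
  have hYAs : LL (N • B - A) ⊔ YA = LL ((N + 1) • B - A) := by
    rw [show YA = Z ⊓ LL ((N + 1) • B - A) from rfl, ← sup_inf_assoc_of_le _ hSS, hZ.sup_eq_top, top_inf_eq]
  have hYAle : YA ≤ LL ((N + 1) • B - A) := inf_le_right
  let YC : Submodule k K := YA.comap (LinearMap.mulLeft k f)
  have hYC : ∀ x, x ∈ YC ↔ f * x ∈ YA := fun x => Iff.rfl
  -- multiplication by f
  have hmulf : ∀ (D : Place k K →₀ ℤ) (x : K), x ∈ LL (D - C) ↔ f * x ∈ LL (D - A) := by
    intro D x
    constructor
    · intro hx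
      exact fmul_LL hf (by rw [hfAC]; abel) hx
    · intro hx
      have := fmul_LL (g := f * x) (inv_ne_zero hf) (D := D - A) (E := D - C) (by rw [divisor_inv, hfAC]; abel) hx
      rwa [inv_mul_cancel_left₀ hf] at this
  have hYCd : Disjoint (LL (N • B - C)) YC := by
    rw [Submodule.disjoint_def] at hYAd ⊢
    intro x hx hy
    have := hYAd (f * x) ((hmulf _ _).1 hx) ((hYC x).1 hy)
    exact (mul_eq_zero.1 this).resolve_left hf
  have hYCs : LL (N • B - C) ⊔ YC = LL ((N + 1) • B - C) := by
    apply le_antisymm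
    · apply sup_le
      · intro x hx
        rw [hmulf] at hx ⊢
        exact hSS hx
      · intro x hx
        rw [hmulf]
        exact hYAle hx
    · intro x hx
      rw [hmulf, ← hYAs, Submodule.mem_sup] at hx
      obtain ⟨a, ha, y, hy, hay⟩ := hx
      rw [Submodule.mem_sup]
      refine ⟨f⁻¹ * a, ?_, f⁻¹ * y, ?_, ?_⟩
      · rw [hmulf, mul_inv_cancel_left₀ hf]; exact ha
      · rw [hYC, mul_inv_cancel_left₀ hf]; exact hy
      · rw [← mul_add, hay, inv_mul_cancel_left₀ hf]
  have hYCle : YC ≤ LL ((N + 1) • B - C) := by rw [← hYCs]; exact le_sup_right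
  obtain ⟨hdA, hsA⟩ := hcompl A YA hA0 hAP rfl hYAd hYAs
  obtain ⟨hdC, hsC⟩ := hcompl C YC hC0 hCP hdAC.symm hYCd hYCs
  obtain ⟨πA, hA1, hA2, hA3⟩ := exists_proj W YA V hWV hdA hsA
  obtain ⟨πC, hC1, hC2, hC3⟩ := exists_proj W YC V hWV hdC hsC
  have hμ : ∀ w : W, u * (w : K) ∈ V := by
    intro w
    have := mul_LL (k := k) hu w.2
    change u * (w : K) ∈ LL ((N + 1) • B)
    rw [add_smul, one_smul]; exact this
  let μ : W →ₗ[k] V := LinearMap.codRestrict V ((LinearMap.mulLeft k u) ∘ₗ W.subtype) hμ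
  have hμ1 : ∀ (w : W) (h : u * (w : K) ∈ V), μ w = ⟨u * w, h⟩ := fun w h => rfl
  have hsubE : ∀ (X E : Place k K →₀ ℤ), E ≤ X → LL ((N + 1) • B - X) ≤ LL ((N + 1) • B - E) :=
    fun X E h => LL_mono (sub_le_sub_left h _)
  have hinvG : ∀ (X : Place k K →₀ ℤ) (Y : Submodule k K) (π : V →ₗ[k] W), (∀ P : Place k K, P.ord u < 0 → X P = 0) →
      Y ≤ LL ((N + 1) • B - X) → (∀ v : V, (v : K) - (π v : K) ∈ Y) →
      ∀ E : Place k K →₀ ℤ, 0 ≤ E → E ≤ X → ∀ x ∈ UU W (N • B - E), (π ∘ₗ μ) x ∈ UU W (N • B - E) := by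
    intro X Y π hX hY hπ E hE hEX x hx
    rw [mem_UU] at hx ⊢
    have hEP : ∀ P : Place k K, P.ord u < 0 → E P = 0 := by
      intro P hP
      have h1 := hE P
      have h2 := hEX P
      rw [hX P hP] at h2
      exact le_antisymm h2 h1
    refine hinter E hE hEP _ ((π ∘ₗ μ) x).2 ?_
    have h1 : u * (x : K) ∈ LL ((N + 1) • B - E) := by
      have := mul_LL (k := k) hu hx
      have h2 : (N + 1) • B - E = N • B - E + B := by rw [add_smul, one_smul]; abel
      rw [h2]; exact this
    have h2 : u * (x : K) - (π (μ x) : K) ∈ LL ((N + 1) • B - E) := hsubE X E hEX (hY (hπ (μ x)))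
    have h3 := Submodule.sub_mem _ h1 h2
    rw [sub_sub_cancel] at h3
    exact h3
  have hellG : ∀ X : Place k K →₀ ℤ, ddeg X = ddeg A → ∀ E : Place k K →₀ ℤ, 0 ≤ E → E ≤ X →
      ell (N • B - E) = ell (N • B) - ddeg E := by
    intro X hX E hE hEX
    have h1 := ddeg_mono hEX
    rw [hellN N E le_rfl (by omega), hell0 N le_rfl]
    ring
  have hchain : ∀ (X : Place k K →₀ ℤ) (Y : Submodule k K) (π : V →ₗ[k] W), 0 ≤ X → ddeg X = ddeg A →
      ∀ (hX : ∀ P : Place k K, P.ord u < 0 → X P = 0)
      (hY : Y ≤ LL ((N + 1) • B - X)) (hπ : ∀ v : V, (v : K) - (π v : K) ∈ Y)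
      (hh : ∀ x ∈ UU W (N • B - X), (π ∘ₗ μ) x ∈ UU W (N • B - X)),
      LinearMap.trace k W (π ∘ₗ μ) = LinearMap.trace k _ ((π ∘ₗ μ).restrict hh) + tD u X := by
    intro X Y π hX0 hXd hX hY hπ hh
    obtain ⟨F, hF⟩ := exists_nd hX0
    rw [zero_add] at hF
    have hc := chain hu (W := W) (V := V) (N := N) rfl rfl hWV π (fun v => hY (hπ v)) (π ∘ₗ μ) (fun w h => rfl) hX
      (hellG X hXd) (hinvG X Y π hX hY hπ) _ F rfl hF.ge
    rw [hc]
    subst hF
    rfl
  have hfin : LinearMap.trace k W (πA ∘ₗ μ) = LinearMap.trace k W (πC ∘ₗ μ) := by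
    rw [← sub_eq_zero, ← map_sub]
    apply trace_eq_zero_of_sq
    -- image in LL ((N - 1) • B)
    have hker : ∀ w : W, (w : K) ∈ LL ((N - 1) • B) → (πA ∘ₗ μ - πC ∘ₗ μ) w = 0 := by
      intro w hw
      have h1 : u * (w : K) ∈ W := by
        have := mul_LL (k := k) hu hw
        have h2 : N • B = (N - 1) • B + B := by
          conv_lhs => rw [show N = N - 1 + 1 by omega, add_smul, one_smul]
        change u * (w : K) ∈ LL (N • B)
        rw [h2]; exact this
      rw [LinearMap.sub_apply, LinearMap.comp_apply, LinearMap.comp_apply, hμ1 w (hWV h1), hA1 _ h1, hC1 _ h1, sub_self]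
    have himg : ∀ w : W, (((πA ∘ₗ μ - πC ∘ₗ μ) w : W) : K) ∈ LL ((N - 1) • B) := by
      intro w
      set yA : K := (μ w : K) - (πA (μ w) : K) with hyA
      set yC : K := (μ w : K) - (πC (μ w) : K) with hyC
      have hyAm : yA ∈ YA := hA2 (μ w)
      have hyCm : yC ∈ YC := hC2 (μ w)
      have e1 : (((πA ∘ₗ μ - πC ∘ₗ μ) w : W) : K) = yC - yA := by
        rw [hyA, hyC]
        simp only [LinearMap.sub_apply, LinearMap.comp_apply, Submodule.coe_sub]
        ring
      -- f yC - yC is small
      have h1 : f * yC - yC ∈ LL ((N - 1) • B) := by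
        by_cases h0 : f * yC - yC = 0
        · rw [h0]; exact Submodule.zero_mem _
        right
        intro P
        have hyC0 : yC ≠ 0 := by rintro h; rw [h, mul_zero, sub_zero] at h0; exact h0 rfl
        rcases lt_or_ge (P.ord u) 0 with hP | hP
        · have h2 : f - 1 ≠ 0 := by intro h; apply h0; linear_combination yC * h
          have h3 : f * yC - yC = (f - 1) * yC := by ring
          rw [h3, P.ord_mul h2 hyC0]
          have h4 := (hfu P hP).resolve_left (by intro h; exact h2 (by rw [h, sub_self]))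
          have h5 := ((hsubm _ _ hC0 (hYCle hyCm)).resolve_left hyC0) P
          have h6 : B P = - P.ord u := by rw [hBdef, polar_apply, max_eq_left (by omega)]
          have h7 : ((N - 1 : ℕ) : ℤ) = N - 1 := by omega
          simp only [Finsupp.smul_apply, nsmul_eq_mul, h7, h6] at h5 ⊢
          push_cast at h5
          linarith
        · have h5 : B P = 0 := by rw [hBdef, polar_apply, max_eq_right (by omega)]
          rw [Finsupp.smul_apply, h5, smul_zero, neg_zero]
          have h6 : 0 ≤ P.ord yC := by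
            have := ((hsubm _ _ hC0 (hYCle hyCm)).resolve_left hyC0) P
            rw [Finsupp.smul_apply, h5, smul_zero, neg_zero] at this
            exact this
          have hfy0 : f * yC ≠ 0 := mul_ne_zero hf hyC0
          have h7 : 0 ≤ P.ord (f * yC) := by
            have := ((hsubm _ _ hA0 (hYAle ((hYC _).1 hyCm))).resolve_left hfy0) P
            rw [Finsupp.smul_apply, h5, smul_zero, neg_zero] at this
            exact this
          have := P.ord_add hfy0 (neg_ne_zero.2 hyC0) (by rwa [← sub_eq_add_neg])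
          rw [P.ord_neg] at this
          rw [sub_eq_add_neg]
          exact (le_min h7 h6).trans this
      have hsm : LL ((N - 1) • B) ≤ W := by
        apply LL_mono
        intro P
        have h7 : ((N - 1 : ℕ) : ℤ) = N - 1 := by omega
        have h8 := hB0 P
        simp only [Finsupp.smul_apply, nsmul_eq_mul, h7, Finsupp.coe_zero, Pi.zero_apply] at h8 ⊢
        linarith
      have h2 : f * yC - yA ∈ W := by
        have h3 : yC - yA ∈ W := by rw [← e1]; exact ((πA ∘ₗ μ - πC ∘ₗ μ) w).2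
        have h4 : f * yC - yA = (f * yC - yC) + (yC - yA) := by ring
        rw [h4]
        exact Submodule.add_mem _ (hsm h1) h3
      have h3 : f * yC - yA ∈ YA := Submodule.sub_mem _ ((hYC _).1 hyCm) hyAm
      have h4 : f * yC - yA = 0 := (Submodule.disjoint_def.1 hdA) _ h2 h3
      rw [e1]
      have h5 : yC - yA = -(f * yC - yC) := by linear_combination h4
      rw [h5]
      exact Submodule.neg_mem _ h1
    intro w
    exact hker _ (himg w)
  have hhA := hinvG A YA πA hAP hYAle hA2 A hA0 le_rfl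
  have hhC := hinvG C YC πC hCP hYCle hC2 C hC0 le_rfl
  have h1 := hchain A YA πA hA0 rfl hAP hYAle hA2 hhA
  have h2 := hchain C YC πC hC0 hdAC.symm hCP hYCle hC2 hhC
  -- conjugation
  have hmemA : ∀ x : UU W (N • B - C), f * ((x : W) : K) ∈ LL (N • B - A) := fun x => (hmulf _ _).1 x.2
  have hmemC : ∀ x : UU W (N • B - A), f⁻¹ * ((x : W) : K) ∈ LL (N • B - C) := fun x => by
    rw [hmulf, mul_inv_cancel_left₀ hf]; exact x.2
  let e : UU W (N • B - C) ≃ₗ[k] UU W (N • B - A) :=
    { toFun := fun x => ⟨⟨f * ((x : W) : K), hsubm _ _ hA0 (hmemA x)⟩, hmemA x⟩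
      map_add' := fun x y => by
        apply Subtype.ext; apply Subtype.ext; exact mul_add _ _ _
      map_smul' := fun c x => by
        apply Subtype.ext; apply Subtype.ext; exact mul_smul_comm _ _ _
      invFun := fun x => ⟨⟨f⁻¹ * ((x : W) : K), hsubm _ _ hC0 (hmemC x)⟩, hmemC x⟩
      left_inv := fun x => by
        apply Subtype.ext; apply Subtype.ext; exact inv_mul_cancel_left₀ hf _
      right_inv := fun x => by
        apply Subtype.ext; apply Subtype.ext; exact mul_inv_cancel_left₀ hf _ }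
  have h3 : LinearMap.trace k _ ((πA ∘ₗ μ).restrict hhA) = LinearMap.trace k _ ((πC ∘ₗ μ).restrict hhC) := by
    rw [← LinearMap.trace_conj' (R := k) (M := ↥(UU W (N • B - C))) (N := ↥(UU W (N • B - A))) ((πC ∘ₗ μ).restrict hhC) e]
    congr 1
    ext x
    obtain ⟨z, rfl⟩ := e.surjective x
    rw [LinearEquiv.conj_apply_apply, LinearEquiv.symm_apply_apply]
    -- πA (u f z) = f πC (u z)
    have hz : u * ((z : W) : K) ∈ V := hμ z.1
    set y : K := (μ z.1 : K) - (πC (μ z.1) : K) with hy
    have hyC : y ∈ YC := hC2 (μ z.1)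
    have e1 : (πC (μ z.1) : K) ∈ LL (N • B - C) := hhC z.1 z.2
    have e2 : (μ (e z).1 : K) = f * (πC (μ z.1) : K) + f * y := by
      rw [hy]
      change u * (f * ((z : W) : K)) = f * (πC (μ z.1) : K) + f * (u * ((z : W) : K) - (πC (μ z.1) : K))
      ring
    have e3 : f * (πC (μ z.1) : K) ∈ W := hsubm _ _ hA0 ((hmulf _ _).1 e1)
    have e4 : f * y ∈ V := by
      have := hYAle ((hYC y).1 hyC)
      exact hsubm _ _ hA0 this
    have e5 : μ (e z).1 = ⟨f * (πC (μ z.1) : K), hWV e3⟩ + ⟨f * y, e4⟩ := Subtype.ext e2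
    change ((πA (μ (e z).1) : W) : K) = f * (πC (μ z.1) : K)
    rw [e5, map_add, hA1 _ e3, hA3 ⟨f * y, e4⟩ ((hYC y).1 hyC), add_zero]
  rw [hfAC, tD_sub]
  rw [hfin, h2, h3] at h1
  exact (sub_eq_zero.2 (add_left_cancel h1).symm)

end Run7.h914
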