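import Pool.Agent.Run7.h914.Rgen

/-! The criterion for arbitrary finite index types. -/

set_option autoImplicit false
set_option linter.all false

namespace Run7.h914

open Finset Filter
open Pool.Agent.W147.PS (ff)

/-- the conclusion on the record gaps -/
def GoodI {ι : Type} [Fintype ι] (E : ℕ) (κ δ : ℝ) (p : ℕ) (z : ι → ℤ) : Prop :=
  ∀ e : ι → ℕ, (∀ j, e j ≤ E) → Finset.univ.gcd e = 1 →
    ∀ m : ℤ, |(m : ℝ) - ∏ j, (z j : ℝ) ^ e j| ≤ κ * ff p →
      ∃ l : ℕ, l.Prime ∧ (l : ℝ) ≤ (p : ℝ) ^ δ ∧ (l : ℤ) ∣ m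

open scoped Classical in
theorem rec_ix (ι : Type) [Fintype ι] (E : ℕ) (δ : ℝ) (hδ : 0 < δ) (hδ1 : δ ≤ 1) :
    ∃ κ : ℝ, 0 < κ ∧ ∃ p₀ : ℕ, ∀ (p : ℕ) [Fact p.Prime], p₀ ≤ p →
    ∀ (s ε : ℝ) (S : Finset (ι → ZMod p)), (p : ℝ) ^ s / 2 ≤ S.card →
    (∀ α : ι → ZMod p, α ≠ 0 →
      ‖∑ x ∈ S, (ZMod.stdAddChar (∑ j, α j * x j) : ℂ)‖ ≤ (p : ℝ) ^ (δ / 8) * (p : ℝ) ^ (s - ε)) →
    ∀ (M : ι → ℤ) (L : ι → ℕ), (∀ j, (p : ℝ) ^ δ ≤ L j ∧ L j ≤ p) →
      (p : ℝ) ^ ((Fintype.card ι : ℝ) - ε + δ) ≤ ∏ j, (L j : ℝ) →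
    (p : ℝ) ^ (-δ) * ((p : ℝ) ^ s * ∏ j, ((L j : ℝ) / p)) ≤
      (Set.ncard {z : ι → ℤ | (∀ j, M j < z j ∧ z j ≤ M j + L j) ∧ (fun j => (z j : ZMod p)) ∈ S ∧
        GoodI E κ δ p z} : ℝ) := by
  obtain ⟨κ, hκ, p₀, h⟩ := rec_pts (Fintype.card ι) E δ hδ hδ1
  refine ⟨κ, hκ, p₀, ?_⟩
  intro p _ hpp s ε S hS hE M L hL hV
  set σ := Fintype.equivFin ι with hσ
  set φ : (ι → ZMod p) ≃ (Fin (Fintype.card ι) → ZMod p) := Equiv.arrowCongr σ (Equiv.refl _) with hφ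
  have hφa : ∀ (x : ι → ZMod p) (k : Fin (Fintype.card ι)), φ x k = x (σ.symm k) := fun x k => rfl
  set S' : Finset (Fin (Fintype.card ι) → ZMod p) := S.map φ.toEmbedding with hS'
  have key := h p hpp s ε S' (by rw [hS', card_map]; exact hS) (by
    intro α hα
    have h1 : (fun j => α (σ j)) ≠ 0 := by
      intro h0
      apply hα
      funext k
      have := congrFun h0 (σ.symm k)
      simpa using this
    have h2 := hE (fun j => α (σ j)) h1
    rw [hS', Finset.sum_map]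
    refine le_trans (le_of_eq ?_) h2
    congr 1
    refine Finset.sum_congr rfl fun x _ => ?_
    congr 1
    refine (Equiv.sum_comp σ (fun k => α k * φ x k)).symm.trans ?_
    refine Finset.sum_congr rfl fun j _ => ?_
    rw [hφa, Equiv.symm_apply_apply]) (fun k => M (σ.symm k)) (fun k => L (σ.symm k)) (fun k => hL _) (by
      rw [Equiv.prod_comp σ.symm (fun j => (L j : ℝ))]
      exact hV)
  rw [Equiv.prod_comp σ.symm (fun j => ((L j : ℝ) / p))] at key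
  refine key.trans ?_
  rw [Nat.cast_le]
  set T : Set (ι → ℤ) := {z : ι → ℤ | (∀ j, M j < z j ∧ z j ≤ M j + L j) ∧ (fun j => (z j : ZMod p)) ∈ S ∧
        GoodI E κ δ p z} with hT
  have hfin : T.Finite := by
    refine (Set.Finite.pi' (fun j => Set.finite_Ioc (M j) (M j + L j))).subset ?_
    intro z hz j
    exact hz.1 j
  refine le_trans (Set.ncard_le_ncard ?_ (hfin.image (fun z : ι → ℤ => fun k => z (σ.symm k))))
    (Set.ncard_image_le hfin)
  rintro z ⟨h1, h2, h3⟩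
  refine ⟨fun j => z (σ j), ⟨?_, ?_, ?_⟩, ?_⟩
  · intro j
    have := h1 (σ j)
    simpa using this
  · rw [hS', Finset.mem_map] at h2
    obtain ⟨x, hx, hx2⟩ := h2
    have h4 : (fun j => (z (σ j) : ZMod p)) = x := by
      funext j
      have := congrFun hx2 (σ j)
      have h5 : φ x (σ j) = (z (σ j) : ZMod p) := this
      rw [hφa, Equiv.symm_apply_apply] at h5
      exact h5.symm
    rw [h4]
    exact hx
  · intro e he hg m hm
    refine h3 (fun k => e (σ.symm k)) (fun k => he _) ?_ m ?_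
    · have h6 : (univ : Finset ι) = univ.image σ.symm := (Finset.image_univ_of_surjective σ.symm.surjective).symm
      rw [h6, Finset.gcd_image] at hg
      exact hg
    · have h7 : ∏ k, (z k : ℝ) ^ e (σ.symm k) = ∏ j, (z (σ j) : ℝ) ^ e j := by
        refine (Equiv.prod_comp σ (fun k => (z k : ℝ) ^ e (σ.symm k))).symm.trans ?_
        refine Finset.prod_congr rfl fun j _ => ?_
        rw [Equiv.symm_apply_apply]
      rw [h7]
      exact hm
  · funext k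
    simp

end Run7.h914
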