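import Pool.Agent.Run7.h914.Rsys
import Pool.Agent.Run7.h914.Rsum

/-! Record gaps at the points of rational curves in spaces modulo `p`. -/

set_option autoImplicit false
set_option linter.all false

namespace Run7.h914

open Finset Filter Polynomial

theorem rec_space (r E : ℕ) (δ : ℝ) (hδ : 0 < δ) (hδ1 : δ ≤ 1) :
    ∃ κ : ℝ, 0 < κ ∧ ∃ p₀ : ℕ, ∀ (p : ℕ) [Fact p.Prime], p₀ ≤ p →
    ∀ (d : ℕ) (P : Fin r → (ZMod p)[X]) (Q : (ZMod p)[X]), (d : ℝ) ≤ (p : ℝ) ^ (δ / 50) →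
    Q ≠ 0 → (∀ j, (P j).natDegree ≤ d) → Q.natDegree ≤ d →
    (∀ (t : Fin r → ZMod p) (c : ZMod p), ∑ j, C (t j) * P j = C c * Q → t = 0) →
    ∀ (M : Fin r → ℤ) (L : Fin r → ℕ), (∀ j, (p : ℝ) ^ δ ≤ L j ∧ L j ≤ p) →
      (p : ℝ) ^ ((r : ℝ) - 1 / 2 + δ) ≤ ∏ j, (L j : ℝ) →
    (p : ℝ) ^ (-δ) * (p * ∏ j, ((L j : ℝ) / p)) ≤
      (Set.ncard {x : ZMod p | Q.eval x ≠ 0 ∧ ∃ z : Fin r → ℤ,
        (∀ j, M j < z j ∧ z j ≤ M j + L j ∧ ((z j : ℤ) : ZMod p) = (P j).eval x / Q.eval x) ∧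
        Good r E κ δ p z} : ℝ) := by
  classical
  obtain ⟨κ, hκ, p₁, h⟩ := rec_of_sums r E δ hδ hδ1
  obtain ⟨p₂, h2⟩ := ev_large δ hδ hδ1
  refine ⟨κ, hκ, max p₁ p₂, ?_⟩
  intro p _ hpp d P Q hdp hQ hP hQd hind M L hL hV
  have hp : p.Prime := Fact.out
  have hp0 : (0 : ℝ) < p := by exact_mod_cast hp.pos
  obtain ⟨a1, a2, a3, a4⟩ := h2 p ((le_max_right _ _).trans hpp) d hdp
  have hd0 : (0 : ℝ) ≤ (d + 1 : ℝ) ^ 4 := by positivity
  have hcard : (p : ℝ) / 2 ≤ (Npl Q).card := by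
    have h5 := Npl_card_ge hQ hQd
    have h6 : (p : ℝ) ≤ (Npl Q).card + d := by exact_mod_cast h5
    have h7 : (d : ℝ) ≤ p / 2 := by
      have h8 : (d : ℝ) + 1 ≤ (d + 1 : ℝ) ^ 4 := by
        have : (1 : ℝ) ≤ (d + 1 : ℝ) ^ 3 := one_le_pow₀ (by have : (0 : ℝ) ≤ d := Nat.cast_nonneg d; linarith)
        have h9 : (0 : ℝ) ≤ d := Nat.cast_nonneg d
        nlinarith
      have h9 : √(p : ℝ) ≤ p := by
        have h10 : (1 : ℝ) ≤ p := by exact_mod_cast hp.one_lt.le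
        rw [Real.sqrt_le_left (by linarith)]
        nlinarith
      linarith
    linarith
  have key := h p ((le_max_left _ _).trans hpp) (ZMod p) (Npl Q) (fun x j => (P j).eval x / Q.eval x) hcard (by
    intro α hα
    have h5 : ∀ x ∈ Npl Q, ZMod.stdAddChar (N := p) (∑ j, α j * ((P j).eval x / Q.eval x)) =
        ZMod.stdAddChar (N := p) ((∑ j, C (α j) * P j).eval x / Q.eval x) := by
      intro x _
      congr 1
      rw [eval_finset_sum, Finset.sum_div]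
      refine Finset.sum_congr rfl fun j _ => ?_
      rw [eval_mul, eval_C, mul_div_assoc]
    rw [Finset.sum_congr rfl h5]
    have h6 := rat_sum (d := d) (∑ j, C (α j) * P j) Q hQ
      (natDegree_sum_le_of_forall_le _ _ fun j _ => (natDegree_C_mul_le _ _).trans (hP j)) hQd
      (fun c hc => hα (hind α c hc)) a4
    refine h6.trans (mul_le_mul_of_nonneg_right ?_ (Real.sqrt_nonneg _))
    linarith) M L hL hV
  refine key.trans ?_
  rw [Nat.cast_le, ← Set.ncard_coe_finset]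
  refine Set.ncard_le_ncard ?_ (Set.toFinite _)
  intro x hx
  rw [mem_coe, mem_filter, mem_Npl] at hx
  exact ⟨hx.1, hx.2⟩

end Run7.h914
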