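import Pool.Agent.Run7.h914.Sys

/-! Systems of equations with separated variables, with rational functions modulo `p`. -/

set_option autoImplicit false
set_option linter.all false

namespace Run7.h914

open Finset Filter Polynomial

section
variable {p : ℕ} [Fact p.Prime] {n k : ℕ}

theorem rat_sum {d : ℕ} (N Q : (ZMod p)[X]) (hQ : Q ≠ 0) (hN : N.natDegree ≤ d) (hQd : Q.natDegree ≤ d)
    (hnc : ∀ c : ZMod p, N ≠ C c * Q) (hd : (d + 1) * (d + 1) < p) :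
    ‖∑ x ∈ Finset.univ.filter (fun x => Q.eval x ≠ 0), ZMod.stdAddChar (N := p) (N.eval x / Q.eval x)‖ ≤
      13 * (d + 1 : ℝ) ^ 4 * √(p : ℝ) := by
  have hp : p.Prime := Fact.out
  have h1 := exp_rat (d := d) N Q hQ hN hQd hnc hd
  refine h1.trans ?_
  have h4 : (EG (d + 1) (d + 1) (2 * (d + 1) * (d + 1)) : ℝ) ≤ 12 * (d + 1 : ℝ) ^ 4 := by
    exact_mod_cast EG_le (m := d + 1) (by omega)
  have hd0 : (0 : ℝ) ≤ d := Nat.cast_nonneg d
  have h6 : (1 : ℝ) ≤ √(p : ℝ) := by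
    rw [Real.one_le_sqrt]
    exact_mod_cast hp.one_lt.le
  have h7 : (d : ℝ) + 1 ≤ (d + 1 : ℝ) ^ 4 := by
    have : (1 : ℝ) ≤ (d + 1 : ℝ) ^ 3 := one_le_pow₀ (by linarith)
    nlinarith
  have h8 := mul_le_mul_of_nonneg_right h4 (by linarith : (0 : ℝ) ≤ √(p : ℝ))
  nlinarith

/-- the residues which are not poles -/
noncomputable def Npl (Q : (ZMod p)[X]) : Finset (ZMod p) := univ.filter (fun x => Q.eval x ≠ 0)

theorem mem_Npl {Q : (ZMod p)[X]} {x : ZMod p} : x ∈ Npl Q ↔ Q.eval x ≠ 0 := by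
  unfold Npl
  simp

open scoped Classical in
/-- the solutions of the system -/
noncomputable def RSys (f : Fin n → Fin k → (ZMod p)[X]) (Q : Fin n → (ZMod p)[X]) (b : Fin k → ZMod p) : Finset (Fin n → ZMod p) :=
  (Fintype.piFinset fun i => Npl (Q i)).filter (fun x => ∀ j, ∑ i, (f i j).eval (x i) / (Q i).eval (x i) = b j)

theorem rsys_expand (f : Fin n → Fin k → (ZMod p)[X]) (Q : Fin n → (ZMod p)[X]) (b : Fin k → ZMod p) (α : Fin n → ZMod p) :
    (p : ℂ) ^ k * ∑ x ∈ RSys f Q b, ZMod.stdAddChar (N := p) (∑ i, α i * x i) =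
      ∑ t : Fin k → ZMod p, ZMod.stdAddChar (N := p) (-∑ j, t j * b j) *
        ∏ i, ∑ y ∈ Npl (Q i), ZMod.stdAddChar (N := p)
          ((∑ j, C (t j) * f i j + C (α i) * X * Q i).eval y / (Q i).eval y) := by
  classical
  have h1 : ∀ (t : Fin k → ZMod p) (i : Fin n), ∑ y ∈ Npl (Q i), ZMod.stdAddChar (N := p)
          ((∑ j, C (t j) * f i j + C (α i) * X * Q i).eval y / (Q i).eval y) =
        ∑ y ∈ Npl (Q i), ZMod.stdAddChar (N := p) (∑ j, t j * ((f i j).eval y / (Q i).eval y) + α i * y) := by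
    intro t i
    refine Finset.sum_congr rfl fun y hy => ?_
    have hq := mem_Npl.1 hy
    congr 1
    rw [eval_add, eval_finset_sum, eval_mul, eval_mul, eval_C, eval_X, add_div, mul_div_assoc, div_self hq, mul_one,
      Finset.sum_div]
    congr 1
    refine Finset.sum_congr rfl fun j _ => ?_
    rw [eval_mul, eval_C, mul_div_assoc]
  simp_rw [h1]
  unfold RSys
  rw [Finset.sum_filter, Finset.mul_sum]
  have h2 : ∀ x : Fin n → ZMod p, _ := fun x => sys_one (fun i j => (f i j).eval (x i) / (Q i).eval (x i)) b α x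
  rw [Finset.sum_congr rfl (fun x _ => h2 x), Finset.sum_comm]
  refine Finset.sum_congr rfl fun t _ => ?_
  rw [← Finset.mul_sum]
  congr 1
  exact (Finset.prod_univ_sum (fun i => Npl (Q i)) (fun i y => ZMod.stdAddChar (N := p)
    (∑ j, t j * ((f i j).eval y / (Q i).eval y) + α i * y))).symm

theorem Npl_sum {Q : (ZMod p)[X]} (hQ : Q ≠ 0) {d : ℕ} (hd : Q.natDegree ≤ d) {a : ZMod p} (ha : a ≠ 0) :
    ‖∑ y ∈ Npl Q, ZMod.stdAddChar (N := p) (a * y)‖ ≤ d := by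
  classical
  have h1 := Finset.sum_filter_add_sum_filter_not univ (fun x : ZMod p => Q.eval x ≠ 0)
    (fun y => ZMod.stdAddChar (N := p) (a * y))
  rw [one_sum, if_neg ha] at h1
  have h2 : ∑ y ∈ Npl Q, ZMod.stdAddChar (N := p) (a * y) =
      -∑ y ∈ univ.filter (fun x : ZMod p => ¬ Q.eval x ≠ 0), ZMod.stdAddChar (N := p) (a * y) := by
    unfold Npl
    linear_combination h1
  rw [h2, norm_neg]
  refine (norm_sum_le _ _).trans ?_
  rw [Finset.sum_congr rfl (fun y _ => psi_norm (a * y)), Finset.sum_const, nsmul_eq_mul, mul_one]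
  have h3 := card_roots_filter Q hQ
  have h4 : univ.filter (fun x : ZMod p => ¬ Q.eval x ≠ 0) = univ.filter (fun x : ZMod p => Q.eval x = 0) := by
    apply Finset.filter_congr
    intro x _
    exact not_not
  rw [h4]
  exact_mod_cast h3.trans hd

theorem Npl_card_le (Q : (ZMod p)[X]) : (Npl Q).card ≤ p := by
  refine (card_le_univ _).trans (le_of_eq ?_)
  rw [ZMod.card]

theorem Npl_card_ge {Q : (ZMod p)[X]} (hQ : Q ≠ 0) {d : ℕ} (hd : Q.natDegree ≤ d) : p ≤ (Npl Q).card + d := by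
  classical
  have h1 := Finset.card_filter_add_card_filter_not (s := (univ : Finset (ZMod p))) (fun x : ZMod p => Q.eval x ≠ 0)
  have h3 := card_roots_filter Q hQ
  have h4 : univ.filter (fun x : ZMod p => ¬ Q.eval x ≠ 0) = univ.filter (fun x : ZMod p => Q.eval x = 0) := by
    apply Finset.filter_congr
    intro x _
    exact not_not
  rw [h4, card_univ, ZMod.card] at h1
  unfold Npl
  omega

theorem rsys_sum {d : ℕ} {f : Fin n → Fin k → (ZMod p)[X]} {Q : Fin n → (ZMod p)[X]} (hQ : ∀ i, Q i ≠ 0)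
    (hf : ∀ i j, (f i j).natDegree ≤ d) (hQd : ∀ i, (Q i).natDegree ≤ d)
    (hind : ∀ i, ∀ (t : Fin k → ZMod p) (a c : ZMod p), ∑ j, C (t j) * f i j = (C a * X + C c) * Q i → t = 0)
    (hd : (d + 1 + 1) * (d + 1 + 1) < p) (b : Fin k → ZMod p) (α : Fin n → ZMod p) :
    ‖(p : ℂ) ^ k * ∑ x ∈ RSys f Q b, ZMod.stdAddChar (N := p) (∑ i, α i * x i) -
      ∏ i, ∑ y ∈ Npl (Q i), ZMod.stdAddChar (N := p) (α i * y)‖ ≤
      (p : ℝ) ^ k * (13 * ((d + 1 : ℕ) + 1 : ℝ) ^ 4 * √(p : ℝ)) ^ n := by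
  classical
  rw [rsys_expand, ← Finset.add_sum_erase _ _ (mem_univ (0 : Fin k → ZMod p))]
  have h0 : ZMod.stdAddChar (N := p) (-∑ j, (0 : Fin k → ZMod p) j * b j) *
        ∏ i, ∑ y ∈ Npl (Q i), ZMod.stdAddChar (N := p)
          ((∑ j, C ((0 : Fin k → ZMod p) j) * f i j + C (α i) * X * Q i).eval y / (Q i).eval y) =
      ∏ i, ∑ y ∈ Npl (Q i), ZMod.stdAddChar (N := p) (α i * y) := by
    simp only [Pi.zero_apply, zero_mul, Finset.sum_const_zero, neg_zero, AddChar.map_zero_eq_one, one_mul, C_0,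
      zero_add]
    refine Finset.prod_congr rfl fun i _ => Finset.sum_congr rfl fun y hy => ?_
    rw [eval_mul, eval_mul, eval_C, eval_X, mul_div_assoc, div_self (mem_Npl.1 hy), mul_one]
  rw [h0, add_sub_cancel_left]
  refine (norm_sum_le _ _).trans ?_
  have h1 : ∀ t ∈ univ.erase (0 : Fin k → ZMod p), ‖ZMod.stdAddChar (N := p) (-∑ j, t j * b j) *
        ∏ i, ∑ y ∈ Npl (Q i), ZMod.stdAddChar (N := p)
          ((∑ j, C (t j) * f i j + C (α i) * X * Q i).eval y / (Q i).eval y)‖ ≤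
      (13 * ((d + 1 : ℕ) + 1 : ℝ) ^ 4 * √(p : ℝ)) ^ n := by
    intro t ht
    have ht0 : t ≠ 0 := (mem_erase.1 ht).1
    rw [norm_mul, psi_norm, one_mul, norm_prod]
    refine (Finset.prod_le_prod (fun i _ => norm_nonneg _) (fun i _ => rat_sum (d := d + 1) _ (Q i) (hQ i) ?_
      ((hQd i).trans (Nat.le_succ d)) ?_ hd)).trans ?_
    · refine natDegree_add_le_of_degree_le ?_ ?_
      · exact natDegree_sum_le_of_forall_le _ _ fun j _ => (natDegree_C_mul_le _ _).trans ((hf i j).trans (Nat.le_succ d))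
      · refine natDegree_mul_le.trans ?_
        have h2 : (C (α i) * X : (ZMod p)[X]).natDegree ≤ 1 := (natDegree_C_mul_le _ _).trans natDegree_X_le
        have h3 := hQd i
        omega
    · intro c hc
      apply ht0
      refine hind i t (-α i) c ?_
      rw [C_neg]
      linear_combination hc
    · rw [Finset.prod_const, Finset.card_univ, Fintype.card_fin]
  refine (Finset.sum_le_sum h1).trans ?_
  rw [Finset.sum_const, nsmul_eq_mul]
  refine mul_le_mul_of_nonneg_right ?_ (by positivity)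
  have h2 : (univ.erase (0 : Fin k → ZMod p)).card ≤ p ^ k := by
    refine (card_erase_le).trans (le_of_eq ?_)
    simp [ZMod.card]
  exact_mod_cast h2

theorem prod_Npl_zero {d : ℕ} {Q : Fin n → (ZMod p)[X]} (hQ : ∀ i, Q i ≠ 0) (hQd : ∀ i, (Q i).natDegree ≤ d)
    (α : Fin n → ZMod p) (hα : α ≠ 0) :
    ‖∏ i, ∑ y ∈ Npl (Q i), ZMod.stdAddChar (N := p) (α i * y)‖ ≤ d * (p : ℝ) ^ (n - 1) := by
  classical
  obtain ⟨i, hi⟩ : ∃ i, α i ≠ 0 := by
    by_contra hcon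
    push Not at hcon
    exact hα (funext hcon)
  rw [norm_prod, ← Finset.mul_prod_erase _ _ (mem_univ i)]
  refine mul_le_mul (Npl_sum (hQ i) (hQd i) hi) ?_ (prod_nonneg fun _ _ => norm_nonneg _) (Nat.cast_nonneg _)
  have h1 : ∀ j ∈ univ.erase i, ‖∑ y ∈ Npl (Q j), ZMod.stdAddChar (N := p) (α j * y)‖ ≤ (p : ℝ) := by
    intro j _
    refine (norm_sum_le _ _).trans ?_
    rw [Finset.sum_congr rfl (fun y _ => psi_norm (α j * y)), Finset.sum_const, nsmul_eq_mul, mul_one]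
    exact_mod_cast Npl_card_le (Q j)
  refine (Finset.prod_le_prod (fun _ _ => norm_nonneg _) h1).trans ?_
  rw [Finset.prod_const, card_erase_of_mem (mem_univ i), card_univ, Fintype.card_fin]

theorem prod_Npl_one {d : ℕ} {Q : Fin n → (ZMod p)[X]} (hQ : ∀ i, Q i ≠ 0) (hQd : ∀ i, (Q i).natDegree ≤ d)
    (hd : 4 * n * d ≤ p) :
    3 / 4 * (p : ℝ) ^ n ≤ ∏ i, ((Npl (Q i)).card : ℝ) := by
  have hp : p.Prime := Fact.out
  have hp0 : (0 : ℝ) < p := by exact_mod_cast hp.pos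
  have h1 : ∀ i, (p : ℝ) * (1 - d / p) ≤ ((Npl (Q i)).card : ℝ) := by
    intro i
    have h2 := Npl_card_ge (hQ i) (hQd i)
    have h3 : (p : ℝ) ≤ (Npl (Q i)).card + d := by exact_mod_cast h2
    have h4 : (p : ℝ) * (1 - d / p) = p - d := by field_simp
    rw [h4]
    linarith
  rcases Nat.eq_zero_or_pos n with h0 | h0
  · subst h0
    norm_num
  have hn : (0 : ℝ) < n := by exact_mod_cast h0
  have hdR : 4 * (n : ℝ) * d ≤ p := by exact_mod_cast hd
  have hdp : (d : ℝ) / p ≤ 1 / (4 * n) := by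
    rw [div_le_div_iff₀ hp0 (by positivity)]
    linarith
  have hn1 : (1 : ℝ) ≤ n := by exact_mod_cast h0
  have h5 : (1 : ℝ) / (4 * n) ≤ 1 / 4 := by
    rw [div_le_div_iff₀ (by positivity) (by norm_num)]
    linarith
  have hdp0 : (0 : ℝ) ≤ (d : ℝ) / p := by positivity
  have h6 : ∏ _i : Fin n, ((p : ℝ) * (1 - d / p)) ≤ ∏ i, ((Npl (Q i)).card : ℝ) :=
    Finset.prod_le_prod (fun i _ => mul_nonneg hp0.le (by linarith)) fun i _ => h1 i
  refine le_trans ?_ h6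
  rw [Finset.prod_const, card_univ, Fintype.card_fin, mul_pow, mul_comm]
  refine mul_le_mul_of_nonneg_left ?_ (by positivity)
  have h7 := one_add_mul_le_pow (a := -((d : ℝ) / p)) (by linarith) n
  have h8 : (n : ℝ) * (d / p) ≤ 1 / 4 := by
    have := mul_le_mul_of_nonneg_left hdp hn.le
    have e : (n : ℝ) * (1 / (4 * n)) = 1 / 4 := by field_simp
    linarith
  have e : (1 : ℝ) - d / p = 1 + -((d : ℝ) / p) := by ring
  rw [e]
  linarith

end

theorem rec_rsys (n k E : ℕ) (hn : 2 * k < n) (δ : ℝ) (hδ : 0 < δ) (hδ1 : δ ≤ 1) :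
    ∃ κ : ℝ, 0 < κ ∧ ∃ p₀ : ℕ, ∀ (p : ℕ) [Fact p.Prime], p₀ ≤ p →
    ∀ (d : ℕ) (f : Fin n → Fin k → (ZMod p)[X]) (Q : Fin n → (ZMod p)[X]) (b : Fin k → ZMod p),
    (d : ℝ) ≤ (p : ℝ) ^ (δ / (200 * n)) →
    (∀ i, Q i ≠ 0) → (∀ i j, (f i j).natDegree ≤ d) → (∀ i, (Q i).natDegree ≤ d) →
    (∀ i, ∀ (t : Fin k → ZMod p) (a c : ZMod p), ∑ j, C (t j) * f i j = (C a * X + C c) * Q i → t = 0) →
    ∀ (M : Fin n → ℤ) (L : Fin n → ℕ), (∀ j, (p : ℝ) ^ δ ≤ L j ∧ L j ≤ p) →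
      (p : ℝ) ^ (max ((n : ℝ) / 2 + k) (n - 1) + δ) ≤ ∏ j, (L j : ℝ) →
    (p : ℝ) ^ (-δ) * ((p : ℝ) ^ ((n : ℝ) - k) * ∏ j, ((L j : ℝ) / p)) ≤
      (Set.ncard {z : Fin n → ℤ | (∀ j, M j < z j ∧ z j ≤ M j + L j) ∧
        ((∀ i, (Q i).eval (z i : ZMod p) ≠ 0) ∧
        ∀ j, ∑ i, (f i j).eval (z i : ZMod p) / (Q i).eval (z i : ZMod p) = b j) ∧ Good n E κ δ p z} : ℝ) := by
  classical
  have hn0 : 0 < n := by omega
  have hnr : (1 : ℝ) ≤ n := by exact_mod_cast hn0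
  obtain ⟨κ, hκ, p₁, h⟩ := rec_pts n E δ hδ hδ1
  obtain ⟨p₂, h2⟩ := ev_large (δ / (2 * n)) (by positivity) (by rw [div_le_one (by positivity)]; linarith)
  obtain ⟨p₃, h3⟩ := ev_const (δ / 16) (4 * n) (by positivity)
  obtain ⟨p₄, h4⟩ := ev_const (1 / 4) 4 (by norm_num)
  obtain ⟨p₅, h5⟩ := ev_const (δ / (200 * n)) 2 (by positivity)
  refine ⟨κ, hκ, max (max p₁ p₂) (max p₃ (max p₄ p₅)), ?_⟩
  intro p _ hpp d f Q b hdp hQ hf hQd hind M L hL hV
  have hp : p.Prime := Fact.out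
  have e1 : p₁ ≤ p := ((le_max_left _ _).trans (le_max_left _ _)).trans hpp
  have e2 : p₂ ≤ p := ((le_max_right _ _).trans (le_max_left _ _)).trans hpp
  have e3 : p₃ ≤ p := ((le_max_left _ _).trans (le_max_right _ _)).trans hpp
  have e4 : p₄ ≤ p := (((le_max_left _ _).trans (le_max_right _ _)).trans (le_max_right _ _)).trans hpp
  have e5 : p₅ ≤ p := (((le_max_right _ _).trans (le_max_right _ _)).trans (le_max_right _ _)).trans hpp
  have hp0 : (0 : ℝ) < p := by exact_mod_cast hp.pos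
  have hp1 : (1 : ℝ) < p := by exact_mod_cast hp.one_lt
  have hmo : ∀ x y : ℝ, x ≤ y → (p : ℝ) ^ x ≤ (p : ℝ) ^ y := fun x y h =>
    Real.rpow_le_rpow_of_exponent_le hp1.le h
  have g5 := h5 p e5
  have hD : ((d + 1 : ℕ) : ℝ) ≤ (p : ℝ) ^ (δ / (2 * n) / 50) := by
    have e : δ / (2 * n) / 50 = δ / (200 * n) + δ / (200 * n) := by field_simp; norm_num
    rw [e, Real.rpow_add hp0]
    push_cast
    have h6 : (0 : ℝ) ≤ (p : ℝ) ^ (δ / (200 * n)) := Real.rpow_nonneg hp0.le _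
    nlinarith
  obtain ⟨a1, a2, a3, a4⟩ := h2 p e2 (d + 1) hD
  set W : ℝ := 13 * ((d + 1 : ℕ) + 1 : ℝ) ^ 4 with hW
  have hW0 : 0 ≤ W := by rw [hW]; positivity
  have hWn : W ^ n ≤ (p : ℝ) ^ (δ / 16) := by
    have h5 : W ≤ (p : ℝ) ^ (δ / (2 * n) / 8) := by
      have : (0 : ℝ) ≤ ((d + 1 : ℕ) + 1 : ℝ) ^ 4 := by positivity
      rw [hW]
      linarith
    refine (pow_le_pow_left₀ hW0 h5 n).trans (le_of_eq ?_)
    rw [← Real.rpow_natCast, ← Real.rpow_mul hp0.le]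
    congr 1
    field_simp
    norm_num
  have g3 := h3 p e3
  have hd16 : (d : ℝ) ≤ (p : ℝ) ^ (δ / 16) := by
    refine hdp.trans (hmo _ _ ?_)
    rw [div_le_div_iff₀ (by positivity) (by norm_num)]
    nlinarith
  have h16 : (p : ℝ) ^ (δ / 16) * (p : ℝ) ^ (δ / 16) = (p : ℝ) ^ (δ / 8) := by
    rw [← Real.rpow_add hp0]; congr 1; ring
  have hP16 : 0 ≤ (p : ℝ) ^ (δ / 16) := Real.rpow_nonneg hp0.le _
  have h4nd : 4 * n * d ≤ p := by
    have h6 : (4 * n * d : ℝ) ≤ (p : ℝ) ^ (δ / 8) := by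
      rw [← h16]; exact mul_le_mul g3 hd16 (Nat.cast_nonneg _) hP16
    have h7 : (p : ℝ) ^ (δ / 8) ≤ p := by
      calc (p : ℝ) ^ (δ / 8) ≤ (p : ℝ) ^ (1 : ℝ) := hmo _ _ (by linarith)
        _ = p := Real.rpow_one _
    exact_mod_cast h6.trans h7
  have hkr : 2 * (k : ℝ) + 1 ≤ n := by exact_mod_cast hn
  have hbound : (W * √(p : ℝ)) ^ n = W ^ n * (p : ℝ) ^ ((n : ℝ) / 2) := by
    rw [mul_pow, sqrt_pow_rpow hp.pos]
  set S := RSys f Q b with hS
  have hpk : (0 : ℝ) < (p : ℝ) ^ k := by positivity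
  have hpn : (p : ℝ) ^ n = (p : ℝ) ^ k * (p : ℝ) ^ ((n : ℝ) - k) := by
    rw [← Real.rpow_natCast _ k, ← Real.rpow_add hp0, ← Real.rpow_natCast]
    congr 1
    ring
  have hcard : (p : ℝ) ^ ((n : ℝ) - k) / 2 ≤ S.card := by
    have h5 := rsys_sum hQ hf hQd hind a4 b 0
    rw [← hW, hbound] at h5
    simp only [Pi.zero_apply, zero_mul, Finset.sum_const_zero, AddChar.map_zero_eq_one, Finset.sum_const, nsmul_eq_mul,
      mul_one] at h5
    have h6 : (∏ i, ((Npl (Q i)).card : ℝ)) - (p : ℝ) ^ k * S.card ≤ (p : ℝ) ^ k * (W ^ n * (p : ℝ) ^ ((n : ℝ) / 2)) := by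
      refine le_trans ?_ h5
      rw [norm_sub_rev]
      have h7 : ((∏ i, ((Npl (Q i)).card : ℂ)) - (p : ℂ) ^ k * (S.card : ℂ)) =
          (((∏ i, ((Npl (Q i)).card : ℝ)) - (p : ℝ) ^ k * S.card : ℝ) : ℂ) := by
        push_cast; ring
      rw [← hS, h7, Complex.norm_real]
      exact le_abs_self _
    have h7 := prod_Npl_one hQ hQd h4nd
    have h8 : (p : ℝ) ^ k * (3 / 4 * (p : ℝ) ^ ((n : ℝ) - k) - S.card) ≤ (p : ℝ) ^ k * (W ^ n * (p : ℝ) ^ ((n : ℝ) / 2)) := by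
      rw [hpn] at h7
      have e : (p : ℝ) ^ k * (3 / 4 * (p : ℝ) ^ ((n : ℝ) - k) - S.card) =
          3 / 4 * ((p : ℝ) ^ k * (p : ℝ) ^ ((n : ℝ) - k)) - (p : ℝ) ^ k * S.card := by ring
      rw [e]
      linarith
    have h9 := le_of_mul_le_mul_left h8 hpk
    have h10 : 4 * (W ^ n * (p : ℝ) ^ ((n : ℝ) / 2)) ≤ (p : ℝ) ^ ((n : ℝ) - k) := by
      have h11 : (p : ℝ) ^ ((1 : ℝ) / 4) * ((p : ℝ) ^ (δ / 16) * (p : ℝ) ^ ((n : ℝ) / 2)) ≤ (p : ℝ) ^ ((n : ℝ) - k) := by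
        rw [← Real.rpow_add hp0, ← Real.rpow_add hp0]
        exact hmo _ _ (by linarith)
      refine le_trans ?_ h11
      have h12 : (0 : ℝ) ≤ (p : ℝ) ^ ((n : ℝ) / 2) := Real.rpow_nonneg hp0.le _
      exact mul_le_mul (h4 p e4) (mul_le_mul_of_nonneg_right hWn h12) (by positivity) (Real.rpow_nonneg hp0.le _)
    linarith
  set ε : ℝ := min ((n : ℝ) / 2 - k) 1 with hε
  have hε1 : ε ≤ (n : ℝ) / 2 - k := min_le_left _ _
  have hε2 : ε ≤ 1 := min_le_right _ _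
  have key := h p e1 ((n : ℝ) - k) ε S hcard (by
    intro α hα
    have h5 := rsys_sum hQ hf hQd hind a4 b α
    have h6 := prod_Npl_zero hQ hQd α hα
    have h7 : ‖(p : ℂ) ^ k * ∑ x ∈ S, ZMod.stdAddChar (N := p) (∑ i, α i * x i)‖ ≤
        (p : ℝ) ^ k * (W ^ n * (p : ℝ) ^ ((n : ℝ) / 2)) + d * (p : ℝ) ^ (n - 1) := by
      have h8 := norm_add_le ((p : ℂ) ^ k * ∑ x ∈ S, ZMod.stdAddChar (N := p) (∑ i, α i * x i) -
        ∏ i, ∑ y ∈ Npl (Q i), ZMod.stdAddChar (N := p) (α i * y)) (∏ i, ∑ y ∈ Npl (Q i), ZMod.stdAddChar (N := p) (α i * y))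
      rw [sub_add_cancel] at h8
      rw [← hW, hbound] at h5
      exact h8.trans (add_le_add h5 h6)
    rw [norm_mul, norm_pow, Complex.norm_natCast] at h7
    have h8 : (p : ℝ) ^ (n - 1) = (p : ℝ) ^ k * (p : ℝ) ^ ((n : ℝ) - 1 - k) := by
      rw [← Real.rpow_natCast _ k, ← Real.rpow_add hp0, ← Real.rpow_natCast]
      congr 1
      push_cast [Nat.cast_sub hn0]
      ring
    rw [h8] at h7
    have h9 : (p : ℝ) ^ k * ‖∑ x ∈ S, ZMod.stdAddChar (N := p) (∑ i, α i * x i)‖ ≤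
        (p : ℝ) ^ k * (W ^ n * (p : ℝ) ^ ((n : ℝ) / 2) + d * (p : ℝ) ^ ((n : ℝ) - 1 - k)) := by
      refine h7.trans (le_of_eq ?_)
      ring
    have h10 := le_of_mul_le_mul_left h9 hpk
    refine h10.trans ?_
    have h11 : (p : ℝ) ^ ((n : ℝ) / 2) ≤ (p : ℝ) ^ ((n : ℝ) - k - ε) := hmo _ _ (by linarith)
    have h12 : (p : ℝ) ^ ((n : ℝ) - 1 - k) ≤ (p : ℝ) ^ ((n : ℝ) - k - ε) := hmo _ _ (by linarith)
    have h13 : (0 : ℝ) ≤ (p : ℝ) ^ ((n : ℝ) - k - ε) := Real.rpow_nonneg hp0.le _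
    have h14 : W ^ n * (p : ℝ) ^ ((n : ℝ) / 2) ≤ (p : ℝ) ^ (δ / 16) * (p : ℝ) ^ ((n : ℝ) - k - ε) :=
      mul_le_mul hWn h11 (Real.rpow_nonneg hp0.le _) hP16
    have h15 : d * (p : ℝ) ^ ((n : ℝ) - 1 - k) ≤ (p : ℝ) ^ (δ / 16) * (p : ℝ) ^ ((n : ℝ) - k - ε) :=
      mul_le_mul hd16 h12 (Real.rpow_nonneg hp0.le _) hP16
    have h16' : 2 * (p : ℝ) ^ (δ / 16) ≤ (p : ℝ) ^ (δ / 8) := by
      rw [← h16]
      exact mul_le_mul_of_nonneg_right (by linarith) hP16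
    have h17 := mul_le_mul_of_nonneg_right h16' h13
    linarith) M L hL (by
      refine le_trans (hmo _ _ ?_) hV
      have h5 : (n : ℝ) - ε ≤ max ((n : ℝ) / 2 + k) (n - 1) := by
        rw [hε]
        rcases min_choice ((n : ℝ) / 2 - k) 1 with h6 | h6
        · rw [h6]
          refine le_trans ?_ (le_max_left _ _)
          linarith
        · rw [h6]
          exact le_max_right _ _
      linarith)
  refine key.trans (le_of_eq ?_)
  congr 2
  ext z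
  simp only [Set.mem_setOf_eq, hS, RSys, mem_filter, Fintype.mem_piFinset, mem_Npl]

end Run7.h914
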