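import Pool.Agent.Run7.h914.Quad

/-! Exponential sums over matrices with given determinant modulo `p`. -/

set_option autoImplicit false
set_option linter.all false

namespace Run7.h914

open Finset Matrix

section
variable {p : ℕ} [Fact p.Prime]

/-- glue a column -/
def mk0 {n : ℕ} (u : Fin (n + 1) → ZMod p) (Z : Fin (n + 1) → Fin n → ZMod p) :
    Matrix (Fin (n + 1)) (Fin (n + 1)) (ZMod p) :=
  Matrix.of (fun i => Fin.cons (u i) (Z i))

@[simp] theorem mk0_zero {n : ℕ} (u : Fin (n + 1) → ZMod p) (Z : Fin (n + 1) → Fin n → ZMod p) (i : Fin (n + 1)) :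
    mk0 u Z i 0 = u i := rfl

@[simp] theorem mk0_succ {n : ℕ} (u : Fin (n + 1) → ZMod p) (Z : Fin (n + 1) → Fin n → ZMod p) (i : Fin (n + 1))
    (j : Fin n) : mk0 u Z i j.succ = Z i j := rfl

def mk0Equiv (n : ℕ) : ((Fin (n + 1) → Fin n → ZMod p) × (Fin (n + 1) → ZMod p)) ≃
    Matrix (Fin (n + 1)) (Fin (n + 1)) (ZMod p) where
  toFun q := mk0 q.2 q.1
  invFun X := (fun i j => X i j.succ, fun i => X i 0)
  left_inv q := rfl
  right_inv X := by
    ext i j
    rcases Fin.eq_zero_or_eq_succ j with h | ⟨j', h⟩ <;> rw [h] <;> rfl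

theorem sum_mk0 {n : ℕ} (g : Matrix (Fin (n + 1)) (Fin (n + 1)) (ZMod p) → ℂ) :
    ∑ X, g X = ∑ Z : Fin (n + 1) → Fin n → ZMod p, ∑ u : Fin (n + 1) → ZMod p, g (mk0 u Z) := by
  rw [← Fintype.sum_prod_type']
  exact (Fintype.sum_equiv (mk0Equiv n) _ _ (fun q => rfl)).symm

/-- glue a row -/
def rw0 {n : ℕ} (r : Fin n → ZMod p) (Y : Matrix (Fin n) (Fin n) (ZMod p)) : Fin (n + 1) → Fin n → ZMod p :=
  Fin.cons r Y

def rw0Equiv (n : ℕ) : (Matrix (Fin n) (Fin n) (ZMod p) × (Fin n → ZMod p)) ≃ (Fin (n + 1) → Fin n → ZMod p) where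
  toFun q := rw0 q.2 q.1
  invFun Z := (fun i j => Z i.succ j, Z 0)
  left_inv q := rfl
  right_inv Z := by
    funext i
    rcases Fin.eq_zero_or_eq_succ i with h | ⟨j', h⟩ <;> rw [h] <;> rfl

theorem sum_rw0 {n : ℕ} (g : (Fin (n + 1) → Fin n → ZMod p) → ℂ) :
    ∑ Z, g Z = ∑ Y : Matrix (Fin n) (Fin n) (ZMod p), ∑ r : Fin n → ZMod p, g (rw0 r Y) := by
  rw [← Fintype.sum_prod_type']
  exact (Fintype.sum_equiv (rw0Equiv n) _ _ (fun q => rfl)).symm

/-- the vector of cofactors -/
def cof {n : ℕ} (Z : Fin (n + 1) → Fin n → ZMod p) (i : Fin (n + 1)) : ZMod p :=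
  (-1) ^ (i : ℕ) * det (Matrix.of (fun a b => Z (i.succAbove a) b))

theorem det_mk0 {n : ℕ} (u : Fin (n + 1) → ZMod p) (Z : Fin (n + 1) → Fin n → ZMod p) :
    det (mk0 u Z) = ∑ i, cof Z i * u i := by
  rw [det_succ_column_zero]
  refine Finset.sum_congr rfl fun i _ => ?_
  have h : (mk0 u Z).submatrix i.succAbove Fin.succ = Matrix.of (fun a b => Z (i.succAbove a) b) := by
    ext a b
    rfl
  rw [h, mk0_zero]
  unfold cof
  ring

theorem cof_orth {n : ℕ} (Z : Fin (n + 1) → Fin n → ZMod p) (j : Fin n) : ∑ i, cof Z i * Z i j = 0 := by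
  rw [← det_mk0 (fun i => Z i j) Z]
  exact det_zero_of_column_eq (i := 0) (j := j.succ) (Fin.succ_ne_zero j).symm (fun k => rfl)

theorem cof_rw0 {n : ℕ} (Y : Matrix (Fin n) (Fin n) (ZMod p)) : cof (rw0 (0 : Fin n → ZMod p) Y) 0 = det Y ∧
    ∀ i : Fin n, cof (rw0 (0 : Fin n → ZMod p) Y) i.succ = 0 := by
  constructor
  · unfold cof
    rw [Fin.val_zero, pow_zero, one_mul]
    congr 1
  · intro i
    unfold cof
    have h : n ≠ 0 := by
      rintro rfl
      exact i.elim0
    obtain ⟨m, rfl⟩ : ∃ m, n = m + 1 := ⟨n - 1, by omega⟩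
    rw [det_eq_zero_of_row_eq_zero (0 : Fin (m + 1)), mul_zero]
    intro j
    simp only [Matrix.of_apply]
    have h1 : (i.succ).succAbove (0 : Fin (m + 1)) = 0 := Fin.succAbove_of_castSucc_lt _ _ (by simp)
    rw [h1]
    rfl

theorem cof_row {n : ℕ} (r : Fin n → ZMod p) (Y : Matrix (Fin n) (Fin n) (ZMod p)) : cof (rw0 r Y) 0 = det Y := by
  unfold cof
  rw [Fin.val_zero, pow_zero, one_mul]
  congr 1

open scoped Classical in
theorem col_sum {n : ℕ} (v : Fin (n + 1) → ZMod p) {a : ZMod p} (ha : a ≠ 0) (d : ZMod p) :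
    ∑ u ∈ univ.filter (fun u : Fin (n + 1) → ZMod p => ∑ i, v i * u i = d), ZMod.stdAddChar (N := p) (a * u 0) =
      if v 0 ≠ 0 ∧ ∀ i : Fin n, v i.succ = 0 then (p : ℂ) ^ n * ZMod.stdAddChar (N := p) (a * d / v 0) else 0 := by
  have hp : p.Prime := Fact.out
  have hp0 : (p : ℂ) ≠ 0 := by exact_mod_cast hp.ne_zero
  apply mul_left_cancel₀ hp0
  have h1 : ∀ u : Fin (n + 1) → ZMod p, (p : ℂ) * (if ∑ i, v i * u i = d then ZMod.stdAddChar (N := p) (a * u 0) else 0) =
      ∑ s : ZMod p, ZMod.stdAddChar (N := p) (-(s * d)) *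
        ZMod.stdAddChar (N := p) (∑ i, (s * v i + (if i = 0 then a else 0)) * u i) := by
    intro u
    have h2 : (p : ℂ) * (if ∑ i, v i * u i = d then ZMod.stdAddChar (N := p) (a * u 0) else 0) =
        (if (∑ i, v i * u i - d) = 0 then (p : ℂ) else 0) * ZMod.stdAddChar (N := p) (a * u 0) := by
      by_cases h : ∑ i, v i * u i = d
      · rw [if_pos h, if_pos (sub_eq_zero.2 h)]
      · rw [if_neg h, if_neg (fun h' => h (sub_eq_zero.1 h')), mul_zero, zero_mul]
    rw [h2, ← one_sum, Finset.sum_mul]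
    refine Finset.sum_congr rfl fun s _ => ?_
    rw [← AddChar.map_add_eq_mul, ← AddChar.map_add_eq_mul]
    congr 1
    have h3 : ∑ i, (s * v i + (if i = 0 then a else 0)) * u i = s * (∑ i, v i * u i) + a * u 0 := by
      simp only [add_mul, Finset.sum_add_distrib, ite_mul, zero_mul, Finset.sum_ite_eq', mem_univ, if_true,
        Finset.mul_sum, mul_assoc]
    rw [h3]
    ring
  rw [Finset.sum_filter, Finset.mul_sum, Finset.sum_congr rfl (fun u _ => h1 u), Finset.sum_comm]
  simp_rw [← Finset.mul_sum, vec_sum]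
  by_cases hC : v 0 ≠ 0 ∧ ∀ i : Fin n, v i.succ = 0
  · rw [if_pos hC, Finset.sum_eq_single (-(a / v 0))]
    · rw [if_pos, pow_succ]
      · have h4 : -(-(a / v 0) * d) = a * d / v 0 := by
          field_simp
        rw [h4]
        ring
      · funext i
        rcases Fin.eq_zero_or_eq_succ i with h | ⟨j, h⟩
        · rw [h, if_pos rfl, Pi.zero_apply]
          have := hC.1
          field_simp
          ring
        · rw [h, if_neg (Fin.succ_ne_zero j), hC.2 j, Pi.zero_apply]
          ring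
    · intro s _ hs
      rw [if_neg, mul_zero]
      intro h
      apply hs
      have h5 := congrFun h 0
      rw [if_pos rfl, Pi.zero_apply] at h5
      have := hC.1
      field_simp
      linear_combination h5
    · intro h; exact absurd (mem_univ _) h
  · rw [if_neg hC, mul_zero]
    refine Finset.sum_eq_zero fun s _ => ?_
    rw [if_neg, mul_zero]
    intro h
    apply hC
    have h5 := congrFun h 0
    rw [if_pos rfl, Pi.zero_apply] at h5
    have hs : s ≠ 0 := by
      rintro rfl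
      rw [zero_mul, zero_add] at h5
      exact ha h5
    constructor
    · intro h0
      rw [h0, mul_zero, zero_add] at h5
      exact ha h5
    · intro j
      have h6 := congrFun h j.succ
      rw [if_neg (Fin.succ_ne_zero j), Pi.zero_apply, add_zero] at h6
      exact (mul_eq_zero.1 h6).resolve_left hs

open scoped Classical in
/-- the sums for diagonal matrices -/
noncomputable def TT (n : ℕ) (D : Fin n → ZMod p) (d : ZMod p) : ℂ :=
  ∑ X ∈ univ.filter (fun X : Matrix (Fin n) (Fin n) (ZMod p) => X.det = d),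
    ZMod.stdAddChar (N := p) (∑ i, D i * X i i)

open scoped Classical in
theorem TT_rec {n : ℕ} (D : Fin (n + 1) → ZMod p) (hD : D 0 ≠ 0) (d : ZMod p) :
    TT (n + 1) D d = (p : ℂ) ^ n * ∑ Y ∈ univ.filter (fun Y : Matrix (Fin n) (Fin n) (ZMod p) => Y.det ≠ 0),
      ZMod.stdAddChar (N := p) (D 0 * d / Y.det + ∑ i : Fin n, D i.succ * Y i i) := by
  unfold TT
  rw [Finset.sum_filter, sum_mk0]
  have h1 : ∀ Z : Fin (n + 1) → Fin n → ZMod p, ∑ u : Fin (n + 1) → ZMod p,
      (if det (mk0 u Z) = d then ZMod.stdAddChar (N := p) (∑ i, D i * mk0 u Z i i) else 0) =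
      ZMod.stdAddChar (N := p) (∑ i : Fin n, D i.succ * Z i.succ i) *
        (if cof Z 0 ≠ 0 ∧ ∀ i : Fin n, cof Z i.succ = 0 then
          (p : ℂ) ^ n * ZMod.stdAddChar (N := p) (D 0 * d / cof Z 0) else 0) := by
    intro Z
    rw [← col_sum (cof Z) hD d, Finset.sum_filter, Finset.mul_sum]
    refine Finset.sum_congr rfl fun u _ => ?_
    rw [det_mk0, mul_ite, mul_zero]
    by_cases h : ∑ i, cof Z i * u i = d
    · rw [if_pos h, if_pos h, ← AddChar.map_add_eq_mul, Fin.sum_univ_succ, mk0_zero, add_comm]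
      rfl
    · rw [if_neg h, if_neg h]
  rw [Finset.sum_congr rfl (fun Z _ => h1 Z), sum_rw0, Finset.sum_filter, Finset.mul_sum]
  refine Finset.sum_congr rfl fun Y _ => ?_
  by_cases hY : det Y = 0
  · rw [if_neg (not_not.2 hY), mul_zero]
    refine Finset.sum_eq_zero fun r _ => ?_
    rw [if_neg, mul_zero]
    rw [cof_row]
    exact fun h => h.1 hY
  · rw [if_pos hY, Finset.sum_eq_single 0]
    · obtain ⟨h2, h3⟩ := cof_rw0 Y
      rw [if_pos ⟨by rw [h2]; exact hY, h3⟩, h2, AddChar.map_add_eq_mul]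
      have h4 : ∀ i : Fin n, rw0 (0 : Fin n → ZMod p) Y i.succ i = Y i i := fun i => rfl
      simp_rw [h4]
      ring
    · intro r _ hr
      rw [if_neg, mul_zero]
      rintro ⟨h2, h3⟩
      apply hr
      funext j
      have h4 := cof_orth (rw0 r Y) j
      rw [Fin.sum_univ_succ] at h4
      have h5 : ∑ i : Fin n, cof (rw0 r Y) i.succ * rw0 r Y i.succ j = 0 :=
        Finset.sum_eq_zero fun i _ => by rw [h3 i, zero_mul]
      rw [h5, add_zero] at h4
      exact (mul_eq_zero.1 h4).resolve_left h2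
    · intro h; exact absurd (mem_univ _) h

theorem card_mat (n : ℕ) : Fintype.card (Matrix (Fin n) (Fin n) (ZMod p)) = p ^ (n * n) := by
  rw [show Fintype.card (Matrix (Fin n) (Fin n) (ZMod p)) = Fintype.card (Fin n → Fin n → ZMod p) from rfl]
  simp [ZMod.card, pow_mul]

/-- the permutation of the coordinates -/
theorem TT_perm {n : ℕ} (D : Fin n → ZMod p) (d : ZMod p) (σ : Equiv.Perm (Fin n)) :
    TT n D d = TT n (fun i => D (σ i)) d := by
  classical
  unfold TT
  rw [Finset.sum_filter, Finset.sum_filter]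
  refine Fintype.sum_equiv (Matrix.reindex σ.symm σ.symm) _ _ (fun X => ?_)
  have h1 : (Matrix.reindex σ.symm σ.symm X).det = X.det := Matrix.det_reindex_self _ _
  rw [h1]
  have h2 : ∑ i, D (σ i) * (Matrix.reindex σ.symm σ.symm X) i i = ∑ i, D i * X i i := by
    have : ∀ i, (Matrix.reindex σ.symm σ.symm X) i i = X (σ i) (σ i) := fun i => rfl
    simp_rw [this]
    exact Equiv.sum_comp σ (fun i => D i * X i i)
  rw [h2]

/-- the first bound -/
theorem TT_bound0 {n : ℕ} (D : Fin (n + 1) → ZMod p) (hD : D 0 ≠ 0) (d : ZMod p) :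
    ‖TT (n + 1) D d‖ ≤ (p : ℝ) ^ (n * n + n) := by
  classical
  rw [TT_rec D hD d, norm_mul, norm_pow, Complex.norm_natCast, pow_add, mul_comm]
  refine mul_le_mul_of_nonneg_right ?_ (by positivity)
  refine (norm_sum_le _ _).trans ?_
  rw [Finset.sum_congr rfl (fun Y _ => psi_norm _), Finset.sum_const, nsmul_eq_mul, mul_one]
  have : (univ.filter (fun Y : Matrix (Fin n) (Fin n) (ZMod p) => Y.det ≠ 0)).card ≤ p ^ (n * n) := by
    refine (card_filter_le _ _).trans ?_
    rw [Finset.card_univ, card_mat]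
  exact_mod_cast this

theorem exists_ne {n : ℕ} {D : Fin n → ZMod p} (hD : D ≠ 0) : ∃ i, D i ≠ 0 := by
  by_contra hcon
  push Not at hcon
  exact hD (funext hcon)

theorem TT_bound1 {n : ℕ} (D : Fin (n + 1) → ZMod p) (hD : D ≠ 0) (d : ZMod p) :
    ‖TT (n + 1) D d‖ ≤ (p : ℝ) ^ (n * n + n) := by
  obtain ⟨i, hi⟩ := exists_ne hD
  rw [TT_perm D d (Equiv.swap 0 i)]
  apply TT_bound0
  rw [Equiv.swap_apply_left]
  exact hi

/-- the number of nonsingular matrices is divided equally between the determinants -/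
theorem inv_sum {n : ℕ} (a : ZMod p) (ha : a ≠ 0) :
    ‖∑ Y ∈ univ.filter (fun Y : Matrix (Fin (n + 1)) (Fin (n + 1)) (ZMod p) => Y.det ≠ 0),
      ZMod.stdAddChar (N := p) (a / Y.det)‖ * (p - 1) ≤ (p : ℝ) ^ ((n + 1) * (n + 1)) := by
  classical
  have hp : p.Prime := Fact.out
  have hpr : (1 : ℝ) < p := by exact_mod_cast hp.one_lt
  set U : Finset (ZMod p) := univ.filter (fun t : ZMod p => t ≠ 0) with hU
  have hUc : (U.card : ℝ) = p - 1 := by
    have h1 : U = univ.erase 0 := by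
      ext x; simp [hU]
    rw [h1, card_erase_of_mem (mem_univ _), Finset.card_univ, ZMod.card, Nat.cast_sub hp.one_lt.le, Nat.cast_one]
  set G : Finset (Matrix (Fin (n + 1)) (Fin (n + 1)) (ZMod p)) := univ.filter (fun Y => Y.det ≠ 0) with hG
  set S : ℂ := ∑ Y ∈ G, ZMod.stdAddChar (N := p) (a / Y.det) with hS
  have h1 : ∀ c ∈ U, S = ∑ Y ∈ G, ZMod.stdAddChar (N := p) (a / Y.det * c) := by
    intro c hc
    have hc0 : c ≠ 0 := (mem_filter.1 hc).2
    set E : Matrix (Fin (n + 1)) (Fin (n + 1)) (ZMod p) := diagonal (Function.update 1 0 c⁻¹) with hE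
    set E' : Matrix (Fin (n + 1)) (Fin (n + 1)) (ZMod p) := diagonal (Function.update 1 0 c) with hE'
    have hdE : E.det = c⁻¹ := by
      rw [hE, det_diagonal, Fin.prod_univ_succ, Function.update_self]
      have : ∀ i : Fin n, Function.update (1 : Fin (n + 1) → ZMod p) 0 c⁻¹ i.succ = 1 := fun i => by
        rw [Function.update_of_ne (Fin.succ_ne_zero i)]; rfl
      simp [this]
    have hdE' : E'.det = c := by
      rw [hE', det_diagonal, Fin.prod_univ_succ, Function.update_self]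
      have : ∀ i : Fin n, Function.update (1 : Fin (n + 1) → ZMod p) 0 c i.succ = 1 := fun i => by
        rw [Function.update_of_ne (Fin.succ_ne_zero i)]; rfl
      simp [this]
    have hEE : E * E' = 1 := by
      rw [hE, hE', diagonal_mul_diagonal, ← diagonal_one]
      congr 1
      funext i
      rcases Fin.eq_zero_or_eq_succ i with h | ⟨j, h⟩
      · rw [h, Function.update_self, Function.update_self, inv_mul_cancel₀ hc0]
      · rw [h, Function.update_of_ne (Fin.succ_ne_zero j), Function.update_of_ne (Fin.succ_ne_zero j)]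
        simp
    have hEE' : E' * E = 1 := by
      rw [mul_eq_one_comm]; exact hEE
    rw [hS]
    refine (Finset.sum_bij (fun Y _ => E * Y) ?_ ?_ ?_ ?_).symm
    · intro Y hY
      rw [hG, mem_filter] at hY ⊢
      exact ⟨mem_univ _, by rw [det_mul, hdE]; exact mul_ne_zero (inv_ne_zero hc0) hY.2⟩
    · intro Y _ Y' _ h
      have := congrArg (fun M => E' * M) h
      simpa only [← Matrix.mul_assoc, hEE', Matrix.one_mul] using this
    · intro Y hY
      rw [hG, mem_filter] at hY
      refine ⟨E' * Y, ?_, ?_⟩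
      · rw [hG, mem_filter]
        exact ⟨mem_univ _, by rw [det_mul, hdE']; exact mul_ne_zero hc0 hY.2⟩
      · rw [← Matrix.mul_assoc, hEE, Matrix.one_mul]
    · intro Y _
      rw [det_mul, hdE]
      congr 1
      field_simp
  have h2 : (U.card : ℂ) * S = ∑ Y ∈ G, (-1 : ℂ) := by
    rw [← nsmul_eq_mul, ← Finset.sum_const, Finset.sum_congr rfl h1, Finset.sum_comm]
    refine Finset.sum_congr rfl fun Y hY => ?_
    have hY0 : a / Y.det ≠ 0 := div_ne_zero ha (mem_filter.1 hY).2
    have h3 := one_sum (p := p) (a / Y.det)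
    rw [if_neg hY0] at h3
    have h4 : U = univ.erase 0 := by
      ext x; simp [hU]
    rw [h4]
    have h5 := Finset.add_sum_erase univ (fun y : ZMod p => ZMod.stdAddChar (N := p) (a / Y.det * y)) (mem_univ 0)
    rw [h3, mul_zero, AddChar.map_zero_eq_one] at h5
    linear_combination h5
  have h6 := congrArg norm h2
  rw [norm_mul, Complex.norm_natCast, hUc, Finset.sum_const, nsmul_eq_mul, norm_mul, Complex.norm_natCast, norm_neg,
    norm_one, mul_one] at h6
  rw [mul_comm, h6]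
  have : G.card ≤ p ^ ((n + 1) * (n + 1)) := by
    refine (card_filter_le _ _).trans ?_
    rw [Finset.card_univ, card_mat]
  exact_mod_cast this

/-- the second bound -/
theorem TT_bound2 {n : ℕ} (D : Fin (n + 3) → ZMod p) (hD : D ≠ 0) {d : ZMod p} (hd : d ≠ 0) :
    ‖TT (n + 3) D d‖ ≤ 2 * (p : ℝ) ^ ((n + 2) * (n + 2) + (n + 2) - 1) := by
  classical
  have hp : p.Prime := Fact.out
  have hpr : (2 : ℝ) ≤ p := by exact_mod_cast hp.two_le
  obtain ⟨i, hi⟩ := exists_ne hD
  rw [TT_perm D d (Equiv.swap 0 i)]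
  set D' : Fin (n + 3) → ZMod p := fun j => D (Equiv.swap 0 i j) with hD'
  have hD'0 : D' 0 ≠ 0 := by
    rw [hD']
    simp only [Equiv.swap_apply_left]
    exact hi
  rw [TT_rec D' hD'0 d, norm_mul, norm_pow, Complex.norm_natCast]
  by_cases h : (fun j : Fin (n + 2) => D' j.succ) = 0
  · have h1 : ∀ Y : Matrix (Fin (n + 2)) (Fin (n + 2)) (ZMod p),
        ZMod.stdAddChar (N := p) (D' 0 * d / Y.det + ∑ i : Fin (n + 2), D' i.succ * Y i i) =
        ZMod.stdAddChar (N := p) (D' 0 * d / Y.det) := by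
      intro Y
      congr 1
      have : ∑ i : Fin (n + 2), D' i.succ * Y i i = 0 := Finset.sum_eq_zero fun i _ => by
        have := congrFun h i
        simp only [Pi.zero_apply] at this
        rw [this, zero_mul]
      rw [this, add_zero]
    rw [Finset.sum_congr rfl (fun Y _ => h1 Y)]
    have h2 := inv_sum (n := n + 1) (D' 0 * d) (mul_ne_zero hD'0 hd)
    set s := ‖∑ Y ∈ univ.filter (fun Y : Matrix (Fin (n + 1 + 1)) (Fin (n + 1 + 1)) (ZMod p) => Y.det ≠ 0),
      ZMod.stdAddChar (N := p) (D' 0 * d / Y.det)‖ with hs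
    have hs0 : 0 ≤ s := norm_nonneg _
    have h3 : s * p ≤ 2 * (p : ℝ) ^ ((n + 1 + 1) * (n + 1 + 1)) := by nlinarith
    have h4 : (p : ℝ) ^ ((n + 1 + 1) * (n + 1 + 1)) = (p : ℝ) ^ ((n + 2) * (n + 2) - 1) * p := by
      rw [← pow_succ]
      congr 1
    rw [h4, ← mul_assoc] at h3
    have h5 : s ≤ 2 * (p : ℝ) ^ ((n + 2) * (n + 2) - 1) := le_of_mul_le_mul_right h3 (by linarith)
    have h6 : (p : ℝ) ^ ((n + 2) * (n + 2) + (n + 2) - 1) = (p : ℝ) ^ (n + 2) * (p : ℝ) ^ ((n + 2) * (n + 2) - 1) := by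
      rw [← pow_add]
      have h7 : 1 ≤ (n + 2) * (n + 2) := Nat.mul_pos (by omega) (by omega)
      have h8 : (n + 2) * (n + 2) + (n + 2) - 1 = (n + 2) + ((n + 2) * (n + 2) - 1) := by omega
      rw [h8]
    rw [h6]
    have h7 := mul_le_mul_of_nonneg_left h5 (by positivity : (0 : ℝ) ≤ (p : ℝ) ^ (n + 2))
    have e : (n + 2 : ℕ) = n + 1 + 1 := rfl
    calc (p : ℝ) ^ (n + 2) * s ≤ (p : ℝ) ^ (n + 2) * (2 * (p : ℝ) ^ ((n + 2) * (n + 2) - 1)) := h7
      _ = 2 * ((p : ℝ) ^ (n + 2) * (p : ℝ) ^ ((n + 2) * (n + 2) - 1)) := by ring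
  · -- sum over the determinants
    have h1 : ∑ Y ∈ univ.filter (fun Y : Matrix (Fin (n + 2)) (Fin (n + 2)) (ZMod p) => Y.det ≠ 0),
        ZMod.stdAddChar (N := p) (D' 0 * d / Y.det + ∑ i : Fin (n + 2), D' i.succ * Y i i) =
        ∑ μ ∈ univ.filter (fun μ : ZMod p => μ ≠ 0), ZMod.stdAddChar (N := p) (D' 0 * d / μ) *
          TT (n + 2) (fun j : Fin (n + 2) => D' j.succ) μ := by
      rw [← Finset.sum_fiberwise_of_maps_to (t := univ.filter (fun μ : ZMod p => μ ≠ 0))
        (g := fun Y : Matrix (Fin (n + 2)) (Fin (n + 2)) (ZMod p) => Y.det)]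
      · refine Finset.sum_congr rfl fun μ hμ => ?_
        unfold TT
        rw [Finset.mul_sum, Finset.filter_filter]
        refine Finset.sum_congr ?_ ?_
        · ext Y
          simp only [mem_filter, mem_univ, true_and]
          constructor
          · exact fun h => h.2
          · intro h
            exact ⟨by rw [h]; exact (mem_filter.1 hμ).2, h⟩
        · intro Y hY
          rw [(mem_filter.1 hY).2, AddChar.map_add_eq_mul]
      · intro Y hY
        exact mem_filter.2 ⟨mem_univ _, (mem_filter.1 hY).2⟩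
    rw [h1]
    have h2 : ‖∑ μ ∈ univ.filter (fun μ : ZMod p => μ ≠ 0), ZMod.stdAddChar (N := p) (D' 0 * d / μ) *
          TT (n + 2) (fun j : Fin (n + 2) => D' j.succ) μ‖ ≤ p * (p : ℝ) ^ ((n + 1) * (n + 1) + (n + 1)) := by
      refine (norm_sum_le _ _).trans ?_
      refine (Finset.sum_le_sum (g := fun _ => (p : ℝ) ^ ((n + 1) * (n + 1) + (n + 1))) (fun μ _ => ?_)).trans ?_
      · rw [norm_mul, psi_norm, one_mul]
        exact TT_bound1 _ h μ
      · rw [Finset.sum_const, nsmul_eq_mul]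
        refine mul_le_mul_of_nonneg_right ?_ (by positivity)
        have : (univ.filter (fun μ : ZMod p => μ ≠ 0)).card ≤ p := by
          refine (card_filter_le _ _).trans ?_
          rw [Finset.card_univ, ZMod.card]
        exact_mod_cast this
    have h3 := mul_le_mul_of_nonneg_left h2 (by positivity : (0 : ℝ) ≤ (p : ℝ) ^ (n + 2))
    refine h3.trans ?_
    have h4 : (p : ℝ) ^ (n + 2) * (p * (p : ℝ) ^ ((n + 1) * (n + 1) + (n + 1))) ≤
        (p : ℝ) ^ ((n + 2) * (n + 2) + (n + 2) - 1) := by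
      rw [← pow_succ', ← pow_add]
      apply pow_le_pow_right₀ (by linarith)
      have : (n + 2) * (n + 2) = n * n + 4 * n + 4 := by ring
      have h5 : (n + 1) * (n + 1) = n * n + 2 * n + 1 := by ring
      omega
    have h5 : (0 : ℝ) ≤ (p : ℝ) ^ ((n + 2) * (n + 2) + (n + 2) - 1) := by positivity
    linarith

end

end Run7.h914
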