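import Pool.Agent.Run7.h914.Mert
import Pool.Agent.Run7.h914.Fun
import Pool.Agent.Y882.FLW
import Pool.Agent.Y882.LSW

/-! A weighted linear sieve: preparations. -/

set_option autoImplicit false
set_option linter.all false

open Finset Filter

namespace Run7.h914

open Pool.Agent.W23.DC Pool.Agent.Y882

open Classical in
/-- the number of elements divisible by all elements of `T` -/
noncomputable def NA {α : Type} (A : Finset α) (F : α → ℕ) (T : Finset ℕ) : ℝ :=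
  ((A.filter (fun a => ∀ p ∈ T, p ∣ F a)).card : ℝ)

open Classical in
theorem sum_VV {α : Type} (A : Finset α) (F : α → ℕ) (P : Finset ℕ) (c : Finset ℕ → ℝ) :
    ∑ a ∈ A, VV P c (fun p => if p ∣ F a then 1 else 0) = ∑ T ∈ P.powerset, c T * NA A F T := by
  unfold VV NA
  rw [sum_comm]
  apply sum_congr rfl
  intro T _
  rw [← mul_sum]
  congr 1
  simp_rw [prod_ind]
  rw [sum_boole]

open Classical in
theorem sum_VV2 {α : Type} (A : Finset α) (F : α → ℕ) (P : Finset ℕ) (c : Finset ℕ → ℝ) (q : ℕ) :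
    ∑ a ∈ A, (if q ∣ F a then (1 : ℝ) else 0) * VV P c (fun p => if p ∣ F a then 1 else 0) =
      ∑ T ∈ P.powerset, c T * NA A F (insert q T) := by
  unfold VV NA
  simp_rw [mul_sum]
  rw [sum_comm]
  apply sum_congr rfl
  intro T _
  have h1 : ∀ a ∈ A, (if q ∣ F a then (1 : ℝ) else 0) * (c T * ∏ p ∈ T, (if p ∣ F a then (1 : ℝ) else 0)) =
      c T * (if ∀ p ∈ insert q T, p ∣ F a then 1 else 0) := by
    intro a _
    rw [prod_ind]
    have : (∀ p ∈ insert q T, p ∣ F a) ↔ q ∣ F a ∧ ∀ p ∈ T, p ∣ F a := by simp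
    by_cases h2 : q ∣ F a
    · by_cases h3 : ∀ p ∈ T, p ∣ F a
      · rw [if_pos h2, if_pos h3, if_pos (this.2 ⟨h2, h3⟩)]; ring
      · rw [if_neg h3, if_neg (fun h => h3 (this.1 h).2)]; ring
    · rw [if_neg h2, if_neg (fun h => h2 (this.1 h).1)]; ring
  rw [sum_congr rfl h1, ← mul_sum, sum_boole]

/-- comparison with the main term -/
theorem VV_err (P : Finset ℕ) (c : Finset ℕ → ℝ) (g : ℕ → ℝ) (X : ℝ) (N : Finset ℕ → ℝ) (G : Finset ℕ → ℝ)
    (x : ℝ) (hG : ∀ T ∈ P.powerset, G T = x * ∏ p ∈ T, g p) :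
    |∑ T ∈ P.powerset, c T * N T - X * (x * VV P c g)| ≤ ∑ T ∈ P.powerset, |c T| * |N T - X * G T| := by
  have h1 : ∑ T ∈ P.powerset, c T * N T - X * (x * VV P c g) = ∑ T ∈ P.powerset, c T * (N T - X * G T) := by
    unfold VV
    rw [mul_sum, mul_sum, ← sum_sub_distrib]
    apply sum_congr rfl
    intro T hT
    rw [hG T hT]
    ring
  rw [h1]
  refine (abs_sum_le_sum_abs _ _).trans (le_of_eq ?_)
  exact sum_congr rfl fun T _ => abs_mul _ _

/-- product weights -/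
def PWt (P1 P2 : Finset ℕ) (α β : Finset ℕ → ℝ) (T : Finset ℕ) : ℝ := α (T ∩ P1) * β (T ∩ P2)

theorem PWt_VV {P1 P2 : Finset ℕ} (hd : Disjoint P1 P2) (α β : Finset ℕ → ℝ) (h : ℕ → ℝ) :
    VV (P1 ∪ P2) (PWt P1 P2 α β) h = VV P1 α h * VV P2 β h := VV_union P1 P2 hd α β h

theorem PWt_prod {P1 P2 : Finset ℕ} (hd : Disjoint P1 P2) {T : Finset ℕ} (hT : T ⊆ P1 ∪ P2) :
    ∏ p ∈ T, p = (∏ p ∈ T ∩ P1, p) * ∏ p ∈ T ∩ P2, p := by
  rw [← prod_union]
  · rw [← inter_union_distrib_left, inter_eq_left.2 hT]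
  · exact disjoint_of_subset_left inter_subset_right (disjoint_of_subset_right inter_subset_right hd)

theorem mem_pr {Y : ℕ} {a b : ℝ} {p : ℕ} : p ∈ pr Y a b ↔ (1 ≤ p ∧ p ≤ Y) ∧ p.Prime ∧ a ≤ tt Y p ∧ tt Y p < b := by
  unfold pr
  rw [mem_filter, mem_Icc]

theorem Siz_pr {Y : ℕ} (hY : 2 ≤ Y) {a b : ℝ} (ha : 0 < a) : Siz (pr Y a b) (tt Y) := by
  have hYr : (2 : ℝ) ≤ Y := by exact_mod_cast hY
  have hlY : 0 < Real.log Y := Real.log_pos (by linarith)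
  refine ⟨fun p hp => (mem_pr.1 hp).2.1, fun p hp => lt_of_lt_of_le ha (mem_pr.1 hp).2.2.1, ?_⟩
  intro p hp q hq
  have hp0 : (0 : ℝ) < p := by exact_mod_cast (mem_pr.1 hp).2.1.pos
  unfold tt
  rw [div_lt_div_iff_of_pos_right hlY, Real.log_lt_log_iff hp0
    (by exact_mod_cast (mem_pr.1 hq).2.1.pos)]
  exact Nat.cast_lt

theorem tt_nonneg {Y : ℕ} (hY : 2 ≤ Y) (p : ℕ) : 0 ≤ tt Y p := by
  have hYr : (2 : ℝ) ≤ Y := by exact_mod_cast hY
  unfold tt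
  exact div_nonneg (Real.log_natCast_nonneg p) (Real.log_pos (by linarith)).le

theorem lc_supp {Y : ℕ} (hY : 2 ≤ Y) {a b : ℝ} (ha : 0 < a) (K : ℕ) (bb : Bool) (τ ζ : ℝ) (hτ : 0 ≤ τ)
    (hb : bb = false → 2 * ζ ≤ τ) {T : Finset ℕ} (hT : T ⊆ pr Y a b) (hne : lc (pr Y a b) (tt Y) K bb τ ζ T ≠ 0) :
    ((∏ p ∈ T, p : ℕ) : ℝ) ≤ (Y : ℝ) ^ τ := by
  have hYr : (2 : ℝ) ≤ Y := by exact_mod_cast hY
  have hlY : 0 < Real.log Y := Real.log_pos (by linarith)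
  have hsiz := Siz_pr (b := b) hY ha
  have hE := lc_EE _ _ hsiz K bb τ ζ hτ hb T hne
  have h5 := EE_sz _ _ hsiz (tt_nonneg hY) τ ζ hτ _ hE
  unfold sz at h5
  rw [Nat.primeFactors_prod (fun p hp => (mem_pr.1 (hT hp)).2.1)] at h5
  unfold tt at h5
  rw [← sum_div, div_le_iff₀ hlY] at h5
  have hp0 : ∀ p ∈ T, (p : ℝ) ≠ 0 := by
    intro p hp
    have := (mem_pr.1 (hT hp)).2.1.ne_zero
    exact_mod_cast this
  have h6 : Real.log ((∏ p ∈ T, p : ℕ) : ℝ) = ∑ p ∈ T, Real.log p := by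
    push_cast
    rw [Real.log_prod hp0]
  rw [← h6] at h5
  have hpos : (0 : ℝ) < ((∏ p ∈ T, p : ℕ) : ℝ) := by
    have : 0 < ∏ p ∈ T, p := Finset.prod_pos fun p hp => (mem_pr.1 (hT hp)).2.1.pos
    exact_mod_cast this
  rw [← Real.log_le_log_iff hpos (by positivity), Real.log_rpow (by linarith)]
  exact h5

open Classical in
/-- the upper weights majorize -/
theorem lc_up (P : Finset ℕ) (t : ℕ → ℝ) (hs : Siz P t) (k : ℕ) (τ ζ : ℝ) (hτ : 0 ≤ τ) (N : ℕ) :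
    (if ∀ p ∈ P, ¬ p ∣ N then (1 : ℝ) else 0) ≤ VV P (lc P t k true τ ζ) (fun p => if p ∣ N then 1 else 0) := by
  have key : VV P (lc P t k true τ ζ) (fun p => if p ∣ N then 1 else 0) =
      LL P t (fun e => if e ∣ N then 1 else 0) k true τ ζ 1 := by
    rw [lc_sum P t hs k true τ ζ hτ (fun h => by simp at h)]
    unfold VV
    apply sum_congr rfl
    intro T hT
    rw [prod_ind]
    congr 1
    have h1 : (∀ p ∈ T, p ∣ N) ↔ (∏ p ∈ T, p) ∣ N := by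
      constructor
      · intro h
        exact Finset.prod_primes_dvd N
          (fun p hp => (hs.pr p (mem_powerset.1 hT hp)).prime) h
      · intro h p hp
        exact (dvd_prod_of_mem (fun p => p) hp).trans h
    by_cases h2 : ∀ p ∈ T, p ∣ N
    · rw [if_pos h2, if_pos (h1.1 h2)]
    · rw [if_neg h2, if_neg (fun h => h2 (h1.2 h))]
  have hone : ∀ p ∈ P, t p < ζ → ¬ p ∣ 1 := by
    intro p hp _ h
    have := (hs.pr p hp).one_lt
    have := Nat.le_of_dvd one_pos h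
    omega
  have h1 := (Pool.Agent.W52.DC.PT P t hs N k τ ζ 1 hone).1
  rw [key]
  refine le_trans ?_ h1
  by_cases h3 : ∀ p ∈ P, ¬ p ∣ N
  · rw [if_pos h3, if_pos ⟨one_dvd N, fun p hp _ => h3 p hp⟩]
  · rw [if_neg h3]
    split_ifs <;> norm_num

/-- the pointwise inequality for the composition of sieves -/
theorem comp_low {L U l u x y : ℝ} (hx : 0 ≤ x) (h1 : L ≤ x) (h2 : x ≤ U) (h3 : l ≤ y) (h4 : y ≤ u) (hy : 0 ≤ y) :
    L * u + U * l - U * u ≤ x * y := by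
  have b1 : 0 ≤ (U - x) * (u - l) := mul_nonneg (by linarith) (by linarith)
  have b2 : 0 ≤ x * (y - l) := mul_nonneg hx (by linarith)
  have b3 : 0 ≤ (x - L) * u := mul_nonneg (by linarith) (by linarith)
  nlinarith

/-- the lower bound for the main term of the composition -/
theorem comp_main {L U l u V e β l0 u0 : ℝ} (hV : 0 ≤ V) (he : 0 ≤ e) (hβ : 0 ≤ β) (h1 : (1 - β) * V ≤ L) (h2 : V ≤ U)
    (h3 : U ≤ (1 + β) * V) (hLU : L ≤ U) (h4 : e * l0 ≤ l) (h5 : u ≤ e * u0) (h6 : 0 ≤ u0) (h7 : 0 ≤ l0) :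
    V * e * (l0 - 2 * β * u0) ≤ L * u + U * l - U * u := by
  have b1 : V * (e * l0) ≤ U * l := mul_le_mul h2 h4 (by positivity) (hV.trans h2)
  have b2 : (U - L) * u ≤ (U - L) * (e * u0) := mul_le_mul_of_nonneg_left h5 (by linarith)
  have b3 : (U - L) * (e * u0) ≤ (2 * β * V) * (e * u0) := by
    apply mul_le_mul_of_nonneg_right _ (by positivity)
    linarith
  nlinarith

theorem Mer_pr {Y : ℕ} {g : ℕ → ℝ} {ε₁ u v η : ℝ} (hu : ε₁ = u)
    (h : ∀ a b : ℝ, ε₁ ≤ a → a ≤ b → b ≤ 1 → |∑ p ∈ pr Y a b, g p - Real.log (b / a)| ≤ η) (hv : v ≤ 1) :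
    Mer (pr Y u v) (tt Y) g u v η := by
  intro a b ha hab hb
  have h2 := h a b (hu ▸ ha) hab (hb.trans hv)
  refine le_trans (le_of_eq ?_) h2
  congr 2
  apply sum_congr _ (fun _ _ => rfl)
  ext p
  rw [mem_filter, mem_pr, mem_pr]
  constructor
  · rintro ⟨⟨h1, h2, -, -⟩, h3, h4⟩
    exact ⟨h1, h2, h3, h4⟩
  · rintro ⟨h1, h2, h3, h4⟩
    exact ⟨⟨h1, h2, ha.trans h3, lt_of_lt_of_le h4 hb⟩, h3, h4⟩

end Run7.h914
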