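import Pool.Agent.H525R3.FFp.Count
import Pool.Agent.H962R3.Cnt
import Pool.Agent.H107R3.ZT.Up
import Pool.Agent.W132.AG.Base
import Pool.Agent.Run7.h914.Rec

/-! The additive character L-function of a function field is a polynomial. -/

set_option autoImplicit false
set_option linter.all false
set_option linter.overlappingInstances false

open Module FF Pool.Agent.H525R3.FFp Pool.Agent.W132.AG

namespace Run7.h914

section
variable {k K : Type*} [Field k] [Field K] [Algebra k K] [PerfectField k] [IsFF k K]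

/-- The count of `Pool.Agent.H525R3.FFp.ray_count`, with a given bound in Riemann's theorem. -/
theorem ray_count' [Finite k] (T : Finset (Place k K)) (hT : T.Nonempty) (M : ℕ) {γ N : ℤ}
    (hN : ∀ D : Place k K →₀ ℤ, N ≤ ddeg D → ell D = ddeg D - γ) :
    ∃ (c : ℤ → ℕ), (∀ d, 0 < c d) ∧
      ∀ D : Place k K →₀ ℤ, (∀ x ∈ T, D x = 0) → N + ddeg (modE T M) ≤ ddeg D →
        Nat.card {u : ray T M // 0 ≤ D + divisor k ((u : Kˣ) : K)} = c (ddeg D) := by
  refine ⟨fun d => Nat.card k ^ (d - ddeg (modE T M) - γ).toNat,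
    fun d => pow_pos Nat.card_pos _, ?_⟩
  intro D hD hdeg
  obtain ⟨f0, hf0, hf1⟩ := exists_near M hN hD hdeg
  have hD0 : ∀ x ∈ T, (D ⊔ 0) x = 0 := by
    intro x hx
    rw [Finsupp.sup_apply, hD x hx]; simp
  have hs0 : ∀ x ∈ T, 1 - f0 = 0 ∨ (M : ℤ) < x.ord (1 - f0) := fun x hx => small_of_mem hD0 hf1 hx
  have hne : ∀ g : K, g ∈ LL (D - modE T M) → f0 + g ≠ 0 := by
    intro g hg h0
    obtain ⟨x, hx⟩ := hT
    have h1 := small_of_mem hD hg hx
    have h2 := hs0 x hx
    have h3 := small_add h2 (small_neg h1)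
    have h4 : 1 - f0 + -g = 1 := by
      have : f0 = -g := eq_neg_of_add_eq_zero_left h0
      rw [this]; ring
    rw [h4, x.ord_one] at h3
    rcases h3 with h3 | h3
    · exact one_ne_zero h3
    · omega
  let e : {u : ray T M // 0 ≤ D + divisor k ((u : Kˣ) : K)} ≃ LL (D - modE T M) :=
    { toFun := fun u => ⟨((u.1 : Kˣ) : K) - f0, by
        have hu1 : ((u.1 : Kˣ) : K) ∈ LL D := by
          rw [mem_LL' (u.1 : Kˣ).ne_zero, add_comm]; exact u.2
        have hu2 := (LL D).sub_mem hu1 hf0
        by_cases h0 : ((u.1 : Kˣ) : K) - f0 = 0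
        · exact Or.inl h0
        right
        intro P
        have h1 := (hu2.resolve_left h0) P
        rw [Finsupp.sub_apply]
        by_cases hP : P ∈ T
        · rw [modE_mem hP, hD P hP]
          have h2 := hs0 P hP
          have h3 : ((u.1 : Kˣ) : K) - 1 = 0 ∨ (M : ℤ) < P.ord (((u.1 : Kˣ) : K) - 1) := by
            rcases u.1.2 P hP with h | h
            · left; rw [h, sub_self]
            · exact Or.inr h
          have h4 := small_add h3 h2
          have h5 : ((u.1 : Kˣ) : K) - 1 + (1 - f0) = ((u.1 : Kˣ) : K) - f0 := by ring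
          rw [h5] at h4
          have h6 := h4.resolve_left h0
          omega
        · rw [modE_notMem hP]; omega⟩
      invFun := fun g => ⟨⟨Units.mk0 (f0 + g.1) (hne g.1 g.2), by
        intro x hx
        rw [Units.val_mk0]
        have h1 := small_of_mem hD g.2 hx
        have h2 := small_neg (hs0 x hx)
        have h3 := small_add h1 h2
        have h4 : g.1 + -(1 - f0) = f0 + g.1 - 1 := by ring
        rw [h4] at h3
        rcases h3 with h3 | h3
        · left; exact sub_eq_zero.1 h3
        · exact Or.inr h3⟩, by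
        rw [add_comm]
        rw [← mem_LL' (Units.ne_zero _), Units.val_mk0]
        exact (LL D).add_mem hf0 (LL_mono (sub_le_self _ (modE_nonneg T M)) g.2)⟩
      left_inv := by
        intro u
        apply Subtype.ext
        apply Subtype.ext
        apply Units.ext
        simp
      right_inv := by
        intro g
        apply Subtype.ext
        simp }
  have hfin : Finite (LL (D - modE T M)) := Module.finite_of_finite k
  have h3 := hN (D - modE T M) (by rw [ddeg_sub]; omega)
  rw [ddeg_sub] at h3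
  rw [Nat.card_congr e, Module.natCard_eq_pow_finrank (K := k)]
  congr 1
  unfold ell at h3
  omega

theorem mem_poles {u : K} {P : Place k K} : P ∈ (polar (k := k) u).support ↔ P.ord u < 0 := by
  rw [Finsupp.mem_support_iff, polar_apply]
  constructor
  · intro h
    by_contra hc
    exact h (max_eq_right (by omega))
  · intro h
    rw [max_eq_left (by omega)]
    omega

theorem red_eq_one {u : K} {P : Place k K} (h : 0 ≤ P.ord u) (h1 : 0 < P.ord (u - 1)) : P.red u = 1 := by
  have hu : P.Reg u := Or.inr h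
  have h2 := P.red_sub hu P.reg_one
  rw [(P.red_eq_zero_iff (P.reg_add hu (P.reg_neg P.reg_one) |> fun h => by rwa [← sub_eq_add_neg] at h)).2 (Or.inr h1), P.red_one] at h2
  exact (sub_eq_zero.1 h2.symm)

/-- the divisor of `(u - 1) / u` -/
theorem tD_special {u : K} (hu : u ≠ 0) (hpos : 0 < ddeg (polar (k := k) u)) :
    tD u (divisor k ((u - 1) / u)) = ((ddeg (polar (k := k) u) : ℤ) : k) := by
  classical
  obtain ⟨P0, hP0⟩ : ∃ P : Place k K, P.ord u < 0 := by
    by_contra hcon
    push Not at hcon
    have h0 : polar (k := k) u = 0 := by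
      ext P
      rw [polar_apply, max_eq_right (by have := hcon P; omega)]; rfl
    rw [h0, ddeg_zero] at hpos
    exact lt_irrefl _ hpos
  have hu1 : u - 1 ≠ 0 := by
    intro h
    rw [sub_eq_zero.1 h, P0.ord_one] at hP0
    omega
  have hpole : ∀ P : Place k K, P.ord u < 0 → P.ord (u - 1) = P.ord u := by
    intro P hP
    have := P.ord_add_eq (f := u) (g := -1) hu (by simp) (by rw [P.ord_neg_one]; exact hP)
    rw [sub_eq_add_neg]
    exact this.2
  have hreg : ∀ P : Place k K, 0 ≤ P.ord u → 0 ≤ P.ord (u - 1) := by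
    intro P hP
    have := P.ord_sub hu one_ne_zero hu1
    rw [P.ord_one] at this
    exact (le_min hP le_rfl).trans this
  have hdiv : divisor k ((u - 1) / u) = polar (u - 1)⁻¹ - polar u⁻¹ := by
    ext P
    rw [Finsupp.sub_apply, divisor_apply, polar_apply, polar_apply, P.ord_inv, P.ord_inv, P.ord_div hu1 hu, neg_neg, neg_neg]
    rcases lt_or_ge (P.ord u) 0 with h | h
    · rw [hpole P h, max_eq_right h.le]; ring
    · rw [max_eq_left (hreg P h), max_eq_left h]
  have h0 : tD u (polar (k := k) u⁻¹) = 0 := by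
    unfold tD
    apply Finset.sum_eq_zero
    intro P hP
    rw [mem_poles, P.ord_inv] at hP
    have : P.red u = 0 := by
      rw [P.red_eq_zero_iff (Or.inr (by omega))]; right; omega
    unfold tP
    simp [this]
  have h1 : tD u (polar (k := k) (u - 1)⁻¹) = ((ddeg (polar (k := k) (u - 1)⁻¹) : ℤ) : k) := by
    unfold tD ddeg Finsupp.sum
    push_cast
    apply Finset.sum_congr rfl
    intro P hP
    rw [mem_poles, P.ord_inv] at hP
    have hP0 : 0 ≤ P.ord u := by
      by_contra hc
      have := hpole P (by omega)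
      omega
    have : P.red u = 1 := red_eq_one hP0 (by omega)
    unfold tP
    rw [this, zsmul_eq_mul]
    congr 1
    have h2 := Algebra.trace_algebraMap (R := k) (S := P.RF) (1 : k)
    rw [map_one] at h2
    rw [h2, nsmul_eq_mul, mul_one]
    rfl
  have h2 : ddeg (polar (k := k) (u - 1)⁻¹) = ddeg (polar (k := k) u) := by
    have h3 : divisor k (u - 1) = polar (u - 1)⁻¹ - polar u := by
      ext P
      rw [Finsupp.sub_apply, polar_apply, polar_apply, P.ord_inv, divisor_apply]
      rcases lt_or_ge (P.ord u) 0 with h | h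
      · rw [hpole P h]; omega
      · have := hreg P h; omega
    have h4 := ddeg_divisor (k := k) (u - 1)
    rw [h3, ddeg_sub] at h4
    omega
  rw [hdiv, tD_sub, h0, h1, h2, sub_zero]


/-! ### the places away from the poles of `u` -/

/-- the places which are not poles of `u` -/
def Gp (k : Type*) {K : Type*} [Field k] [Field K] [Algebra k K] (u : K) : Type _ := {P : Place k K // 0 ≤ P.ord u}

/-- the degree -/
noncomputable def dG (k : Type*) {K : Type*} [Field k] [Field K] [Algebra k K] (u : K) : Gp k u → ℕ := fun v => v.1.deg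

/-- the value of the character -/
noncomputable def aG {k : Type*} {K : Type*} [Field k] [Field K] [Algebra k K] (ψ : AddChar k ℂ) (u : K) :
    Gp k u → ℂ := fun v => ψ (tP u v.1)

/-- the embedding -/
def emG (k : Type*) {K : Type*} [Field k] [Field K] [Algebra k K] (u : K) : Gp k u ↪ Place k K :=
  ⟨Subtype.val, Subtype.val_injective⟩

/-- extension of divisors -/
noncomputable def exG {k : Type*} {K : Type*} [Field k] [Field K] [Algebra k K] (u : K) (D : Gp k u →₀ ℤ) :
    Place k K →₀ ℤ := D.embDomain (emG k u)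

theorem exG_apply (u : K) (D : Gp k u →₀ ℤ) (v : Gp k u) : exG u D v.1 = D v :=
  Finsupp.embDomain_apply_self (emG k u) D v

theorem exG_notin (u : K) (D : Gp k u →₀ ℤ) {P : Place k K} (h : P.ord u < 0) : exG u D P = 0 := by
  apply Finsupp.embDomain_notin_range
  rintro ⟨v, hv⟩
  have := v.2
  change v.1 = P at hv
  rw [hv] at this
  omega

/-- restriction of divisors -/
noncomputable def reG {k : Type*} {K : Type*} [Field k] [Field K] [Algebra k K] (u : K) (D : Place k K →₀ ℤ) :
    Gp k u →₀ ℤ := D.comapDomain (emG k u) (emG k u).injective.injOn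

theorem reG_apply (u : K) (D : Place k K →₀ ℤ) (v : Gp k u) : reG u D v = D v.1 := rfl

theorem exG_reG (u : K) (D : Place k K →₀ ℤ) (h : ∀ P : Place k K, P.ord u < 0 → D P = 0) : exG u (reG u D) = D := by
  ext P
  rcases lt_or_ge (P.ord u) 0 with h1 | h1
  · rw [exG_notin u _ h1, h P h1]
  · exact exG_apply u _ ⟨P, h1⟩

theorem Deg_eq (u : K) (D : Gp k u →₀ ℤ) : Pool.Agent.H962R3.Cnt.Deg (dG k u) D = ddeg (exG u D) := by
  unfold Pool.Agent.H962R3.Cnt.Deg ddeg exG
  rw [Finsupp.sum_embDomain]
  rfl

theorem addchar_sum {A ι : Type*} [AddCommGroup A] (ψ : AddChar A ℂ) (s : Finset ι) (f : ι → A) :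
    ψ (∑ i ∈ s, f i) = ∏ i ∈ s, ψ (f i) := by
  classical
  induction s using Finset.induction_on with
  | empty => simp
  | insert a s ha ih => rw [Finset.sum_insert ha, Finset.prod_insert ha, AddChar.map_add_eq_mul, ih]

theorem Val_eq (ψ : AddChar k ℂ) (u : K) (D : Gp k u →₀ ℤ) :
    Pool.Agent.H962R3.Cnt.Val (aG ψ u) D = ψ (tD u (exG u D)) := by
  unfold Pool.Agent.H962R3.Cnt.Val tD exG
  rw [Finsupp.sum_embDomain]
  unfold Finsupp.sum Finsupp.prod
  rw [addchar_sum]
  refine Finset.prod_congr rfl fun v _ => ?_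
  rw [AddChar.map_zsmul_eq_zpow]
  rfl

end

section
variable {k K : Type} [Field k] [Finite k] [Field K] [Algebra k K] [IsFF k K]

theorem fin_Gp (u : K) (n : ℕ) : {v : Gp k u | dG k u v ≤ n}.Finite := by
  refine Set.Finite.of_finite_image (f := fun v : Gp k u => v.1) ?_ Subtype.val_injective.injOn
  refine (Pool.Agent.H107R3.ZT.places_finite (k := k) (F := K) n).subset ?_
  rintro P ⟨v, hv, rfl⟩
  exact hv

theorem dG_ne (u : K) (v : Gp k u) : dG k u v ≠ 0 := (deg_pos v.1).ne'

/-- The coefficients of the L-function. -/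
noncomputable def cL (ψ : AddChar k ℂ) (u : K) (m : ℕ) : ℂ :=
  ∑ D ∈ (Pool.Agent.H962R3.Cnt.eff_finite (dG k u) (dG_ne u) (fun n => fin_Gp (k := k) (K := K) u n) m).toFinset,
    Pool.Agent.H962R3.Cnt.Val (aG ψ u) D

/-- The L-function is a polynomial of bounded degree. -/
theorem cL_eq_zero (ψ : AddChar k ℂ) {u : K} (hu : u ≠ 0) {n : ℕ} (hn : ddeg (polar (k := k) u) = n) (hn0 : 0 < n)
    (hψ : ψ (n : k) ≠ 1) {γ N : ℤ} (hN : ∀ D : Place k K →₀ ℤ, N ≤ ddeg D → ell D = ddeg D - γ) {m : ℕ}
    (hm : N + (2 * n + 1) * n ≤ m) : cL ψ u m = 0 := by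
  classical
  set T := (polar (k := k) u).support with hT
  have hTne : T.Nonempty := by
    rw [Finset.nonempty_iff_ne_empty]
    intro h0
    rw [hT, Finsupp.support_eq_empty] at h0
    rw [h0, ddeg_zero] at hn
    omega
  have hBle : ∀ P : Place k K, - P.ord u ≤ n := by
    intro P
    have h1 := le_ddeg (polar_nonneg (k := k) u) P
    have h2 : (1 : ℤ) ≤ P.deg := by exact_mod_cast deg_pos P
    rw [hn, polar_apply] at h1
    have h3 : - P.ord u ≤ max (- P.ord u) 0 := le_max_left _ _
    have h4 : 0 ≤ max (- P.ord u) 0 := le_max_right _ _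
    nlinarith
  have hTdeg : ddeg (modE T (2 * n)) ≤ (2 * n + 1) * n := by
    have h1 := ddeg_support_le (polar_nonneg (k := k) u)
    rw [hn, ← hT] at h1
    have h2 : ddeg (modE T (2 * n)) = (2 * n + 1) * ∑ w ∈ T, (w.deg : ℤ) := by
      unfold ddeg
      rw [Finsupp.sum_of_support_subset (s := T), Finset.mul_sum]
      · refine Finset.sum_congr rfl fun w hw => ?_
        rw [modE_mem hw]; push_cast; ring
      · intro w hw
        by_contra hc
        rw [Finsupp.mem_support_iff] at hw
        exact hw (modE_notMem hc)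
      · intro w _; simp
    rw [h2]
    exact mul_le_mul_of_nonneg_left h1 (by positivity)
  have hpole : ∀ P : Place k K, P ∈ T ↔ P.ord u < 0 := fun P => mem_poles
  obtain ⟨c, hc0, hc⟩ := ray_count' T hTne (2 * n) hN
  have hray : ∀ h : ray T (2 * n), ∀ P : Place k K, P.ord u < 0 → divisor k ((h : Kˣ) : K) P = 0 := by
    intro h P hP
    exact ord_ray h.2 ((hpole P).2 hP)
  refine Pool.Agent.H962R3.Cnt.vanish (dG k u) (dG_ne u) (fun n => fin_Gp (k := k) (K := K) u n) (aG ψ u) ?_
    (H := ray T (2 * n)) (fun h => reG u (divisor k ((h : Kˣ) : K))) ?_ ?_ ?_ m (c m) (hc0 m).ne' ?_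
    (reG u (divisor k ((u - 1) / u))) ?_ ?_
  · intro v
    exact (AddChar.val_isUnit ψ _).ne_zero
  · intro h
    ext v
    rw [Finsupp.neg_apply, reG_apply, reG_apply]
    have : (((h⁻¹ : ray T (2 * n)) : Kˣ) : K) = ((h : Kˣ) : K)⁻¹ := by
      rw [Subgroup.coe_inv, Units.val_inv_eq_inv_val]
    rw [this, divisor_inv]; rfl
  · intro h
    rw [Val_eq, exG_reG u _ (hray h), rec_trace hu (h : Kˣ).ne_zero ?_ (by rw [hn]; exact_mod_cast hn0), AddChar.map_zero_eq_one]
    intro P hP
    rcases h.2 P ((hpole P).2 hP) with h1 | h1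
    · exact Or.inl h1
    · right
      have := hBle P
      push_cast at h1
      omega
  · intro h
    rw [Deg_eq, exG_reG u _ (hray h), ddeg_divisor]
  · intro D hD
    rw [Deg_eq] at hD
    have h1 := hc (exG u D) (fun x hx => exG_notin u D ((hpole x).1 hx)) (by rw [hD]; omega)
    rw [hD] at h1
    rw [← h1]
    apply Nat.card_congr
    refine Equiv.subtypeEquivRight fun h => ?_
    constructor
    · intro h2 P
      rcases lt_or_ge (P.ord u) 0 with hP | hP
      · rw [Finsupp.add_apply, exG_notin u D hP, hray h P hP]; simp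
      · have h3 := h2 ⟨P, hP⟩
        rw [Finsupp.add_apply, reG_apply, ← exG_apply u D] at h3
        exact h3
    · intro h2 v
      rw [Finsupp.add_apply, reG_apply, ← exG_apply u D]
      exact h2 v.1
  · rw [Deg_eq, exG_reG u, ddeg_divisor]
    intro P hP
    have hu1 : u - 1 ≠ 0 := by
      intro h
      rw [sub_eq_zero.1 h, P.ord_one] at hP
      omega
    have := P.ord_add_eq (f := u) (g := -1) hu (by simp) (by rw [P.ord_neg_one]; exact hP)
    rw [divisor_apply, P.ord_div hu1 hu, sub_eq_add_neg u 1, this.2, sub_self]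
  · rw [Val_eq, exG_reG u, tD_special hu (by rw [hn]; exact_mod_cast hn0), hn]
    · simpa using hψ
    intro P hP
    have hu1 : u - 1 ≠ 0 := by
      intro h
      rw [sub_eq_zero.1 h, P.ord_one] at hP
      omega
    have := P.ord_add_eq (f := u) (g := -1) hu (by simp) (by rw [P.ord_neg_one]; exact hP)
    rw [divisor_apply, P.ord_div hu1 hu, sub_eq_add_neg u 1, this.2, sub_self]

end

end Run7.h914
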